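import Pool.Agent.Lib.MP_216314_pr.CZ.Zf

/-!
# `Z = 0`: the induction
-/

set_option autoImplicit false

noncomputable section

namespace CZ

open Polynomial Multiset

theorem Gen.nodup {M : Multiset ℂ} (h : Gen M) : M.Nodup := Multiset.Nodup.of_map CC h.1

theorem Gen.inj {M : Multiset ℂ} (h : Gen M) {x y : ℂ} (hx : x ∈ M) (hy : y ∈ M) (hxy : CC x = CC y) : x = y :=
  Multiset.inj_on_of_nodup_map h.1 x hx y hy hxy

theorem card_Z3 {M : Multiset ℂ} (hM : Gen M) {w w' : ℂ → ℂ} (hw : ∀ a, Tri a (w a) (w' a)) :
    (M.toFinset.biUnion (fun i => ({i, w i, w' i} : Finset ℂ))).card = 3 * card M := by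
  have hC : ∀ i : ℂ, ∀ z ∈ ({i, w i, w' i} : Finset ℂ), CC z = CC i := by
    intro i z hz
    rw [Finset.mem_insert, Finset.mem_insert, Finset.mem_singleton] at hz
    rcases hz with h | h | h
    · rw [h]
    · rw [h]; exact (hw i).CC_eq.symm
    · rw [h]; exact (hw i).rot.rot.CC_eq
  rw [Finset.card_biUnion]
  · rw [Finset.sum_congr rfl (g := fun _ => 3), Finset.sum_const, Multiset.toFinset_card_of_nodup hM.nodup,
      smul_eq_mul, mul_comm]
    intro i hi
    rw [Multiset.mem_toFinset] at hi
    obtain ⟨h1, h2, h3⟩ := (hw i).ne_of_CC (hM.2 i hi).1 (hM.2 i hi).2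
    exact Finset.card_eq_three.mpr ⟨i, w i, w' i, h1, h2, h3, rfl⟩
  · intro x hx y hy hxy
    rw [Finset.mem_coe, Multiset.mem_toFinset] at hx hy
    refine Finset.disjoint_left.mpr ?_
    intro z hz1 hz2
    exact hxy (hM.inj hx hy ((hC x z hz1).symm.trans (hC y z hz2)))

theorem card_Z2 {M : Multiset ℂ} (hM : Gen M) {w w' : ℂ → ℂ} (hw : ∀ a, Tri a (w a) (w' a)) :
    (M.toFinset.biUnion (fun i => ({w i, w' i} : Finset ℂ))).card = 2 * card M := by
  have hC : ∀ i : ℂ, ∀ z ∈ ({w i, w' i} : Finset ℂ), CC z = CC i := by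
    intro i z hz
    rw [Finset.mem_insert, Finset.mem_singleton] at hz
    rcases hz with h | h
    · rw [h]; exact (hw i).CC_eq.symm
    · rw [h]; exact (hw i).rot.rot.CC_eq
  rw [Finset.card_biUnion]
  · rw [Finset.sum_congr rfl (g := fun _ => 2), Finset.sum_const, Multiset.toFinset_card_of_nodup hM.nodup,
      smul_eq_mul, mul_comm]
    intro i hi
    rw [Multiset.mem_toFinset] at hi
    obtain ⟨h1, h2, h3⟩ := (hw i).ne_of_CC (hM.2 i hi).1 (hM.2 i hi).2
    exact Finset.card_eq_two.mpr ⟨w i, w' i, h3, rfl⟩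
  · intro x hx y hy hxy
    rw [Finset.mem_coe, Multiset.mem_toFinset] at hx hy
    refine Finset.disjoint_left.mpr ?_
    intro z hz1 hz2
    exact hxy (hM.inj hx hy ((hC x z hz1).symm.trans (hC y z hz2)))

/-- `Z = 0` at generic points -/
theorem Z_zero_aux {S : Multiset ℂ → ℂ} (hS : SChar S) {τ Y Y' : ℂ} (hT : Tri τ Y Y') :
    ∀ (n k m : ℕ) (A B : Multiset ℂ), k + m = n → card A = 2 * k + 1 → card B = 2 * m + 1 →
      Gen A → Gen B → (∀ i ∈ A, CC τ ≠ CC i) → ZZ S A B τ Y = 0 := by
  choose w w' hw using exists_Tri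
  have hY : CC Y = CC τ := hT.CC_eq.symm
  intro n
  induction n with
  | zero =>
    intro k m A B hkm hA hB hGA0 hGB0 hGt
    have hk : k = 0 := by omega
    subst hk
    rw [Nat.mul_zero, Nat.zero_add, Multiset.card_eq_one] at hA
    obtain ⟨a, rfl⟩ := hA
    apply ZZ_single hS
    intro h
    exact hGt a (by simp) (by rw [h])
  | succ n ih =>
    intro k m A B hkm hA hB hGA0 hGB0 hGt
    rcases k with _ | k
    · rw [Nat.mul_zero, Nat.zero_add, Multiset.card_eq_one] at hA
      obtain ⟨a, rfl⟩ := hA
      apply ZZ_single hS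
      intro h
      exact hGt a (by simp) (by rw [h])
    by_cases hm : m < 2 * (k + 1)
    · -- a variable of `A`
      obtain ⟨a, ha⟩ := Multiset.card_pos_iff_exists_mem.mp (show 0 < card A by omega)
      obtain ⟨A', rfl⟩ := Multiset.exists_cons_of_mem ha
      rw [Multiset.card_cons] at hA
      have hcA : card A' = 2 * (k + 1) := by omega
      have hGA : Gen A' := hGA0.mono (Multiset.le_cons_self A' a)
      have hGτA : ∀ i ∈ A', CC τ ≠ CC i := fun i hi => hGt i (Multiset.mem_cons_of_mem hi)
      have haA : ∀ j ∈ A', a ≠ j := by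
        intro j hj h
        exact hGA0.ne_cons j hj (by rw [h])
      have haτ : a ≠ τ := by
        intro h
        exact hGt a (Multiset.mem_cons_self a A') (by rw [h])
      have hjτ : ∀ j ∈ A', j ≠ τ := by
        intro j hj h
        exact hGτA j hj (by rw [h])
      have hP := NA_IsP A' B τ Y hS hcA hB
      have hZ := hP.eq_zero (insert τ (A'.toFinset.biUnion (fun i => ({i, w i, w' i} : Finset ℂ)))) ?_ ?_ a
      · rw [NA_eq S A' B τ Y haA haτ] at hZ
        rcases mul_eq_zero.mp hZ with h | h
        · exfalso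
          rcases mul_eq_zero.mp h with h | h
          · exact haτ (by linear_combination h)
          · rw [Multiset.prod_eq_zero_iff, Multiset.mem_map] at h
            obtain ⟨j, hj, h2⟩ := h
            exact haA j hj (by linear_combination h2)
        · exact h
      · rw [Finset.card_insert_of_notMem, card_Z3 hGA hw, hcA]
        · omega
        · intro h
          rw [Finset.mem_biUnion] at h
          obtain ⟨i, hi, h2⟩ := h
          rw [Multiset.mem_toFinset] at hi
          apply hGτA i hi
          rw [Finset.mem_insert, Finset.mem_insert, Finset.mem_singleton] at h2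
          rcases h2 with h | h | h
          · rw [h]
          · rw [h]; exact (hw i).CC_eq.symm
          · rw [h]; exact (hw i).rot.rot.CC_eq
      · have key : ∀ i ∈ A', ∀ v v' : ℂ, Tri i v v' → NA S A' B τ Y v = 0 := by
          intro i hi v v' hv
          obtain ⟨n1, n2, n3⟩ := hv.ne_of_CC (hGA.2 i hi).1 (hGA.2 i hi).2
          have c1 : ∀ j ∈ A', v ≠ j := by
            intro j hj h
            have := hGA.inj hi hj (by rw [← h]; exact hv.CC_eq)
            exact n1 (this.trans h.symm)
          have c2 : v ≠ τ := by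
            intro h
            exact hGτA i hi (by rw [← h]; exact hv.CC_eq.symm)
          rw [NA_eq S A' B τ Y c1 c2]
          have e : ZZ S (v ::ₘ A') B τ Y = 0 := by
            rw [← Multiset.cons_erase hi, ZZ_fuseA hS (A'.erase i) B hv.sw hY]
            · rw [ih k m (A'.erase i) B (by omega) ?_ hB (hGA.mono (Multiset.erase_le i A')) hGB0
                (fun j hj => hGτA j (Multiset.mem_of_mem_erase hj)), mul_zero]
              rw [Multiset.card_erase_of_mem hi, hcA, Nat.pred_eq_sub_one]
              omega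
            · intro j hj
              refine ⟨fun h => c1 j (Multiset.mem_of_mem_erase hj) h.symm, fun h => ?_⟩
              subst h
              exact (Multiset.Nodup.notMem_erase hGA.nodup) hj
            · exact fun h => c2 h.symm
            · exact fun h => hjτ i hi h.symm
          rw [e, mul_zero]
        intro z hz
        rw [Finset.mem_insert, Finset.mem_biUnion] at hz
        rcases hz with hz | ⟨i, hi, hz⟩
        · rw [hz]
          exact NA_tau A' B τ Y hS hT hjτ
        · rw [Multiset.mem_toFinset] at hi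
          rw [Finset.mem_insert, Finset.mem_insert, Finset.mem_singleton] at hz
          rcases hz with h | h | h
          · rw [h]
            exact NA_mem A' B τ Y hi hGA.nodup hjτ
          · rw [h]
            exact key i hi _ _ (hw i)
          · rw [h]
            exact key i hi (w' i) (w i) ⟨by linear_combination (hw i).1, by linear_combination (hw i).2⟩
    · -- a variable of `B`
      rcases m with _ | m
      · omega
      obtain ⟨b, hb⟩ := Multiset.card_pos_iff_exists_mem.mp (show 0 < card B by omega)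
      obtain ⟨B', rfl⟩ := Multiset.exists_cons_of_mem hb
      rw [Multiset.card_cons] at hB
      have hcB : card B' = 2 * (m + 1) := by omega
      have hGB : Gen B' := hGB0.mono (Multiset.le_cons_self B' b)
      have hP := ZB_IsP A B' τ Y hS hA hcB
      refine hP.eq_zero (B'.toFinset.biUnion (fun i => ({w i, w' i} : Finset ℂ))) ?_ ?_ b
      · rw [card_Z2 hGB hw, hcB]
        omega
      · have key : ∀ i ∈ B', ∀ v v' : ℂ, Tri i v v' → ZZ S A (v ::ₘ B') τ Y = 0 := by
          intro i hi v v' hv
          rw [← Multiset.cons_erase hi, ZZ_fuseB hS A (B'.erase i) hv.sw,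
            ih (k + 1) m A (B'.erase i) (by omega) hA ?_ hGA0 (hGB.mono (Multiset.erase_le i B')) hGt, mul_zero]
          rw [Multiset.card_erase_of_mem hi, hcB, Nat.pred_eq_sub_one]
          omega
        intro z hz
        rw [Finset.mem_biUnion] at hz
        obtain ⟨i, hi, hz⟩ := hz
        rw [Multiset.mem_toFinset] at hi
        rw [Finset.mem_insert, Finset.mem_singleton] at hz
        rcases hz with h | h
        · rw [h]
          exact key i hi _ _ (hw i)
        · rw [h]
          exact key i hi (w' i) (w i) ⟨by linear_combination (hw i).1, by linear_combination (hw i).2⟩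

/-- THEOREM 1 of helper54, all variables generic -/
theorem Z_zero_gen {S : Multiset ℂ → ℂ} (hS : SChar S) {τ Y Y' : ℂ} (hT : Tri τ Y Y') {A B : Multiset ℂ}
    (hA : Odd (card A)) (hB : Odd (card B)) (hGA : Gen A) (hGB : Gen B) (hG : ∀ i ∈ A, CC τ ≠ CC i) :
    ZZ S A B τ Y = 0 := by
  obtain ⟨k, hk⟩ := hA
  obtain ⟨m, hm⟩ := hB
  exact Z_zero_aux hS hT _ k m A B rfl hk hm hGA hGB hG

/-- the numbers `v` with `Gen (v ::ₘ M)` are all but finitely many -/
theorem exists_gen (M : Multiset ℂ) (hM : Gen M) (n : ℕ) : ∃ Z : Finset ℂ, n < Z.card ∧ ∀ z ∈ Z, Gen (z ::ₘ M) := by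
  choose w w' hw using exists_Tri
  have hCC : ∀ a v : ℂ, CC v = CC a → v = a ∨ v = w a ∨ v = w' a := by
    intro a v h
    have h1 := (hw a).CC_sub v
    rw [h, sub_self] at h1
    rcases mul_eq_zero.mp h1 with h2 | h2
    · left; linear_combination h2
    · rcases mul_eq_zero.mp h2 with h3 | h3
      · right; left; linear_combination h3
      · right; right; linear_combination h3
  have hC2 : CC 2 = 2 := by unfold CC; norm_num
  have hCm : CC (-2) = -2 := by unfold CC; norm_num
  let F : Finset ℂ := ((2 : ℂ) ::ₘ (-2) ::ₘ M).toFinset.biUnion (fun i => ({i, w i, w' i} : Finset ℂ))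
  have hF : ∀ z : ℂ, z ∉ F → Gen (z ::ₘ M) := by
    intro z hz
    have h1 : ∀ a ∈ ((2 : ℂ) ::ₘ (-2) ::ₘ M), CC z ≠ CC a := by
      intro a ha h
      apply hz
      rw [Finset.mem_biUnion]
      refine ⟨a, Multiset.mem_toFinset.mpr ha, ?_⟩
      rw [Finset.mem_insert, Finset.mem_insert, Finset.mem_singleton]
      exact hCC a z h
    refine ⟨?_, ?_⟩
    · rw [Multiset.map_cons, Multiset.nodup_cons]
      refine ⟨?_, hM.1⟩
      intro h
      rw [Multiset.mem_map] at h
      obtain ⟨a, ha, h2⟩ := h
      exact h1 a (by simp [ha]) h2.symm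
    · intro x hx
      rw [Multiset.mem_cons] at hx
      rcases hx with hx | hx
      · rw [hx]
        refine ⟨?_, ?_⟩
        · have := h1 2 (by simp)
          rwa [hC2] at this
        · have := h1 (-2) (by simp)
          rwa [hCm] at this
      · exact hM.2 x hx
  obtain ⟨Z, hZ1, hZ2⟩ := Set.Infinite.exists_subset_card_eq (Set.Finite.infinite_compl F.finite_toSet) (n + 1)
  refine ⟨Z, by omega, fun z hz => hF z ?_⟩
  have h3 := hZ1 hz
  rw [Set.mem_compl_iff, Finset.mem_coe] at h3
  exact h3

/-- THEOREM 1 of helper54: `A` generic, `B` arbitrary -/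
theorem Z_zero {S : Multiset ℂ → ℂ} (hS : SChar S) {τ Y Y' : ℂ} (hT : Tri τ Y Y') {A B : Multiset ℂ}
    (hA : Odd (card A)) (hB : Odd (card B)) (hGA : Gen A) (hG : ∀ i ∈ A, CC τ ≠ CC i) :
    ZZ S A B τ Y = 0 := by
  have key : ∀ (B' C : Multiset ℂ), Odd (card (B' + C)) → Gen C → ZZ S A (B' + C) τ Y = 0 := by
    intro B'
    induction B' using Multiset.induction_on with
    | empty =>
      intro C hC hGC
      rw [Multiset.zero_add] at hC ⊢
      exact Z_zero_gen hS hT hA hC hGA hGC hG
    | cons b B' ih =>
      intro C hC hGC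
      rw [Multiset.cons_add, Multiset.card_cons] at hC
      obtain ⟨k, hk⟩ := hA
      obtain ⟨m, hm⟩ := hC
      have hP := ZB_IsP A (B' + C) τ Y hS hk (show card (B' + C) = 2 * m by omega)
      obtain ⟨Z, hZ1, hZ2⟩ := exists_gen C hGC (k + m + m)
      rw [Multiset.cons_add]
      refine hP.eq_zero Z hZ1 ?_ b
      intro z hz
      rw [← Multiset.add_cons]
      refine ih (z ::ₘ C) ?_ (hZ2 z hz)
      rw [Multiset.add_cons, Multiset.card_cons, hm]
      exact ⟨m, rfl⟩
  have h := key B 0 (by rwa [Multiset.add_zero]) ⟨by simp, by simp⟩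
  rwa [Multiset.add_zero] at h

end CZ
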