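import Pool.Agent.Lib.MP_216314_pr.CZ.SD
import Pool.Agent.Lib.MP_216314_pr.CZ.Zg
import Pool.Agent.Lib.MP_216314_pr.CF.Def

/-!
# The instance `CF.SC CZ.SS`, and `CF.SC` implies `SChar`
-/

set_option autoImplicit false

noncomputable section

namespace CZ

theorem SS_SC : CF.SC SS where
  zero := SS_zero
  one := fun a => SS_one a
  two := fun a b => SS_two a b
  fus := fun a b c s h1 h2 => SS_fus a b c s ⟨h1, by linear_combination h2⟩
  pol := fun s => by
    obtain ⟨p, h1, h2, h3⟩ := SS_pol s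
    exact ⟨p, h1, fun _ => h2, h3⟩

/-- there is a function with all the properties, equal to `chr` at distinct points -/
theorem exists_SC : ∃ S : Multiset ℂ → ℂ, CF.SC S ∧ ∀ (L : ℕ) (y : ℕ → ℂ), PX.Dist L y →
    PX.chr L y = S ((Multiset.range L).map fun i => PX.XX (y i)) :=
  ⟨SS, SS_SC, fun _ _ h => chr_eq_SS h⟩

theorem SChar_of_SC {S : Multiset ℂ → ℂ} (h : CF.SC S) : SChar S where
  zero := h.zero
  two := fun a b => h.two a b
  fus := fun a b c R hT => h.fus a b c R hT.1 (by linear_combination hT.2)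
  poly := fun R => by
    obtain ⟨p, h1, _, h3⟩ := h.pol R
    exact ⟨p, h1, h3⟩

end CZ
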