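import Pool.Agent.Lib.MP_216314_pr.CZ.Rw
import Pool.Agent.Lib.MP_216314_pr.CZ.Inst

/-!
# The limit of `FU` at the homogeneous point
-/

set_option autoImplicit false

noncomputable section

namespace CZ

open Filter Topology

theorem FU_eq_VB (S : Multiset ℂ → ℂ) (A : Finset ℂ) (B : Multiset ℂ) (x Y : ℂ) :
    CF.FU S A B x Y = VB S A.val B x Y := by
  unfold CF.FU VB CF.Wa
  show (A.val.map _).sum = _
  refine congrArg Multiset.sum (Multiset.map_congr rfl (fun a _ => ?_))
  rw [← Finset.erase_val]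
  rfl

theorem CC_XX {y : ℂ} (hy : y ≠ 0) : CC (PX.XX y) = PX.XX (y ^ 3) := by
  unfold CC PX.XX
  have h : y * y⁻¹ = 1 := mul_inv_cancel₀ hy
  rw [← inv_pow]
  linear_combination (3 * y + 3 * y⁻¹) * h

theorem gen_of {k L : ℕ} {y : ℕ → ℂ} (h : CF.GT k L y) (hk : k ≤ L) :
    Gen ((Multiset.range k).map fun i => PX.XX (y i)) ∧
      (CF.Al k y).val = (Multiset.range k).map fun i => PX.XX (y i) := by
  obtain ⟨h0, h1, h2⟩ := h
  have hne : ∀ i, i < k → y i ≠ 0 := fun i hi => h0 i (by omega)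
  have hinj : ∀ i j, i < k → j < k → CC (PX.XX (y i)) = CC (PX.XX (y j)) → i = j := by
    intro i j hi hj hij
    by_contra hne'
    rw [CC_XX (hne i hi), CC_XX (hne j hj), PX.XX_eq_iff (pow_ne_zero 3 (hne i hi)) (pow_ne_zero 3 (hne j hj))] at hij
    have h3 := h2 i j (by omega) (by omega) (by omega) (by omega) hne'
    rcases hij with h4 | h4
    · exact h3.1 h4
    · exact h3.2 h4
  refine ⟨⟨?_, ?_⟩, ?_⟩
  · rw [Multiset.map_map]
    refine (Multiset.nodup_map_iff_inj_on (Multiset.nodup_range k)).mpr ?_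
    intro i hi j hj hij
    rw [Multiset.mem_range] at hi hj
    exact hinj i j hi hj hij
  · intro x hx
    rw [Multiset.mem_map] at hx
    obtain ⟨i, hi, rfl⟩ := hx
    rw [Multiset.mem_range] at hi
    have h6 := h1 i (by omega) (by omega)
    rw [CC_XX (hne i hi)]
    refine ⟨fun h => h6 ?_, fun h => h6 ?_⟩
    · have e : PX.XX (y i ^ 3) = PX.XX 1 := by
        rw [h]
        unfold PX.XX
        norm_num
      rw [PX.XX_eq_iff (pow_ne_zero 3 (hne i hi)) one_ne_zero] at e
      have e3 : y i ^ 3 = 1 := by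
        rcases e with e | e
        · exact e
        · rwa [mul_one] at e
      linear_combination (y i ^ 3 + 1) * e3
    · have e : PX.XX (y i ^ 3) = PX.XX (-1) := by
        rw [h]
        unfold PX.XX
        norm_num
      rw [PX.XX_eq_iff (pow_ne_zero 3 (hne i hi)) (by norm_num)] at e
      have e3 : y i ^ 3 = -1 := by
        rcases e with e | e
        · exact e
        · linear_combination -e
      linear_combination (y i ^ 3 - 1) * e3
  · unfold CF.Al
    rw [Finset.image_val_of_injOn]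
    · rfl
    · intro i hi j hj hij
      rw [Finset.mem_coe, Finset.mem_range] at hi hj
      have hij' : PX.XX (y i) = PX.XX (y j) := hij
      exact hinj i j hi hj (by rw [hij'])

/-- the points -/
def rr (k n : ℕ) (t : ℝ) (i : ℕ) : ℝ :=
  if i = k then 1 else if i < k then 1 + ((i : ℝ) + 1) / ((n : ℝ) + 1) else 1 + t * ((i : ℝ) + 1)

def yy (k n : ℕ) (t : ℝ) (i : ℕ) : ℂ := (rr k n t i : ℂ)

theorem rr_gt {k n : ℕ} {t : ℝ} (ht : 0 < t) {i : ℕ} (hi : i ≠ k) : 1 < rr k n t i := by
  unfold rr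
  rw [if_neg hi]
  split_ifs with h
  · have : 0 < ((i : ℝ) + 1) / ((n : ℝ) + 1) := by positivity
    linarith
  · have : 0 < t * ((i : ℝ) + 1) := by positivity
    linarith

theorem rr_lt {k n L : ℕ} {t : ℝ} (ht : 0 < t) (htn : t * (L : ℝ) * ((n : ℝ) + 1) < 1) {i j : ℕ} (hi : i < k)
    (hj : k < j) (hjL : j < L) : rr k n t j < rr k n t i := by
  unfold rr
  rw [if_neg (by omega), if_neg (by omega), if_neg (by omega), if_pos hi]
  have hn : (0 : ℝ) < (n : ℝ) + 1 := by positivity
  have h1 : t * ((j : ℝ) + 1) < 1 / ((n : ℝ) + 1) := by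
    rw [lt_div_iff₀ hn]
    have h2 : t * ((j : ℝ) + 1) ≤ t * (L : ℝ) := by
      apply mul_le_mul_of_nonneg_left _ ht.le
      exact_mod_cast hjL
    nlinarith
  have h2 : 1 / ((n : ℝ) + 1) ≤ ((i : ℝ) + 1) / ((n : ℝ) + 1) := by
    apply div_le_div_of_nonneg_right _ hn.le
    have : (0 : ℝ) ≤ i := Nat.cast_nonneg i
    linarith
  linarith

theorem rr_ne {k n L : ℕ} {t : ℝ} (ht : 0 < t) (htn : t * (L : ℝ) * ((n : ℝ) + 1) < 1) {i j : ℕ} (hi : i ≠ k)
    (hj : j ≠ k) (hiL : i < L) (hjL : j < L) (hij : i ≠ j) : rr k n t i ≠ rr k n t j := by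
  rcases lt_or_gt_of_ne hi with h1 | h1
  · rcases lt_or_gt_of_ne hj with h2 | h2
    · unfold rr
      rw [if_neg hi, if_neg hj, if_pos h1, if_pos h2]
      intro h
      have hn : ((n : ℝ) + 1) ≠ 0 := by positivity
      have h3 : ((i : ℝ) + 1) / ((n : ℝ) + 1) = ((j : ℝ) + 1) / ((n : ℝ) + 1) := by linarith
      rw [div_left_inj' hn] at h3
      apply hij
      exact_mod_cast (add_right_cancel h3)
    · exact (rr_lt ht htn h1 h2 hjL).ne'
  · rcases lt_or_gt_of_ne hj with h2 | h2
    · exact (rr_lt ht htn h2 h1 hiL).ne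
    · unfold rr
      rw [if_neg hi, if_neg hj, if_neg (by omega), if_neg (by omega)]
      intro h
      have h3 : t * ((i : ℝ) + 1) = t * ((j : ℝ) + 1) := by linarith
      have h4 := mul_left_cancel₀ ht.ne' h3
      apply hij
      exact_mod_cast (add_right_cancel h4)

theorem yy_GT {k n L : ℕ} {t : ℝ} (ht : 0 < t) (htn : t * (L : ℝ) * ((n : ℝ) + 1) < 1) : CF.GT k L (yy k n t) := by
  have hpos : ∀ i, 0 < rr k n t i := by
    intro i
    by_cases hi : i = k
    · unfold rr
      rw [if_pos hi]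
      exact one_pos
    · exact lt_trans one_pos (rr_gt ht hi)
  refine ⟨fun i _ => ?_, fun i hi _ h => ?_, fun i j hi hiL hj hjL hij => ⟨fun h => ?_, fun h => ?_⟩⟩
  · unfold yy
    exact Complex.ofReal_ne_zero.mpr (hpos i).ne'
  · unfold yy at h
    have h1 : rr k n t i ^ 6 = 1 := by exact_mod_cast h
    have h2 : 1 < rr k n t i ^ 6 := one_lt_pow₀ (rr_gt ht hi) (by norm_num)
    linarith
  · unfold yy at h
    have h1 : rr k n t i ^ 3 = rr k n t j ^ 3 := by exact_mod_cast h
    exact rr_ne ht htn hi hj hiL hjL hij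
      ((pow_left_inj₀ (hpos i).le (hpos j).le (by norm_num)).mp h1)
  · unfold yy at h
    have h1 : rr k n t i ^ 3 * rr k n t j ^ 3 = 1 := by exact_mod_cast h
    have h2 : 1 < rr k n t i ^ 3 := one_lt_pow₀ (rr_gt ht hi) (by norm_num)
    have h3 : 1 < rr k n t j ^ 3 := one_lt_pow₀ (rr_gt ht hj) (by norm_num)
    nlinarith

theorem XX_cont {α : Type} {l : Filter α} {f : α → ℂ} {c : ℂ} (hc : c ≠ 0) (hf : Tendsto f l (𝓝 c)) :
    Tendsto (fun e => PX.XX (f e)) l (𝓝 (PX.XX c)) := by
  unfold PX.XX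
  exact hf.add (hf.inv₀ hc)

theorem XX_one : PX.XX 1 = 2 := by
  unfold PX.XX
  norm_num

/-- continuity in `B` -/
theorem VB_contB {S : Multiset ℂ → ℂ} (hS : SChar S) (A : Multiset ℂ) (x Y : ℂ) {ι : Type} (l : Filter ι)
    (M : Multiset (ι → ℂ)) (hlim : ∀ f ∈ M, Tendsto f l (𝓝 2)) :
    Tendsto (fun e => VB S A (M.map (fun f => f e)) x Y) l (𝓝 (VB S A (Multiset.replicate (Multiset.card M) 2) x Y)) := by
  have h : ∀ T : Multiset ℂ, Tendsto (fun e => (T.map (fun j => (j - Y) * ((A.erase j).map (fun i => TT j i / (j - i))).prod *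
    S (x ::ₘ (A.erase j + M.map (fun f => f e))) * S (j ::ₘ M.map (fun f => f e)) * S (A.erase j))).sum) l
      (𝓝 (T.map (fun j => (j - Y) * ((A.erase j).map (fun i => TT j i / (j - i))).prod *
    S (x ::ₘ (A.erase j + Multiset.replicate (Multiset.card M) 2)) * S (j ::ₘ Multiset.replicate (Multiset.card M) 2) *
      S (A.erase j))).sum) := by
    intro T
    induction T using Multiset.induction_on with
    | empty =>
      simp only [Multiset.map_zero, Multiset.sum_zero]
      exact tendsto_const_nhds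
    | cons j T ih =>
      simp only [Multiset.map_cons, Multiset.sum_cons]
      refine Tendsto.add ?_ ih
      refine Tendsto.mul (Tendsto.mul (Tendsto.mul tendsto_const_nhds ?_) ?_) tendsto_const_nhds
      · have h := hS.tendsto' l M 2 hlim (x ::ₘ A.erase j)
        simp only [Multiset.cons_add] at h
        exact h
      · have h := hS.tendsto' l M 2 hlim (j ::ₘ 0)
        simp only [Multiset.cons_add, Multiset.zero_add] at h
        exact h
  exact h A

/-- TARGET of helper77 (with `L4S` as a hypothesis) -/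
theorem lim_of {S : Multiset ℂ → ℂ} (hS : SChar S) (h4 : L4S S) {k m : ℕ} (hk : Odd k) (hm : Odd m) :
    ∃ y : ℕ → ℕ → ℂ, (∀ n, CF.GT k (k + m + 1) (y n)) ∧ (∀ n, y n k = 1) ∧
      (∀ i, Tendsto (fun n => y n i) atTop (𝓝 1)) ∧
      Tendsto (fun n => CF.FU S (CF.Al k (y n)) (CF.Br k m (y n)) 2 (-1)) atTop
        (𝓝 ((CDH.FF k m : ℂ) * S (Multiset.replicate k 2) * S (Multiset.replicate m 2) *
          S (Multiset.replicate (k + m + 1) 2))) := by
  let LL : ℕ := k + m + 1
  -- the left group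
  let An : ℕ → Multiset ℂ := fun n => (Multiset.range k).map fun i => PX.XX (yy k n 1 i)
  have hAn : ∀ (n : ℕ) (t : ℝ), (Multiset.range k).map (fun i => PX.XX (yy k n t i)) = An n := by
    intro n t
    refine Multiset.map_congr rfl fun i hi => ?_
    rw [Multiset.mem_range] at hi
    have hne : i ≠ k := by omega
    unfold yy rr
    rw [if_neg hne, if_neg hne, if_pos hi, if_pos hi]
  have hLpos : (0 : ℝ) < (LL : ℝ) := by
    show (0 : ℝ) < ((k + m + 1 : ℕ) : ℝ)
    positivity
  have hsmall : ∀ n : ℕ, ∀ᶠ t in 𝓝[>] (0 : ℝ), t * (LL : ℝ) * ((n : ℝ) + 1) < 1 := by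
    intro n
    have h1 : Tendsto (fun t : ℝ => t * (LL : ℝ) * ((n : ℝ) + 1)) (𝓝[>] (0 : ℝ)) (𝓝 (0 * (LL : ℝ) * ((n : ℝ) + 1))) := by
      apply Tendsto.mono_left _ nhdsWithin_le_nhds
      exact ((continuous_id.mul continuous_const).mul continuous_const).tendsto 0
    rw [zero_mul, zero_mul] at h1
    exact h1.eventually_lt_const one_pos
  have hpos : ∀ᶠ t in 𝓝[>] (0 : ℝ), 0 < t := self_mem_nhdsWithin
  -- the limit in A
  have hA : Tendsto (fun n => VB S (An n) (Multiset.replicate m 2) 2 (-1)) atTop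
        (𝓝 ((CDH.FF k m : ℂ) * S (Multiset.replicate k 2) * S (Multiset.replicate m 2) *
          S (Multiset.replicate (k + m + 1) 2))) := by
    let MA : Multiset (ℕ → ℂ) := (Multiset.range k).map fun i => fun n => PX.XX (yy k n 1 i)
    have e : ∀ n, MA.map (fun f => f n) = An n := by
      intro n
      show Multiset.map _ (Multiset.map _ _) = _
      rw [Multiset.map_map]
      rfl
    have h := VB_hom hS h4 hk hm atTop MA (by
      show Multiset.card (Multiset.map _ _) = k
      rw [Multiset.card_map, Multiset.card_range]) ?_ ?_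
    · simp only [e] at h
      exact h
    · intro f hf
      have hf' : f ∈ (Multiset.range k).map fun i => fun n => PX.XX (yy k n 1 i) := hf
      rw [Multiset.mem_map] at hf'
      obtain ⟨i, hi, rfl⟩ := hf'
      rw [Multiset.mem_range] at hi
      rw [← XX_one]
      apply XX_cont one_ne_zero
      have e1 : ∀ n : ℕ, yy k n 1 i = (((1 : ℝ) + ((i : ℝ) + 1) * (1 / ((n : ℝ) + 1)) : ℝ) : ℂ) := by
        intro n
        unfold yy rr
        rw [if_neg (by omega), if_pos hi, mul_one_div]
      simp only [e1]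
      have h1 : Tendsto (fun n : ℕ => (1 : ℝ) + ((i : ℝ) + 1) * (1 / ((n : ℝ) + 1))) atTop
          (𝓝 (1 + ((i : ℝ) + 1) * 0)) :=
        tendsto_const_nhds.add (tendsto_const_nhds.mul tendsto_one_div_add_atTop_nhds_zero_nat)
      rw [mul_zero, add_zero] at h1
      have h2 := (Complex.continuous_ofReal.tendsto 1).comp h1
      rw [Complex.ofReal_one] at h2
      exact h2
    · refine Filter.Eventually.of_forall fun n => ?_
      rw [e]
      obtain ⟨t, ht1, ht2⟩ := (hpos.and (hsmall n)).exists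
      rw [← hAn n t]
      exact (gen_of (yy_GT (L := LL) ht1 ht2) (by show k ≤ k + m + 1; omega)).1
  -- the limit in B
  have hB : ∀ n : ℕ, Tendsto (fun t : ℝ => VB S (An n) (CF.Br k m (yy k n t)) 2 (-1)) (𝓝[>] (0 : ℝ))
      (𝓝 (VB S (An n) (Multiset.replicate m 2) 2 (-1))) := by
    intro n
    let MB : Multiset (ℝ → ℂ) := (Multiset.range m).map fun i => fun t => PX.XX (yy k n t (i + (k + 1)))
    have e : ∀ t, MB.map (fun f => f t) = CF.Br k m (yy k n t) := by
      intro t
      show Multiset.map _ (Multiset.map _ _) = _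
      rw [Multiset.map_map]
      rfl
    have hc : Multiset.card MB = m := by
      show Multiset.card (Multiset.map _ _) = m
      rw [Multiset.card_map, Multiset.card_range]
    have h := VB_contB hS (An n) 2 (-1) (𝓝[>] (0 : ℝ)) MB ?_
    · rw [hc] at h
      simp only [e] at h
      exact h
    · intro f hf
      have hf' : f ∈ (Multiset.range m).map fun i => fun t => PX.XX (yy k n t (i + (k + 1))) := hf
      rw [Multiset.mem_map] at hf'
      obtain ⟨i, _, rfl⟩ := hf'
      rw [← XX_one]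
      apply XX_cont one_ne_zero
      have e1 : ∀ t : ℝ, yy k n t (i + (k + 1)) = ((1 + t * (((i + (k + 1) : ℕ) : ℝ) + 1) : ℝ) : ℂ) := by
        intro t
        unfold yy rr
        rw [if_neg (by omega), if_neg (by omega)]
      simp only [e1]
      have h1 : Tendsto (fun t : ℝ => ((1 + t * (((i + (k + 1) : ℕ) : ℝ) + 1) : ℝ) : ℂ)) (𝓝[>] (0 : ℝ))
          (𝓝 ((1 + 0 * (((i + (k + 1) : ℕ) : ℝ) + 1) : ℝ) : ℂ)) := by
        apply Tendsto.mono_left _ nhdsWithin_le_nhds
        exact (Complex.continuous_ofReal.comp (continuous_const.add (continuous_id.mul continuous_const))).tendsto 0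
      rw [zero_mul, add_zero, Complex.ofReal_one] at h1
      exact h1
  -- the choice of t
  have hch : ∀ n : ℕ, ∃ t : ℝ, 0 < t ∧ t * (LL : ℝ) * ((n : ℝ) + 1) < 1 ∧
      dist (VB S (An n) (CF.Br k m (yy k n t)) 2 (-1)) (VB S (An n) (Multiset.replicate m 2) 2 (-1)) <
        1 / ((n : ℝ) + 1) := by
    intro n
    have h1 : (0 : ℝ) < 1 / ((n : ℝ) + 1) := by positivity
    have h2 := (Metric.tendsto_nhds.mp (hB n)) _ h1
    obtain ⟨t, ht1, ht2, ht3⟩ := (hpos.and ((hsmall n).and h2)).exists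
    exact ⟨t, ht1, ht2, ht3⟩
  choose t ht1 ht2 ht3 using hch
  refine ⟨fun n => yy k n (t n), fun n => yy_GT (ht1 n) (ht2 n), fun n => ?_, fun i => ?_, ?_⟩
  · show yy k n (t n) k = 1
    unfold yy rr
    rw [if_pos rfl, Complex.ofReal_one]
  · have h0 : Tendsto (fun n : ℕ => 1 / ((n : ℝ) + 1)) atTop (𝓝 0) := tendsto_one_div_add_atTop_nhds_zero_nat
    have ht : Tendsto t atTop (𝓝 0) := by
      refine squeeze_zero (fun n => (ht1 n).le) (fun n => ?_) h0
      have hn : (0 : ℝ) < (n : ℝ) + 1 := by positivity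
      rw [le_div_iff₀ hn]
      have hL1 : (1 : ℝ) ≤ (LL : ℝ) := by
        show (1 : ℝ) ≤ ((k + m + 1 : ℕ) : ℝ)
        exact_mod_cast (by omega : 1 ≤ k + m + 1)
      have h1 := ht1 n
      have h2 := ht2 n
      have h3 : t n ≤ t n * (LL : ℝ) := by nlinarith
      nlinarith
    by_cases hi : i = k
    · have e1 : ∀ n : ℕ, yy k n (t n) i = 1 := by
        intro n
        unfold yy rr
        rw [if_pos hi, Complex.ofReal_one]
      simp only [e1]
      exact tendsto_const_nhds
    · by_cases hik : i < k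
      · have e1 : ∀ n : ℕ, yy k n (t n) i = (((1 : ℝ) + ((i : ℝ) + 1) * (1 / ((n : ℝ) + 1)) : ℝ) : ℂ) := by
          intro n
          unfold yy rr
          rw [if_neg hi, if_pos hik, mul_one_div]
        simp only [e1]
        have h1 : Tendsto (fun n : ℕ => (1 : ℝ) + ((i : ℝ) + 1) * (1 / ((n : ℝ) + 1))) atTop
            (𝓝 (1 + ((i : ℝ) + 1) * 0)) :=
          tendsto_const_nhds.add (tendsto_const_nhds.mul h0)
        rw [mul_zero, add_zero] at h1
        have h2 := (Complex.continuous_ofReal.tendsto 1).comp h1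
        rw [Complex.ofReal_one] at h2
        exact h2
      · have e1 : ∀ n : ℕ, yy k n (t n) i = ((1 + t n * ((i : ℝ) + 1) : ℝ) : ℂ) := by
          intro n
          unfold yy rr
          rw [if_neg hi, if_neg hik]
        simp only [e1]
        have h1 : Tendsto (fun n : ℕ => (1 : ℝ) + t n * ((i : ℝ) + 1)) atTop (𝓝 (1 + 0 * ((i : ℝ) + 1))) :=
          tendsto_const_nhds.add (ht.mul tendsto_const_nhds)
        rw [zero_mul, add_zero] at h1
        have h2 := (Complex.continuous_ofReal.tendsto 1).comp h1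
        rw [Complex.ofReal_one] at h2
        exact h2
  · have e : ∀ n, CF.FU S (CF.Al k (yy k n (t n))) (CF.Br k m (yy k n (t n))) 2 (-1) =
        VB S (An n) (CF.Br k m (yy k n (t n))) 2 (-1) := by
      intro n
      rw [FU_eq_VB, (gen_of (yy_GT (L := LL) (ht1 n) (ht2 n)) (by show k ≤ k + m + 1; omega)).2, hAn]
    simp only [e]
    have h0 : Tendsto (fun n : ℕ => 1 / ((n : ℝ) + 1)) atTop (𝓝 0) := tendsto_one_div_add_atTop_nhds_zero_nat
    have h1 : Tendsto (fun n => VB S (An n) (CF.Br k m (yy k n (t n))) 2 (-1) -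
        VB S (An n) (Multiset.replicate m 2) 2 (-1)) atTop (𝓝 0) := by
      rw [tendsto_zero_iff_norm_tendsto_zero]
      refine squeeze_zero (fun n => norm_nonneg _) (fun n => ?_) h0
      rw [← dist_eq_norm]
      exact (ht3 n).le
    have h2 := h1.add hA
    rw [zero_add] at h2
    refine Tendsto.congr (fun n => ?_) h2
    ring

/-- continuity of the characters along the points -/
theorem SS_cont {S : Multiset ℂ → ℂ} (hS : SChar S) {y : ℕ → ℕ → ℂ} (h : ∀ i, Tendsto (fun n => y n i) atTop (𝓝 1))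
    (L : ℕ) : Tendsto (fun n => S ((Multiset.range L).map fun i => PX.XX (y n i))) atTop
      (𝓝 (S (Multiset.replicate L 2))) := by
  have h1 := hS.tendsto' atTop ((Multiset.range L).map fun i => fun n => PX.XX (y n i)) 2 (by
    intro f hf
    rw [Multiset.mem_map] at hf
    obtain ⟨i, _, rfl⟩ := hf
    rw [← XX_one]
    exact XX_cont one_ne_zero (h i)) 0
  simp only [Multiset.zero_add, Multiset.map_map, Function.comp_apply, Multiset.card_map, Multiset.card_range] at h1
  exact h1

end CZ
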