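import Pool.Agent.Lib.MP_216314_pr.CZ.Lf
import Pool.Agent.Lib.MP_216314_pr.CZ.Lim

/-!
# The homogeneous limit: final statements
-/

set_option autoImplicit false

noncomputable section

namespace CZ

open Filter Topology

/-- the values at the homogeneous point do not vanish -/
theorem SS_ne (n : ℕ) : SS (Multiset.replicate n 2) ≠ 0 := by
  induction n with
  | zero =>
    rw [Multiset.replicate_zero, SS_zero]
    exact one_ne_zero
  | succ n ih =>
    intro h0
    obtain ⟨c, hcn, hc⟩ := Lf_exp n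
    obtain ⟨p, _, _, hp⟩ := SS_pol (Multiset.replicate n 2)
    have h1 : p.eval 2 = 0 := by
      rw [← hp 2, ← Multiset.replicate_succ]
      exact h0
    obtain ⟨g, hg⟩ := Polynomial.dvd_iff_isRoot.mpr h1
    have h2 := Ph_exp hp hc (z := 1) (by norm_num)
    have h3 : PowerSeries.X ^ (2 * (n + 1)) ∣ ∑ j ∈ Finset.range (n + 1), PowerSeries.C (c j) * Yz 1 j := by
      rw [← h2, hg, map_mul, map_sub, Polynomial.aeval_X, Polynomial.aeval_C, PowerSeries.algebraMap_apply,
        Algebra.algebraMap_self_apply, CDH.C2, wz_one, xh_sub, ← X_mul_q1]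
      have e : sz 1 * ((PowerSeries.X * q1) ^ 2) ^ n * ((PowerSeries.X * q1) ^ 2 * Polynomial.aeval xh g) =
          PowerSeries.X ^ (2 * (n + 1)) * (sz 1 * q1 ^ (2 * (n + 1)) * Polynomial.aeval xh g) := by
        rw [← pow_mul, mul_pow, mul_pow, mul_add, mul_one, pow_add, pow_add]
        ring
      rw [e]
      exact dvd_mul_right _ _
    have h4 := Yz_unique h3 n (Nat.lt_succ_self n)
    rw [hcn] at h4
    exact ih h4

/-- the target of helper77 -/
theorem lim {k m : ℕ} (hk : Odd k) (hm : Odd m) :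
    ∃ y : ℕ → ℕ → ℂ, (∀ n, CF.GT k (k + m + 1) (y n)) ∧ (∀ n, y n k = 1) ∧
      (∀ i, Tendsto (fun n => y n i) atTop (𝓝 1)) ∧
      Tendsto (fun n => CF.FU SS (CF.Al k (y n)) (CF.Br k m (y n)) 2 (-1)) atTop
        (𝓝 ((CDH.FF k m : ℂ) * SS (Multiset.replicate k 2) * SS (Multiset.replicate m 2) *
          SS (Multiset.replicate (k + m + 1) 2))) :=
  lim_of SS_char SS_L4 hk hm

end CZ
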