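import Pool.Agent.Lib.MP_216314_pr.CZ.Fk

/-!
# The hypotheses on the pairing, and the normalised symmetrised pairing
-/

set_option autoImplicit false

noncomputable section

namespace CZ

open Polynomial

/-- the sixth root of unity of the normalisation -/
def ka (c n : ℕ) : ℂ := PX.om ^ (2 * n) * (-PX.om ^ 2) ^ ((c - 1) / 2) * (-PX.om) ^ (n * (n - 1) / 2)

/-- the facts about the pairing `V` of the upper strip with the left strip (arguments `0, ..., c - 1`) and the cylinder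
(arguments `c, ..., c + 2 n - 1`) -/
structure VFacts (V : ℕ → ℕ → (ℕ → ℂ) → ℂ) : Prop where
  loc : ∀ (c n : ℕ) (y y' : ℕ → ℂ), (∀ i, i < c + 2 * n → y i = y' i) → V c n y = V c n y'
  lau : ∀ c n, PX.Lau (c + 2 * n) (V c n)
  sw : ∀ (c n i : ℕ) (y : ℕ → ℂ), Odd c → PX.NZ (c + 2 * n) y → (i + 1 < c ∨ (c ≤ i ∧ i + 1 < c + 2 * n)) →
    V c n (PX.sw i y) = V c n y
  iv : ∀ (c n i : ℕ) (y : ℕ → ℂ), Odd c → PX.NZ (c + 2 * n) y → i < c → V c n (PX.iv i y) = V c n y
  zero : ∀ y : ℕ → ℂ, V 1 0 y = 1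
  fusA : ∀ (c n : ℕ) (u : ℂ) (w : ℕ → ℂ), Odd c → u ≠ 0 → PX.NZ (c + 2 * n) w →
    V (c + 2) n (PX.ip 0 u w) = -PX.om ^ 2 * PX.Kf (c + 2 * n) u w * PX.Kf c u w * V c n w
  fusB : ∀ (c n : ℕ) (u : ℂ) (w : ℕ → ℂ), Odd c → u ≠ 0 → PX.NZ (c + 2 * n) w →
    V c (n + 1) (PX.ip c u w) = (-PX.om) ^ n * u⁻¹ * PX.Kf (c + 2 * n) u w *
      (∏ k ∈ Finset.range (2 * n), ((w (k + c))⁻¹ - PX.om * u⁻¹)) * V c n w
  polA : ∀ (k n : ℕ) (y : ℕ → ℂ), PX.Gen (2 * k + 2 * n) (CF.sh 1 y) → ∃ p : ℂ[X], p.natDegree ≤ 2 * (2 * k + n) ∧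
    p.coeff (2 * (2 * k + n)) = ka (2 * k + 1) n * SS (XA (2 * k) (CF.sh 1 y)) * SS (XA (2 * k + 2 * n) (CF.sh 1 y)) *
      MS yb' ((ZB (2 * k) n (CF.sh 1 y)).map (fun b => b⁻¹)) ∧
    ∀ t : ℂ, t ≠ 0 → t ^ (2 * k + n) * V (2 * k + 1) n (Function.update y 0 t) = p.eval t
  polB : ∀ (k n : ℕ) (y : ℕ → ℂ), PX.Gen (2 * k + 2 * n + 2) y → ∃ p : ℂ[X], p.natDegree ≤ 2 * k + 3 * n + 2 ∧
    p.coeff (2 * k + 3 * n + 2) = -PX.om ^ 2 * ka (2 * k + 1) (n + 1) * SS (XA (2 * k + 2 * n + 2) y) *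
      SS (XA (2 * k + 1) y) * MS yb' (0 ::ₘ (Multiset.range (2 * n + 1)).map (fun i => (y (i + (2 * k + 1)))⁻¹)) ∧
    ∀ t : ℂ, t ≠ 0 → t ^ (k + 2 * n + 1) * V (2 * k + 1) (n + 1) (Function.update y (2 * k + 2 * n + 2) t) = p.eval t

/-- inversion of the variables of the cylinder -/
def ibv (c : ℕ) (y : ℕ → ℂ) : ℕ → ℂ := fun i => if i < c then y i else (y i)⁻¹

/-- product of the variables of the cylinder -/
def Pb (c n : ℕ) (y : ℕ → ℂ) : ℂ := ∏ k ∈ Finset.range (2 * n), y (k + c)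

/-- the normalised symmetrised pairing -/
def Nv (V : ℕ → ℕ → (ℕ → ℂ) → ℂ) (c n : ℕ) (y : ℕ → ℂ) : ℂ :=
  ((ka c n)⁻¹ * (Pb c n y ^ n * V c n y + V c n (ibv c y)) -
    (1 + PX.om) * (SS (XA (c + 2 * n) y) * SS (XA c y) * MS yb' (ZB c n y))) / (1 - PX.om)

theorem ka_ne (c n : ℕ) : ka c n ≠ 0 := by
  unfold ka
  have h := PX.om_ne_zero
  exact mul_ne_zero (mul_ne_zero (pow_ne_zero _ h) (pow_ne_zero _ (neg_ne_zero.mpr (pow_ne_zero _ h))))
    (pow_ne_zero _ (neg_ne_zero.mpr h))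

theorem ka_A {c : ℕ} (hc : Odd c) (n : ℕ) : ka (c + 2) n = -PX.om ^ 2 * ka c n := by
  obtain ⟨k, rfl⟩ := hc
  unfold ka
  have h1 : (2 * k + 1 + 2 - 1) / 2 = k + 1 := by omega
  have h2 : (2 * k + 1 - 1) / 2 = k := by omega
  rw [h1, h2, pow_succ]
  ring

theorem ka_B (c n : ℕ) : ka c (n + 1) = PX.om ^ 2 * (-PX.om) ^ n * ka c n := by
  unfold ka
  have h1 : (n + 1) * (n + 1 - 1) / 2 = n * (n - 1) / 2 + n := by
    rcases n with _ | n
    · rfl
    · have h2 : (n + 1 + 1) * (n + 1 + 1 - 1) = (n + 1) * (n + 1 - 1) + 2 * (n + 1) := by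
        simp only [Nat.add_sub_cancel]
        ring
      rw [h2, Nat.add_mul_div_left _ _ (by norm_num)]
  rw [h1, pow_add, mul_add, pow_add]
  ring

theorem ibv_sw {c i L : ℕ} (h : i + 1 < c ∨ (c ≤ i ∧ i + 1 < L)) (y : ℕ → ℂ) :
    ibv c (PX.sw i y) = PX.sw i (ibv c y) := by
  funext k
  show (if k < c then y (Equiv.swap i (i + 1) k) else (y (Equiv.swap i (i + 1) k))⁻¹) =
    (if Equiv.swap i (i + 1) k < c then y (Equiv.swap i (i + 1) k) else (y (Equiv.swap i (i + 1) k))⁻¹)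
  have hiff : Equiv.swap i (i + 1) k < c ↔ k < c := by
    rw [Equiv.swap_apply_def]
    split_ifs <;> omega
  by_cases hk : k < c
  · rw [if_pos hk, if_pos (hiff.mpr hk)]
  · rw [if_neg hk, if_neg (fun h1 => hk (hiff.mp h1))]

theorem ibv_iv {c i : ℕ} (h : i < c) (y : ℕ → ℂ) : ibv c (PX.iv i y) = PX.iv i (ibv c y) := by
  funext k
  by_cases hk : k = i
  · subst hk
    show (if k < c then Function.update y k (y k)⁻¹ k else (Function.update y k (y k)⁻¹ k)⁻¹) =
      Function.update (ibv c y) k (ibv c y k)⁻¹ k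
    rw [if_pos h, Function.update_self, Function.update_self]
    unfold ibv
    rw [if_pos h]
  · show (if k < c then Function.update y i (y i)⁻¹ k else (Function.update y i (y i)⁻¹ k)⁻¹) =
      Function.update (ibv c y) i (ibv c y i)⁻¹ k
    rw [Function.update_of_ne hk, Function.update_of_ne hk]
    rfl

theorem ibv_nz {c L : ℕ} {y : ℕ → ℂ} (h : PX.NZ L y) : PX.NZ L (ibv c y) := by
  intro k hk
  unfold ibv
  split_ifs
  · exact h k hk
  · exact inv_ne_zero (h k hk)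

theorem ibv_upd {c i : ℕ} (h : i < c) (y : ℕ → ℂ) (t : ℂ) :
    ibv c (Function.update y i t) = Function.update (ibv c y) i t := by
  funext k
  unfold ibv
  by_cases hk : k = i
  · subst hk
    rw [if_pos h, Function.update_self, Function.update_self]
  · rw [Function.update_of_ne hk, Function.update_of_ne hk]

theorem ibv_upd' {c i : ℕ} (h : c ≤ i) (y : ℕ → ℂ) (t : ℂ) :
    ibv c (Function.update y i t) = Function.update (ibv c y) i t⁻¹ := by
  funext k
  unfold ibv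
  by_cases hk : k = i
  · subst hk
    rw [if_neg (by omega), Function.update_self, Function.update_self]
  · rw [Function.update_of_ne hk, Function.update_of_ne hk]

theorem swap_range {α : Type} {i L : ℕ} (h : i + 1 < L) (g : ℕ → α) :
    (Multiset.range L).map (fun k => g (Equiv.swap i (i + 1) k)) = (Multiset.range L).map g := by
  have h1 : (Multiset.range L).map (fun k => Equiv.swap i (i + 1) k) = Multiset.range L := by
    have hn : ((Multiset.range L).map (fun k => Equiv.swap i (i + 1) k)).Nodup :=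
      (Multiset.nodup_range L).map (Equiv.injective _)
    have hlt : ∀ k, k < L → Equiv.swap i (i + 1) k < L := by
      intro k hk
      rw [Equiv.swap_apply_def]
      split_ifs <;> omega
    rw [Multiset.Nodup.ext hn (Multiset.nodup_range L)]
    intro a
    rw [Multiset.mem_map, Multiset.mem_range]
    constructor
    · rintro ⟨k, hk, rfl⟩
      rw [Multiset.mem_range] at hk
      exact hlt k hk
    · intro ha
      exact ⟨Equiv.swap i (i + 1) a, Multiset.mem_range.mpr (hlt a ha), Equiv.swap_apply_self _ _ _⟩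
  conv_rhs => rw [← h1]
  rw [Multiset.map_map]
  rfl

theorem XA_sw {i L : ℕ} (h : i + 1 < L) (y : ℕ → ℂ) : XA L (PX.sw i y) = XA L y :=
  swap_range h (fun k => PX.XX (y k))

theorem XA_sw' {i L : ℕ} (h : L ≤ i) (y : ℕ → ℂ) : XA L (PX.sw i y) = XA L y := by
  unfold XA PX.sw
  refine Multiset.map_congr rfl fun k hk => ?_
  rw [Multiset.mem_range] at hk
  rw [Equiv.swap_apply_of_ne_of_ne (by omega) (by omega)]

theorem ZB_sw {c n i : ℕ} (h : i + 1 < c ∨ (c ≤ i ∧ i + 1 < c + 2 * n)) (y : ℕ → ℂ) :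
    ZB c n (PX.sw i y) = ZB c n y := by
  unfold ZB PX.sw
  rcases h with h | h
  · refine Multiset.map_congr rfl fun k _ => ?_
    rw [Equiv.swap_apply_of_ne_of_ne (by omega) (by omega)]
  · obtain ⟨j, rfl⟩ : ∃ j, i = j + c := ⟨i - c, by omega⟩
    have h1 := swap_range (i := j) (L := 2 * n) (by omega) (fun k => y (k + c))
    rw [← h1]
    refine Multiset.map_congr rfl fun k _ => ?_
    congr 1
    rw [Equiv.swap_apply_def, Equiv.swap_apply_def]
    split_ifs <;> omega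

theorem Pb_eq (c n : ℕ) (y : ℕ → ℂ) : Pb c n y = (ZB c n y).prod := by
  unfold Pb ZB
  rw [Finset.prod_eq_multiset_prod]
  rfl

theorem XX_inv' (x : ℂ) : PX.XX x⁻¹ = PX.XX x := by
  unfold PX.XX
  rw [inv_inv, add_comm]

theorem XA_iv (i L : ℕ) (y : ℕ → ℂ) : XA L (PX.iv i y) = XA L y := by
  unfold XA PX.iv
  refine Multiset.map_congr rfl fun k _ => ?_
  by_cases hk : k = i
  · subst hk
    rw [Function.update_self, XX_inv']
  · rw [Function.update_of_ne hk]

theorem XA_ibv (c L : ℕ) (y : ℕ → ℂ) : XA L (ibv c y) = XA L y := by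
  unfold XA ibv
  refine Multiset.map_congr rfl fun k _ => ?_
  split_ifs
  · rfl
  · rw [XX_inv']

theorem ZB_iv {c n i : ℕ} (h : i < c) (y : ℕ → ℂ) : ZB c n (PX.iv i y) = ZB c n y := by
  unfold ZB PX.iv
  refine Multiset.map_congr rfl fun k _ => ?_
  rw [Function.update_of_ne (by omega)]

/-- symmetries -/
theorem Nv_sy {V : ℕ → ℕ → (ℕ → ℂ) → ℂ} (hV : VFacts V) {c : ℕ} (hc : Odd c) (n : ℕ) :
    SyF c (c + 2 * n) (Nv V c n) where
  loc := by
    intro y y' h
    have e1 : V c n y = V c n y' := hV.loc c n y y' h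
    have e2 : V c n (ibv c y) = V c n (ibv c y') := hV.loc c n _ _ (fun i hi => by
      unfold ibv
      rw [h i hi])
    have e3 : XA (c + 2 * n) y = XA (c + 2 * n) y' := Multiset.map_congr rfl fun k hk => by
      rw [Multiset.mem_range] at hk
      rw [h k hk]
    have e4 : XA c y = XA c y' := Multiset.map_congr rfl fun k hk => by
      rw [Multiset.mem_range] at hk
      rw [h k (by omega)]
    have e5 : ZB c n y = ZB c n y' := Multiset.map_congr rfl fun k hk => by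
      rw [Multiset.mem_range] at hk
      rw [h (k + c) (by omega)]
    unfold Nv
    rw [Pb_eq, Pb_eq, e1, e2, e3, e4, e5]
  sw := by
    intro i y hy h
    unfold Nv
    have hi : i + 1 < c + 2 * n := by omega
    have e4 : XA c (PX.sw i y) = XA c y := by
      rcases h with h | h
      · exact XA_sw h y
      · exact XA_sw' h.1 y
    rw [Pb_eq, Pb_eq, ibv_sw h, hV.sw c n i y hc hy h, hV.sw c n i _ hc (ibv_nz hy) h, XA_sw hi, e4, ZB_sw h]
  iv := by
    intro i y hy h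
    unfold Nv
    rw [Pb_eq, Pb_eq, ibv_iv h, hV.iv c n i y hc hy h, hV.iv c n i _ hc (ibv_nz hy) h, XA_iv, XA_iv, ZB_iv h]

theorem one_sub_om : (1 : ℂ) - PX.om ≠ 0 := sub_ne_zero.mpr PX.om_ne_one.symm

theorem Nv_zero {V : ℕ → ℕ → (ℕ → ℂ) → ℂ} (hV : VFacts V) (y : ℕ → ℂ) : Nv V 1 0 y = 1 := by
  unfold Nv
  have e1 : ka 1 0 = 1 := by
    unfold ka
    norm_num
  have e2 : XA (1 + 2 * 0) y = PX.XX (y 0) ::ₘ 0 := rfl
  have e3 : XA 1 y = PX.XX (y 0) ::ₘ 0 := rfl
  have e4 : ZB 1 0 y = 0 := rfl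
  rw [e1, e2, e4, hV.zero, hV.zero, SS_one, MS_zero, pow_zero]
  have h := one_sub_om
  field_simp
  ring

end CZ
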