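import Pool.Agent.Lib.MP_216314_pr.CZ.Fp
import Pool.Agent.Lib.MP_216314_pr.CZ.Lim

/-!
# THEOREM: the homogeneous value of the pairing
-/

set_option autoImplicit false

noncomputable section

namespace CZ

open Polynomial Filter Topology

theorem gen_path (c m : ℕ) : Gen ((Multiset.range c).map (fun i : ℕ => PX.XX (1 + ((i : ℂ) + 1) / ((m : ℂ) + 1)))) := by
  obtain ⟨t, ht⟩ : ∃ t : ℝ, t = 1 / (((c : ℝ) + 1) * ((m : ℝ) + 1)) := ⟨_, rfl⟩
  have hc : (0 : ℝ) < (c : ℝ) + 1 := by positivity
  have hm : (0 : ℝ) < (m : ℝ) + 1 := by positivity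
  have ht0 : 0 < t := by
    rw [ht]
    positivity
  have ht1 : t * (c : ℝ) * ((m : ℝ) + 1) < 1 := by
    rw [ht]
    have h1 : 1 / (((c : ℝ) + 1) * ((m : ℝ) + 1)) * (c : ℝ) * ((m : ℝ) + 1) = (c : ℝ) / ((c : ℝ) + 1) := by
      field_simp
    rw [h1, div_lt_one hc]
    linarith
  have h := (gen_of (yy_GT (k := c) (n := m) (L := c) ht0 ht1) le_rfl).1
  have e : (Multiset.range c).map (fun i : ℕ => PX.XX (1 + ((i : ℂ) + 1) / ((m : ℂ) + 1))) =
      (Multiset.range c).map (fun i : ℕ => PX.XX (yy c m t i)) := by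
    refine Multiset.map_congr rfl fun i hi => ?_
    rw [Multiset.mem_range] at hi
    unfold yy rr
    rw [if_neg (by omega), if_pos hi]
    push_cast
    rfl
  rw [e]
  exact h

/-- the arguments -/
def yq (c m : ℕ) : ℕ → ℂ := fun i => if i < c then 1 + ((i : ℂ) + 1) / ((m : ℂ) + 1) else 1

theorem yq_tendsto (c i : ℕ) : Tendsto (fun m => yq c m i) atTop (𝓝 1) := by
  unfold yq
  by_cases h : i < c
  · simp only [if_pos h]
    have h1 : Tendsto (fun m : ℕ => ((i : ℂ) + 1) / ((m : ℂ) + 1)) atTop (𝓝 0) := by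
      have h2 : Tendsto (fun m : ℕ => (1 : ℂ) / ((m : ℂ) + 1)) atTop (𝓝 0) := tendsto_one_div_add_atTop_nhds_zero_nat
      have h3 := h2.const_mul ((i : ℂ) + 1)
      rw [mul_zero] at h3
      refine h3.congr fun m => ?_
      ring
    have h4 := h1.const_add 1
    rwa [add_zero] at h4
  · simp only [if_neg h]
    exact tendsto_const_nhds

theorem yq_ne (c m i : ℕ) : yq c m i ≠ 0 := by
  unfold yq
  split_ifs
  · have h : (1 + ((i : ℂ) + 1) / ((m : ℂ) + 1)) = ((1 + ((i : ℝ) + 1) / ((m : ℝ) + 1) : ℝ) : ℂ) := by push_cast; ring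
    rw [h, Complex.ofReal_ne_zero]
    positivity
  · exact one_ne_zero

/-- THEOREM: the value at the homogeneous point -/
theorem V_hom {V : ℕ → ℕ → (ℕ → ℂ) → ℂ} (hV : VFacts V)
    (hcont : ∀ (c n : ℕ) (y : ℕ → ℕ → ℂ), (∀ j, Tendsto (fun i => y i j) atTop (𝓝 1)) →
      Tendsto (fun i => V c n (y i)) atTop (𝓝 (V c n (fun _ => 1)))) {k n : ℕ} (hk : Even k) :
    V (k + 1) (n + 1) (fun _ => 1) = ka (k + 1) (n + 1) * (SS (Multiset.replicate (k + 1) 2) *
      SS (Multiset.replicate (k + 1 + 2 * (n + 1)) 2) * MS yb' (Multiset.replicate (2 * (n + 1)) 1)) *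
      ((1 + EE k n) / 2 + PX.om * ((1 - EE k n) / 2)) := by
  have hV1 := hcont (k + 1) (n + 1) (yq (k + 1)) (yq_tendsto (k + 1))
  have hform : ∀ m : ℕ, 2 * V (k + 1) (n + 1) (yq (k + 1) m) = ka (k + 1) (n + 1) *
      ((1 + PX.om) * (SS (XA (k + 1 + 2 * (n + 1)) (yq (k + 1) m)) * SS (XA (k + 1) (yq (k + 1) m)) *
      MS yb' (Multiset.replicate (2 * (n + 1)) 1)) + (1 - PX.om) * FW (XA (k + 1) (yq (k + 1) m))
        (Multiset.replicate (2 * (n + 1)) 1)) := by
    intro m
    have hG : Gen (XA (k + 1) (yq (k + 1) m)) := by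
      have h := gen_path (k + 1) m
      have e : XA (k + 1) (yq (k + 1) m) =
          (Multiset.range (k + 1)).map (fun i : ℕ => PX.XX (1 + ((i : ℂ) + 1) / ((m : ℂ) + 1))) := by
        unfold XA yq
        refine Multiset.map_congr rfl fun i hi => ?_
        rw [Multiset.mem_range] at hi
        rw [if_pos hi]
      rw [e]
      exact h
    have h := V_formula hV (c := k + 1) (n := n + 1) hk.add_one (y := yq (k + 1) m) (fun i _ => yq_ne _ _ _) hG
    have e1 : Pb (k + 1) (n + 1) (yq (k + 1) m) = 1 := by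
      unfold Pb
      refine Finset.prod_eq_one fun i _ => ?_
      unfold yq
      rw [if_neg (by omega)]
    have e2 : ibv (k + 1) (yq (k + 1) m) = yq (k + 1) m := by
      funext i
      show (if i < k + 1 then yq (k + 1) m i else (yq (k + 1) m i)⁻¹) = yq (k + 1) m i
      by_cases h : i < k + 1
      · rw [if_pos h]
      · rw [if_neg h]
        unfold yq
        rw [if_neg h, inv_one]
    have e3 : ZB (k + 1) (n + 1) (yq (k + 1) m) = Multiset.replicate (2 * (n + 1)) 1 := by
      unfold ZB
      have e4 : (Multiset.range (2 * (n + 1))).map (fun i => yq (k + 1) m (i + (k + 1))) =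
          (Multiset.range (2 * (n + 1))).map (fun _ => (1 : ℂ)) := by
        refine Multiset.map_congr rfl fun i _ => ?_
        unfold yq
        rw [if_neg (by omega)]
      rw [e4, Multiset.map_const', Multiset.card_range]
    rw [e1, e2, e3, one_pow, one_mul] at h
    rw [two_mul]
    exact h
  -- the limits
  have hXX : ∀ i : ℕ, Tendsto (fun m => PX.XX (yq (k + 1) m i)) atTop (𝓝 2) := by
    intro i
    have h := XX_cont one_ne_zero (yq_tendsto (k + 1) i)
    rwa [XX_one] at h
  have hS : ∀ L : ℕ, Tendsto (fun m => SS (XA L (yq (k + 1) m))) atTop (𝓝 (SS (Multiset.replicate L 2))) := by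
    intro L
    have h := SS_char.tendsto' atTop ((Multiset.range L).map fun i => fun m => PX.XX (yq (k + 1) m i)) 2 (by
      intro f hf
      rw [Multiset.mem_map] at hf
      obtain ⟨i, _, rfl⟩ := hf
      exact hXX i) 0
    simp only [Multiset.zero_add, Multiset.map_map, Multiset.card_map, Multiset.card_range] at h
    exact h
  have hF : Tendsto (fun m => FW (XA (k + 1) (yq (k + 1) m)) (Multiset.replicate (2 * (n + 1)) 1)) atTop
      (𝓝 (EE k n * SS (Multiset.replicate (k + 1) 2) * SS (Multiset.replicate (k + 1 + 2 * (n + 1)) 2) *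
        MS yb' (Multiset.replicate (2 * (n + 1)) 1))) := by
    have h := FW_hom hk (n := n) atTop ((Multiset.range (k + 1)).map fun i => fun m => PX.XX (yq (k + 1) m i))
      (by rw [Multiset.card_map, Multiset.card_range]) (by
      intro f hf
      rw [Multiset.mem_map] at hf
      obtain ⟨i, _, rfl⟩ := hf
      exact hXX i) (by
      refine Eventually.of_forall fun m => ?_
      have h := gen_path (k + 1) m
      have e : (((Multiset.range (k + 1)).map fun i => fun m => PX.XX (yq (k + 1) m i)).map fun f => f m) =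
          (Multiset.range (k + 1)).map (fun i : ℕ => PX.XX (1 + ((i : ℂ) + 1) / ((m : ℂ) + 1))) := by
        rw [Multiset.map_map]
        refine Multiset.map_congr rfl fun i hi => ?_
        rw [Multiset.mem_range] at hi
        show PX.XX (yq (k + 1) m i) = _
        unfold yq
        rw [if_pos hi]
      rw [e]
      exact h)
    simp only [Multiset.map_map] at h
    exact h
  have hR := (((((hS (k + 1 + 2 * (n + 1))).mul (hS (k + 1))).mul_const
    (MS yb' (Multiset.replicate (2 * (n + 1)) 1))).const_mul (1 + PX.om)).add (hF.const_mul (1 - PX.om))).const_mul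
      (ka (k + 1) (n + 1))
  have hL := (hV1.const_mul 2).congr hform
  have h := tendsto_nhds_unique hL hR
  linear_combination h / 2

end CZ
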