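import Pool.Agent.Lib.MP_216314_pr.CZ.Zd

/-!
# Interpolation and continuity of the characters
-/

set_option autoImplicit false

noncomputable section

namespace CZ

open Multiset Filter Topology

/-- Lagrange basis polynomial at the points `0, 1, ..., d` -/
def lb (d i : ℕ) : Polynomial ℂ := Lagrange.basis (Finset.range (d + 1)) (fun i : ℕ => (i : ℂ)) i

theorem IsP.interp {d : ℕ} {f : ℂ → ℂ} (hf : IsP d f) (x : ℂ) :
    f x = ∑ i ∈ Finset.range (d + 1), f (i : ℂ) * (lb d i).eval x := by
  obtain ⟨p, h1, h2⟩ := hf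
  have hinj : Set.InjOn (fun i : ℕ => (i : ℂ)) (Finset.range (d + 1)) := by
    intro a _ b _ h
    exact Nat.cast_injective h
  have hdeg : p.degree < (Finset.range (d + 1)).card := by
    rw [Finset.card_range]
    refine lt_of_le_of_lt Polynomial.degree_le_natDegree ?_
    exact_mod_cast Nat.lt_succ_of_le h1
  have h3 := Lagrange.eq_interpolate hinj hdeg
  rw [h2]
  conv_lhs => rw [h3]
  rw [Lagrange.interpolate_apply, Polynomial.eval_finsetSum]
  refine Finset.sum_congr rfl fun i _ => ?_
  rw [Polynomial.eval_mul, Polynomial.eval_C, h2]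
  rfl

theorem SChar.interp {S : Multiset ℂ → ℂ} (hS : SChar S) (R : Multiset ℂ) (x : ℂ) :
    S (x ::ₘ R) = ∑ i ∈ Finset.range (card R / 2 + 1), S ((i : ℂ) ::ₘ R) * (lb (card R / 2) i).eval x :=
  (hS.poly R).interp x

/-- continuity along families -/
theorem SChar.tendsto {S : Multiset ℂ → ℂ} (hS : SChar S) {ι : Type} (l : Filter ι) (M : Multiset ((ι → ℂ) × ℂ))
    (hM : ∀ p ∈ M, Tendsto p.1 l (𝓝 p.2)) (R : Multiset ℂ) :
    Tendsto (fun e => S (R + M.map (fun p => p.1 e))) l (𝓝 (S (R + M.map (fun p => p.2)))) := by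
  induction M using Multiset.induction_on generalizing R with
  | empty =>
    simp only [Multiset.map_zero]
    exact tendsto_const_nhds
  | cons p M ih =>
    have hp := hM p (Multiset.mem_cons_self p M)
    have ih' := fun R => ih (fun q hq => hM q (Multiset.mem_cons_of_mem hq)) R
    have e1 : ∀ e : ι, S (R + (p ::ₘ M).map (fun p => p.1 e)) =
        ∑ i ∈ Finset.range ((card R + card M) / 2 + 1), S (((i : ℂ) ::ₘ R) + M.map (fun p => p.1 e)) *
          (lb ((card R + card M) / 2) i).eval (p.1 e) := by
      intro e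
      rw [Multiset.map_cons, Multiset.add_cons, hS.interp, Multiset.card_add, Multiset.card_map]
      refine Finset.sum_congr rfl fun i _ => ?_
      rw [Multiset.cons_add]
    have e2 : S (R + (p ::ₘ M).map (fun p => p.2)) =
        ∑ i ∈ Finset.range ((card R + card M) / 2 + 1), S (((i : ℂ) ::ₘ R) + M.map (fun p => p.2)) *
          (lb ((card R + card M) / 2) i).eval p.2 := by
      rw [Multiset.map_cons, Multiset.add_cons, hS.interp, Multiset.card_add, Multiset.card_map]
      refine Finset.sum_congr rfl fun i _ => ?_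
      rw [Multiset.cons_add]
    simp only [e1]
    rw [e2]
    refine tendsto_finsetSum _ fun i _ => ?_
    exact (ih' ((i : ℂ) ::ₘ R)).mul (((lb ((card R + card M) / 2) i).continuous.tendsto p.2).comp hp)

/-- all limits equal to `c` -/
theorem SChar.tendsto' {S : Multiset ℂ → ℂ} (hS : SChar S) {ι : Type} (l : Filter ι) (M : Multiset (ι → ℂ)) (c : ℂ)
    (hM : ∀ f ∈ M, Tendsto f l (𝓝 c)) (R : Multiset ℂ) :
    Tendsto (fun e => S (R + M.map (fun f => f e))) l (𝓝 (S (R + Multiset.replicate (card M) c))) := by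
  have h := hS.tendsto l (M.map (fun f => (f, c))) (by
    intro p hp
    rw [Multiset.mem_map] at hp
    obtain ⟨f, hf, rfl⟩ := hp
    exact hM f hf) R
  simp only [Multiset.map_map, Function.comp_apply, Multiset.map_const'] at h
  exact h

end CZ
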