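import Pool.Agent.Lib.MP_216314_pr.CZ.Zd

/-!
# Divided differences at confluent points
-/

set_option autoImplicit false

noncomputable section

namespace CZ

open Multiset Filter Topology

/-- divided difference of `f` at the points of `N` -/
def DDm (N : Multiset ℂ) (f : ℂ → ℂ) : ℂ := (N.map (fun j => f j / ((N.erase j).map (fun i => j - i)).prod)).sum

theorem DDm_zero (f : ℂ → ℂ) : DDm 0 f = 0 := by
  unfold DDm
  rw [Multiset.map_zero, Multiset.sum_zero]

theorem DDm_congr {N : Multiset ℂ} {f g : ℂ → ℂ} (h : ∀ x ∈ N, f x = g x) : DDm N f = DDm N g := by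
  unfold DDm
  exact congrArg Multiset.sum (Multiset.map_congr rfl (fun x hx => by rw [h x hx]))

theorem DDm_add (N : Multiset ℂ) (f g : ℂ → ℂ) : DDm N (fun x => f x + g x) = DDm N f + DDm N g := by
  unfold DDm
  rw [← Multiset.sum_map_add]
  exact congrArg Multiset.sum (Multiset.map_congr rfl (fun x _ => by rw [add_div]))

theorem DDm_smul (N : Multiset ℂ) (c : ℂ) (f : ℂ → ℂ) : DDm N (fun x => c * f x) = c * DDm N f := by
  unfold DDm
  rw [← Multiset.sum_map_mul_left]
  exact congrArg Multiset.sum (Multiset.map_congr rfl (fun x _ => by rw [mul_div_assoc]))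

theorem DDm_sum {ι : Type} (s : Finset ι) (N : Multiset ℂ) (f : ι → ℂ → ℂ) :
    DDm N (fun x => ∑ i ∈ s, f i x) = ∑ i ∈ s, DDm N (f i) := by
  induction s using Finset.cons_induction with
  | empty =>
    simp only [Finset.sum_empty]
    have := DDm_smul N 0 (fun _ => 0)
    rw [zero_mul] at this
    simpa using this
  | cons a s ha ih =>
    simp only [Finset.sum_cons]
    rw [DDm_add, ih]

theorem DDm_root {a : ℂ} {N : Multiset ℂ} (ha : a ∉ N) (f : ℂ → ℂ) :
    DDm (a ::ₘ N) (fun x => (x - a) * f x) = DDm N f := by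
  unfold DDm
  rw [Multiset.map_cons, Multiset.sum_cons]
  beta_reduce
  rw [sub_self, zero_mul, zero_div, zero_add]
  refine congrArg Multiset.sum (Multiset.map_congr rfl (fun x hx => ?_))
  have hxa : x - a ≠ 0 := sub_ne_zero.mpr (fun h => ha (h ▸ hx))
  rw [erase_cons' hx, Multiset.map_cons, Multiset.prod_cons, mul_div_mul_left _ _ hxa]

theorem DDm_single (a : ℂ) (f : ℂ → ℂ) : DDm (a ::ₘ 0) f = f a := by
  unfold DDm
  rw [Multiset.map_cons, Multiset.map_zero, Multiset.sum_cons, Multiset.sum_zero, Multiset.erase_cons_head,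
    Multiset.map_zero, Multiset.prod_zero, div_one, add_zero]

/-- the divided difference of `1` -/
theorem DDm_one (n : ℕ) : ∀ (a : ℂ) (N : Multiset ℂ), card N = n → (a ::ₘ N).Nodup →
    DDm (a ::ₘ N) (fun _ => 1) = if n = 0 then 1 else 0 := by
  induction n with
  | zero =>
    intro a N hN _
    rw [Multiset.card_eq_zero] at hN
    rw [hN, DDm_single, if_pos rfl]
  | succ n ih =>
    intro a N hN hd
    obtain ⟨b, hb⟩ := Multiset.card_pos_iff_exists_mem.mp (show 0 < card N by omega)
    obtain ⟨N', rfl⟩ := Multiset.exists_cons_of_mem hb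
    rw [Multiset.card_cons] at hN
    rw [Multiset.nodup_cons, Multiset.mem_cons, Multiset.nodup_cons] at hd
    obtain ⟨h1, h2, h3⟩ := hd
    have hab : a ≠ b := fun h => h1 (Or.inl h)
    have haN : a ∉ N' := fun h => h1 (Or.inr h)
    have e1 : DDm (a ::ₘ b ::ₘ N') (fun x => (x - a) * 1) = DDm (b ::ₘ N') (fun _ => 1) := by
      apply DDm_root
      rw [Multiset.mem_cons]
      exact fun h => h1 h
    have e2 : DDm (a ::ₘ b ::ₘ N') (fun x => (x - b) * 1) = DDm (a ::ₘ N') (fun _ => 1) := by
      rw [Multiset.cons_swap]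
      apply DDm_root
      rw [Multiset.mem_cons]
      rintro (h | h)
      · exact hab h.symm
      · exact h2 h
    have e3 : DDm (a ::ₘ b ::ₘ N') (fun x => (x - b) * 1) =
        DDm (a ::ₘ b ::ₘ N') (fun x => (x - a) * 1) + (a - b) * DDm (a ::ₘ b ::ₘ N') (fun _ => 1) := by
      rw [← DDm_smul, ← DDm_add]
      exact DDm_congr (fun x _ => by ring)
    rw [e1, e2, ih b N' (by omega) (Multiset.nodup_cons.mpr ⟨h2, h3⟩),
      ih a N' (by omega) (Multiset.nodup_cons.mpr ⟨haN, h3⟩)] at e3
    have e4 : (a - b) * DDm (a ::ₘ b ::ₘ N') (fun _ => 1) = 0 := by linear_combination -e3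
    rcases mul_eq_zero.mp e4 with h | h
    · exact absurd (by linear_combination h) hab
    · rw [h, if_neg (by omega)]

/-- `F` is the expansion of `ψ` at `2`, in the sense of confluent divided differences -/
def HasDD (ψ : ℂ → ℂ) (F : PowerSeries ℂ) : Prop :=
  ∀ (ι : Type) (l : Filter ι) (M : Multiset (ι → ℂ)) (f : ι → ℂ), Tendsto f l (𝓝 2) →
    (∀ g ∈ M, Tendsto g l (𝓝 2)) → (∀ᶠ e in l, (f e ::ₘ M.map (fun g => g e)).Nodup) →
    Tendsto (fun e => DDm (f e ::ₘ M.map (fun g => g e)) ψ) l (𝓝 (PowerSeries.coeff (card M) F))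

theorem HasDD.congr {ψ ψ' : ℂ → ℂ} {F F' : PowerSeries ℂ} (h : HasDD ψ F) (h1 : ∀ x, ψ' x = ψ x) (h2 : F' = F) :
    HasDD ψ' F' := by
  have e : ψ' = ψ := funext h1
  rw [e, h2]
  exact h

theorem HasDD.one : HasDD (fun _ => 1) 1 := by
  intro ι l M f hf hM hd
  have h1 : ∀ᶠ e in l, (PowerSeries.coeff (card M) (1 : PowerSeries ℂ)) =
      DDm (f e ::ₘ M.map (fun g => g e)) (fun _ => 1) := by
    filter_upwards [hd] with e he
    rw [DDm_one (card M) (f e) _ (Multiset.card_map _ _) he, PowerSeries.coeff_one]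
  exact Tendsto.congr' h1 tendsto_const_nhds

theorem HasDD.add {ψ ψ' : ℂ → ℂ} {F F' : PowerSeries ℂ} (h : HasDD ψ F) (h' : HasDD ψ' F') :
    HasDD (fun x => ψ x + ψ' x) (F + F') := by
  intro ι l M f hf hM hd
  have h1 := (h ι l M f hf hM hd).add (h' ι l M f hf hM hd)
  rw [_root_.map_add]
  exact Tendsto.congr (fun e => (DDm_add _ _ _).symm) h1

theorem HasDD.smul {ψ : ℂ → ℂ} {F : PowerSeries ℂ} (c : ℂ) (h : HasDD ψ F) :
    HasDD (fun x => c * ψ x) (PowerSeries.C c * F) := by
  intro ι l M f hf hM hd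
  have h1 := (h ι l M f hf hM hd).const_mul c
  rw [PowerSeries.coeff_C_mul]
  exact Tendsto.congr (fun e => (DDm_smul _ _ _).symm) h1

theorem HasDD.sum {α : Type} (s : Finset α) {ψ : α → ℂ → ℂ} {F : α → PowerSeries ℂ} (h : ∀ i ∈ s, HasDD (ψ i) (F i)) :
    HasDD (fun x => ∑ i ∈ s, ψ i x) (∑ i ∈ s, F i) := by
  intro ι l M f hf hM hd
  have h1 := tendsto_finsetSum s (fun i hi => h i hi ι l M f hf hM hd)
  rw [map_sum]
  exact Tendsto.congr (fun e => (DDm_sum s _ _).symm) h1

theorem Dd_step {a : ℂ} {N : Multiset ℂ} (h : (a ::ₘ N).Nodup) (c : ℂ) (f : ℂ → ℂ) :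
    DDm (a ::ₘ N) (fun x => (x - c) * f x) = DDm N f + (a - c) * DDm (a ::ₘ N) f := by
  rw [Multiset.nodup_cons] at h
  rw [← DDm_root h.1 f, ← DDm_smul, ← DDm_add]
  exact DDm_congr (fun x _ => by ring)

theorem HasDD.lin {ψ : ℂ → ℂ} {F : PowerSeries ℂ} (c : ℂ) (h : HasDD ψ F) :
    HasDD (fun x => (x - c) * ψ x) ((PowerSeries.X + PowerSeries.C (2 - c)) * F) := by
  intro ι l M f hf hM hd
  have h0 := h ι l M f hf hM hd
  have e1 : ∀ᶠ e in l, DDm (M.map (fun g => g e)) ψ + (f e - c) * DDm (f e ::ₘ M.map (fun g => g e)) ψ =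
      DDm (f e ::ₘ M.map (fun g => g e)) (fun x => (x - c) * ψ x) := by
    filter_upwards [hd] with e he
    exact (Dd_step he c ψ).symm
  refine Tendsto.congr' e1 ?_
  have h2 := (hf.sub_const c).mul h0
  rw [add_mul, _root_.map_add, PowerSeries.coeff_C_mul]
  refine Tendsto.add ?_ h2
  induction M using Multiset.induction_on with
  | empty =>
    simp only [Multiset.map_zero, DDm_zero, Multiset.card_zero, PowerSeries.coeff_zero_X_mul]
    exact tendsto_const_nhds
  | cons g M _ =>
    rw [Multiset.card_cons, PowerSeries.coeff_succ_X_mul]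
    simp only [Multiset.map_cons]
    refine h ι l M g (hM g (Multiset.mem_cons_self g M)) (fun g' hg' => hM g' (Multiset.mem_cons_of_mem hg')) ?_
    filter_upwards [hd] with e he
    rw [Multiset.map_cons, Multiset.nodup_cons] at he
    exact he.2

theorem HasDD.div {ψ : ℂ → ℂ} {F G : PowerSeries ℂ} {c : ℂ} (hc : 2 - c ≠ 0) (h : HasDD ψ F)
    (hG : (PowerSeries.X + PowerSeries.C (2 - c)) * G = F) : HasDD (fun x => ψ x / (x - c)) G := by
  intro ι l M
  induction M using Multiset.induction_on with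
  | empty =>
    intro f hf hM hd
    have h0 := h ι l 0 f hf hM hd
    simp only [Multiset.map_zero, DDm_single, Multiset.card_zero] at h0 ⊢
    have h1 := h0.div (hf.sub_const c) hc
    have e : PowerSeries.coeff 0 G = PowerSeries.coeff 0 F / (2 - c) := by
      rw [← hG, add_mul, _root_.map_add, PowerSeries.coeff_C_mul, PowerSeries.coeff_zero_X_mul, zero_add,
        mul_div_cancel_left₀ _ hc]
    rw [e]
    exact h1
  | cons g M ih =>
    intro f hf hM hd
    have h0 := h ι l (g ::ₘ M) f hf hM hd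
    have h1 := ih g (hM g (Multiset.mem_cons_self g M)) (fun g' hg' => hM g' (Multiset.mem_cons_of_mem hg')) (by
      filter_upwards [hd] with e he
      rw [Multiset.map_cons, Multiset.nodup_cons] at he
      exact he.2)
    have h2 : Tendsto (fun e => f e - c) l (𝓝 (2 - c)) := hf.sub_const c
    have h3 : ∀ k : ι → ℂ, Tendsto k l (𝓝 2) → ∀ᶠ e in l, k e - c ≠ 0 := by
      intro k hk
      exact (hk.sub_const c).eventually_ne hc
    have h4 : ∀ᶠ e in l, ∀ x ∈ (f e ::ₘ (g ::ₘ M).map (fun g => g e)), x - c ≠ 0 := by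
      have h5 : ∀ (K : Multiset (ι → ℂ)), (∀ k ∈ K, Tendsto k l (𝓝 2)) →
          ∀ᶠ e in l, ∀ x ∈ K.map (fun g => g e), x - c ≠ 0 := by
        intro K
        induction K using Multiset.induction_on with
        | empty =>
          intro _
          exact Filter.Eventually.of_forall (fun e x hx => by simp at hx)
        | cons k K ihK =>
          intro hK
          filter_upwards [h3 k (hK k (Multiset.mem_cons_self k K)),
            ihK (fun k' hk' => hK k' (Multiset.mem_cons_of_mem hk'))] with e he1 he2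
          intro x hx
          rw [Multiset.map_cons, Multiset.mem_cons] at hx
          rcases hx with hx | hx
          · rw [hx]; exact he1
          · exact he2 x hx
      filter_upwards [h3 f hf, h5 (g ::ₘ M) hM] with e he1 he2
      intro x hx
      rw [Multiset.mem_cons] at hx
      rcases hx with hx | hx
      · rw [hx]; exact he1
      · exact he2 x hx
    have e1 : ∀ᶠ e in l, (DDm (f e ::ₘ (g ::ₘ M).map (fun g => g e)) ψ -
        DDm (g e ::ₘ M.map (fun g => g e)) (fun x => ψ x / (x - c))) / (f e - c) =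
        DDm (f e ::ₘ (g ::ₘ M).map (fun g => g e)) (fun x => ψ x / (x - c)) := by
      filter_upwards [hd, h4] with e he1 he2
      have hfe := he2 (f e) (Multiset.mem_cons_self _ _)
      have e2 := Dd_step he1 c (fun x => ψ x / (x - c))
      have e3 : DDm (f e ::ₘ (g ::ₘ M).map (fun g => g e)) (fun x => (x - c) * (ψ x / (x - c))) =
          DDm (f e ::ₘ (g ::ₘ M).map (fun g => g e)) ψ := by
        refine DDm_congr (fun x hx => ?_)
        exact mul_div_cancel₀ (ψ x) (he2 x hx)
      rw [← e3, e2, Multiset.map_cons, add_sub_cancel_left, mul_div_cancel_left₀ _ hfe]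
    refine Tendsto.congr' e1 ?_
    have e4 : PowerSeries.coeff (card (g ::ₘ M)) G =
        (PowerSeries.coeff (card (g ::ₘ M)) F - PowerSeries.coeff (card M) G) / (2 - c) := by
      rw [eq_div_iff hc, ← hG, add_mul, _root_.map_add, PowerSeries.coeff_C_mul, Multiset.card_cons,
        PowerSeries.coeff_succ_X_mul]
      ring
    rw [e4]
    exact (h0.sub h1).div h2 hc

theorem Dd_X2 : (PowerSeries.X + PowerSeries.C (2 - 0) : PowerSeries ℂ) = PowerSeries.X + PowerSeries.C 2 := by
  rw [sub_zero]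

theorem HasDD.poly {ψ : ℂ → ℂ} {F : PowerSeries ℂ} (h : HasDD ψ F) (p : Polynomial ℂ) :
    HasDD (fun x => p.eval x * ψ x) (Polynomial.aeval (PowerSeries.X + PowerSeries.C 2 : PowerSeries ℂ) p * F) := by
  induction p using Polynomial.induction_on' with
  | add p q hp hq =>
    refine (hp.add hq).congr (fun x => ?_) ?_
    · rw [Polynomial.eval_add]; ring
    · rw [_root_.map_add]; ring
  | monomial n a =>
    have h1 : ∀ n : ℕ, HasDD (fun x => x ^ n * ψ x) ((PowerSeries.X + PowerSeries.C 2) ^ n * F) := by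
      intro n
      induction n with
      | zero => exact h.congr (fun x => by rw [pow_zero, one_mul]) (by rw [pow_zero, one_mul])
      | succ n ih =>
        refine (ih.lin 0).congr (fun x => ?_) ?_
        · rw [pow_succ]; ring
        · rw [Dd_X2, pow_succ]; ring
    refine ((h1 n).smul a).congr (fun x => ?_) ?_
    · rw [Polynomial.eval_monomial]; ring
    · rw [Polynomial.aeval_monomial, PowerSeries.algebraMap_apply, Algebra.algebraMap_self_apply]; ring

theorem HasDD.divpow {ψ : ℂ → ℂ} {F : PowerSeries ℂ} {c : ℂ} (hc : 2 - c ≠ 0) (h : HasDD ψ F) (I : PowerSeries ℂ)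
    (hI : (PowerSeries.X + PowerSeries.C (2 - c)) * I = 1) (n : ℕ) :
    HasDD (fun x => ψ x / (x - c) ^ n) (F * I ^ n) := by
  induction n with
  | zero => exact h.congr (fun x => by rw [pow_zero, div_one]) (by rw [pow_zero, mul_one])
  | succ n ih =>
    refine (ih.div hc (G := F * I ^ (n + 1)) ?_).congr (fun x => ?_) rfl
    · rw [pow_succ]
      linear_combination (F * I ^ n) * hI
    · rw [pow_succ, div_div]

end CZ
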