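import Pool.Agent.Lib.MP_216314_pr.CZ.Yf

/-!
# Strip = strip + cylinder: the right hand side of the exact formula, fusion
-/

set_option autoImplicit false

noncomputable section

namespace CZ

open Polynomial

/-- columns minus multiples of the columns two places before -/
theorem UEq_shift {N : ℕ} {g g' : ℕ → ℂ[X]} (κ : ℂ) (h0 : g' 0 = g 0) (h1 : g' 1 = g 1)
    (h2 : ∀ j, g' (j + 2) = g (j + 2) - C κ * g j) : Q4.UEq N g g' := by
  refine ⟨Matrix.of fun i j : Fin N => (if i = j then 1 else 0) + (if (i : ℕ) + 2 = j then -κ else 0), ?_, fun j => ?_⟩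
  · rw [Matrix.det_of_isUpperTriangular]
    · refine Finset.prod_eq_one fun i _ => ?_
      show (if i = i then (1 : ℂ) else 0) + (if (i : ℕ) + 2 = i then -κ else 0) = 1
      rw [if_pos rfl, if_neg (by omega), add_zero]
    · intro i j hij
      show (if i = j then (1 : ℂ) else 0) + (if (i : ℕ) + 2 = j then -κ else 0) = 0
      have h : j < i := hij
      have h' : (j : ℕ) < (i : ℕ) := h
      rw [if_neg (fun h3 => absurd h3 (ne_of_gt h)), if_neg (by omega), add_zero]
  · have e : ∀ i : Fin N, C ((Matrix.of fun i j : Fin N => (if i = j then (1 : ℂ) else 0) +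
        (if (i : ℕ) + 2 = j then -κ else 0)) i j) * g i =
        (if i = j then g i else 0) + (if (i : ℕ) + 2 = j then -(C κ * g i) else 0) := by
      intro i
      rw [Matrix.of_apply, map_add, add_mul]
      congr 1
      · split_ifs
        · rw [map_one, one_mul]
        · rw [map_zero, zero_mul]
      · split_ifs
        · rw [map_neg, neg_mul]
        · rw [map_zero, zero_mul]
    rw [Finset.sum_congr rfl fun i _ => e i, Finset.sum_add_distrib, Finset.sum_ite_eq' Finset.univ j,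
      if_pos (Finset.mem_univ j)]
    obtain ⟨j, hj⟩ := j
    rcases j with _ | _ | j
    · show g' 0 = g 0 + _
      rw [Finset.sum_eq_zero, h0, add_zero]
      intro i _
      rw [if_neg]
      show ¬ ((i : ℕ) + 2 = 0)
      omega
    · show g' 1 = g 1 + _
      rw [Finset.sum_eq_zero, h1, add_zero]
      intro i _
      rw [if_neg]
      show ¬ ((i : ℕ) + 2 = 1)
      omega
    · show g' (j + 2) = g (j + 2) + _
      rw [h2, Finset.sum_eq_single (⟨j, by omega⟩ : Fin N)]
      · rw [if_pos rfl]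
        ring
      · intro i _ hi
        rw [if_neg]
        intro h
        apply hi
        apply Fin.ext
        show (i : ℕ) = j
        have h' : (i : ℕ) + 2 = j + 2 := h
        omega
      · intro h
        exact absurd (Finset.mem_univ _) h

theorem yb_add_two (j : ℕ) : yb (j + 2) = X ^ 3 * yb j := by
  unfold yb ye
  rw [← pow_add]
  congr 1
  omega

theorem yb'_add_two (j : ℕ) : yb' (j + 2) = X ^ 3 * yb' j := by
  unfold yb' ye'
  rw [← pow_add]
  congr 1
  omega

theorem yb_one : yb 1 = X := by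
  unfold yb ye
  norm_num

theorem yb'_one : yb' 1 = X ^ 2 := by
  unfold yb' ye'
  norm_num

theorem yb_ueq (N : ℕ) (κ : ℂ) : Q4.UEq (N + 2) yb (Q4.pre 1 X (fun j => (X ^ 3 - C κ) * yb j)) := by
  refine UEq_shift κ ?_ ?_ fun j => ?_
  · rw [yb_zero]
    rfl
  · rw [yb_one]
    rfl
  · show (X ^ 3 - C κ) * yb j = _
    rw [yb_add_two]
    ring

theorem yb'_ueq (N : ℕ) (κ : ℂ) : Q4.UEq (N + 2) yb' (Q4.pre 1 (X ^ 2) (fun j => (X ^ 3 - C κ) * yb' j)) := by
  refine UEq_shift κ ?_ ?_ fun j => ?_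
  · rw [yb'_zero]
    rfl
  · rw [yb'_one]
    rfl
  · show (X ^ 3 - C κ) * yb' j = _
    rw [yb'_add_two]
    ring

/-- `b, b', e` are the three cube roots of a nonzero number -/
def Tr3 (b b' e : ℂ) : Prop := b + b' + e = 0 ∧ b * b' + b * e + b' * e = 0 ∧ b ≠ 0

theorem Tr3.sw {b b' e : ℂ} (h : Tr3 b b' e) : Tr3 b e b' :=
  ⟨by linear_combination h.1, by linear_combination h.2.1, h.2.2⟩

theorem Tr3.sq {b b' e : ℂ} (h : Tr3 b b' e) : b ^ 2 + b * b' + b' ^ 2 = 0 := by
  linear_combination (b + b') * h.1 - h.2.1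

theorem Tr3.cube {b b' e : ℂ} (h : Tr3 b b' e) : b * b' * e = b ^ 3 := by
  linear_combination b * h.2.1 - b ^ 2 * h.1

theorem Tr3.ne' {b b' e : ℂ} (h : Tr3 b b' e) : b' ≠ 0 := by
  intro h0
  have h1 := h.sq
  rw [h0] at h1
  have h2 : b ^ 2 = 0 := by linear_combination h1
  exact h.2.2 (pow_eq_zero_iff (two_ne_zero) |>.mp h2)

theorem Tr3.rot {b b' e : ℂ} (h : Tr3 b b' e) : Tr3 b' e b :=
  ⟨by linear_combination h.1, by linear_combination h.2.1, h.ne'⟩

theorem Tr3.ne'' {b b' e : ℂ} (h : Tr3 b b' e) : e ≠ 0 := h.rot.ne'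

theorem Tr3.ne {b b' e : ℂ} (h : Tr3 b b' e) : b ≠ b' := by
  intro h0
  have h1 := h.sq
  rw [← h0] at h1
  have h2 : b ^ 2 = 0 := by linear_combination (1 / 3 : ℂ) * h1
  exact h.2.2 (pow_eq_zero_iff (two_ne_zero) |>.mp h2)

theorem Tr3.prod {b b' e : ℂ} (h : Tr3 b b' e) :
    (X ^ 3 - C (b ^ 3) : ℂ[X]) = (X - C b) * (X - C b') * (X - C e) := by
  apply Polynomial.funext
  intro x
  simp only [eval_sub, eval_pow, eval_X, eval_mul, eval_C]
  linear_combination x ^ 2 * h.1 - x * h.2.1 + h.cube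

theorem exists_Tr3 {b : ℂ} (hb : b ≠ 0) : ∃ b' e : ℂ, Tr3 b b' e := by
  have h1 : 1 + PX.om + PX.om ^ 2 = 0 := by linear_combination PX.om_eq
  refine ⟨PX.om * b, PX.om ^ 2 * b, ?_, ?_, hb⟩
  · linear_combination b * h1
  · linear_combination (b ^ 2 * PX.om) * h1

/-- fusion -/
theorem MS_yb_fus {b b' e : ℂ} (h : Tr3 b b' e) (R : Multiset ℂ) :
    MS yb (b ::ₘ b' ::ₘ R) = (R.map (fun r => r - e)).prod * MS yb R := by
  have h1 : Q4.UEq (Multiset.card R + 2) yb
      (Q4.pre 1 X (fun j => (X - C b) * (X - C b') * (X - C e) * yb j)) := by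
    rw [← h.prod]
    exact yb_ueq _ _
  have h2 := MS_rec h1
  have h3 : b' - b ≠ 0 := sub_ne_zero.mpr h.ne.symm
  apply mul_left_cancel₀ h3
  rw [h2, eval_one, eval_one, eval_X, eval_X]
  ring

theorem MS_yb'_fus {b b' e : ℂ} (h : Tr3 b b' e) (R : Multiset ℂ) :
    MS yb' (b ::ₘ b' ::ₘ R) = -e * (R.map (fun r => r - e)).prod * MS yb' R := by
  have h1 : Q4.UEq (Multiset.card R + 2) yb'
      (Q4.pre 1 (X ^ 2) (fun j => (X - C b) * (X - C b') * (X - C e) * yb' j)) := by
    rw [← h.prod]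
    exact yb'_ueq _ _
  have h2 := MS_rec h1
  have h3 : b' - b ≠ 0 := sub_ne_zero.mpr h.ne.symm
  apply mul_left_cancel₀ h3
  rw [h2, eval_one, eval_one, eval_pow, eval_X, eval_pow, eval_X]
  linear_combination ((b' - b) * (R.map (fun r => r - e)).prod * MS yb' R) * h.1

theorem exists_pair (x : ℂ) : ∃ u v : ℂ, u * v = 1 ∧ u + v = x := by
  obtain ⟨s, hs⟩ := IsAlgClosed.exists_pow_nat_eq (x ^ 2 - 4) (n := 2) (by norm_num)
  refine ⟨(x + s) / 2, (x - s) / 2, ?_, by ring⟩
  linear_combination (-1 / 4 : ℂ) * hs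

theorem yp_ext {B : Multiset ℂ} {p : ℂ[X]}
    (h : ∀ u v : ℂ, u * v = 1 → MS yb (u ::ₘ v ::ₘ B) = p.eval (u + v)) : yp B = p := by
  apply Polynomial.funext
  intro x
  obtain ⟨u, v, h1, h2⟩ := exists_pair x
  rw [← h2, ← h u v h1, yp_eval B u v h1]

theorem yp_zero : yp 0 = 1 := by
  apply yp_ext
  intro u v _
  rw [eval_one]
  have hP : IsP 0 (fun u => MS yb (u ::ₘ v ::ₘ 0)) := by
    apply MS_poly
    intro j hj
    rw [Multiset.card_cons, Multiset.card_zero] at hj ⊢
    rw [yb_natDegree]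
    unfold ye
    omega
  obtain ⟨p, hp1, hp2⟩ := hP
  have h1 := MS_two yb (v + 1) v
  have h2 : MS yb ((v + 1) ::ₘ v ::ₘ 0) = 1 := by
    rw [yb_zero, yb_one, eval_one, eval_one, eval_X, eval_X] at h1
    linear_combination -h1
  have hp3 : ∀ x, MS yb (x ::ₘ v ::ₘ 0) = p.eval x := hp2
  rw [hp3, ← h2, hp3]
  rw [eq_C_of_natDegree_le_zero hp1, eval_C, eval_C]

theorem XX_Tri {b b' e : ℂ} (h : Tr3 b b' e) : Tri (PX.XX b) (PX.XX b') (PX.XX e) := by
  have h0 := h.2.2
  have h0' := h.ne'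
  have h0'' := h.ne''
  unfold PX.XX
  constructor
  · field_simp
    linear_combination (b * b' * e) * h.1 + h.2.1
  · field_simp
    have h1 := h.1
    have h2 := h.2.1
    have he : e = -b - b' := by linear_combination h1
    subst he
    linear_combination (-(b * b' * (b + b'))) * h2

end CZ
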