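import Pool.Agent.Lib.MP_216314_pr.CZ.Fa

/-!
# The right hand side: base case and fusion
-/

set_option autoImplicit false

noncomputable section

namespace CZ

open Polynomial

theorem yp_fus {b b' e : ℂ} (h : Tr3 b b' e) (B : Multiset ℂ) :
    yp (b ::ₘ b' ::ₘ B) = C (-e * (B.map (fun r => r - e)).prod) * ((X - C (PX.XX e)) * yp B) := by
  apply yp_ext
  intro u v huv
  have e1 : u ::ₘ v ::ₘ b ::ₘ b' ::ₘ B = b ::ₘ b' ::ₘ u ::ₘ v ::ₘ B := by
    rw [Multiset.cons_swap v b, Multiset.cons_swap v b', Multiset.cons_swap u b, Multiset.cons_swap u b']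
  rw [e1, MS_yb_fus h, yp_eval B u v huv, Multiset.map_cons, Multiset.prod_cons, Multiset.map_cons, Multiset.prod_cons]
  simp only [eval_mul, eval_C, eval_sub, eval_X]
  have he := h.ne''
  have e2 : (u - e) * (v - e) = -e * (u + v - PX.XX e) := by
    unfold PX.XX
    field_simp
    linear_combination huv
  generalize (B.map (fun r => r - e)).prod = P
  generalize (yp B).eval (u + v) = Q
  linear_combination (P * Q) * e2

theorem FW_single (a : ℂ) : FW {a} 0 = 1 := by
  rw [FW_eq, Multiset.map_singleton, Multiset.sum_singleton, Multiset.erase_singleton, Multiset.map_zero,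
    Multiset.map_zero, Multiset.prod_zero, Multiset.zero_add, SS_zero, yp_zero, eval_one]
  ring

theorem FW_fuseA {w i y : ℂ} (A B : Multiset ℂ) (h : Tri w i y) (hA : ∀ j ∈ A, j ≠ w ∧ j ≠ i) :
    FW (w ::ₘ i ::ₘ A) B = ((A.map (fun r => r - y)).prod ^ 2 * ((B.map PX.XX).map (fun r => r - y)).prod) * FW A B := by
  rw [FW_eq, FW_eq]
  generalize B.map PX.XX = B'
  rw [Multiset.map_cons, Multiset.sum_cons, Multiset.map_cons, Multiset.sum_cons]
  have e1 : (((w ::ₘ i ::ₘ A).erase w).map (fun i => TT w i / (w - i))).prod = 0 := by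
    rw [Multiset.erase_cons_head, Multiset.map_cons, Multiset.prod_cons, h.TT_zero]
    ring
  have e2 : (((w ::ₘ i ::ₘ A).erase i).map (fun j => TT i j / (i - j))).prod = 0 := by
    rw [erase_cons' (Multiset.mem_cons_self i A), Multiset.erase_cons_head, Multiset.map_cons, Multiset.prod_cons,
      h.sw.TT_zero]
    ring
  rw [e1, e2, zero_mul, zero_mul, zero_mul, zero_mul, zero_mul, zero_mul, zero_add, zero_add,
    ← Multiset.sum_map_mul_left]
  refine congrArg Multiset.sum (Multiset.map_congr rfl fun j hj => ?_)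
  obtain ⟨hjw, hji⟩ := hA j hj
  have hw : j - w ≠ 0 := sub_ne_zero.mpr hjw
  have hi : j - i ≠ 0 := sub_ne_zero.mpr hji
  rw [erase_cons' (Multiset.mem_cons_of_mem hj), erase_cons' hj, Multiset.map_cons, Multiset.prod_cons,
    Multiset.map_cons, Multiset.prod_cons, Multiset.cons_add, Multiset.cons_add, SS_char.fus w i y _ h,
    SS_char.fus w i y _ h, Multiset.map_add, Multiset.prod_add, Ze_mem hj (fun r => r - y),
    TT_comm j w, TT_comm j i, h.TT_eq j, h.sw.TT_eq j]
  have k : (j - i) * (j - y) / (j - w) * ((j - w) * (j - y) / (j - i)) = (j - y) * (j - y) := by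
    field_simp
  generalize ((A.erase j).map (fun i => TT j i / (j - i))).prod = P1
  generalize ((A.erase j).map (fun r => r - y)).prod = P2
  generalize (B'.map (fun r => r - y)).prod = P3
  generalize SS (A.erase j) = P4
  generalize SS (A.erase j + B') = P5
  generalize (yp B).eval j = P6
  linear_combination (P1 * P2 ^ 2 * P3 * P4 * P5 * P6) * k

theorem FW_fuseB {b b' e : ℂ} (h : Tr3 b b' e) (A B : Multiset ℂ) :
    FW A (b ::ₘ b' ::ₘ B) = (-e * (A.map (fun r => r - PX.XX e)).prod *
      ((B.map PX.XX).map (fun r => r - PX.XX e)).prod * (B.map (fun r => r - e)).prod) * FW A B := by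
  rw [FW_eq, FW_eq, ← Multiset.sum_map_mul_left]
  refine congrArg Multiset.sum (Multiset.map_congr rfl fun j hj => ?_)
  rw [Multiset.map_cons, Multiset.map_cons, Multiset.add_cons, Multiset.add_cons, SS_char.fus _ _ _ _ (XX_Tri h),
    yp_fus h, Multiset.map_add, Multiset.prod_add, Ze_mem hj (fun r => r - PX.XX e)]
  simp only [eval_mul, eval_C, eval_sub, eval_X]
  ring

end CZ
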