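import Pool.Agent.Lib.MP_216314_pr.CZ.Fb

/-!
# The right hand side as a polynomial in one variable of the strip
-/

set_option autoImplicit false

noncomputable section

namespace CZ

open Polynomial

/-- polynomial function of degree at most `d`, the coefficient number `d` is `l` -/
def IsL (d : ℕ) (l : ℂ) (f : ℂ → ℂ) : Prop := ∃ p : ℂ[X], p.natDegree ≤ d ∧ p.coeff d = l ∧ ∀ x, f x = p.eval x

theorem IsL.isP {d : ℕ} {l : ℂ} {f : ℂ → ℂ} (h : IsL d l f) : IsP d f := by
  obtain ⟨p, h1, _, h3⟩ := h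
  exact ⟨p, h1, h3⟩

theorem IsL.congr {d : ℕ} {l l' : ℂ} {f g : ℂ → ℂ} (h : IsL d l f) (hl : l' = l) (hfg : ∀ x, g x = f x) :
    IsL d l' g := by
  obtain ⟨p, h1, h2, h3⟩ := h
  exact ⟨p, h1, h2.trans hl.symm, fun x => (hfg x).trans (h3 x)⟩

theorem IsP.isL {d e : ℕ} {f : ℂ → ℂ} (h : IsP e f) (hde : e < d) : IsL d 0 f := by
  obtain ⟨p, h1, h2⟩ := h
  exact ⟨p, by omega, coeff_eq_zero_of_natDegree_lt (by omega), h2⟩

theorem IsL.const (c : ℂ) : IsL 0 c (fun _ => c) := ⟨C c, by simp, by simp, by simp⟩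

theorem IsL.add {d : ℕ} {l m : ℂ} {f g : ℂ → ℂ} (hf : IsL d l f) (hg : IsL d m g) :
    IsL d (l + m) (fun x => f x + g x) := by
  obtain ⟨p, h1, h2, h3⟩ := hf
  obtain ⟨q, h4, h5, h6⟩ := hg
  refine ⟨p + q, (natDegree_add_le p q).trans (max_le h1 h4), by rw [coeff_add, h2, h5], fun x => ?_⟩
  show f x + g x = _
  rw [eval_add, h3, h6]

theorem IsL.mul {d e : ℕ} {l m : ℂ} {f g : ℂ → ℂ} (hf : IsL d l f) (hg : IsL e m g) :
    IsL (d + e) (l * m) (fun x => f x * g x) := by
  obtain ⟨p, h1, h2, h3⟩ := hf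
  obtain ⟨q, h4, h5, h6⟩ := hg
  refine ⟨p * q, natDegree_mul_le.trans (add_le_add h1 h4), ?_, fun x => ?_⟩
  · rw [coeff_mul_add_eq_of_natDegree_le h1 h4, h2, h5]
  · show f x * g x = _
    rw [eval_mul, h3, h6]

theorem IsL.mprod {e : ℕ} (s : Multiset ℂ) (f : ℂ → ℂ → ℂ) (h : ∀ j ∈ s, IsL e 1 (f j)) :
    IsL (e * Multiset.card s) 1 (fun x => (s.map (fun j => f j x)).prod) := by
  induction s using Multiset.induction_on with
  | empty => exact (IsL.const 1).congr rfl (fun x => by simp)
  | cons a s ih =>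
    have h1 := (h a (Multiset.mem_cons_self a s)).mul (ih (fun j hj => h j (Multiset.mem_cons_of_mem hj)))
    have h2 := h1.congr (g := fun x => ((a ::ₘ s).map (fun j => f j x)).prod) (mul_one 1).symm
      (fun x => by rw [Multiset.map_cons, Multiset.prod_cons])
    have e1 : e + e * Multiset.card s = e * Multiset.card (a ::ₘ s) := by
      rw [Multiset.card_cons]
      ring
    rwa [e1] at h2

theorem TT_IsL (x : ℂ) : IsL 2 1 (fun a => TT a x) := by
  refine ⟨X ^ 2 + C x * X + C (x ^ 2 - 3), ?_, ?_, fun a => ?_⟩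
  · compute_degree
  · rw [coeff_add, coeff_add, coeff_X_pow_self, coeff_C_mul, coeff_X, coeff_C, if_neg (by omega), if_neg (by omega)]
    ring
  · simp only [eval_add, eval_pow, eval_X, eval_mul, eval_C]
    unfold TT
    ring

theorem IsP.pow {d : ℕ} {f : ℂ → ℂ} (hf : IsP d f) (k : ℕ) : IsP (d * k) (fun x => f x ^ k) := by
  obtain ⟨p, h1, h2⟩ := hf
  refine ⟨p ^ k, natDegree_pow_le.trans ?_, fun x => ?_⟩
  · rw [mul_comm]
    exact Nat.mul_le_mul_right k h1
  · show f x ^ k = _
    rw [eval_pow, h2]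

theorem IsP.fsum {d : ℕ} {ι : Type} (s : Finset ι) (f : ι → ℂ → ℂ) (h : ∀ j ∈ s, IsP d (f j)) :
    IsP d (fun x => ∑ j ∈ s, f j x) := IsP.msum s.val f h

/-- the leading coefficient of `yp` -/
theorem yp_lead {B : Multiset ℂ} {n : ℕ} (hB : Multiset.card B = 2 * n) :
    (yp B).natDegree ≤ n ∧ (yp B).coeff n = MS yb' B := by
  have hd : (yp B).natDegree ≤ n := by
    refine (yp_natDegree B).trans ?_
    omega
  refine ⟨hd, ?_⟩
  have h1 : ∀ u : ℂ, ∃ p : ℂ[X], p.natDegree ≤ n ∧ p.coeff n = MS yb (u ::ₘ B) ∧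
      ∀ x, MS yb (x ::ₘ u ::ₘ B) = p.eval x := by
    intro u
    have hc : Multiset.card (u ::ₘ B) = 2 * n + 1 := by rw [Multiset.card_cons, hB]
    obtain ⟨p, h1, h2, h3⟩ := MS_lead yb (d := n) (u ::ₘ B) (by
      intro j hj
      rw [hc] at hj ⊢
      rw [yb_natDegree]
      unfold ye
      omega) (by
      rw [hc, yb_natDegree]
      unfold ye
      omega)
    refine ⟨p, h1, ?_, h3⟩
    rw [h2, hc]
    have e : yb (2 * n + 1) = X ^ (2 * n + 1 + n) := by
      unfold yb ye
      congr 1
      omega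
    rw [e, coeff_X_pow_self, one_mul]
  choose p hp1 hp2 hp3 using h1
  have h2 : ∀ x : ℂ, IsP n (fun u => MS yb (x ::ₘ u ::ₘ B)) := by
    intro x
    refine (MS_poly yb (d := n) (x ::ₘ B) ?_).congr fun u => by rw [Multiset.cons_swap]
    intro j hj
    rw [Multiset.card_cons, hB] at hj ⊢
    rw [yb_natDegree]
    unfold ye
    omega
  have h3 : ∀ u : ℂ, ∀ k : ℕ, (p u).coeff k =
      ∑ i ∈ Finset.range (n + 1), (lb n i).coeff k * MS yb ((i : ℂ) ::ₘ u ::ₘ B) := by
    intro u k
    have e : p u = ∑ i ∈ Finset.range (n + 1), C (MS yb ((i : ℂ) ::ₘ u ::ₘ B)) * lb n i := by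
      apply Polynomial.funext
      intro x
      have hI : IsP n (fun x => MS yb (x ::ₘ u ::ₘ B)) := ⟨p u, hp1 u, hp3 u⟩
      rw [← hp3 u x, hI.interp x, eval_finsetSum]
      refine Finset.sum_congr rfl fun i _ => ?_
      rw [eval_mul, eval_C]
    rw [e, finsetSum_coeff]
    refine Finset.sum_congr rfl fun i _ => ?_
    rw [coeff_C_mul, mul_comm]
  let G : ℂ → ℂ := fun u => ∑ k ∈ Finset.range (n + 1), (p u).coeff k * u ^ (n - k)
  let F : ℂ → ℂ := fun u => ∑ k ∈ Finset.range (n + 1), (yp B).coeff k * (u ^ (n - k) * (u ^ 2 + 1) ^ k)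
  have hG : IsP (2 * n) G := by
    apply IsP.fsum
    intro k _
    have h5 : IsP n (fun u => (p u).coeff k) := by
      refine IsP.congr (f := fun u => ∑ i ∈ Finset.range (n + 1), (lb n i).coeff k * MS yb ((i : ℂ) ::ₘ u ::ₘ B)) ?_
        (fun u => h3 u k)
      apply IsP.fsum
      intro i _
      exact (h2 (i : ℂ)).smul _
    refine (h5.mul (IsP.id.pow (n - k))).mono ?_
    omega
  have hF : IsP (2 * n) F := by
    apply IsP.fsum
    intro k hk
    rw [Finset.mem_range] at hk
    have h5 : IsP 2 (fun u : ℂ => u ^ 2 + 1) := ((IsP.id.pow 2).mono (by omega)).add (IsP.const 2 1)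
    refine ((((IsP.id.pow (n - k)).mul (h5.pow k)).smul _).mono ?_)
    omega
  have hFG : ∀ u : ℂ, u ≠ 0 → F u - G u = 0 := by
    intro u hu
    have h5 : u ^ n * (p u).eval u⁻¹ = G u := by
      rw [eval_eq_sum_range' (show (p u).natDegree < n + 1 by have := hp1 u; omega), Finset.mul_sum]
      refine Finset.sum_congr rfl fun k hk => ?_
      rw [Finset.mem_range] at hk
      have h6 : u ^ n = u ^ k * u ^ (n - k) := by
        rw [← pow_add]
        congr 1
        omega
      have h7 : u ^ k ≠ 0 := pow_ne_zero _ hu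
      rw [h6, inv_pow]
      field_simp
    have h8 : u ^ n * (yp B).eval (u⁻¹ + u) = F u := by
      rw [eval_eq_sum_range' (show (yp B).natDegree < n + 1 by omega), Finset.mul_sum]
      refine Finset.sum_congr rfl fun k hk => ?_
      rw [Finset.mem_range] at hk
      have h6 : u ^ n = u ^ k * u ^ (n - k) := by
        rw [← pow_add]
        congr 1
        omega
      have h7 : u ^ k * (u⁻¹ + u) ^ k = (u ^ 2 + 1) ^ k := by
        rw [← mul_pow]
        congr 1
        field_simp
        ring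
      rw [h6, ← h7]
      ring
    rw [← h5, ← h8, ← yp_eval B u⁻¹ u (inv_mul_cancel₀ hu), hp3, sub_self]
  have h9 := (hF.sub hG).eq_zero ((Finset.range (2 * n + 1)).image (fun k : ℕ => ((k : ℂ) + 1))) (by
      rw [Finset.card_image_of_injective, Finset.card_range]
      · omega
      · intro a b hab
        have h10 : (a : ℂ) + 1 = (b : ℂ) + 1 := hab
        exact_mod_cast (add_right_cancel h10)) (by
      intro z hz
      rw [Finset.mem_image] at hz
      obtain ⟨k, _, rfl⟩ := hz
      apply hFG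
      exact_mod_cast Nat.succ_ne_zero k) 0
  have e1 : F 0 = (yp B).coeff n := by
    show ∑ k ∈ Finset.range (n + 1), (yp B).coeff k * ((0 : ℂ) ^ (n - k) * ((0 : ℂ) ^ 2 + 1) ^ k) = _
    rw [Finset.sum_eq_single n]
    · rw [Nat.sub_self, pow_zero]
      simp
    · intro k hk hkn
      rw [Finset.mem_range] at hk
      rw [zero_pow (by omega)]
      ring
    · intro h
      exact absurd (Finset.mem_range.mpr (by omega)) h
  have e2 : G 0 = MS yb' B := by
    show ∑ k ∈ Finset.range (n + 1), (p 0).coeff k * (0 : ℂ) ^ (n - k) = _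
    rw [Finset.sum_eq_single n]
    · rw [Nat.sub_self, pow_zero, mul_one, hp2, MS_zero_cons yb yb' yb_zero yb_succ]
    · intro k hk hkn
      rw [Finset.mem_range] at hk
      rw [zero_pow (by omega)]
      ring
    · intro h
      exact absurd (Finset.mem_range.mpr (by omega)) h
  rw [← e1, ← e2]
  linear_combination h9

/-- the numerator -/
def NF (A B : Multiset ℂ) (a : ℂ) : ℂ :=
  (A.map (fun i => TT a i)).prod * (SS A * SS (A + B.map PX.XX)) * (yp B).eval a +
  (A.map (fun j => -(((A.erase j).map (fun i => TT j i / (j - i))).prod * (yp B).eval j) *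
    (TT j a * ((A.erase j).map (fun i => a - i)).prod *
    SS (a ::ₘ A.erase j) * SS (a ::ₘ (A.erase j + B.map PX.XX))))).sum

theorem NF_eq (A B : Multiset ℂ) {a : ℂ} (ha : ∀ i ∈ A, a ≠ i) :
    NF A B a = (A.map (fun i => a - i)).prod * FW (a ::ₘ A) B := by
  have hD : (A.map (fun i => a - i)).prod ≠ 0 := by
    apply Multiset.prod_ne_zero
    intro h0
    rw [Multiset.mem_map] at h0
    obtain ⟨i, hi, h2⟩ := h0
    exact ha i hi (by linear_combination h2)
  rw [FW_eq, Multiset.map_cons, Multiset.sum_cons, mul_add, ← Multiset.sum_map_mul_left]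
  unfold NF
  generalize B.map PX.XX = B'
  congr 1
  · rw [Multiset.erase_cons_head, Multiset.prod_map_div]
    generalize (A.map (fun i => TT a i)).prod = P1
    generalize (A.map (fun i => a - i)).prod = P5 at hD ⊢
    field_simp
  · refine congrArg Multiset.sum (Multiset.map_congr rfl fun j hj => ?_)
    have hja : j - a ≠ 0 := sub_ne_zero.mpr (Ne.symm (ha j hj))
    rw [erase_cons' hj, Multiset.map_cons, Multiset.prod_cons, Ze_mem hj (fun i => a - i), Multiset.cons_add]
    have k : (a - j) * (TT j a / (j - a)) = - TT j a := by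
      field_simp
      ring
    generalize ((A.erase j).map (fun i => a - i)).prod = P1
    generalize ((A.erase j).map (fun i => TT j i / (j - i))).prod = P2
    generalize SS (a ::ₘ A.erase j) = P3
    generalize SS (a ::ₘ (A.erase j + B')) = P4
    generalize (yp B).eval j = P5
    linear_combination (-(P1 * P2 * P3 * P4 * P5)) * k

theorem NF_mem {A : Multiset ℂ} (B : Multiset ℂ) {i : ℂ} (hi : i ∈ A) (hd : A.Nodup) : NF A B i = 0 := by
  obtain ⟨A', rfl⟩ := Multiset.exists_cons_of_mem hi
  rw [Multiset.nodup_cons] at hd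
  have hD : (A'.map (fun j => i - j)).prod ≠ 0 := by
    apply Multiset.prod_ne_zero
    intro h0
    rw [Multiset.mem_map] at h0
    obtain ⟨j, hj, h2⟩ := h0
    exact hd.1 (by rwa [show i = j by linear_combination h2])
  unfold NF
  generalize B.map PX.XX = B'
  have e2 : (A'.map (fun j => -((((i ::ₘ A').erase j).map (fun i => TT j i / (j - i))).prod * (yp B).eval j) *
      (TT j i * (((i ::ₘ A').erase j).map (fun l => i - l)).prod *
      SS (i ::ₘ (i ::ₘ A').erase j) * SS (i ::ₘ ((i ::ₘ A').erase j + B'))))).sum = 0 := by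
    apply Multiset.sum_eq_zero
    intro x hx
    rw [Multiset.mem_map] at hx
    obtain ⟨j, hj, rfl⟩ := hx
    rw [erase_cons' hj, Multiset.map_cons (fun l => i - l), Multiset.prod_cons, sub_self]
    ring
  rw [Multiset.map_cons, Multiset.prod_cons, Multiset.map_cons, Multiset.sum_cons, e2,
    Multiset.erase_cons_head, Multiset.prod_map_div, Multiset.cons_add]
  generalize (A'.map (fun l => TT i l)).prod = P1
  generalize SS (i ::ₘ A') = P2
  generalize SS (i ::ₘ (A' + B')) = P3
  generalize (A'.map (fun l => i - l)).prod = P5 at hD ⊢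
  field_simp
  ring

theorem NF_IsL {A B : Multiset ℂ} {k n : ℕ} (hA : Multiset.card A = 2 * k) (hB : Multiset.card B = 2 * n) :
    IsL (4 * k + n) (SS A * SS (A + B.map PX.XX) * MS yb' B) (fun a => NF A B a) := by
  have h1 : IsL (4 * k + n) (SS A * SS (A + B.map PX.XX) * MS yb' B)
      (fun a => (A.map (fun i => TT a i)).prod * (SS A * SS (A + B.map PX.XX)) * (yp B).eval a) := by
    have h2 : IsL n (MS yb' B) (fun a => (yp B).eval a) := ⟨yp B, (yp_lead hB).1, (yp_lead hB).2, fun _ => rfl⟩
    have h3 := ((IsL.mprod A (fun i a => TT a i) (fun i _ => TT_IsL i)).mul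
      (IsL.const (SS A * SS (A + B.map PX.XX)))).mul h2
    have e : 2 * Multiset.card A + 0 + n = 4 * k + n := by
      rw [hA]
      ring
    rw [e] at h3
    exact h3.congr (by ring) (fun x => rfl)
  have h2 : IsL (4 * k + n) 0 (fun a => (A.map (fun j => -(((A.erase j).map (fun i => TT j i / (j - i))).prod *
      (yp B).eval j) * (TT j a * ((A.erase j).map (fun i => a - i)).prod *
      SS (a ::ₘ A.erase j) * SS (a ::ₘ (A.erase j + B.map PX.XX))))).sum) := by
    rcases Nat.eq_zero_or_pos k with h0 | h0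
    · have hA0 : A = 0 := by
        rw [← Multiset.card_eq_zero, hA, h0]
      subst hA0
      refine ⟨0, by simp, by simp, fun x => by simp⟩
    · refine IsP.isL (e := 4 * k + n - 1) ?_ (by omega)
      apply IsP.msum A (fun j a => -(((A.erase j).map (fun i => TT j i / (j - i))).prod *
        (yp B).eval j) * (TT j a * ((A.erase j).map (fun i => a - i)).prod *
        SS (a ::ₘ A.erase j) * SS (a ::ₘ (A.erase j + B.map PX.XX))))
      intro j hj
      have hc : Multiset.card (A.erase j) = 2 * k - 1 := by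
        rw [Multiset.card_erase_of_mem hj, hA]
        rfl
      have h2 : IsP 2 (fun a => TT j a) := (TT_IsP j).congr (fun a => TT_comm j a)
      have h1 := (((h2.mul (IsP.mprod (A.erase j) (fun i a => a - i)
        (fun i _ => IsP.subc i))).mul (SS_char.poly (A.erase j))).mul
          (SS_char.poly (A.erase j + B.map PX.XX))).smul
          (-(((A.erase j).map (fun i => TT j i / (j - i))).prod * (yp B).eval j))
      refine h1.mono ?_
      rw [Multiset.card_add, Multiset.card_map, hc, hB]
      omega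
  exact (h1.add h2).congr (by ring) (fun x => rfl)

/-- the sum as a polynomial in one variable of the strip, with its leading coefficient -/
theorem FW_polyA {A B : Multiset ℂ} {k n : ℕ} (hA : Multiset.card A = 2 * k) (hB : Multiset.card B = 2 * n)
    (hd : A.Nodup) : ∃ p : ℂ[X], p.natDegree ≤ 2 * k + n ∧
      p.coeff (2 * k + n) = SS A * SS (A + B.map PX.XX) * MS yb' B ∧
      ∀ a, (∀ i ∈ A, a ≠ i) → FW (a ::ₘ A) B = p.eval a := by
  obtain ⟨q, hq1, hq2, hq3⟩ := NF_IsL hA hB
  have hroot : ∀ i ∈ A, q.eval i = 0 := by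
    intro i hi
    rw [← hq3 i]
    exact NF_mem B hi hd
  have hdvd : (A.map (fun i => X - C i)).prod ∣ q := by
    by_cases h0 : q = 0
    · rw [h0]
      exact dvd_zero _
    · rw [Multiset.prod_X_sub_C_dvd_iff_le_roots h0, Multiset.le_iff_subset hd]
      intro i hi
      rw [Polynomial.mem_roots h0]
      exact hroot i hi
  obtain ⟨p, hp⟩ := hdvd
  have hm : (A.map (fun i => X - C i)).prod.Monic := monic_multiset_prod_of_monic _ _ (fun i _ => monic_X_sub_C i)
  have hn : (A.map (fun i : ℂ => X - C i)).prod.natDegree = 2 * k := by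
    rw [natDegree_multiset_prod_X_sub_C_eq_card, hA]
  have hpd : p.natDegree ≤ 2 * k + n := by
    by_cases h0 : p = 0
    · rw [h0, natDegree_zero]
      omega
    · have h1 := hm.natDegree_mul' h0
      rw [← hp, hn] at h1
      omega
  refine ⟨p, hpd, ?_, fun a ha => ?_⟩
  · rw [← hq2, hp, show 4 * k + n = 2 * k + (2 * k + n) by ring, coeff_mul_add_eq_of_natDegree_le hn.le hpd]
    have h1 := hm.coeff_natDegree
    rw [hn] at h1
    rw [h1, one_mul]
  · have hD : (A.map (fun i => a - i)).prod ≠ 0 := by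
      apply Multiset.prod_ne_zero
      intro h0
      rw [Multiset.mem_map] at h0
      obtain ⟨i, hi, h2⟩ := h0
      exact ha i hi (by linear_combination h2)
    apply mul_left_cancel₀ hD
    have h1 := hq3 a
    beta_reduce at h1
    rw [← NF_eq A B ha, h1, hp, eval_mul, eval_multiset_prod, Multiset.map_map]
    congr 2
    refine Multiset.map_congr rfl fun i _ => ?_
    rw [Function.comp_apply, eval_sub, eval_X, eval_C]

end CZ
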