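import Pool.Agent.Lib.MP_216314_pr.CZ.Fc

/-!
# The right hand side as a Laurent polynomial in one variable of the cylinder
-/

set_option autoImplicit false

noncomputable section

namespace CZ

open Polynomial

/-- `b ^ m * f b` is a polynomial of degree at most `d` -/
def IsB (m d : ℕ) (f : ℂ → ℂ) : Prop := ∃ p : ℂ[X], p.natDegree ≤ d ∧ ∀ b : ℂ, b ≠ 0 → b ^ m * f b = p.eval b

theorem IsB.congr {m d : ℕ} {f g : ℂ → ℂ} (h : IsB m d f) (hfg : ∀ b, b ≠ 0 → g b = f b) : IsB m d g := by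
  obtain ⟨p, h1, h2⟩ := h
  exact ⟨p, h1, fun b hb => by rw [hfg b hb, h2 b hb]⟩

theorem IsB.mono {m d e : ℕ} {f : ℂ → ℂ} (h : IsB m d f) (hde : d ≤ e) : IsB m e f := by
  obtain ⟨p, h1, h2⟩ := h
  exact ⟨p, h1.trans hde, h2⟩

theorem IsP.isB {d : ℕ} {f : ℂ → ℂ} (h : IsP d f) : IsB 0 d f := by
  obtain ⟨p, h1, h2⟩ := h
  exact ⟨p, h1, fun b _ => by rw [pow_zero, one_mul, h2]⟩

theorem IsB.add {m d : ℕ} {f g : ℂ → ℂ} (hf : IsB m d f) (hg : IsB m d g) : IsB m d (fun x => f x + g x) := by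
  obtain ⟨p, h1, h2⟩ := hf
  obtain ⟨q, h3, h4⟩ := hg
  refine ⟨p + q, (natDegree_add_le p q).trans (max_le h1 h3), fun b hb => ?_⟩
  show b ^ m * (f b + g b) = _
  rw [mul_add, eval_add, h2 b hb, h4 b hb]

theorem IsB.mul {m m' d e : ℕ} {f g : ℂ → ℂ} (hf : IsB m d f) (hg : IsB m' e g) :
    IsB (m + m') (d + e) (fun x => f x * g x) := by
  obtain ⟨p, h1, h2⟩ := hf
  obtain ⟨q, h3, h4⟩ := hg
  refine ⟨p * q, natDegree_mul_le.trans (add_le_add h1 h3), fun b hb => ?_⟩
  show b ^ (m + m') * (f b * g b) = _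
  rw [eval_mul, ← h2 b hb, ← h4 b hb, pow_add]
  ring

theorem IsB.smul {m d : ℕ} {f : ℂ → ℂ} (c : ℂ) (hf : IsB m d f) : IsB m d (fun x => c * f x) := by
  obtain ⟨p, h1, h2⟩ := hf
  refine ⟨C c * p, (natDegree_C_mul_le c p).trans h1, fun b hb => ?_⟩
  show b ^ m * (c * f b) = _
  rw [eval_mul, eval_C, ← h2 b hb]
  ring

theorem IsB.sub {m d : ℕ} {f g : ℂ → ℂ} (hf : IsB m d f) (hg : IsB m d g) : IsB m d (fun x => f x - g x) :=
  (hf.add (hg.smul (-1))).congr (fun x _ => by ring)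

theorem IsB.zero (m d : ℕ) : IsB m d (fun _ => 0) :=
  ⟨0, by simp, fun b _ => by simp⟩

theorem IsB.msum {m d : ℕ} {ι : Type} (s : Multiset ι) (f : ι → ℂ → ℂ) (h : ∀ j ∈ s, IsB m d (f j)) :
    IsB m d (fun x => (s.map (fun j => f j x)).sum) := by
  induction s using Multiset.induction_on with
  | empty => exact (IsB.zero m d).congr (fun x _ => by simp)
  | cons a s ih =>
    have h1 := (h a (Multiset.mem_cons_self a s)).add (ih (fun j hj => h j (Multiset.mem_cons_of_mem hj)))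
    exact h1.congr (fun x _ => by rw [Multiset.map_cons, Multiset.sum_cons])

/-- a polynomial of `b + 1/b` -/
theorem IsP.XX {m : ℕ} {f : ℂ → ℂ} (h : IsP m f) : IsB m (2 * m) (fun b => f (PX.XX b)) := by
  obtain ⟨p, hp1, hp2⟩ := h
  refine ⟨∑ k ∈ Finset.range (m + 1), C (p.coeff k) * (X ^ (m - k) * (X ^ 2 + 1) ^ k), ?_, fun b hb => ?_⟩
  · refine natDegree_sum_le_of_forall_le _ _ fun k hk => ?_
    rw [Finset.mem_range] at hk
    refine (natDegree_C_mul_le _ _).trans (natDegree_mul_le.trans ?_)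
    have h1 : (X ^ (m - k) : ℂ[X]).natDegree ≤ m - k := natDegree_X_pow_le _
    have h2 : ((X ^ 2 + 1 : ℂ[X]) ^ k).natDegree ≤ k * 2 := by
      refine natDegree_pow_le.trans (Nat.mul_le_mul_left k ?_)
      compute_degree
    omega
  · show b ^ m * f (PX.XX b) = _
    rw [hp2, eval_eq_sum_range' (show p.natDegree < m + 1 by omega), Finset.mul_sum, eval_finsetSum]
    refine Finset.sum_congr rfl fun k hk => ?_
    rw [Finset.mem_range] at hk
    simp only [eval_mul, eval_C, eval_pow, eval_X, eval_add, eval_one]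
    have h6 : b ^ m = b ^ k * b ^ (m - k) := by
      rw [← pow_add]
      congr 1
      omega
    have h7 : b ^ k * PX.XX b ^ k = (b ^ 2 + 1) ^ k := by
      unfold PX.XX
      rw [← mul_pow]
      congr 1
      field_simp
    rw [h6, ← h7]
    ring

theorem IsB.eq_zero {m d : ℕ} {f : ℂ → ℂ} (hf : IsB m d f) (Z : Finset ℂ) (hZ : d < Z.card)
    (h : ∀ z ∈ Z, z ≠ 0 ∧ f z = 0) {b : ℂ} (hb : b ≠ 0) : f b = 0 := by
  obtain ⟨p, h1, h2⟩ := hf
  have hP : IsP d (fun x => p.eval x) := ⟨p, h1, fun x => rfl⟩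
  have h3 := hP.eq_zero Z hZ (fun z hz => by
    obtain ⟨h4, h5⟩ := h z hz
    beta_reduce
    rw [← h2 z h4, h5, mul_zero]) b
  have h4 := h2 b hb
  beta_reduce at h3
  rw [h3] at h4
  exact (mul_eq_zero.mp h4).resolve_left (pow_ne_zero _ hb)

/-- the sum as a function of one variable of the cylinder -/
theorem FW_IsB {A B : Multiset ℂ} {k n : ℕ} (hA : Multiset.card A = 2 * k + 1) (hB : Multiset.card B = 2 * n + 1) :
    IsB (k + n) (2 * k + 3 * n + 1) (fun b => FW A (b ::ₘ B)) := by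
  have h0 : ∀ b, FW A (b ::ₘ B) = (A.map (fun j => (((A.erase j).map (fun i => TT j i / (j - i))).prod *
      SS (A.erase j)) * (SS (PX.XX b ::ₘ (A.erase j + B.map PX.XX)) * (yp (b ::ₘ B)).eval j))).sum := by
    intro b
    rw [FW_eq]
    refine congrArg Multiset.sum (Multiset.map_congr rfl fun j _ => ?_)
    rw [Multiset.map_cons, Multiset.add_cons]
    ring
  refine IsB.congr (IsB.msum A (fun j b => (((A.erase j).map (fun i => TT j i / (j - i))).prod *
      SS (A.erase j)) * (SS (PX.XX b ::ₘ (A.erase j + B.map PX.XX)) * (yp (b ::ₘ B)).eval j)) ?_) (fun b _ => h0 b)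
  intro j hj
  have hc : Multiset.card (A.erase j) = 2 * k := by
    rw [Multiset.card_erase_of_mem hj, hA]
    rfl
  apply IsB.smul
  have h1 : IsB (k + n) (2 * (k + n)) (fun b => SS (PX.XX b ::ₘ (A.erase j + B.map PX.XX))) := by
    apply IsP.XX (f := fun x => SS (x ::ₘ (A.erase j + B.map PX.XX)))
    refine (SS_char.poly (A.erase j + B.map PX.XX)).mono ?_
    rw [Multiset.card_add, Multiset.card_map, hc, hB]
    omega
  have h2 : IsB 0 (n + 1) (fun b => (yp (b ::ₘ B)).eval j) := by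
    obtain ⟨u, v, huv, hj2⟩ := exists_pair j
    have h3 : IsP (n + 1) (fun b => MS yb (b ::ₘ u ::ₘ v ::ₘ B)) := by
      apply MS_poly
      intro i hi
      rw [Multiset.card_cons, Multiset.card_cons, hB] at hi ⊢
      rw [yb_natDegree]
      unfold ye
      omega
    refine (h3.congr (g := fun b => (yp (b ::ₘ B)).eval j) fun b => ?_).isB
    rw [← hj2, ← yp_eval (b ::ₘ B) u v huv, Multiset.cons_swap v b, Multiset.cons_swap u b]
  have h3 := h1.mul h2
  rw [Nat.add_zero] at h3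
  exact h3.mono (by omega)

end CZ
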