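import Pool.Agent.Lib.MP_216314_pr.CZ.Fd

/-!
# The induction: the exact formula from fusion and degrees
-/

set_option autoImplicit false

noncomputable section

namespace CZ

open Polynomial

/-- generic variables of the strip and the cylinder -/
def GJ (A B : Multiset ℂ) : Prop := Gen (A + B.map PX.XX) ∧ ∀ b ∈ B, b ≠ 0

theorem GJ.mono {A B A' B' : Multiset ℂ} (h : GJ A B) (hA : A' ≤ A) (hB : B' ≤ B) : GJ A' B' :=
  ⟨h.1.mono (add_le_add hA (Multiset.map_le_map hB)), fun b hb => h.2 b (Multiset.mem_of_le hB hb)⟩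

theorem GJ.left {A B : Multiset ℂ} (h : GJ A B) : Gen A := h.1.mono (Multiset.le_add_right A _)

/-- the properties of the left hand side, as a function of the `x`-variables `A` and the `z`-variables `B` -/
structure MF (M : Multiset ℂ → Multiset ℂ → ℂ) : Prop where
  base : ∀ a, M {a} 0 = 1
  fusA : ∀ (w i y : ℂ) (A B : Multiset ℂ), Tri w i y → Odd (Multiset.card A) → Even (Multiset.card B) →
    (∀ b ∈ B, b ≠ 0) → M (w ::ₘ i ::ₘ A) B =
      ((A.map (fun r => r - y)).prod ^ 2 * ((B.map PX.XX).map (fun r => r - y)).prod) * M A B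
  fusB : ∀ (b b' e : ℂ) (A B : Multiset ℂ), Tr3 b b' e → Odd (Multiset.card A) → Even (Multiset.card B) →
    (∀ b ∈ B, b ≠ 0) → M A (b ::ₘ b' ::ₘ B) = (-e * (A.map (fun r => r - PX.XX e)).prod *
      ((B.map PX.XX).map (fun r => r - PX.XX e)).prod * (B.map (fun r => r - e)).prod) * M A B
  polA : ∀ (k n : ℕ) (A B : Multiset ℂ), n ≤ 2 * k → Multiset.card A = 2 * k → Multiset.card B = 2 * n →
    GJ A B → IsL (2 * k + n) (SS A * SS (A + B.map PX.XX) * MS yb' B) (fun a => M (a ::ₘ A) B)
  polB : ∀ (k n : ℕ) (A B : Multiset ℂ), 2 * k ≤ n → Multiset.card A = 2 * k + 1 → Multiset.card B = 2 * n + 1 →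
    GJ A B → IsB (k + n) (2 * k + 3 * n + 1) (fun b => M A (b ::ₘ B))
  polB0 : ∀ (A B : Multiset ℂ), Odd (Multiset.card A) → Odd (Multiset.card B) → (∀ b ∈ B, b ≠ 0) →
    ∃ m d : ℕ, IsB m d (fun b => M A (b ::ₘ B))

/-- generic variables of the cylinder -/
def GenB (B : Multiset ℂ) : Prop := (B.map (fun b => b ^ 3)).Nodup ∧ ∀ b ∈ B, b ≠ 0

theorem CC_XX' {y : ℂ} (hy : y ≠ 0) : CC (PX.XX y) = PX.XX (y ^ 3) := by
  unfold CC PX.XX
  field_simp
  ring

theorem GJ.right {A B : Multiset ℂ} (h : GJ A B) : GenB B := by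
  refine ⟨?_, h.2⟩
  have h1 : Gen (B.map PX.XX) := h.1.mono (Multiset.le_add_left _ A)
  have h2 := h1.1
  rw [Multiset.map_map] at h2
  have h3 : B.map (CC ∘ PX.XX) = (B.map (fun b => b ^ 3)).map PX.XX := by
    rw [Multiset.map_map]
    refine Multiset.map_congr rfl fun b hb => ?_
    exact CC_XX' (h.2 b hb)
  rw [h3] at h2
  exact Multiset.Nodup.of_map _ h2

theorem GenB.mono {M N : Multiset ℂ} (h : GenB M) (hN : N ≤ M) : GenB N :=
  ⟨Multiset.nodup_of_le (Multiset.map_le_map hN) h.1, fun x hx => h.2 x (Multiset.mem_of_le hN hx)⟩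

theorem GenB.nodup {M : Multiset ℂ} (h : GenB M) : M.Nodup := Multiset.Nodup.of_map _ h.1

theorem GenB.inj {M : Multiset ℂ} (h : GenB M) {x y : ℂ} (hx : x ∈ M) (hy : y ∈ M) (hxy : x ^ 3 = y ^ 3) : x = y :=
  Multiset.inj_on_of_nodup_map h.1 x hx y hy hxy

theorem Tr3.cube_eq {b b' e : ℂ} (h : Tr3 b b' e) : b' ^ 3 = b ^ 3 := by
  rw [← h.rot.cube, ← h.cube]
  ring

theorem card_Z2B {M : Multiset ℂ} (hM : GenB M) {w w' : ℂ → ℂ} (hw : ∀ a, a ≠ 0 → Tr3 a (w a) (w' a)) :
    (M.toFinset.biUnion (fun i => ({w i, w' i} : Finset ℂ))).card = 2 * Multiset.card M := by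
  have hC : ∀ i : ℂ, i ≠ 0 → ∀ z ∈ ({w i, w' i} : Finset ℂ), z ^ 3 = i ^ 3 := by
    intro i hi z hz
    rw [Finset.mem_insert, Finset.mem_singleton] at hz
    rcases hz with h | h
    · rw [h]; exact (hw i hi).cube_eq
    · rw [h]; exact (hw i hi).sw.cube_eq
  rw [Finset.card_biUnion]
  · rw [Finset.sum_congr rfl (g := fun _ => 2), Finset.sum_const, Multiset.toFinset_card_of_nodup hM.nodup,
      smul_eq_mul, mul_comm]
    intro i hi
    rw [Multiset.mem_toFinset] at hi
    exact Finset.card_eq_two.mpr ⟨w i, w' i, (hw i (hM.2 i hi)).rot.ne, rfl⟩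
  · intro x hx y hy hxy
    rw [Finset.mem_coe, Multiset.mem_toFinset] at hx hy
    refine Finset.disjoint_left.mpr ?_
    intro z hz1 hz2
    exact hxy (hM.inj hx hy ((hC x (hM.2 x hx) z hz1).symm.trans (hC y (hM.2 y hy) z hz2)))

/-- generic points -/
theorem MF_gen {M : Multiset ℂ → Multiset ℂ → ℂ} (hF : MF M) :
    ∀ (N k n : ℕ) (A B : Multiset ℂ), k + n = N → Multiset.card A = 2 * k + 1 → Multiset.card B = 2 * n →
      GJ A B → M A B = FW A B := by
  choose w w' hw using exists_Tri
  have hex : ∀ b : ℂ, ∃ b' e : ℂ, b ≠ 0 → Tr3 b b' e := by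
    intro b
    by_cases hb : b = 0
    · exact ⟨0, 0, fun h => absurd hb h⟩
    · obtain ⟨b', e, h⟩ := exists_Tr3 hb
      exact ⟨b', e, fun _ => h⟩
  choose v v' hv using hex
  intro N
  induction N with
  | zero =>
    intro k n A B hkn hA hB _
    have hk : k = 0 := by omega
    have hn : n = 0 := by omega
    subst hk
    subst hn
    rw [Nat.mul_zero, Nat.zero_add, Multiset.card_eq_one] at hA
    obtain ⟨a, rfl⟩ := hA
    rw [Nat.mul_zero, Multiset.card_eq_zero] at hB
    subst hB
    rw [hF.base, FW_single]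
  | succ N ih =>
    intro k n A B hkn hA hB hG
    have hGA0 : Gen A := hG.left
    have hGB0 : GenB B := hG.right
    by_cases hm : n ≤ 2 * k
    · -- a variable of `A`
      rcases k with _ | k
      · omega
      obtain ⟨a, ha⟩ := Multiset.card_pos_iff_exists_mem.mp (show 0 < Multiset.card A by omega)
      obtain ⟨A', rfl⟩ := Multiset.exists_cons_of_mem ha
      rw [Multiset.card_cons] at hA
      have hcA : Multiset.card A' = 2 * (k + 1) := by omega
      have hGA : Gen A' := hGA0.mono (Multiset.le_cons_self A' a)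
      have haA : ∀ j ∈ A', a ≠ j := by
        intro j hj h
        exact hGA0.ne_cons j hj (by rw [h])
      obtain ⟨p, hp1, hp2, hp3⟩ := FW_polyA hcA hB hGA.nodup
      obtain ⟨q, hq1, hq2, hq3⟩ := hF.polA (k + 1) n A' B hm hcA hB (hG.mono (Multiset.le_cons_self A' a) le_rfl)
      have hd : (q - p).natDegree ≤ 2 * (k + 1) + n - 1 := by
        have h1 : (q - p).natDegree ≤ 2 * (k + 1) + n := (natDegree_sub_le q p).trans (max_le hq1 hp1)
        have h2 : (q - p).coeff (2 * (k + 1) + n) = 0 := by rw [coeff_sub, hq2, hp2, sub_self]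
        by_contra h3
        have h4 : (q - p).natDegree = 2 * (k + 1) + n := by omega
        rw [← h4, coeff_natDegree, leadingCoeff_eq_zero] at h2
        rw [h2, natDegree_zero] at h4
        omega
      have hP : IsP (2 * (k + 1) + n - 1) (fun x => q.eval x - p.eval x) :=
        ⟨q - p, hd, fun x => by rw [eval_sub]⟩
      have hq3' : ∀ x, M (x ::ₘ A') B = q.eval x := hq3
      have hZ := hP.eq_zero (A'.toFinset.biUnion (fun i => ({w i, w' i} : Finset ℂ))) ?_ ?_ a
      · rw [hq3' a, hp3 a haA]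
        linear_combination hZ
      · rw [card_Z2 hGA hw, hcA]
        omega
      · have key : ∀ i ∈ A', ∀ u u' : ℂ, Tri i u u' → q.eval u - p.eval u = 0 := by
          intro i hi u u' hu
          obtain ⟨n1, n2, n3⟩ := hu.ne_of_CC (hGA.2 i hi).1 (hGA.2 i hi).2
          have c1 : ∀ j ∈ A', u ≠ j := by
            intro j hj h
            have := hGA.inj hi hj (by rw [← h]; exact hu.CC_eq)
            exact n1 (this.trans h.symm)
          rw [← hq3' u, ← hp3 u c1]
          have hc : Multiset.card (A'.erase i) = 2 * k + 1 := by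
            rw [Multiset.card_erase_of_mem hi, hcA, Nat.pred_eq_sub_one]
            omega
          rw [← Multiset.cons_erase hi, FW_fuseA (A'.erase i) B hu.sw,
            hF.fusA u i u' (A'.erase i) B hu.sw (by rw [hc]; exact ⟨k, rfl⟩) (by rw [hB]; exact ⟨n, by ring⟩) hGB0.2,
            ih k n (A'.erase i) B (by omega) hc hB (hG.mono ((Multiset.erase_le i A').trans (Multiset.le_cons_self A' a)) le_rfl),
            sub_self]
          intro j hj
          refine ⟨fun h => c1 j (Multiset.mem_of_mem_erase hj) h.symm, fun h => ?_⟩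
          subst h
          exact (Multiset.Nodup.notMem_erase hGA.nodup) hj
        intro z hz
        rw [Finset.mem_biUnion] at hz
        obtain ⟨i, hi, hz⟩ := hz
        rw [Multiset.mem_toFinset] at hi
        rw [Finset.mem_insert, Finset.mem_singleton] at hz
        rcases hz with h | h
        · rw [h]
          exact key i hi _ _ (hw i)
        · rw [h]
          exact key i hi (w' i) (w i) ⟨by linear_combination (hw i).1, by linear_combination (hw i).2⟩
    · -- a variable of `B`
      rcases n with _ | n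
      · omega
      obtain ⟨b, hb⟩ := Multiset.card_pos_iff_exists_mem.mp (show 0 < Multiset.card B by omega)
      obtain ⟨B', rfl⟩ := Multiset.exists_cons_of_mem hb
      rw [Multiset.card_cons] at hB
      have hcB : Multiset.card B' = 2 * n + 1 := by omega
      have hGB : GenB B' := hGB0.mono (Multiset.le_cons_self B' b)
      have hP := (hF.polB k n A B' (by omega) hA hcB (hG.mono le_rfl (Multiset.le_cons_self B' b))).sub (FW_IsB hA hcB)
      have hb0 : b ≠ 0 := hGB0.2 b (Multiset.mem_cons_self b B')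
      have h0 := hP.eq_zero (B'.toFinset.biUnion (fun i => ({v i, v' i} : Finset ℂ))) ?_ ?_ hb0
      · linear_combination h0
      · rw [card_Z2B hGB hv, hcB]
        omega
      · have key : ∀ i ∈ B', ∀ u u' : ℂ, Tr3 i u u' → u ≠ 0 ∧ M A (u ::ₘ B') - FW A (u ::ₘ B') = 0 := by
          intro i hi u u' hu
          refine ⟨hu.ne', ?_⟩
          have hc : Multiset.card (B'.erase i) = 2 * n := by
            rw [Multiset.card_erase_of_mem hi, hcB, Nat.pred_eq_sub_one]
            omega
          have hu2 : Tr3 u i u' := hu.rot.sw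
          rw [← Multiset.cons_erase hi, FW_fuseB hu2,
            hF.fusB u i u' A (B'.erase i) hu2 (by rw [hA]; exact ⟨k, rfl⟩) (by rw [hc]; exact ⟨n, by ring⟩)
              (fun b hb => hGB.2 b (Multiset.mem_of_mem_erase hb)),
            ih k n A (B'.erase i) (by omega) hA hc
              (hG.mono le_rfl ((Multiset.erase_le i B').trans (Multiset.le_cons_self B' b))), sub_self]
        intro z hz
        rw [Finset.mem_biUnion] at hz
        obtain ⟨i, hi, hz⟩ := hz
        rw [Multiset.mem_toFinset] at hi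
        rw [Finset.mem_insert, Finset.mem_singleton] at hz
        rcases hz with h | h
        · rw [h]
          exact key i hi _ _ (hv i (hGB.2 i hi))
        · rw [h]
          exact key i hi _ _ (hv i (hGB.2 i hi)).sw

/-- many generic values -/
theorem exists_GJ (A C : Multiset ℂ) (h : GJ A C) (n : ℕ) : ∃ Z : Finset ℂ, n < Z.card ∧ ∀ z ∈ Z, GJ A (z ::ₘ C) := by
  obtain ⟨Z, hZ1, hZ2⟩ := exists_gen (A + C.map PX.XX) h.1 n
  have hex : ∀ x : ℂ, ∃ z : ℂ, z ≠ 0 ∧ PX.XX z = x := by
    intro x
    obtain ⟨u, v, h1, h2⟩ := exists_pair x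
    have hu : u ≠ 0 := left_ne_zero_of_mul (by rw [h1]; exact one_ne_zero)
    refine ⟨u, hu, ?_⟩
    unfold PX.XX
    rw [← h2, eq_comm]
    congr 1
    field_simp
    linear_combination h1
  choose f hf1 hf2 using hex
  refine ⟨Z.image f, ?_, fun z hz => ?_⟩
  · rw [Finset.card_image_of_injective]
    · exact hZ1
    · intro a b hab
      rw [← hf2 a, ← hf2 b, hab]
  · rw [Finset.mem_image] at hz
    obtain ⟨x, hx, rfl⟩ := hz
    refine ⟨?_, ?_⟩
    · rw [Multiset.map_cons, hf2, Multiset.add_cons]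
      exact hZ2 x hx
    · intro b hb
      rw [Multiset.mem_cons] at hb
      rcases hb with hb | hb
      · rw [hb]
        exact hf1 x
      · exact h.2 b hb

end CZ
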