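import Pool.Agent.Lib.MP_216314_pr.CZ.Fe

/-!
# The exact formula for arbitrary variables of the cylinder, and its value at the homogeneous point
-/

set_option autoImplicit false

noncomputable section

namespace CZ

open Polynomial Filter Topology

theorem IsB.lift {m d m' d' : ℕ} {f g : ℂ → ℂ} (hf : IsB m d f) (hg : IsB m' d' g) :
    ∃ D : ℕ, IsB (m + m') D (fun b => f b - g b) := by
  obtain ⟨p, h1, h2⟩ := hf
  obtain ⟨q, h3, h4⟩ := hg
  refine ⟨(X ^ m' * p - X ^ m * q).natDegree, X ^ m' * p - X ^ m * q, le_rfl, fun b hb => ?_⟩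
  show b ^ (m + m') * (f b - g b) = _
  rw [eval_sub, eval_mul, eval_mul, eval_pow, eval_pow, eval_X, ← h2 b hb, ← h4 b hb, pow_add]
  ring

/-- THEOREM: the exact formula, `A` generic, `B` arbitrary -/
theorem MF_eq {M : Multiset ℂ → Multiset ℂ → ℂ} (hF : MF M) {A B : Multiset ℂ} (hA : Odd (Multiset.card A))
    (hB : Even (Multiset.card B)) (hGA : Gen A) (hB0 : ∀ b ∈ B, b ≠ 0) : M A B = FW A B := by
  have key : ∀ (B' C : Multiset ℂ), Even (Multiset.card (B' + C)) → (∀ b ∈ B', b ≠ 0) → GJ A C →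
      M A (B' + C) = FW A (B' + C) := by
    intro B'
    induction B' using Multiset.induction_on with
    | empty =>
      intro C hC _ hGC
      rw [Multiset.zero_add] at hC ⊢
      obtain ⟨k, hk⟩ := hA
      obtain ⟨n, hn⟩ := hC
      exact MF_gen hF (k + n) k n A C rfl hk (by omega) hGC
    | cons b B' ih =>
      intro C hC hb0 hGC
      rw [Multiset.cons_add, Multiset.card_cons] at hC
      obtain ⟨n, hn⟩ : ∃ n, Multiset.card (B' + C) = 2 * n + 1 := by
        obtain ⟨r, hr⟩ := hC
        exact ⟨r - 1, by omega⟩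
      obtain ⟨k, hk⟩ := hA
      have h0 : ∀ x ∈ B' + C, x ≠ 0 := by
        intro x hx
        rw [Multiset.mem_add] at hx
        rcases hx with hx | hx
        · exact hb0 x (Multiset.mem_cons_of_mem hx)
        · exact hGC.2 x hx
      obtain ⟨m, d, hP1⟩ := hF.polB0 A (B' + C) ⟨k, hk⟩ ⟨n, hn⟩ h0
      obtain ⟨D, hP⟩ := hP1.lift (FW_IsB hk hn)
      obtain ⟨Z, hZ1, hZ2⟩ := exists_GJ A C hGC D
      rw [Multiset.cons_add]
      have h1 := hP.eq_zero Z hZ1 (fun z hz => by
        have h2 := hZ2 z hz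
        refine ⟨h2.2 z (Multiset.mem_cons_self z C), ?_⟩
        have h3 := ih (z ::ₘ C) (by
          rw [Multiset.add_cons, Multiset.card_cons, hn]
          exact ⟨n + 1, by ring⟩) (fun x hx => hb0 x (Multiset.mem_cons_of_mem hx)) h2
        rw [Multiset.add_cons] at h3
        rw [h3, sub_self]) (hb0 b (Multiset.mem_cons_self b B'))
      linear_combination h1
  have h := key B 0 (by rwa [Multiset.add_zero]) hB0 ⟨by rwa [Multiset.map_zero, Multiset.add_zero], by simp⟩
  rwa [Multiset.add_zero] at h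

/-- the value at the homogeneous point, for a left hand side continuous in the strip variables -/
theorem MF_hom {M : Multiset ℂ → Multiset ℂ → ℂ} (hF : MF M) {k n : ℕ} (hk : Even k) {ι : Type} (l : Filter ι)
    [l.NeBot] (N : Multiset (ι → ℂ)) (hN : Multiset.card N = k + 1) (hlim : ∀ f ∈ N, Tendsto f l (𝓝 2))
    (hG : ∀ᶠ e in l, Gen (N.map (fun f => f e))) {v : ℂ}
    (hv : Tendsto (fun e => M (N.map (fun f => f e)) (Multiset.replicate (2 * (n + 1)) 1)) l (𝓝 v)) :
    v = EE k n * SS (Multiset.replicate (k + 1) 2) * SS (Multiset.replicate (k + 1 + 2 * (n + 1)) 2) *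
      MS yb' (Multiset.replicate (2 * (n + 1)) 1) := by
  refine tendsto_nhds_unique ?_ (FW_hom hk l N hN hlim hG)
  refine Tendsto.congr' ?_ hv
  filter_upwards [hG] with e he
  refine MF_eq hF ?_ ?_ he ?_
  · rw [Multiset.card_map, hN]
    exact hk.add_one
  · rw [Multiset.card_replicate]
    exact ⟨n + 1, by ring⟩
  · intro b hb
    rw [Multiset.eq_of_mem_replicate hb]
    exact one_ne_zero

end CZ
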