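import Pool.Agent.Lib.MP_216314_pr.CZ.Ff

/-!
# Inversion of all variables in Schur functions
-/

set_option autoImplicit false

noncomputable section

namespace CZ

open Polynomial

theorem PhF_vdm (N : ℕ) (g : ℕ → ℂ[X]) (x : ℕ → ℂ) :
    (Matrix.of fun i j : Fin N => (g j).eval (x i)).det =
      (Matrix.vandermonde (fun i : Fin N => x i)).det * Q4.PhF N g x := by
  have h := Nw_mul N x (fun j => X ^ j)
  have h1 : Q4.PhF N (fun j => X ^ j) x = 1 := by
    unfold Q4.PhF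
    rw [Matrix.det_of_isUpperTriangular]
    · apply Finset.prod_eq_one
      intro i _
      rw [Matrix.of_apply, Q4.DD_X_pow, Q4.hh_self]
    · intro i j hij
      have hij' : (j : ℕ) < i := hij
      rw [Matrix.of_apply, Q4.DD_X_pow, Q4.hh_zero _ _ _ hij']
  rw [h1, mul_one] at h
  have h2 : (Matrix.of fun i j : Fin N => ((fun j => X ^ j : ℕ → ℂ[X]) j).eval (x i)) =
      Matrix.vandermonde (fun i : Fin N => x i) := by
    ext i j
    rw [Matrix.vandermonde_apply, Matrix.of_apply, eval_pow, eval_X]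
  rw [h2] at h
  rw [Nw_mul, ← h]

/-- exponents reversed, variables inverted -/
theorem det_rev (N M : ℕ) (E E' : ℕ → ℕ) (h : ∀ j, j < N → E j + E' (N - 1 - j) = M) (x : Fin N → ℂ)
    (hx : ∀ i, x i ≠ 0) : (Matrix.of fun i j : Fin N => (x i)⁻¹ ^ E j).det * (∏ i, x i) ^ M =
      ((Equiv.Perm.sign (Fin.revPerm : Equiv.Perm (Fin N)) : ℤ) : ℂ) * (Matrix.of fun i j : Fin N => x i ^ E' j).det := by
  have h1 : (Matrix.of fun i j : Fin N => x i ^ M * (x i)⁻¹ ^ E j).det =
      (∏ i, x i ^ M) * (Matrix.of fun i j : Fin N => (x i)⁻¹ ^ E j).det :=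
    Matrix.det_mul_column (fun i => x i ^ M) (Matrix.of fun i j : Fin N => (x i)⁻¹ ^ E j)
  have h2 : (Matrix.of fun i j : Fin N => x i ^ M * (x i)⁻¹ ^ E j) =
      (Matrix.of fun i j : Fin N => x i ^ E' j).submatrix id Fin.revPerm := by
    ext i j
    rw [Matrix.submatrix_apply, Matrix.of_apply, Matrix.of_apply, id, Fin.revPerm_apply, Fin.val_rev]
    have h3 := h j j.2
    have h4 : E' (N - (j + 1)) = E' (N - 1 - j) := by congr 1; omega
    rw [h4, ← h3, pow_add, inv_pow]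
    have h5 : x i ^ E j ≠ 0 := pow_ne_zero _ (hx i)
    field_simp
  rw [h2, Matrix.det_permute'] at h1
  rw [h1, Finset.prod_pow]
  ring

theorem PhF_rev (N M : ℕ) (E E' : ℕ → ℕ) (h : ∀ j, j < N → E j + E' (N - 1 - j) = M + (N - 1)) (x : ℕ → ℂ)
    (hx : ∀ i, i < N → x i ≠ 0) (hd : ∀ i j, i < N → j < N → x i = x j → i = j) :
    Q4.PhF N (fun j => X ^ E j) (fun i => (x i)⁻¹) * (∏ i : Fin N, x i) ^ M = Q4.PhF N (fun j => X ^ E' j) x := by
  have hx' : ∀ i : Fin N, x i ≠ 0 := fun i => hx i i.2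
  have h1 := det_rev N (M + (N - 1)) E E' h (fun i => x i) hx'
  have h2 := det_rev N (N - 1) (fun j => j) (fun j => j) (fun j hj => by omega) (fun i => x i) hx'
  have h3 := PhF_vdm N (fun j => X ^ E j) (fun i => (x i)⁻¹)
  have h4 := PhF_vdm N (fun j => X ^ E' j) x
  have e1 : (Matrix.of fun i j : Fin N => ((fun j => X ^ E j : ℕ → ℂ[X]) j).eval ((fun i => (x i)⁻¹) (i : ℕ))) =
      (Matrix.of fun i j : Fin N => (x i)⁻¹ ^ E j) := by
    ext i j
    rw [Matrix.of_apply, Matrix.of_apply, eval_pow, eval_X]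
  have e2 : (Matrix.of fun i j : Fin N => ((fun j => X ^ E' j : ℕ → ℂ[X]) j).eval (x i)) =
      (Matrix.of fun i j : Fin N => x i ^ E' j) := by
    ext i j
    rw [Matrix.of_apply, Matrix.of_apply, eval_pow, eval_X]
  rw [e1] at h3
  rw [e2] at h4
  have e3 : Matrix.vandermonde (fun i : Fin N => (fun i => (x i)⁻¹) (i : ℕ)) =
      (Matrix.of fun i j : Fin N => (x i)⁻¹ ^ (j : ℕ)) := by
    ext i j
    rw [Matrix.vandermonde_apply, Matrix.of_apply]
  have e4 : Matrix.vandermonde (fun i : Fin N => x i) = (Matrix.of fun i j : Fin N => x i ^ (j : ℕ)) := by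
    ext i j
    rw [Matrix.vandermonde_apply, Matrix.of_apply]
  have hv : (Matrix.of fun i j : Fin N => x i ^ (j : ℕ)).det ≠ 0 := by
    rw [← e4, Matrix.det_vandermonde_ne_zero_iff]
    intro i j hij
    exact Fin.ext (hd i j i.2 j.2 hij)
  rw [e3] at h3
  rw [e4] at h4
  have hs : ((Equiv.Perm.sign (Fin.revPerm : Equiv.Perm (Fin N)) : ℤ) : ℂ) ≠ 0 := by
    rcases Int.units_eq_one_or (Equiv.Perm.sign (Fin.revPerm : Equiv.Perm (Fin N))) with h5 | h5
    · rw [h5]
      norm_num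
    · rw [h5]
      norm_num
  generalize ((Equiv.Perm.sign (Fin.revPerm : Equiv.Perm (Fin N)) : ℤ) : ℂ) = sg at h1 h2 hs
  generalize Q4.PhF N (fun j => X ^ E j) (fun i => (x i)⁻¹) = F1 at h3 ⊢
  generalize Q4.PhF N (fun j => X ^ E' j) x = F2 at h4 ⊢
  rw [h3, h4, pow_add] at h1
  have h6 : sg * (Matrix.of fun i j : Fin N => x i ^ (j : ℕ)).det * (F1 * (∏ i : Fin N, x i) ^ M) =
      sg * (Matrix.of fun i j : Fin N => x i ^ (j : ℕ)).det * F2 := by
    linear_combination h1 - (F1 * (∏ i : Fin N, x i) ^ M) * h2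
  exact mul_left_cancel₀ (mul_ne_zero hs hv) h6

theorem ML_rev (M : ℕ) (E E' : ℕ → ℕ) (l : List ℂ) (h : ∀ j, j < l.length → E j + E' (l.length - 1 - j) =
    M + (l.length - 1)) (hx : ∀ b ∈ l, b ≠ 0) (hd : l.Nodup) :
    ML (fun j => X ^ E j) (l.map (fun b => b⁻¹)) * l.prod ^ M = ML (fun j => X ^ E' j) l := by
  unfold ML
  rw [List.length_map]
  have h1 := PhF_rev l.length M E E' h (fun i => l.getD i 0) (by
    intro i hi
    rw [List.getD_eq_getElem _ _ hi]
    exact hx _ (List.getElem_mem hi)) (by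
    intro i j hi hj hij
    rw [List.getD_eq_getElem _ _ hi, List.getD_eq_getElem _ _ hj] at hij
    exact (List.Nodup.getElem_inj_iff hd).mp hij)
  have e1 : Q4.PhF l.length (fun j => X ^ E j) (fun i => (l.map (fun b => b⁻¹)).getD i 0) =
      Q4.PhF l.length (fun j => X ^ E j) (fun i => (l.getD i 0)⁻¹) := by
    refine Q4.PhF_congr (fun j _ => rfl) fun j hj => ?_
    rw [List.getD_eq_getElem _ _ (by rwa [List.length_map]), List.getElem_map, List.getD_eq_getElem _ _ hj]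
  have e2 : l.prod = ∏ i : Fin l.length, l.getD i 0 := by
    have e3 : ∀ i : Fin l.length, l.getD i 0 = l[i] := by
      intro i
      rw [List.getD_eq_getElem _ _ i.2]
      rfl
    rw [Finset.prod_congr rfl fun i _ => e3 i]
    exact (Fin.prod_univ_getElem l).symm
  rw [e1, e2]
  exact h1

/-- the reversal for multisets -/
theorem MS_rev (M : ℕ) (E E' : ℕ → ℕ) (B : Multiset ℂ) (h : ∀ j, j < Multiset.card B →
    E j + E' (Multiset.card B - 1 - j) = M + (Multiset.card B - 1)) (hx : ∀ b ∈ B, b ≠ 0) (hd : B.Nodup) :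
    MS (fun j => X ^ E j) (B.map (fun b => b⁻¹)) * B.prod ^ M = MS (fun j => X ^ E' j) B := by
  induction B using Quotient.inductionOn with
  | h l =>
    have h1 := ML_rev M E E' l h hx (by simpa using hd)
    show MS _ ((l : Multiset ℂ).map (fun b => b⁻¹)) * (l : Multiset ℂ).prod ^ M = MS _ (l : Multiset ℂ)
    rw [Multiset.map_coe, Multiset.prod_coe, MS_coe, MS_coe]
    exact h1

/-- even number of variables -/
theorem MS_yb'_inv {n : ℕ} {B : Multiset ℂ} (hB : Multiset.card B = 2 * n) (hx : ∀ b ∈ B, b ≠ 0) (hd : B.Nodup) :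
    MS yb' (B.map (fun b => b⁻¹)) * B.prod ^ n = MS yb' B := by
  refine MS_rev n ye' ye' B ?_ hx hd
  intro j hj
  rw [hB] at hj ⊢
  unfold ye'
  omega

/-- exponents `1, 2, 4, 5, ...` -/
def yeh (j : ℕ) : ℕ := j + 1 + j / 2

theorem yb'_succ (j : ℕ) : yb' (j + 1) = X * (fun j => X ^ yeh j : ℕ → ℂ[X]) j := by
  show yb' (j + 1) = X * X ^ yeh j
  unfold yb' ye' yeh
  rw [← pow_succ']
  congr 1
  omega

/-- an odd number of variables and the variable `0` -/
theorem MS_yb'_zero_inv {n : ℕ} {B : Multiset ℂ} (hB : Multiset.card B = 2 * n + 1) (hx : ∀ b ∈ B, b ≠ 0)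
    (hd : B.Nodup) : MS yb' (0 ::ₘ B.map (fun b => b⁻¹)) * B.prod ^ (n + 1) = MS yb' B := by
  rw [MS_zero_cons yb' (fun j => X ^ yeh j) yb'_zero yb'_succ]
  refine MS_rev (n + 1) yeh ye' B ?_ hx hd
  intro j hj
  rw [hB] at hj ⊢
  unfold yeh ye'
  omega

end CZ
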