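import Pool.Agent.Lib.MP_216314_pr.CZ.Fg

/-!
# Laurent polynomials invariant under inversion
-/

set_option autoImplicit false

noncomputable section

namespace CZ

open Polynomial

theorem Fh_mirror (d : ℕ) {f : ℂ → ℂ} {p : ℂ[X]} (hp : p.natDegree ≤ d) (m : ℕ) (hm : d = 2 * m)
    (hf : ∀ t : ℂ, t ≠ 0 → t ^ m * f t = p.eval t) (hs : ∀ t : ℂ, t ≠ 0 → f t⁻¹ = f t) : p.coeff 0 = p.coeff d := by
  have hG : IsP d (fun u => (∑ k ∈ Finset.range (d + 1), p.coeff k * u ^ (d - k)) - p.eval u) := by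
    refine IsP.sub ?_ ⟨p, hp, fun x => rfl⟩
    apply IsP.fsum
    intro k _
    refine ((IsP.id.pow (d - k)).smul _).mono ?_
    omega
  have h1 := hG.eq_zero ((Finset.range (d + 1)).image (fun k : ℕ => ((k : ℂ) + 1))) (by
      rw [Finset.card_image_of_injective, Finset.card_range]
      · omega
      · intro a b hab
        have h10 : (a : ℂ) + 1 = (b : ℂ) + 1 := hab
        exact_mod_cast (add_right_cancel h10)) (by
      intro z hz
      rw [Finset.mem_image] at hz
      obtain ⟨k, _, rfl⟩ := hz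
      have hu : ((k : ℂ) + 1) ≠ 0 := by exact_mod_cast Nat.succ_ne_zero k
      generalize ((k : ℂ) + 1) = u at hu ⊢
      have h5 : u ^ d * p.eval u⁻¹ = ∑ k ∈ Finset.range (d + 1), p.coeff k * u ^ (d - k) := by
        rw [eval_eq_sum_range' (show p.natDegree < d + 1 by omega), Finset.mul_sum]
        refine Finset.sum_congr rfl fun k hk => ?_
        rw [Finset.mem_range] at hk
        have h6 : u ^ d = u ^ k * u ^ (d - k) := by
          rw [← pow_add]
          congr 1
          omega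
        have h7 : u ^ k ≠ 0 := pow_ne_zero _ hu
        rw [h6, inv_pow]
        field_simp
      have h6 := hf u⁻¹ (inv_ne_zero hu)
      rw [hs u hu] at h6
      have h7 : u ^ m ≠ 0 := pow_ne_zero _ hu
      rw [← h5, ← h6, ← hf u hu, hm, inv_pow, show 2 * m = m + m by ring, pow_add]
      field_simp
      ring) 0
  have e1 : ∑ k ∈ Finset.range (d + 1), p.coeff k * (0 : ℂ) ^ (d - k) = p.coeff d := by
    rw [Finset.sum_eq_single d]
    · rw [Nat.sub_self, pow_zero, mul_one]
    · intro k hk hkn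
      rw [Finset.mem_range] at hk
      rw [zero_pow (by omega)]
      ring
    · intro h
      exact absurd (Finset.mem_range.mpr (by omega)) h
  beta_reduce at h1
  rw [e1, ← coeff_zero_eq_eval_zero] at h1
  linear_combination -h1

/-- a Laurent polynomial invariant under inversion is a polynomial of `t + 1/t` -/
theorem sym_XX : ∀ (d : ℕ) (f : ℂ → ℂ) (p : ℂ[X]), p.natDegree ≤ 2 * d →
    (∀ t : ℂ, t ≠ 0 → t ^ d * f t = p.eval t) → (∀ t : ℂ, t ≠ 0 → f t⁻¹ = f t) →
    ∃ q : ℂ[X], q.natDegree ≤ d ∧ q.coeff d = p.coeff (2 * d) ∧ ∀ t : ℂ, t ≠ 0 → f t = q.eval (PX.XX t) := by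
  intro d
  induction d with
  | zero =>
    intro f p hp hf _
    refine ⟨p, hp, rfl, fun t ht => ?_⟩
    have h1 := hf t ht
    rw [pow_zero, one_mul] at h1
    rw [h1, eq_C_of_natDegree_le_zero hp, eval_C, eval_C]
  | succ d ih =>
    intro f p hp hf hs
    have hX : ((X ^ 2 + 1 : ℂ[X]) ^ (d + 1)).natDegree ≤ 2 * (d + 1) := by
      refine natDegree_pow_le.trans ?_
      have h2 : (X ^ 2 + 1 : ℂ[X]).natDegree ≤ 2 := by compute_degree
      calc (d + 1) * (X ^ 2 + 1 : ℂ[X]).natDegree ≤ (d + 1) * 2 := Nat.mul_le_mul_left _ h2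
        _ = 2 * (d + 1) := by ring
    have hXc : ((X ^ 2 + 1 : ℂ[X]) ^ (d + 1)).coeff (2 * (d + 1)) = 1 := by
      have hm : (X ^ 2 + 1 : ℂ[X]).Monic := by monicity!
      have h2 : (X ^ 2 + 1 : ℂ[X]).natDegree = 2 := by compute_degree!
      have h3 := (hm.pow (d + 1)).coeff_natDegree
      rw [natDegree_pow, h2, mul_comm] at h3
      exact h3
    have hxx : ∀ t : ℂ, t ≠ 0 → t * PX.XX t = t ^ 2 + 1 := by
      intro t ht
      unfold PX.XX
      field_simp
    obtain ⟨l, hl⟩ : ∃ l : ℂ, l = p.coeff (2 * (d + 1)) := ⟨_, rfl⟩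
    obtain ⟨p1, hp1⟩ : ∃ p1 : ℂ[X], p1 = p - C l * (X ^ 2 + 1) ^ (d + 1) := ⟨_, rfl⟩
    have hd1 : p1.natDegree ≤ 2 * (d + 1) := by
      rw [hp1]
      exact (natDegree_sub_le _ _).trans (max_le hp ((natDegree_C_mul_le _ _).trans hX))
    have hc1 : p1.coeff (2 * (d + 1)) = 0 := by
      rw [hp1, coeff_sub, coeff_C_mul, hXc, hl]
      ring
    have hf1 : ∀ t : ℂ, t ≠ 0 → t ^ (d + 1) * (f t - l * PX.XX t ^ (d + 1)) = p1.eval t := by
      intro t ht
      rw [hp1, eval_sub, eval_mul, eval_C, eval_pow, eval_add, eval_pow, eval_X, eval_one, mul_sub, hf t ht,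
        ← hxx t ht, mul_pow]
      ring
    have hs1 : ∀ t : ℂ, t ≠ 0 → f t⁻¹ - l * PX.XX t⁻¹ ^ (d + 1) = f t - l * PX.XX t ^ (d + 1) := by
      intro t ht
      have h2 : PX.XX t⁻¹ = PX.XX t := by
        unfold PX.XX
        rw [inv_inv, add_comm]
      rw [hs t ht, h2]
    have h0 := Fh_mirror (2 * (d + 1)) hd1 (d + 1) rfl hf1 hs1
    rw [hc1] at h0
    obtain ⟨p2, hp2⟩ := X_dvd_iff.mpr h0
    have hd2 : p2.natDegree ≤ 2 * d := by
      by_cases hz : p2 = 0
      · rw [hz, natDegree_zero]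
        omega
      · have h2 : p1.natDegree = 1 + p2.natDegree := by
          rw [hp2, natDegree_mul X_ne_zero hz, natDegree_X]
        have h3 : p1.natDegree ≠ 2 * (d + 1) := by
          intro h4
          rw [← h4, coeff_natDegree, leadingCoeff_eq_zero] at hc1
          rw [hc1, natDegree_zero] at h4
          omega
        omega
    obtain ⟨q2, hq1, _, hq3⟩ := ih (fun t => f t - l * PX.XX t ^ (d + 1)) p2 hd2 (by
      intro t ht
      have h2 := hf1 t ht
      rw [hp2, eval_mul, eval_X, pow_succ'] at h2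
      apply mul_left_cancel₀ ht
      rw [← h2]
      ring) hs1
    refine ⟨q2 + C l * X ^ (d + 1), ?_, ?_, fun t ht => ?_⟩
    · refine (natDegree_add_le _ _).trans (max_le (by omega) ?_)
      exact (natDegree_C_mul_le _ _).trans (natDegree_X_pow_le _)
    · rw [coeff_add, coeff_C_mul, coeff_X_pow_self, coeff_eq_zero_of_natDegree_lt (by omega), hl]
      ring
    · have h2 := hq3 t ht
      beta_reduce at h2
      rw [eval_add, eval_mul, eval_C, eval_pow, eval_X, ← h2]
      ring

theorem Fh_eval (P : MvPolynomial ℕ ℂ) (y : ℕ → ℂ) (i : ℕ) (t : ℂ) :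
    (MvPolynomial.aeval (fun k => if k = i then (X : ℂ[X]) else C (y k)) P).eval t =
      MvPolynomial.eval (Function.update y i t) P := by
  induction P using MvPolynomial.induction_on with
  | C a =>
    rw [MvPolynomial.aeval_C, MvPolynomial.eval_C]
    simp
  | add p q h4 h5 => rw [map_add, map_add, eval_add, h4, h5]
  | mul_X p k h4 =>
    rw [map_mul, map_mul, MvPolynomial.aeval_X, MvPolynomial.eval_X, eval_mul, h4]
    by_cases h : k = i
    · rw [if_pos h, eval_X, h, Function.update_self]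
    · rw [if_neg h, eval_C, Function.update_of_ne h]

/-- one variable of a Laurent polynomial -/
theorem Lau_IsB {L : ℕ} {f : (ℕ → ℂ) → ℂ} (hf : PX.Lau L f) {y : ℕ → ℂ} (hy : PX.NZ L y) {i : ℕ} (hi : i < L) :
    ∃ m d : ℕ, IsB m d (fun t => f (Function.update y i t)) := by
  obtain ⟨P, N, hP⟩ := hf
  have hne : (∏ k ∈ (Finset.range L).erase i, y k) ^ N ≠ 0 := by
    apply pow_ne_zero
    rw [Finset.prod_ne_zero_iff]
    intro k hk
    rw [Finset.mem_erase, Finset.mem_range] at hk
    exact hy k hk.2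
  let q : ℂ[X] := C ((∏ k ∈ (Finset.range L).erase i, y k) ^ N)⁻¹ *
    MvPolynomial.aeval (fun k => if k = i then (X : ℂ[X]) else C (y k)) P
  refine ⟨N, q.natDegree, q, le_rfl, fun t ht => ?_⟩
  have h1 := hP (Function.update y i t) (by
    intro k hk
    by_cases h : k = i
    · rw [h, Function.update_self]
      exact ht
    · rw [Function.update_of_ne h]
      exact hy k hk)
  have h2 : ∏ k ∈ Finset.range L, Function.update y i t k = t * ∏ k ∈ (Finset.range L).erase i, y k := by
    rw [← Finset.mul_prod_erase _ _ (Finset.mem_range.mpr hi), Function.update_self]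
    congr 1
    refine Finset.prod_congr rfl fun k hk => ?_
    rw [Finset.mem_erase] at hk
    rw [Function.update_of_ne hk.1]
  show t ^ N * f (Function.update y i t) = (C ((∏ k ∈ (Finset.range L).erase i, y k) ^ N)⁻¹ *
    MvPolynomial.aeval (fun k => if k = i then (X : ℂ[X]) else C (y k)) P).eval t
  rw [eval_mul, eval_C, Fh_eval, ← h1, h2, mul_pow]
  generalize (∏ k ∈ (Finset.range L).erase i, y k) ^ N = Q at hne ⊢
  field_simp

end CZ
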