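import Pool.Agent.Lib.MP_216314_pr.CZ.Fh

/-!
# Symmetric functions of the arguments as functions of multisets
-/

set_option autoImplicit false

noncomputable section

namespace CZ

open Polynomial

/-- the arguments as a list -/
def yl (l : List ℂ) : ℕ → ℂ := fun i => l.getD i 1

theorem yl_nz {l : List ℂ} (h : ∀ b ∈ l, b ≠ 0) (i : ℕ) : yl l i ≠ 0 := by
  unfold yl
  by_cases hi : i < l.length
  · rw [List.getD_eq_getElem _ _ hi]
    exact h _ (List.getElem_mem hi)
  · rw [List.getD_eq_default _ _ (by omega)]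
    exact one_ne_zero

theorem yl_left {p q : List ℂ} {i : ℕ} (h : i < p.length) : yl (p ++ q) i = yl p i := List.getD_append p q 1 i h

theorem yl_right {p q : List ℂ} {i : ℕ} (h : p.length ≤ i) : yl (p ++ q) i = yl q (i - p.length) :=
  List.getD_append_right p q 1 i h

theorem yl_zero (x : ℂ) (l : List ℂ) : yl (x :: l) 0 = x := rfl

theorem yl_succ (x : ℂ) (l : List ℂ) (i : ℕ) : yl (x :: l) (i + 1) = yl l i := rfl

theorem yl_sw (p q : List ℂ) (x y : ℂ) : PX.sw p.length (yl (p ++ x :: y :: q)) = yl (p ++ y :: x :: q) := by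
  funext k
  show yl (p ++ x :: y :: q) (Equiv.swap p.length (p.length + 1) k) = _
  by_cases h1 : k = p.length
  · subst h1
    rw [Equiv.swap_apply_left, yl_right (by omega), yl_right le_rfl, Nat.add_sub_cancel_left, Nat.sub_self]
    rfl
  · by_cases h2 : k = p.length + 1
    · subst h2
      rw [Equiv.swap_apply_right, yl_right le_rfl, yl_right (by omega), Nat.add_sub_cancel_left, Nat.sub_self]
      rfl
    · rw [Equiv.swap_apply_of_ne_of_ne h1 h2]
      by_cases h3 : k < p.length
      · rw [yl_left h3, yl_left h3]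
      · obtain ⟨j, rfl⟩ : ∃ j, k = p.length + (j + 2) := ⟨k - p.length - 2, by omega⟩
        rw [yl_right (by omega), yl_right (by omega), Nat.add_sub_cancel_left]
        rfl

theorem yl_iv (p q : List ℂ) (x : ℂ) : PX.iv p.length (yl (p ++ x :: q)) = yl (p ++ x⁻¹ :: q) := by
  funext k
  unfold PX.iv
  by_cases h1 : k = p.length
  · subst h1
    rw [Function.update_self, yl_right le_rfl, yl_right le_rfl, Nat.sub_self]
    rfl
  · rw [Function.update_of_ne h1]
    by_cases h3 : k < p.length
    · rw [yl_left h3, yl_left h3]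
    · obtain ⟨j, rfl⟩ : ∃ j, k = p.length + (j + 1) := ⟨k - p.length - 1, by omega⟩
      rw [yl_right (by omega), yl_right (by omega), Nat.add_sub_cancel_left]
      rfl

/-- symmetric in the two groups, invariant under inversion in the first group -/
structure SyF (c L : ℕ) (F : (ℕ → ℂ) → ℂ) : Prop where
  loc : ∀ y y' : ℕ → ℂ, (∀ i, i < L → y i = y' i) → F y = F y'
  sw : ∀ (i : ℕ) (y : ℕ → ℂ), PX.NZ L y → (i + 1 < c ∨ (c ≤ i ∧ i + 1 < L)) → F (PX.sw i y) = F y
  iv : ∀ (i : ℕ) (y : ℕ → ℂ), PX.NZ L y → i < c → F (PX.iv i y) = F y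

theorem SyF.perm {c L : ℕ} {F : (ℕ → ℂ) → ℂ} (hF : SyF c L F) {l l' : List ℂ} (h : l.Perm l') :
    ∀ p q : List ℂ, (∀ b ∈ p ++ l ++ q, b ≠ 0) →
      (p.length + l.length ≤ c ∨ (c ≤ p.length ∧ p.length + l.length ≤ L)) →
      F (yl (p ++ l ++ q)) = F (yl (p ++ l' ++ q)) := by
  induction h with
  | nil => intro p q _ _; rfl
  | @cons x l l' h ih =>
    intro p q hne hl
    have e : ∀ t : List ℂ, p ++ (x :: t) ++ q = (p ++ [x]) ++ t ++ q := by
      intro t
      simp
    rw [e, e]
    refine ih (p ++ [x]) q ?_ ?_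
    · rw [← e]
      exact hne
    · rw [List.length_append, List.length_singleton]
      rw [List.length_cons] at hl
      omega
  | swap x y l =>
    intro p q hne hl
    have e : ∀ x y : ℂ, p ++ (x :: y :: l) ++ q = p ++ x :: y :: (l ++ q) := by
      intro x y
      simp
    rw [e] at hne
    rw [e, e, ← yl_sw]
    rw [List.length_cons, List.length_cons] at hl
    have hne2 : ∀ b ∈ p ++ x :: y :: (l ++ q), b ≠ 0 := by
      intro b hb
      apply hne b
      simp only [List.mem_append, List.mem_cons] at hb ⊢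
      tauto
    exact hF.sw p.length _ (fun k _ => yl_nz hne2 k) (by omega)
  | @trans l1 l2 l3 h1 h2 ih1 ih2 =>
    intro p q hne hl
    rw [ih1 p q hne hl]
    refine ih2 p q ?_ ?_
    · intro b hb
      apply hne b
      rw [List.mem_append, List.mem_append] at hb ⊢
      rw [h1.mem_iff]
      exact hb
    · rw [← h1.length_eq]
      exact hl

theorem XX_eq {x y : ℂ} (hx : x ≠ 0) (hy : y ≠ 0) (h : PX.XX x = PX.XX y) : y = x ∨ y = x⁻¹ := by
  unfold PX.XX at h
  have h1 : (y - x) * (x * y - 1) = 0 := by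
    field_simp at h
    linear_combination -h
  rcases mul_eq_zero.mp h1 with h2 | h2
  · left
    linear_combination h2
  · right
    field_simp
    linear_combination h2

theorem SyF.inv {c L : ℕ} {F : (ℕ → ℂ) → ℂ} (hF : SyF c L F) : ∀ (l l' : List ℂ), l.map PX.XX = l'.map PX.XX →
    ∀ p q : List ℂ, (∀ b ∈ p ++ l ++ q, b ≠ 0) → (∀ b ∈ l', b ≠ 0) → p.length + l.length ≤ c →
      F (yl (p ++ l ++ q)) = F (yl (p ++ l' ++ q)) := by
  intro l
  induction l with
  | nil =>
    intro l' h p q _ _ _
    rw [List.map_nil] at h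
    rw [List.map_eq_nil_iff.mp h.symm]
  | cons x t ih =>
    intro l' h p q hne hne' hl
    rcases l' with _ | ⟨x', t'⟩
    · simp at h
    · rw [List.map_cons, List.map_cons, List.cons_eq_cons] at h
      obtain ⟨h1, h2⟩ := h
      have hx : x ≠ 0 := hne x (by simp)
      have hx' : x' ≠ 0 := hne' x' (by simp)
      have e : ∀ (x : ℂ) (t : List ℂ), p ++ (x :: t) ++ q = (p ++ [x]) ++ t ++ q := by
        intro x t
        simp
      have e2 : ∀ x : ℂ, p ++ (x :: t) ++ q = p ++ x :: (t ++ q) := by
        intro x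
        simp
      rw [List.length_cons] at hl
      have h3 : F (yl (p ++ (x :: t) ++ q)) = F (yl (p ++ (x' :: t) ++ q)) := by
        rcases XX_eq hx hx' h1 with h4 | h4
        · rw [h4]
        · rw [h4, e2, e2, ← yl_iv]
          rw [e2] at hne
          exact (hF.iv p.length _ (fun k _ => yl_nz hne k) (by omega)).symm
      rw [h3, e, e x' t']
      refine ih t' h2 (p ++ [x']) q ?_ (fun b hb => hne' b (List.mem_cons_of_mem x' hb)) ?_
      · intro b hb
        simp only [List.mem_append, List.mem_singleton] at hb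
        rcases hb with ((hb | hb) | hb) | hb
        · exact hne b (by simp [hb])
        · rw [hb]
          exact hx'
        · exact hne b (by simp [hb])
        · exact hne b (by simp [hb])
      · rw [List.length_append, List.length_singleton]
        omega

theorem perm_lift : ∀ (l' l : List ℂ), (l.map PX.XX).Perm (l'.map PX.XX) →
    ∃ l'' : List ℂ, l.Perm l'' ∧ l''.map PX.XX = l'.map PX.XX := by
  intro l'
  induction l' with
  | nil =>
    intro l h
    rw [List.map_nil, List.perm_nil, List.map_eq_nil_iff] at h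
    exact ⟨[], by rw [h], rfl⟩
  | cons x' t' ih =>
    intro l h
    have h1 : PX.XX x' ∈ l.map PX.XX := by
      rw [h.mem_iff]
      simp
    rw [List.mem_map] at h1
    obtain ⟨x, hx, h2⟩ := h1
    have h3 : l.Perm (x :: l.erase x) := List.perm_cons_erase hx
    have h4 : (PX.XX x :: (l.erase x).map PX.XX).Perm (PX.XX x :: t'.map PX.XX) := by
      have h5 := (h3.map PX.XX).symm.trans h
      rw [List.map_cons, List.map_cons, ← h2] at h5
      exact h5
    obtain ⟨l'', h6, h7⟩ := ih (l.erase x) (List.Perm.cons_inv h4)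
    refine ⟨x :: l'', h3.trans (h6.cons x), ?_⟩
    rw [List.map_cons, List.map_cons, h7, h2]

theorem SyF.eq {c L : ℕ} {F : (ℕ → ℂ) → ℂ} (hF : SyF c L F) {lA lA' lB lB' : List ℂ}
    (hA : (lA.map PX.XX).Perm (lA'.map PX.XX)) (hB : lB.Perm lB') (h1 : ∀ b ∈ lA, b ≠ 0) (h2 : ∀ b ∈ lA', b ≠ 0)
    (h3 : ∀ b ∈ lB, b ≠ 0) (hc : lA.length = c) (hL : c + lB.length = L) :
    F (yl (lA ++ lB)) = F (yl (lA' ++ lB')) := by
  obtain ⟨l, h4, h5⟩ := perm_lift lA' lA hA
  have h6 : ∀ b ∈ l, b ≠ 0 := fun b hb => h1 b (h4.mem_iff.mpr hb)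
  have e1 := hF.perm h4 [] lB (by
    intro b hb
    rw [List.nil_append, List.mem_append] at hb
    rcases hb with hb | hb
    · exact h1 b hb
    · exact h3 b hb) (by
    left
    rw [List.length_nil]
    omega)
  have e2 := hF.inv l lA' h5 [] lB (by
    intro b hb
    rw [List.nil_append, List.mem_append] at hb
    rcases hb with hb | hb
    · exact h6 b hb
    · exact h3 b hb) h2 (by
    rw [List.length_nil, ← h4.length_eq]
    omega)
  have hl : lA'.length = c := by
    have h7 := congrArg List.length h5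
    rw [List.length_map, List.length_map] at h7
    rw [← h7, ← h4.length_eq, hc]
  have e3 := hF.perm hB lA' [] (by
    intro b hb
    rw [List.append_nil, List.mem_append] at hb
    rcases hb with hb | hb
    · exact h2 b hb
    · exact h3 b hb) (by
    right
    omega)
  rw [List.nil_append, List.nil_append] at e1 e2
  rw [List.append_nil, List.append_nil] at e3
  rw [e1, e2, e3]

theorem exists_XX (x : ℂ) : ∃ z : ℂ, z ≠ 0 ∧ PX.XX z = x := by
  obtain ⟨u, v, h1, h2⟩ := exists_pair x
  have hu : u ≠ 0 := left_ne_zero_of_mul (by rw [h1]; exact one_ne_zero)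
  refine ⟨u, hu, ?_⟩
  unfold PX.XX
  rw [← h2, eq_comm]
  congr 1
  field_simp
  linear_combination h1

/-- a number with given `z + 1/z` -/
def zx (x : ℂ) : ℂ := Classical.choose (exists_XX x)

theorem zx_ne (x : ℂ) : zx x ≠ 0 := (Classical.choose_spec (exists_XX x)).1

theorem zx_XX (x : ℂ) : PX.XX (zx x) = x := (Classical.choose_spec (exists_XX x)).2

/-- the function of multisets -/
def MN (N : ℕ → ℕ → (ℕ → ℂ) → ℂ) (A B : Multiset ℂ) : ℂ :=
  N (Multiset.card A) (Multiset.card B / 2) (yl (A.toList.map zx ++ B.toList))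

theorem MN_eq {N : ℕ → ℕ → (ℕ → ℂ) → ℂ} {c n : ℕ} (hN : SyF c (c + 2 * n) (N c n)) {lA lB : List ℂ}
    (h1 : ∀ b ∈ lA, b ≠ 0) (h2 : ∀ b ∈ lB, b ≠ 0) (hc : lA.length = c) (hn : lB.length = 2 * n)
    {A B : Multiset ℂ} (hA : A = (lA.map PX.XX : List ℂ)) (hB : B = (lB : List ℂ)) :
    MN N A B = N c n (yl (lA ++ lB)) := by
  unfold MN
  have cA : Multiset.card A = c := by
    rw [hA, Multiset.coe_card, List.length_map, hc]
  have cB : Multiset.card B / 2 = n := by
    rw [hB, Multiset.coe_card, hn]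
    omega
  rw [cA, cB]
  refine hN.eq ?_ ?_ ?_ h1 ?_ ?_ ?_
  · have e : (A.toList.map zx).map PX.XX = A.toList := by
      rw [List.map_map]
      have e1 : (PX.XX ∘ zx) = id := by
        funext x
        exact zx_XX x
      rw [e1, List.map_id]
    rw [e, ← Multiset.coe_eq_coe, Multiset.coe_toList, hA]
  · rw [← Multiset.coe_eq_coe, Multiset.coe_toList, hB]
  · intro b hb
    rw [List.mem_map] at hb
    obtain ⟨x, _, rfl⟩ := hb
    exact zx_ne x
  · intro b hb
    rw [Multiset.mem_toList, hB] at hb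
    exact h2 b hb
  · rw [List.length_map, Multiset.length_toList, cA]
  · rw [Multiset.length_toList, hB, Multiset.coe_card, hn]

end CZ
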