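import Pool.Agent.Lib.MP_216314_pr.CZ.Fi
import Pool.Agent.Lib.MP_216314_pr.X.GenA
import Pool.Agent.Lib.MP_216314_pr.X.FusI

/-!
# From functions of sequences to functions of multisets: the hypotheses of the induction
-/

set_option autoImplicit false

noncomputable section

namespace CZ

open Polynomial

theorem yl_prod (l : List ℂ) (f : ℂ → ℂ) : ∏ k ∈ Finset.range l.length, f (yl l k) = (l.map f).prod := by
  induction l with
  | nil => simp
  | cons a l ih =>
    rw [List.length_cons, Finset.prod_range_succ', List.map_cons, List.prod_cons, ← ih, mul_comm]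
    rfl

theorem yl_prod_left (lA lB : List ℂ) (f : ℂ → ℂ) {c : ℕ} (hc : lA.length = c) :
    ∏ k ∈ Finset.range c, f (yl (lA ++ lB) k) = (lA.map f).prod := by
  rw [← yl_prod, hc]
  refine Finset.prod_congr rfl fun k hk => ?_
  rw [Finset.mem_range] at hk
  rw [yl_left (by omega)]

theorem yl_prod_right (lA lB : List ℂ) (f : ℂ → ℂ) {c m : ℕ} (hc : lA.length = c) (hm : lB.length = m) :
    ∏ k ∈ Finset.range m, f (yl (lA ++ lB) (k + c)) = (lB.map f).prod := by
  rw [← yl_prod, hm]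
  refine Finset.prod_congr rfl fun k hk => ?_
  rw [yl_right (by omega), hc, Nat.add_sub_cancel]

theorem yl_prod_all (lA lB : List ℂ) (f : ℂ → ℂ) {L : ℕ} (hL : lA.length + lB.length = L) :
    ∏ k ∈ Finset.range L, f (yl (lA ++ lB) k) = (lA.map f).prod * (lB.map f).prod := by
  rw [← hL, ← List.length_append, yl_prod, List.map_append, List.prod_append]

theorem yl_range (l : List ℂ) (f : ℂ → ℂ) : (Multiset.range l.length).map (fun k => f (yl l k)) = (l.map f : List ℂ) := by
  have h : (List.range l.length).map (fun k => f (yl l k)) = l.map f := by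
    apply List.ext_getElem
    · rw [List.length_map, List.length_range, List.length_map]
    · intro i h1 h2
      rw [List.getElem_map, List.getElem_map, List.getElem_range]
      unfold yl
      rw [List.length_map] at h2
      rw [List.getD_eq_getElem _ _ h2]
  rw [← h]
  rfl

/-- the `x`-variables of the strip -/
def XA (c : ℕ) (y : ℕ → ℂ) : Multiset ℂ := (Multiset.range c).map (fun i => PX.XX (y i))

/-- the variables of the cylinder -/
def ZB (c n : ℕ) (y : ℕ → ℂ) : Multiset ℂ := (Multiset.range (2 * n)).map (fun i => y (i + c))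

theorem XA_yl (lA lB : List ℂ) {c : ℕ} (hc : lA.length = c) : XA c (yl (lA ++ lB)) = (lA.map PX.XX : List ℂ) := by
  rw [← yl_range]
  unfold XA
  rw [hc]
  refine Multiset.map_congr rfl fun k hk => ?_
  rw [Multiset.mem_range] at hk
  rw [yl_left (by omega)]

theorem XA_yl_all (lA lB : List ℂ) {L : ℕ} (hL : lA.length + lB.length = L) :
    XA L (yl (lA ++ lB)) = (lA.map PX.XX : List ℂ) + (lB.map PX.XX : List ℂ) := by
  rw [Multiset.coe_add, ← List.map_append, ← yl_range]
  unfold XA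
  rw [List.length_append, hL]

theorem ZB_yl (lA lB : List ℂ) {c n : ℕ} (hc : lA.length = c) (hn : lB.length = 2 * n) :
    ZB c n (yl (lA ++ lB)) = (lB : List ℂ) := by
  have h := yl_range lB (fun x => x)
  have e : (lB.map (fun x => x)) = lB := List.map_id' lB
  rw [e] at h
  rw [← h]
  unfold ZB
  rw [hn]
  refine Multiset.map_congr rfl fun k hk => ?_
  rw [yl_right (by omega), hc, Nat.add_sub_cancel]

/-- the properties of the left hand side as a function of sequences: arguments `0, ..., c - 1` for the strip and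
`c, ..., c + 2 n - 1` for the cylinder -/
structure NFacts (N : ℕ → ℕ → (ℕ → ℂ) → ℂ) : Prop where
  sy : ∀ c n, Odd c → SyF c (c + 2 * n) (N c n)
  zero : ∀ y : ℕ → ℂ, y 0 ≠ 0 → N 1 0 y = 1
  fusA : ∀ (c n : ℕ) (u : ℂ) (w : ℕ → ℂ), Odd c → u ≠ 0 → PX.NZ (c + 2 * n) w →
    N (c + 2) n (PX.ip 0 u w) = PX.Kf (c + 2 * n) u w * PX.Kf c u w * N c n w
  fusB : ∀ (c n : ℕ) (u : ℂ) (w : ℕ → ℂ), Odd c → u ≠ 0 → PX.NZ (c + 2 * n) w →
    N c (n + 1) (PX.ip c u w) = PX.om ^ 2 * u * PX.Kf (c + 2 * n) u w *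
      (∏ k ∈ Finset.range (2 * n), (w (k + c) - PX.om ^ 2 * u)) * N c n w
  polA : ∀ (k n : ℕ) (y : ℕ → ℂ), PX.Gen (2 * k + 2 * n) (CF.sh 1 y) → ∃ p : ℂ[X], p.natDegree ≤ 2 * (2 * k + n) ∧
    p.coeff (2 * (2 * k + n)) = SS (XA (2 * k) (CF.sh 1 y)) * SS (XA (2 * k + 2 * n) (CF.sh 1 y)) *
      MS yb' (ZB (2 * k) n (CF.sh 1 y)) ∧
    ∀ t : ℂ, t ≠ 0 → t ^ (2 * k + n) * N (2 * k + 1) n (Function.update y 0 t) = p.eval t
  polB : ∀ (k n : ℕ) (y : ℕ → ℂ), PX.Gen (2 * k + 2 * n + 2) y →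
    IsB (k + n) (2 * k + 3 * n + 1) (fun t => N (2 * k + 1) (n + 1) (Function.update y (2 * k + 2 * n + 2) t))
  lau : ∀ (k n : ℕ) (y : ℕ → ℂ), PX.NZ (2 * k + 2 * n + 2) y → ∃ m d : ℕ,
    IsB m d (fun t => N (2 * k + 1) (n + 1) (Function.update y (2 * k + 2 * n + 2) t))

/-- the third and the second root -/
theorem Tri_XX {w i y : ℂ} (h : Tri w i y) : ∃ u : ℂ, u ≠ 0 ∧ PX.XX u = w ∧ PX.XX (PX.om * u) = i ∧
    PX.XX (PX.om ^ 2 * u) = y := by
  obtain ⟨u, hu, hw⟩ := exists_XX w
  have h3 : PX.om ^ 3 = 1 := PX.om_cube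
  have h1 : 1 + PX.om + PX.om ^ 2 = 0 := by linear_combination PX.om_eq
  have h0 : PX.om ≠ 0 := PX.om_ne_zero
  have ht : Tr3 u (PX.om * u) (PX.om ^ 2 * u) := by
    refine ⟨?_, ?_, hu⟩
    · linear_combination u * h1
    · linear_combination (u ^ 2 * PX.om) * h1
  have hT := XX_Tri ht
  rw [hw] at hT
  have e1 : i + y = PX.XX (PX.om * u) + PX.XX (PX.om ^ 2 * u) := by linear_combination h.1 - hT.1
  have e2 : i * y = PX.XX (PX.om * u) * PX.XX (PX.om ^ 2 * u) := by
    linear_combination h.2 - hT.2 - w * e1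
  have e3 : (i - PX.XX (PX.om * u)) * (i - PX.XX (PX.om ^ 2 * u)) = 0 := by
    linear_combination e2 * (-1) + i * e1
  rcases mul_eq_zero.mp e3 with h4 | h4
  · have h5 : i = PX.XX (PX.om * u) := by linear_combination h4
    exact ⟨u, hu, hw, h5.symm, by linear_combination h5 - e1⟩
  · have h5 : i = PX.XX (PX.om ^ 2 * u) := by linear_combination h4
    have h6 : y = PX.XX (PX.om * u) := by linear_combination e1 - h5
    have i1 : PX.XX (PX.om * u⁻¹) = PX.XX (PX.om ^ 2 * u) := by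
      unfold PX.XX
      have e5 : (PX.om * u⁻¹)⁻¹ = PX.om ^ 2 * u := by
        field_simp
        linear_combination -h3
      have e6 : (PX.om ^ 2 * u)⁻¹ = PX.om * u⁻¹ := by
        rw [← e5, inv_inv]
      rw [e5, e6, add_comm]
    have i2 : PX.XX (PX.om ^ 2 * u⁻¹) = PX.XX (PX.om * u) := by
      unfold PX.XX
      have e5 : (PX.om ^ 2 * u⁻¹)⁻¹ = PX.om * u := by
        field_simp
        linear_combination -h3
      have e6 : (PX.om * u)⁻¹ = PX.om ^ 2 * u⁻¹ := by
        rw [← e5, inv_inv]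
      rw [e5, e6, add_comm]
    refine ⟨u⁻¹, inv_ne_zero hu, ?_, ?_, ?_⟩
    · rw [← hw]
      unfold PX.XX
      rw [inv_inv, add_comm]
    · rw [i1, h5]
    · rw [i2, h6]

theorem Tr3_cases {b b' e : ℂ} (h : Tr3 b b' e) : (b' = PX.om * b ∧ e = PX.om ^ 2 * b) ∨
    (b = PX.om * b' ∧ e = PX.om ^ 2 * b') := by
  have h3 : PX.om ^ 3 = 1 := PX.om_cube
  have h1 : 1 + PX.om + PX.om ^ 2 = 0 := by linear_combination PX.om_eq
  have e1 : (b' - PX.om * b) * (b' - PX.om ^ 2 * b) = 0 := by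
    linear_combination h.sq - (b * b') * h1 + b ^ 2 * h3
  rcases mul_eq_zero.mp e1 with h4 | h4
  · left
    have h5 : b' = PX.om * b := by linear_combination h4
    refine ⟨h5, ?_⟩
    linear_combination h.1 - h4 - b * h1
  · right
    have h5 : b' = PX.om ^ 2 * b := by linear_combination h4
    refine ⟨?_, ?_⟩
    · linear_combination (-PX.om) * h5 - b * h3
    · linear_combination h.1 - b' * h1 + PX.om * h5 + b * h3

theorem Gen_yl {l : List ℂ} (h0 : ∀ b ∈ l, b ≠ 0) (h : Gen ((l.map PX.XX : List ℂ) : Multiset ℂ)) :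
    PX.Gen l.length (yl l) := by
  have hC : ∀ i, i < l.length → CC (PX.XX (yl l i)) = PX.XX (yl l i ^ 3) := fun i _ => CC_XX' (yl_nz h0 i)
  have hmem : ∀ i, i < l.length → PX.XX (yl l i) ∈ ((l.map PX.XX : List ℂ) : Multiset ℂ) := by
    intro i hi
    rw [Multiset.mem_coe, List.mem_map]
    refine ⟨yl l i, ?_, rfl⟩
    unfold yl
    rw [List.getD_eq_getElem _ _ hi]
    exact List.getElem_mem hi
  refine ⟨fun i _ => yl_nz h0 i, fun i hi h6 => ?_, fun i j hi hj hij => ?_⟩
  · obtain ⟨h1, h2⟩ := h.2 _ (hmem i hi)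
    rw [hC i hi] at h1 h2
    have h7 : (yl l i ^ 3 - 1) * (yl l i ^ 3 + 1) = 0 := by linear_combination h6
    rcases mul_eq_zero.mp h7 with h8 | h8
    · apply h1
      rw [show yl l i ^ 3 = 1 by linear_combination h8]
      unfold PX.XX
      norm_num
    · apply h2
      rw [show yl l i ^ 3 = -1 by linear_combination h8]
      unfold PX.XX
      norm_num
  · have h1 := h.1
    rw [Multiset.map_coe, Multiset.coe_nodup, List.map_map] at h1
    have h2 : CC (PX.XX (yl l i)) ≠ CC (PX.XX (yl l j)) := by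
      intro h3
      apply hij
      have h4 : (l.map (CC ∘ PX.XX))[i]'(by rwa [List.length_map]) =
          (l.map (CC ∘ PX.XX))[j]'(by rwa [List.length_map]) := by
        rw [List.getElem_map, List.getElem_map, Function.comp_apply, Function.comp_apply]
        unfold yl at h3
        rw [List.getD_eq_getElem _ _ hi, List.getD_eq_getElem _ _ hj] at h3
        exact h3
      exact (List.Nodup.getElem_inj_iff h1).mp h4
    rw [hC i hi, hC j hj] at h2
    refine ⟨fun h3 => h2 (by rw [h3]), fun h3 => h2 ?_⟩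
    have h4 : yl l j ^ 3 = (yl l i ^ 3)⁻¹ := by
      rw [eq_comm, inv_eq_iff_eq_inv, eq_comm]
      apply inv_eq_of_mul_eq_one_left
      exact h3
    rw [h4]
    unfold PX.XX
    rw [inv_inv, add_comm]

end CZ
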