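import Pool.Agent.Lib.MP_216314_pr.CZ.Fj

/-!
# The induction for functions of sequences
-/

set_option autoImplicit false

noncomputable section

namespace CZ

open Polynomial

/-- lists for multisets -/
theorem exists_lists (A B : Multiset ℂ) (hB : ∀ b ∈ B, b ≠ 0) : ∃ lA lB : List ℂ, (∀ b ∈ lA, b ≠ 0) ∧ (∀ b ∈ lB, b ≠ 0) ∧
    lA.length = Multiset.card A ∧ lB.length = Multiset.card B ∧ A = (lA.map PX.XX : List ℂ) ∧ B = (lB : List ℂ) := by
  refine ⟨A.toList.map zx, B.toList, ?_, ?_, ?_, ?_, ?_, ?_⟩
  · intro b hb
    rw [List.mem_map] at hb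
    obtain ⟨x, _, rfl⟩ := hb
    exact zx_ne x
  · intro b hb
    rw [Multiset.mem_toList] at hb
    exact hB b hb
  · rw [List.length_map, Multiset.length_toList]
  · rw [Multiset.length_toList]
  · have e : (A.toList.map zx).map PX.XX = A.toList := by
      rw [List.map_map]
      have e1 : (PX.XX ∘ zx) = id := by
        funext x
        exact zx_XX x
      rw [e1, List.map_id]
    rw [e, Multiset.coe_toList]
  · rw [Multiset.coe_toList]

theorem ip_zero_yl (u : ℂ) (l : List ℂ) : PX.ip 0 u (yl l) = yl (u :: (PX.om * u) :: l) := by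
  funext k
  unfold PX.ip
  rcases k with _ | _ | k
  · rfl
  · rfl
  · rw [if_neg (by omega), if_neg (by omega), if_neg (by omega)]
    rfl

theorem ip_yl (u : ℂ) (p l : List ℂ) : PX.ip p.length u (yl (p ++ l)) = yl (p ++ u :: (PX.om * u) :: l) := by
  funext k
  unfold PX.ip
  by_cases h1 : k < p.length
  · rw [if_pos h1, yl_left h1, yl_left h1]
  · rw [if_neg h1]
    obtain ⟨j, rfl⟩ : ∃ j, k = p.length + j := ⟨k - p.length, by omega⟩
    rw [yl_right (p := p) (q := u :: (PX.om * u) :: l) (by omega), Nat.add_sub_cancel_left]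
    rcases j with _ | _ | j
    · rw [if_pos (by omega)]
      rfl
    · rw [if_neg (by omega), if_pos (by omega)]
      rfl
    · rw [if_neg (by omega), if_neg (by omega), yl_right (by omega)]
      rw [show p.length + (j + 1 + 1) - 2 - p.length = j by omega]
      rfl

theorem update_yl_zero (x t : ℂ) (l : List ℂ) : Function.update (yl (x :: l)) 0 t = yl (t :: l) := by
  funext k
  rcases k with _ | k
  · rw [Function.update_self]
    rfl
  · rw [Function.update_of_ne (by omega)]
    rfl

theorem update_yl_last (x t : ℂ) (l : List ℂ) : Function.update (yl (l ++ [x])) l.length t = yl (l ++ [t]) := by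
  funext k
  by_cases h : k = l.length
  · rw [h, Function.update_self, yl_right le_rfl, Nat.sub_self]
    rfl
  · rw [Function.update_of_ne h]
    by_cases h1 : k < l.length
    · rw [yl_left h1, yl_left h1]
    · rw [yl_right (by omega), yl_right (by omega)]
      obtain ⟨j, hj⟩ : ∃ j, k - l.length = j + 1 := ⟨k - l.length - 1, by omega⟩
      rw [hj]
      rfl

theorem sh_one_yl (x : ℂ) (l : List ℂ) : CF.sh 1 (yl (x :: l)) = yl l := rfl

theorem iv_zero_yl (x : ℂ) (l : List ℂ) : PX.iv 0 (yl (x :: l)) = yl (x⁻¹ :: l) := yl_iv [] l x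

theorem neg_prod_list (l : List ℂ) (y : ℂ) (f : ℂ → ℂ) : (l.map (fun z => y - f z)).prod =
    (-1) ^ l.length * (l.map (fun z => f z - y)).prod := by
  induction l with
  | nil => simp
  | cons a l ih =>
    rw [List.map_cons, List.prod_cons, List.map_cons, List.prod_cons, List.length_cons, ih, pow_succ]
    ring

/-- THEOREM: the function of multisets has the properties needed for the induction -/
theorem MF_of {N : ℕ → ℕ → (ℕ → ℂ) → ℂ} (hN : NFacts N) : MF (MN N) where
  base := by
    intro a
    obtain ⟨z, hz, ha⟩ := exists_XX a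
    have h := MN_eq (N := N) (c := 1) (n := 0) (hN.sy 1 0 odd_one) (lA := [z]) (lB := []) (by simpa using hz) (by simp)
      rfl rfl (A := {a}) (B := 0) (by rw [← ha]; rfl) rfl
    rw [h]
    exact hN.zero _ hz
  fusA := by
    intro w i y A B hT hA hB hB0
    obtain ⟨lA, lB, h1, h2, h3, h4, h5, h6⟩ := exists_lists A B hB0
    obtain ⟨u, hu, hw, hi, hy⟩ := Tri_XX hT
    obtain ⟨n, hn⟩ := hB
    have hn' : lB.length = 2 * n := by omega
    have hou : PX.om * u ≠ 0 := mul_ne_zero PX.om_ne_zero hu
    have hne : ∀ b ∈ lA ++ lB, b ≠ 0 := by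
      intro b hb
      rw [List.mem_append] at hb
      rcases hb with hb | hb
      · exact h1 b hb
      · exact h2 b hb
    rw [MN_eq (c := Multiset.card A + 2) (n := n) (hN.sy _ n (hA.add_even even_two)) (lA := u :: (PX.om * u) :: lA)
        (lB := lB) (by
          intro b hb
          rw [List.mem_cons, List.mem_cons] at hb
          rcases hb with hb | hb | hb
          · rw [hb]
            exact hu
          · rw [hb]
            exact hou
          · exact h1 b hb) h2 (by simp only [List.length_cons]; omega) hn' (by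
          rw [List.map_cons, List.map_cons, hw, hi, h5]
          rfl) h6,
      MN_eq (c := Multiset.card A) (n := n) (hN.sy _ n hA) h1 h2 h3 hn' h5 h6]
    have e1 : yl (u :: (PX.om * u) :: lA ++ lB) = PX.ip 0 u (yl (lA ++ lB)) := (ip_zero_yl u (lA ++ lB)).symm
    rw [e1, hN.fusA (Multiset.card A) n u _ hA hu (fun k _ => yl_nz hne k)]
    unfold PX.Kf
    rw [hy, yl_prod_left lA lB (fun z => y - PX.XX z) h3,
      yl_prod_all lA lB (fun z => y - PX.XX z) (L := Multiset.card A + 2 * n) (by omega), neg_prod_list, neg_prod_list,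
      hn', h3]
    have e2 : (A.map (fun r => r - y)).prod = (lA.map (fun z => PX.XX z - y)).prod := by
      rw [h5, Multiset.map_coe, Multiset.prod_coe, List.map_map]
      rfl
    have e3 : ((B.map PX.XX).map (fun r => r - y)).prod = (lB.map (fun z => PX.XX z - y)).prod := by
      rw [h6, Multiset.map_coe, Multiset.map_coe, Multiset.prod_coe, List.map_map]
      rfl
    rw [e2, e3]
    have e4 : (-1 : ℂ) ^ Multiset.card A = -1 := hA.neg_one_pow
    have e5 : (-1 : ℂ) ^ (2 * n) = 1 := by rw [pow_mul, neg_one_sq, one_pow]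
    rw [e4, e5]
    ring
  fusB := by
    intro b b' e A B hT hA hB hB0
    obtain ⟨lA, lB, h1, h2, h3, h4, h5, h6⟩ := exists_lists A B hB0
    obtain ⟨n, hn⟩ := hB
    have hn' : lB.length = 2 * n := by omega
    have hne : ∀ b ∈ lA ++ lB, b ≠ 0 := by
      intro b hb
      rw [List.mem_append] at hb
      rcases hb with hb | hb
      · exact h1 b hb
      · exact h2 b hb
    have key : ∀ u : ℂ, u ≠ 0 → PX.om ^ 2 * u = e → MN N A (u ::ₘ (PX.om * u) ::ₘ B) =
        (-e * (A.map (fun r => r - PX.XX e)).prod * ((B.map PX.XX).map (fun r => r - PX.XX e)).prod *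
          (B.map (fun r => r - e)).prod) * MN N A B := by
      intro u hu he
      have hou : PX.om * u ≠ 0 := mul_ne_zero PX.om_ne_zero hu
      rw [MN_eq (c := Multiset.card A) (n := n + 1) (hN.sy _ (n + 1) hA) (lA := lA)
          (lB := u :: (PX.om * u) :: lB) h1 (by
            intro b hb
            rw [List.mem_cons, List.mem_cons] at hb
            rcases hb with hb | hb | hb
            · rw [hb]
              exact hu
            · rw [hb]
              exact hou
            · exact h2 b hb) h3 (by rw [List.length_cons, List.length_cons, hn']; ring) h5 (by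
            rw [h6]
            rfl),
        MN_eq (c := Multiset.card A) (n := n) (hN.sy _ n hA) h1 h2 h3 hn' h5 h6]
      have e1 : yl (lA ++ u :: (PX.om * u) :: lB) = PX.ip (Multiset.card A) u (yl (lA ++ lB)) := by
        rw [← h3]
        exact (ip_yl u lA lB).symm
      rw [e1, hN.fusB (Multiset.card A) n u _ hA hu (fun k _ => yl_nz hne k), he]
      unfold PX.Kf
      rw [he, yl_prod_right lA lB (fun z => z - e) h3 hn',
        yl_prod_all lA lB (fun z => PX.XX e - PX.XX z) (L := Multiset.card A + 2 * n) (by omega), neg_prod_list,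
        neg_prod_list, hn', h3]
      have e2 : (A.map (fun r => r - PX.XX e)).prod = (lA.map (fun z => PX.XX z - PX.XX e)).prod := by
        rw [h5, Multiset.map_coe, Multiset.prod_coe, List.map_map]
        rfl
      have e3 : ((B.map PX.XX).map (fun r => r - PX.XX e)).prod = (lB.map (fun z => PX.XX z - PX.XX e)).prod := by
        rw [h6, Multiset.map_coe, Multiset.map_coe, Multiset.prod_coe, List.map_map]
        rfl
      have e6 : (B.map (fun r => r - e)).prod = (lB.map (fun z => z - e)).prod := by
        rw [h6, Multiset.map_coe, Multiset.prod_coe]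
      rw [e2, e3, e6]
      have e4 : (-1 : ℂ) ^ Multiset.card A = -1 := hA.neg_one_pow
      have e5 : (-1 : ℂ) ^ (2 * n) = 1 := by rw [pow_mul, neg_one_sq, one_pow]
      rw [e4, e5]
      ring
    rcases Tr3_cases hT with ⟨hb, he⟩ | ⟨hb, he⟩
    · rw [hb]
      exact key b hT.2.2 he.symm
    · rw [Multiset.cons_swap b b', hb]
      exact key b' hT.ne' he.symm
  polA := by
    intro k n A B _ hA hB hG
    obtain ⟨lA, lB, h1, h2, h3, h4, h5, h6⟩ := exists_lists A B hG.2
    have h3' : lA.length = 2 * k := by omega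
    have h4' : lB.length = 2 * n := by omega
    have hne : ∀ b ∈ lA ++ lB, b ≠ 0 := by
      intro b hb
      rw [List.mem_append] at hb
      rcases hb with hb | hb
      · exact h1 b hb
      · exact h2 b hb
    have hgen : PX.Gen (2 * k + 2 * n) (CF.sh 1 (yl (1 :: (lA ++ lB)))) := by
      rw [sh_one_yl]
      have h7 := Gen_yl hne (by
        rw [List.map_append, ← Multiset.coe_add, ← h5]
        have h8 := hG.1
        rw [h6, Multiset.map_coe] at h8
        exact h8)
      rw [List.length_append, h3', h4'] at h7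
      exact h7
    obtain ⟨p, hp1, hp2, hp3⟩ := hN.polA k n _ hgen
    have hM : ∀ t : ℂ, t ≠ 0 → MN N (PX.XX t ::ₘ A) B = N (2 * k + 1) n (yl (t :: (lA ++ lB))) := by
      intro t ht
      exact MN_eq (c := 2 * k + 1) (n := n) (hN.sy _ n ⟨k, rfl⟩) (lA := t :: lA) (lB := lB) (by
          intro b hb
          rw [List.mem_cons] at hb
          rcases hb with hb | hb
          · rw [hb]
            exact ht
          · exact h1 b hb) h2 (by rw [List.length_cons, h3']) h4' (by
          rw [List.map_cons, h5]
          rfl) h6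
    have hf : ∀ t : ℂ, t ≠ 0 → t ^ (2 * k + n) * N (2 * k + 1) n (yl (t :: (lA ++ lB))) = p.eval t := by
      intro t ht
      have h7 := hp3 t ht
      rw [update_yl_zero] at h7
      exact h7
    obtain ⟨q, hq1, hq2, hq3⟩ := sym_XX (2 * k + n) (fun t => N (2 * k + 1) n (yl (t :: (lA ++ lB)))) p hp1 hf (by
      intro t ht
      have h7 := (hN.sy (2 * k + 1) n ⟨k, rfl⟩).iv 0 (yl (t :: (lA ++ lB))) (by
        intro j _
        apply yl_nz
        intro b hb
        rw [List.mem_cons] at hb
        rcases hb with hb | hb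
        · rw [hb]
          exact ht
        · exact hne b hb) (by omega)
      rw [iv_zero_yl] at h7
      exact h7)
    refine ⟨q, hq1, ?_, fun a => ?_⟩
    · rw [hq2, hp2, sh_one_yl, XA_yl lA lB h3', XA_yl_all lA lB (by omega), ZB_yl lA lB h3' h4', ← h5, ← h6]
      have e : B.map PX.XX = (lB.map PX.XX : List ℂ) := by
        rw [h6, Multiset.map_coe]
      rw [e]
    · obtain ⟨t, ht, hta⟩ := exists_XX a
      rw [← hta]
      beta_reduce
      rw [hM t ht]
      exact hq3 t ht
  polB := by
    intro k n A B _ hA hB hG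
    obtain ⟨lA, lB, h1, h2, h3, h4, h5, h6⟩ := exists_lists A B hG.2
    have h3' : lA.length = 2 * k + 1 := by omega
    have h4' : lB.length = 2 * n + 1 := by omega
    have hne : ∀ b ∈ lA ++ lB, b ≠ 0 := by
      intro b hb
      rw [List.mem_append] at hb
      rcases hb with hb | hb
      · exact h1 b hb
      · exact h2 b hb
    have hgen0 : PX.Gen (2 * k + 2 * n + 2) (yl (lA ++ lB)) := by
      have h7 := Gen_yl hne (by
        rw [List.map_append, ← Multiset.coe_add, ← h5]
        have h8 := hG.1
        rw [h6, Multiset.map_coe] at h8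
        exact h8)
      rw [List.length_append, h3', h4', show 2 * k + 1 + (2 * n + 1) = 2 * k + 2 * n + 2 by ring] at h7
      exact h7
    have hgen : PX.Gen (2 * k + 2 * n + 2) (yl ((lA ++ lB) ++ [1])) := by
      have e : ∀ i, i < 2 * k + 2 * n + 2 → yl ((lA ++ lB) ++ [1]) i = yl (lA ++ lB) i := by
        intro i hi
        apply yl_left
        rw [List.length_append, h3', h4']
        omega
      refine ⟨fun i hi => by rw [e i hi]; exact hgen0.1 i hi, fun i hi => by rw [e i hi]; exact hgen0.2.1 i hi,
        fun i j hi hj hij => by rw [e i hi, e j hj]; exact hgen0.2.2 i j hi hj hij⟩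
    have hM : ∀ t : ℂ, t ≠ 0 → MN N A (t ::ₘ B) = N (2 * k + 1) (n + 1) (yl ((lA ++ lB) ++ [t])) := by
      intro t ht
      rw [List.append_assoc]
      refine MN_eq (c := 2 * k + 1) (n := n + 1) (hN.sy _ (n + 1) ⟨k, rfl⟩) (lA := lA) (lB := lB ++ [t]) h1 (by
          intro b hb
          rw [List.mem_append, List.mem_singleton] at hb
          rcases hb with hb | hb
          · exact h2 b hb
          · rw [hb]
            exact ht) h3' (by rw [List.length_append, List.length_singleton, h4']; ring) h5 ?_
      rw [h6, Multiset.cons_coe, Multiset.coe_eq_coe]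
      exact (List.perm_append_singleton t lB).symm
    refine (hN.polB k n _ hgen).congr fun t ht => ?_
    rw [hM t ht]
    have hl : (lA ++ lB).length = 2 * k + 2 * n + 2 := by
      rw [List.length_append, h3', h4']
      ring
    rw [← hl, update_yl_last]
  polB0 := by
    intro A B hA hB hB0
    obtain ⟨k, hk⟩ := hA
    obtain ⟨n, hn⟩ := hB
    obtain ⟨lA, lB, h1, h2, h3, h4, h5, h6⟩ := exists_lists A B hB0
    have h3' : lA.length = 2 * k + 1 := by omega
    have h4' : lB.length = 2 * n + 1 := by omega
    have hne : ∀ b ∈ (lA ++ lB) ++ [1], b ≠ 0 := by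
      intro b hb
      rw [List.mem_append, List.mem_append, List.mem_singleton] at hb
      rcases hb with (hb | hb) | hb
      · exact h1 b hb
      · exact h2 b hb
      · rw [hb]
        exact one_ne_zero
    have hM : ∀ t : ℂ, t ≠ 0 → MN N A (t ::ₘ B) = N (2 * k + 1) (n + 1) (yl ((lA ++ lB) ++ [t])) := by
      intro t ht
      rw [List.append_assoc]
      refine MN_eq (c := 2 * k + 1) (n := n + 1) (hN.sy _ (n + 1) ⟨k, rfl⟩) (lA := lA) (lB := lB ++ [t]) h1 (by
          intro b hb
          rw [List.mem_append, List.mem_singleton] at hb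
          rcases hb with hb | hb
          · exact h2 b hb
          · rw [hb]
            exact ht) h3' (by rw [List.length_append, List.length_singleton, h4']; ring) h5 ?_
      rw [h6, Multiset.cons_coe, Multiset.coe_eq_coe]
      exact (List.perm_append_singleton t lB).symm
    obtain ⟨m, d, h7⟩ := hN.lau k n (yl ((lA ++ lB) ++ [1])) (fun j _ => yl_nz hne j)
    refine ⟨m, d, h7.congr fun t ht => ?_⟩
    rw [hM t ht]
    have hl : (lA ++ lB).length = 2 * k + 2 * n + 2 := by
      rw [List.length_append, h3', h4']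
      ring
    rw [← hl, update_yl_last]

/-- THEOREM: the exact formula, `A` generic, `B` arbitrary -/
theorem N_eq_FW {N : ℕ → ℕ → (ℕ → ℂ) → ℂ} (hN : NFacts N) {c n : ℕ} (hc : Odd c) {lA lB : List ℂ}
    (h1 : ∀ b ∈ lA, b ≠ 0) (h2 : ∀ b ∈ lB, b ≠ 0) (h3 : lA.length = c) (h4 : lB.length = 2 * n)
    (hG : Gen ((lA.map PX.XX : List ℂ) : Multiset ℂ)) :
    N c n (yl (lA ++ lB)) = FW ((lA.map PX.XX : List ℂ) : Multiset ℂ) ((lB : List ℂ) : Multiset ℂ) := by
  rw [← MN_eq (hN.sy c n hc) h1 h2 h3 h4 rfl rfl]
  refine MF_eq (MF_of hN) ?_ ?_ hG ?_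
  · rw [Multiset.coe_card, List.length_map, h3]
    exact hc
  · rw [Multiset.coe_card, h4]
    exact ⟨n, by ring⟩
  · intro b hb
    exact h2 b hb

end CZ
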