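import Pool.Agent.Lib.MP_216314_pr.CZ.Fl

/-!
# The normalised symmetrised pairing: fusion
-/

set_option autoImplicit false

noncomputable section

namespace CZ

open Polynomial

theorem ip_add {u : ℂ} {w : ℕ → ℂ} (c k : ℕ) (h : 2 ≤ k + c) : PX.ip 0 u w (k + c) = w (k + c - 2) := by
  unfold PX.ip
  rw [if_neg (by omega), if_neg (by omega), if_neg (by omega)]

theorem XA_ip_zero (L : ℕ) (u : ℂ) (w : ℕ → ℂ) :
    XA (L + 2) (PX.ip 0 u w) = PX.XX u ::ₘ PX.XX (PX.om * u) ::ₘ XA L w := by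
  have h : (List.range (L + 2)).map (fun i => PX.XX (PX.ip 0 u w i)) =
      PX.XX u :: PX.XX (PX.om * u) :: (List.range L).map (fun i => PX.XX (w i)) := by
    rw [List.range_succ_eq_map, List.range_succ_eq_map, List.map_cons, List.map_map, List.map_cons, List.map_map]
    congr 2
  exact congrArg (fun l : List ℂ => (l : Multiset ℂ)) h

theorem ZB_ip_zero (c n : ℕ) (u : ℂ) (w : ℕ → ℂ) : ZB (c + 2) n (PX.ip 0 u w) = ZB c n w := by
  unfold ZB
  refine Multiset.map_congr rfl fun k _ => ?_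
  rw [← add_assoc]
  rfl

theorem ibv_ip_zero (c : ℕ) (u : ℂ) (w : ℕ → ℂ) : ibv (c + 2) (PX.ip 0 u w) = PX.ip 0 u (ibv c w) := by
  funext k
  rcases k with _ | _ | k
  · show (if 0 < c + 2 then PX.ip 0 u w 0 else (PX.ip 0 u w 0)⁻¹) = PX.ip 0 u (ibv c w) 0
    rw [if_pos (by omega)]
    rfl
  · show (if 1 < c + 2 then PX.ip 0 u w 1 else (PX.ip 0 u w 1)⁻¹) = PX.ip 0 u (ibv c w) 1
    rw [if_pos (by omega)]
    rfl
  · show (if k + 2 < c + 2 then w k else (w k)⁻¹) = (if k < c then w k else (w k)⁻¹)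
    by_cases h : k < c
    · rw [if_pos h, if_pos (by omega)]
    · rw [if_neg h, if_neg (by omega)]

theorem Kf_ibv (c L : ℕ) (u : ℂ) (w : ℕ → ℂ) : PX.Kf L u (ibv c w) = PX.Kf L u w := by
  unfold PX.Kf
  refine Finset.prod_congr rfl fun k _ => ?_
  unfold ibv
  by_cases h : k < c
  · rw [if_pos h]
  · rw [if_neg h, XX_inv']

theorem Kf_ms (L : ℕ) (u : ℂ) (w : ℕ → ℂ) : ((XA L w).map (fun r => r - PX.XX (PX.om ^ 2 * u))).prod =
    (-1) ^ L * PX.Kf L u w := by
  have h1 : ∏ k ∈ Finset.range L, (PX.XX (w k) - PX.XX (PX.om ^ 2 * u)) = (-1) ^ L * PX.Kf L u w := by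
    unfold PX.Kf
    have h2 : (-1 : ℂ) ^ L = ∏ k ∈ Finset.range L, (-1 : ℂ) := by rw [Finset.prod_const, Finset.card_range]
    rw [h2, ← Finset.prod_mul_distrib]
    refine Finset.prod_congr rfl fun k _ => ?_
    ring
  rw [← h1]
  unfold XA
  rw [Multiset.map_map, Finset.prod_eq_multiset_prod]
  rfl

theorem tr3 {u : ℂ} (hu : u ≠ 0) : Tr3 u (PX.om * u) (PX.om ^ 2 * u) := by
  have h1 : 1 + PX.om + PX.om ^ 2 = 0 := by linear_combination PX.om_eq
  refine ⟨?_, ?_, hu⟩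
  · linear_combination u * h1
  · linear_combination (u ^ 2 * PX.om) * h1

theorem odd_pow {L : ℕ} (h : Odd L) : (-1 : ℂ) ^ L = -1 := h.neg_one_pow

theorem Nv_fusA {V : ℕ → ℕ → (ℕ → ℂ) → ℂ} (hV : VFacts V) (c n : ℕ) (u : ℂ) (w : ℕ → ℂ) (hc : Odd c) (hu : u ≠ 0)
    (hw : PX.NZ (c + 2 * n) w) :
    Nv V (c + 2) n (PX.ip 0 u w) = PX.Kf (c + 2 * n) u w * PX.Kf c u w * Nv V c n w := by
  have hT := XX_Tri (tr3 hu)
  have e1 : SS (XA (c + 2 + 2 * n) (PX.ip 0 u w)) = -(PX.Kf (c + 2 * n) u w * SS (XA (c + 2 * n) w)) := by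
    rw [show c + 2 + 2 * n = c + 2 * n + 2 by ring, XA_ip_zero, SS_char.fus _ _ _ _ hT, Kf_ms,
      odd_pow (hc.add_even (even_two_mul n))]
    ring
  have e2 : SS (XA (c + 2) (PX.ip 0 u w)) = -(PX.Kf c u w * SS (XA c w)) := by
    rw [XA_ip_zero, SS_char.fus _ _ _ _ hT, Kf_ms, odd_pow hc]
    ring
  have h1 := ka_ne c n
  have h2 : -PX.om ^ 2 ≠ 0 := neg_ne_zero.mpr (pow_ne_zero 2 PX.om_ne_zero)
  unfold Nv
  rw [Pb_eq, Pb_eq, ZB_ip_zero, e1, e2, ka_A hc, hV.fusA c n u w hc hu hw, ibv_ip_zero,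
    hV.fusA c n u _ hc hu (ibv_nz hw), Kf_ibv, Kf_ibv, mul_inv]
  have h3 : (-PX.om ^ 2)⁻¹ * (-PX.om ^ 2) = 1 := inv_mul_cancel₀ h2
  rw [← mul_div_assoc]
  congr 1
  generalize (-PX.om ^ 2)⁻¹ = o' at h3 ⊢
  generalize (-PX.om ^ 2) = o at h3 ⊢
  generalize (ka c n)⁻¹ = κ
  linear_combination (κ * PX.Kf (c + 2 * n) u w * PX.Kf c u w * ((ZB c n w).prod ^ n * V c n w + V c n (ibv c w))) * h3

theorem XA_ip {c L : ℕ} (u : ℂ) (w : ℕ → ℂ) (h : L ≤ c) : XA L (PX.ip c u w) = XA L w := by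
  unfold XA PX.ip
  refine Multiset.map_congr rfl fun k hk => ?_
  rw [Multiset.mem_range] at hk
  rw [if_pos (by omega)]

theorem map_range_ip {α : Type} (c m : ℕ) (u : ℂ) (w : ℕ → ℂ) (f : ℂ → α) :
    (Multiset.range (c + m + 2)).map (fun i => f (PX.ip c u w i)) =
      f u ::ₘ f (PX.om * u) ::ₘ (Multiset.range (c + m)).map (fun i => f (w i)) := by
  have h : (List.range (c + m + 2)).map (fun i => f (PX.ip c u w i)) =
      (List.range c).map (fun i => f (w i)) ++ (f u :: f (PX.om * u) :: (List.range m).map (fun i => f (w (i + c)))) := by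
    apply List.ext_getElem
    · simp only [List.length_map, List.length_range, List.length_append, List.length_cons]
      omega
    · intro i h1 h2
      rw [List.getElem_map, List.getElem_range]
      unfold PX.ip
      by_cases h3 : i < c
      · rw [if_pos h3, List.getElem_append_left (by rw [List.length_map, List.length_range]; exact h3), List.getElem_map,
          List.getElem_range]
      · rw [if_neg h3, List.getElem_append_right (by rw [List.length_map, List.length_range]; omega)]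
        simp only [List.length_map, List.length_range]
        obtain ⟨j, rfl⟩ : ∃ j, i = c + j := ⟨i - c, by omega⟩
        simp only [Nat.add_sub_cancel_left]
        rcases j with _ | _ | j
        · rw [if_pos (by omega)]
          rfl
        · rw [if_neg (by omega), if_pos (by omega)]
          rfl
        · rw [if_neg (by omega), if_neg (by omega)]
          simp only [List.getElem_cons_succ, List.getElem_map, List.getElem_range]
          congr 2
          omega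
  have h2 : (List.range (c + m)).map (fun i => f (w i)) =
      (List.range c).map (fun i => f (w i)) ++ (List.range m).map (fun i => f (w (i + c))) := by
    rw [List.range_add, List.map_append, List.map_map]
    congr 2
    funext i
    rw [Function.comp_apply, add_comm]
  have h3 : (f u ::ₘ f (PX.om * u) ::ₘ (Multiset.range (c + m)).map (fun i => f (w i))) =
      ((f u :: f (PX.om * u) :: ((List.range c).map (fun i => f (w i)) ++ (List.range m).map (fun i => f (w (i + c))))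
        : List α) : Multiset α) := by
    rw [← h2]
    rfl
  have h4 : (Multiset.range (c + m + 2)).map (fun i => f (PX.ip c u w i)) =
      (((List.range (c + m + 2)).map (fun i => f (PX.ip c u w i)) : List α) : Multiset α) := rfl
  rw [h3, h4, h, Multiset.coe_eq_coe]
  exact (List.perm_middle).trans ((List.perm_middle).cons _)

theorem XA_ip_all (c m : ℕ) (u : ℂ) (w : ℕ → ℂ) :
    XA (c + m + 2) (PX.ip c u w) = PX.XX u ::ₘ PX.XX (PX.om * u) ::ₘ XA (c + m) w := map_range_ip c m u w PX.XX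

theorem ZB_ip (c n : ℕ) (u : ℂ) (w : ℕ → ℂ) :
    ZB c (n + 1) (PX.ip c u w) = u ::ₘ (PX.om * u) ::ₘ ZB c n w := by
  have h := map_range_ip 0 (2 * n) u (fun i => w (i + c)) (fun x => x)
  rw [zero_add] at h
  have e : ZB c (n + 1) (PX.ip c u w) = (Multiset.range (2 * n + 2)).map (fun i => PX.ip 0 u (fun i => w (i + c)) i) := by
    unfold ZB
    rw [show 2 * (n + 1) = 2 * n + 2 by ring]
    refine Multiset.map_congr rfl fun k _ => ?_
    unfold PX.ip
    rcases k with _ | _ | k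
    · rw [if_neg (by omega), if_pos (by omega), if_neg (by omega), if_pos rfl]
    · rw [if_neg (by omega), if_neg (by omega), if_pos (by omega), if_neg (by omega), if_neg (by omega), if_pos rfl]
    · rw [if_neg (by omega), if_neg (by omega), if_neg (by omega), if_neg (by omega), if_neg (by omega),
        if_neg (by omega)]
      congr 1
      omega
  rw [e]
  exact h

theorem ibv_ip (c : ℕ) (u : ℂ) (w : ℕ → ℂ) :
    ibv c (PX.ip c u w) = PX.sw c (PX.ip c (PX.om ^ 2 * u⁻¹) (ibv c w)) := by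
  have h3 : PX.om ^ 3 = 1 := PX.om_cube
  funext k
  by_cases h0 : k < c
  · show (if k < c then PX.ip c u w k else (PX.ip c u w k)⁻¹) = PX.ip c (PX.om ^ 2 * u⁻¹) (ibv c w) (Equiv.swap c (c + 1) k)
    rw [if_pos h0, Equiv.swap_apply_of_ne_of_ne (by omega) (by omega)]
    unfold PX.ip
    rw [if_pos h0, if_pos h0]
    unfold ibv
    rw [if_pos h0]
  · show (if k < c then PX.ip c u w k else (PX.ip c u w k)⁻¹) = PX.ip c (PX.om ^ 2 * u⁻¹) (ibv c w) (Equiv.swap c (c + 1) k)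
    rw [if_neg h0]
    obtain ⟨j, rfl⟩ : ∃ j, k = c + j := ⟨k - c, by omega⟩
    rcases j with _ | _ | j
    · rw [add_zero, Equiv.swap_apply_left]
      unfold PX.ip
      rw [if_neg (by omega), if_pos rfl, if_neg (by omega), if_neg (by omega), if_pos rfl]
      linear_combination (-u⁻¹) * h3
    · rw [zero_add, Equiv.swap_apply_right]
      unfold PX.ip
      rw [if_neg (by omega), if_neg (by omega), if_pos rfl, if_neg (by omega), if_pos rfl, mul_inv]
      have h4 : PX.om⁻¹ = PX.om ^ 2 := by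
        rw [inv_eq_iff_eq_inv, eq_comm, inv_eq_of_mul_eq_one_left]
        linear_combination h3
      rw [h4]
    · rw [Equiv.swap_apply_of_ne_of_ne (by omega) (by omega)]
      unfold PX.ip
      rw [if_neg (by omega), if_neg (by omega), if_neg (by omega), if_neg (by omega), if_neg (by omega),
        if_neg (by omega)]
      unfold ibv
      rw [if_neg (by omega)]

theorem Nv_fusB {V : ℕ → ℕ → (ℕ → ℂ) → ℂ} (hV : VFacts V) (c n : ℕ) (u : ℂ) (w : ℕ → ℂ) (hc : Odd c) (hu : u ≠ 0)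
    (hw : PX.NZ (c + 2 * n) w) : Nv V c (n + 1) (PX.ip c u w) = PX.om ^ 2 * u * PX.Kf (c + 2 * n) u w *
      (∏ k ∈ Finset.range (2 * n), (w (k + c) - PX.om ^ 2 * u)) * Nv V c n w := by
  have h3 : PX.om ^ 3 = 1 := PX.om_cube
  have ho := PX.om_ne_zero
  have hT := XX_Tri (tr3 hu)
  obtain ⟨Q, hQ⟩ : ∃ Q : ℂ, Q = ∏ k ∈ Finset.range (2 * n), (w (k + c) - PX.om ^ 2 * u) := ⟨_, rfl⟩
  have e1 : SS (XA (c + 2 * (n + 1)) (PX.ip c u w)) = -(PX.Kf (c + 2 * n) u w * SS (XA (c + 2 * n) w)) := by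
    rw [show c + 2 * (n + 1) = c + 2 * n + 2 by ring, XA_ip_all, SS_char.fus _ _ _ _ hT, Kf_ms,
      odd_pow (hc.add_even (even_two_mul n))]
    ring
  have eQ : ((ZB c n w).map (fun r => r - PX.om ^ 2 * u)).prod = Q := by
    rw [hQ, Finset.prod_eq_multiset_prod]
    unfold ZB
    rw [Multiset.map_map]
    rfl
  have e2 : MS yb' (ZB c (n + 1) (PX.ip c u w)) = -(PX.om ^ 2 * u) * Q * MS yb' (ZB c n w) := by
    rw [ZB_ip, MS_yb'_fus (tr3 hu), eQ]
  have e3 : Pb c (n + 1) (PX.ip c u w) = u * (PX.om * u) * Pb c n w := by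
    rw [Pb_eq, Pb_eq, ZB_ip, Multiset.prod_cons, Multiset.prod_cons]
    ring
  -- the first term
  have e4 : Pb c n w * ∏ k ∈ Finset.range (2 * n), ((w (k + c))⁻¹ - PX.om * u⁻¹) * 1 =
      PX.om ^ (2 * n) * (u⁻¹) ^ (2 * n) * Q := by
    unfold Pb
    rw [hQ, ← Finset.prod_mul_distrib]
    have e5 : PX.om ^ (2 * n) * (u⁻¹) ^ (2 * n) * ∏ k ∈ Finset.range (2 * n), (w (k + c) - PX.om ^ 2 * u) =
        ∏ k ∈ Finset.range (2 * n), ((-PX.om * u⁻¹) * (w (k + c) - PX.om ^ 2 * u)) := by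
      rw [Finset.prod_mul_distrib, Finset.prod_const, Finset.card_range, mul_pow,
        show (-PX.om) ^ (2 * n) = PX.om ^ (2 * n) by rw [pow_mul, neg_sq, ← pow_mul]]
    rw [e5]
    refine Finset.prod_congr rfl fun k hk => ?_
    rw [Finset.mem_range] at hk
    have h4 : w (k + c) ≠ 0 := hw (k + c) (by omega)
    field_simp
    linear_combination (-u) * h3
  have e4' : Pb c n w * ∏ k ∈ Finset.range (2 * n), ((w (k + c))⁻¹ - PX.om * u⁻¹) =
      PX.om ^ (2 * n) * (u⁻¹) ^ (2 * n) * Q := by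
    rw [← e4]
    congr 1
    refine Finset.prod_congr rfl fun k _ => ?_
    ring
  have e6 : V c (n + 1) (ibv c (PX.ip c u w)) = (-PX.om) ^ n * (PX.om * u) * PX.Kf (c + 2 * n) u w * Q *
      V c n (ibv c w) := by
    have hv : PX.om ^ 2 * u⁻¹ ≠ 0 := mul_ne_zero (pow_ne_zero 2 ho) (inv_ne_zero hu)
    have hnz : PX.NZ (c + 2 * (n + 1)) (PX.ip c (PX.om ^ 2 * u⁻¹) (ibv c w)) := by
      intro k hk
      unfold PX.ip
      split_ifs with h1 h2 h3
      · exact ibv_nz hw k (by omega)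
      · exact hv
      · exact mul_ne_zero ho hv
      · exact ibv_nz hw (k - 2) (by omega)
    rw [ibv_ip c u w, hV.sw c (n + 1) c _ hc hnz (Or.inr ⟨le_rfl, by omega⟩), hV.fusB c n _ _ hc hv (ibv_nz hw)]
    have i1 : (PX.om ^ 2 * u⁻¹)⁻¹ = PX.om * u := by
      field_simp
      linear_combination -h3
    have i2 : PX.Kf (c + 2 * n) (PX.om ^ 2 * u⁻¹) (ibv c w) = PX.Kf (c + 2 * n) u w := by
      rw [Kf_ibv]
      unfold PX.Kf
      have i3 : PX.XX (PX.om ^ 2 * (PX.om ^ 2 * u⁻¹)) = PX.XX (PX.om ^ 2 * u) := by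
        have i4 : PX.om ^ 2 * (PX.om ^ 2 * u⁻¹) = (PX.om ^ 2 * u)⁻¹ := by
          field_simp
          linear_combination (PX.om ^ 3 + 1) * h3
        rw [i4, XX_inv']
      rw [i3]
    have i5 : ∏ k ∈ Finset.range (2 * n), ((ibv c w (k + c))⁻¹ - PX.om * (PX.om ^ 2 * u⁻¹)⁻¹) = Q := by
      rw [hQ]
      refine Finset.prod_congr rfl fun k _ => ?_
      rw [i1]
      unfold ibv
      rw [if_neg (by omega), inv_inv]
      ring
    rw [i2, i5, i1]
  have hk := ka_ne c n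
  have ho2 : PX.om ^ 2 * (-PX.om) ^ n ≠ 0 := mul_ne_zero (pow_ne_zero 2 ho) (pow_ne_zero n (neg_ne_zero.mpr ho))
  unfold Nv
  rw [e1, XA_ip u w le_rfl, e2, e3, e6, hV.fusB c n u w hc hu hw, ka_B, mul_inv, ← hQ, ← mul_div_assoc]
  congr 1
  have e7 : (u * (PX.om * u) * Pb c n w) ^ (n + 1) * ((-PX.om) ^ n * u⁻¹ * PX.Kf (c + 2 * n) u w *
      (∏ k ∈ Finset.range (2 * n), ((w (k + c))⁻¹ - PX.om * u⁻¹)) * V c n w) =
      (PX.om ^ 2 * (-PX.om) ^ n) * (PX.om ^ 2 * u * PX.Kf (c + 2 * n) u w * Q * (Pb c n w ^ n * V c n w)) := by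
    have f1 : (u * (PX.om * u) * Pb c n w) ^ (n + 1) = PX.om ^ (n + 1) * u ^ (2 * n + 2) * (Pb c n w ^ n * Pb c n w) := by
      rw [mul_pow, ← pow_succ (Pb c n w), show u * (PX.om * u) = PX.om * u ^ 2 by ring, mul_pow, ← pow_mul]
      congr 2
    have f2 : u ^ (2 * n + 2) * u⁻¹ * (u⁻¹) ^ (2 * n) = u := by
      rw [pow_add, inv_pow]
      field_simp
    have f3 : PX.om ^ (n + 1) * PX.om ^ (2 * n) = PX.om := by
      rw [← pow_add, show n + 1 + 2 * n = 3 * n + 1 by ring, pow_succ, pow_mul, h3, one_pow, one_mul]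
    rw [f1]
    calc PX.om ^ (n + 1) * u ^ (2 * n + 2) * (Pb c n w ^ n * Pb c n w) * ((-PX.om) ^ n * u⁻¹ * PX.Kf (c + 2 * n) u w *
          (∏ k ∈ Finset.range (2 * n), ((w (k + c))⁻¹ - PX.om * u⁻¹)) * V c n w)
        = PX.om ^ (n + 1) * (u ^ (2 * n + 2) * u⁻¹) * ((-PX.om) ^ n * PX.Kf (c + 2 * n) u w) * (Pb c n w ^ n * V c n w) *
          (Pb c n w * ∏ k ∈ Finset.range (2 * n), ((w (k + c))⁻¹ - PX.om * u⁻¹)) := by ring
      _ = (PX.om ^ (n + 1) * PX.om ^ (2 * n)) * (u ^ (2 * n + 2) * u⁻¹ * (u⁻¹) ^ (2 * n)) *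
          ((-PX.om) ^ n * PX.Kf (c + 2 * n) u w) * (Pb c n w ^ n * V c n w) * Q := by
          rw [e4']
          ring
      _ = PX.om * u * ((-PX.om) ^ n * PX.Kf (c + 2 * n) u w) * (Pb c n w ^ n * V c n w) * Q := by rw [f2, f3]
      _ = _ := by
          linear_combination (-(PX.om * u * ((-PX.om) ^ n * PX.Kf (c + 2 * n) u w) * (Pb c n w ^ n * V c n w) * Q)) * h3
  rw [e7]
  have h5 : (PX.om ^ 2 * (-PX.om) ^ n)⁻¹ * (PX.om ^ 2 * (-PX.om) ^ n) = 1 := inv_mul_cancel₀ ho2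
  have h6 : (-PX.om) ^ n * (PX.om * u) = PX.om ^ 2 * (-PX.om) ^ n * (PX.om ^ 2 * u) := by
    linear_combination (-((-PX.om) ^ n * PX.om * u)) * h3
  rw [h6]
  generalize (PX.om ^ 2 * (-PX.om) ^ n)⁻¹ = o' at h5 ⊢
  generalize PX.om ^ 2 * (-PX.om) ^ n = o at h5 ⊢
  generalize (ka c n)⁻¹ = κ
  linear_combination (κ * PX.om ^ 2 * u * PX.Kf (c + 2 * n) u w * Q * (Pb c n w ^ n * V c n w + V c n (ibv c w))) * h5

end CZ
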