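import Pool.Agent.Lib.MP_216314_pr.CZ.Fm

/-!
# The normalised symmetrised pairing: degrees and leading coefficients
-/

set_option autoImplicit false

noncomputable section

namespace CZ

open Polynomial

/-- `t ^ m f(t)` is a polynomial of degree at most `d`, with coefficient number `d` equal to `l` and value `l0` at `0` -/
def IsT (m d : ℕ) (l l0 : ℂ) (f : ℂ → ℂ) : Prop :=
  ∃ p : ℂ[X], p.natDegree ≤ d ∧ p.coeff d = l ∧ p.coeff 0 = l0 ∧ ∀ t : ℂ, t ≠ 0 → t ^ m * f t = p.eval t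

theorem IsT.congr {m d : ℕ} {l l0 : ℂ} {f g : ℂ → ℂ} (h : IsT m d l l0 f) (hfg : ∀ t, t ≠ 0 → g t = f t) :
    IsT m d l l0 g := by
  obtain ⟨p, h1, h2, h3, h4⟩ := h
  exact ⟨p, h1, h2, h3, fun t ht => by rw [hfg t ht, h4 t ht]⟩

theorem IsT.isB {m d : ℕ} {l l0 : ℂ} {f : ℂ → ℂ} (h : IsT m d l l0 f) : IsB m d f := by
  obtain ⟨p, h1, _, _, h4⟩ := h
  exact ⟨p, h1, h4⟩

theorem IsT.add {m d : ℕ} {l l0 k k0 : ℂ} {f g : ℂ → ℂ} (hf : IsT m d l l0 f) (hg : IsT m d k k0 g) :
    IsT m d (l + k) (l0 + k0) (fun t => f t + g t) := by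
  obtain ⟨p, h1, h2, h3, h4⟩ := hf
  obtain ⟨q, g1, g2, g3, g4⟩ := hg
  refine ⟨p + q, (natDegree_add_le p q).trans (max_le h1 g1), by rw [coeff_add, h2, g2], by rw [coeff_add, h3, g3],
    fun t ht => ?_⟩
  show t ^ m * (f t + g t) = _
  rw [mul_add, eval_add, h4 t ht, g4 t ht]

theorem IsT.mul {m d m' d' : ℕ} {l l0 k k0 : ℂ} {f g : ℂ → ℂ} (hf : IsT m d l l0 f) (hg : IsT m' d' k k0 g) :
    IsT (m + m') (d + d') (l * k) (l0 * k0) (fun t => f t * g t) := by
  obtain ⟨p, h1, h2, h3, h4⟩ := hf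
  obtain ⟨q, g1, g2, g3, g4⟩ := hg
  refine ⟨p * q, natDegree_mul_le.trans (add_le_add h1 g1), ?_, ?_, fun t ht => ?_⟩
  · rw [coeff_mul_add_eq_of_natDegree_le h1 g1, h2, g2]
  · rw [mul_coeff_zero, h3, g3]
  · show t ^ (m + m') * (f t * g t) = _
    rw [eval_mul, ← h4 t ht, ← g4 t ht, pow_add]
    ring

theorem IsT.smul {m d : ℕ} {l l0 : ℂ} {f : ℂ → ℂ} (c : ℂ) (hf : IsT m d l l0 f) :
    IsT m d (c * l) (c * l0) (fun t => c * f t) := by
  obtain ⟨p, h1, h2, h3, h4⟩ := hf
  refine ⟨C c * p, (natDegree_C_mul_le c p).trans h1, by rw [coeff_C_mul, h2], by rw [coeff_C_mul, h3], fun t ht => ?_⟩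
  show t ^ m * (c * f t) = _
  rw [eval_mul, eval_C, ← h4 t ht]
  ring

theorem IsT.cast {m d m' d' : ℕ} {l l0 k k0 : ℂ} {f : ℂ → ℂ} (h : IsT m d l l0 f) (hm : m' = m) (hd : d' = d)
    (hl : k = l) (h0 : k0 = l0) : IsT m' d' k k0 f := by
  rw [hm, hd, hl, h0]
  exact h

/-- a polynomial in `t` -/
theorem IsT.of_poly {d : ℕ} {p : ℂ[X]} (h : p.natDegree ≤ d) : IsT 0 d (p.coeff d) (p.coeff 0) (fun t => p.eval t) :=
  ⟨p, h, rfl, rfl, fun t _ => by rw [pow_zero, one_mul]⟩

/-- a polynomial in `t + 1/t` -/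
theorem IsL.isT {m : ℕ} {l : ℂ} {f : ℂ → ℂ} (h : IsL m l f) : IsT m (2 * m) l l (fun t => f (PX.XX t)) := by
  obtain ⟨p, hp1, hp2, hp3⟩ := h
  have hX : ∀ k : ℕ, ((X ^ 2 + 1 : ℂ[X]) ^ k).natDegree ≤ 2 * k := by
    intro k
    refine natDegree_pow_le.trans ?_
    have h2 : (X ^ 2 + 1 : ℂ[X]).natDegree ≤ 2 := by compute_degree
    calc k * (X ^ 2 + 1 : ℂ[X]).natDegree ≤ k * 2 := Nat.mul_le_mul_left _ h2
      _ = 2 * k := by ring
  refine ⟨∑ k ∈ Finset.range (m + 1), C (p.coeff k) * (X ^ (m - k) * (X ^ 2 + 1) ^ k), ?_, ?_, ?_, fun b hb => ?_⟩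
  · refine natDegree_sum_le_of_forall_le _ _ fun k hk => ?_
    rw [Finset.mem_range] at hk
    refine (natDegree_C_mul_le _ _).trans (natDegree_mul_le.trans ?_)
    have h1 : (X ^ (m - k) : ℂ[X]).natDegree ≤ m - k := natDegree_X_pow_le _
    have h2 := hX k
    omega
  · rw [finsetSum_coeff, Finset.sum_eq_single m]
    · have hm : (X ^ 2 + 1 : ℂ[X]).Monic := by monicity!
      have h2 : (X ^ 2 + 1 : ℂ[X]).natDegree = 2 := by compute_degree!
      have h3 := (hm.pow m).coeff_natDegree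
      rw [natDegree_pow, h2, mul_comm] at h3
      rw [coeff_C_mul, Nat.sub_self, pow_zero, one_mul, h3, mul_one, hp2]
    · intro k hk hkm
      rw [Finset.mem_range] at hk
      have hz : (X ^ (m - k) * (X ^ 2 + 1) ^ k : ℂ[X]).coeff (2 * m) = 0 := by
        apply coeff_eq_zero_of_natDegree_lt
        refine lt_of_le_of_lt natDegree_mul_le ?_
        have h1 : (X ^ (m - k) : ℂ[X]).natDegree ≤ m - k := natDegree_X_pow_le _
        have h2 := hX k
        omega
      rw [coeff_C_mul, hz, mul_zero]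
    · intro h
      exact absurd (Finset.mem_range.mpr (by omega)) h
  · rw [finsetSum_coeff, Finset.sum_eq_single m]
    · rw [coeff_C_mul, Nat.sub_self, pow_zero, one_mul, coeff_zero_eq_eval_zero, eval_pow, eval_add, eval_pow, eval_X,
        eval_one, hp2]
      norm_num
    · intro k hk hkm
      rw [Finset.mem_range] at hk
      rw [coeff_C_mul, coeff_zero_eq_eval_zero, eval_mul, eval_pow, eval_X, zero_pow (by omega)]
      ring
    · intro h
      exact absurd (Finset.mem_range.mpr (by omega)) h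
  · show b ^ m * f (PX.XX b) = _
    rw [hp3, eval_eq_sum_range' (show p.natDegree < m + 1 by omega), Finset.mul_sum, eval_finsetSum]
    refine Finset.sum_congr rfl fun k hk => ?_
    rw [Finset.mem_range] at hk
    simp only [eval_mul, eval_C, eval_pow, eval_X, eval_add, eval_one]
    have h6 : b ^ m = b ^ k * b ^ (m - k) := by
      rw [← pow_add]
      congr 1
      omega
    have h7 : b ^ k * PX.XX b ^ k = (b ^ 2 + 1) ^ k := by
      unfold PX.XX
      rw [← mul_pow]
      congr 1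
      field_simp
    rw [h6, ← h7]
    ring

/-- reflection -/
theorem IsT.refl {m d m' : ℕ} {l l0 : ℂ} {f : ℂ → ℂ} (h : IsT m d l l0 f) (hm : m + m' = d) :
    IsT m' d l0 l (fun t => f t⁻¹) := by
  obtain ⟨p, h1, h2, h3, h4⟩ := h
  refine ⟨∑ k ∈ Finset.range (d + 1), C (p.coeff k) * X ^ (d - k), ?_, ?_, ?_, fun t ht => ?_⟩
  · refine natDegree_sum_le_of_forall_le _ _ fun k hk => ?_
    exact (natDegree_C_mul_le _ _).trans ((natDegree_X_pow_le _).trans (by omega))
  · rw [finsetSum_coeff, Finset.sum_eq_single 0]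
    · rw [coeff_C_mul, Nat.sub_zero, coeff_X_pow_self, mul_one, h3]
    · intro k hk hk0
      rw [Finset.mem_range] at hk
      rw [coeff_C_mul, coeff_X_pow, if_neg (by omega), mul_zero]
    · intro h
      exact absurd (Finset.mem_range.mpr (by omega)) h
  · rw [finsetSum_coeff, Finset.sum_eq_single d]
    · rw [coeff_C_mul, Nat.sub_self, pow_zero, coeff_one_zero, mul_one, h2]
    · intro k hk hkd
      rw [Finset.mem_range] at hk
      rw [coeff_C_mul, coeff_X_pow, if_neg (by omega), mul_zero]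
    · intro h
      exact absurd (Finset.mem_range.mpr (by omega)) h
  · have h5 := h4 t⁻¹ (inv_ne_zero ht)
    rw [eval_eq_sum_range' (show p.natDegree < d + 1 by omega)] at h5
    rw [eval_finsetSum]
    have h6 : t ^ m' * f t⁻¹ = t ^ d * (t⁻¹ ^ m * f t⁻¹) := by
      rw [← hm, pow_add, inv_pow]
      have h7 : t ^ m ≠ 0 := pow_ne_zero m ht
      field_simp
    rw [h6, h5, Finset.mul_sum]
    refine Finset.sum_congr rfl fun k hk => ?_
    rw [Finset.mem_range] at hk
    rw [eval_mul, eval_C, eval_pow, eval_X]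
    have h8 : t ^ d = t ^ k * t ^ (d - k) := by
      rw [← pow_add]
      congr 1
      omega
    have h9 : t ^ k ≠ 0 := pow_ne_zero k ht
    rw [h8, inv_pow]
    field_simp

/-- a larger range -/
theorem IsT.up {m d : ℕ} {l l0 : ℂ} {f : ℂ → ℂ} (h : IsT m d l l0 f) : IsT m (d + 1) 0 l0 f := by
  obtain ⟨p, h1, h2, h3, h4⟩ := h
  exact ⟨p, by omega, coeff_eq_zero_of_natDegree_lt (by omega), h3, h4⟩

theorem IsT.down {m d : ℕ} {l l0 : ℂ} {f : ℂ → ℂ} (h : IsT m d l l0 f) : IsT (m + 1) (d + 1) l 0 f := by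
  obtain ⟨p, h1, h2, h3, h4⟩ := h
  refine ⟨X * p, ?_, ?_, ?_, fun t ht => ?_⟩
  · refine natDegree_mul_le.trans ?_
    have := natDegree_X_le (R := ℂ)
    omega
  · rw [coeff_X_mul, h2]
  · rw [mul_coeff_zero, coeff_X_zero, zero_mul]
  · rw [eval_mul, eval_X, ← h4 t ht, pow_succ]
    ring

/-- both extreme coefficients vanish -/
theorem IsT.cut {m d : ℕ} {f : ℂ → ℂ} (h : IsT (m + 1) (d + 2) 0 0 f) : IsB m d f := by
  obtain ⟨p, h1, h2, h3, h4⟩ := h
  obtain ⟨q, hq⟩ := X_dvd_iff.mpr h3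
  refine ⟨q, ?_, fun t ht => ?_⟩
  · by_cases hz : q = 0
    · rw [hz, natDegree_zero]
      omega
    · have h5 : p.natDegree = 1 + q.natDegree := by
        rw [hq, natDegree_mul X_ne_zero hz, natDegree_X]
      have h6 : p.natDegree ≠ d + 2 := by
        intro h7
        rw [← h7, coeff_natDegree, leadingCoeff_eq_zero] at h2
        rw [h2, natDegree_zero] at h7
        omega
      omega
  · have h5 := h4 t ht
    rw [hq, eval_mul, eval_X, pow_succ'] at h5
    apply mul_left_cancel₀ ht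
    rw [← h5]
    ring

theorem SS_lead (R : Multiset ℂ) : IsL (Multiset.card R / 2) (SS R) (fun x => SS (x ::ₘ R)) := by
  obtain ⟨p, h1, h2, h3⟩ := MS_lead bb (d := Multiset.card R / 2) R (by
    intro j hj
    rw [bb_natDegree]
    have : j / 2 ≤ Multiset.card R / 2 := Nat.div_le_div_right (by omega)
    omega) (by rw [bb_natDegree])
  have hc : (bb (Multiset.card R)).coeff (Multiset.card R + Multiset.card R / 2) = 1 := by
    have h := (bb_monic (Multiset.card R)).coeff_natDegree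
    rwa [bb_natDegree] at h
  rw [hc, one_mul] at h2
  exact ⟨p, h1, h2, h3⟩

theorem MS_yb'_lead {n : ℕ} {R : Multiset ℂ} (hR : Multiset.card R = 2 * n + 1) : ∃ p : ℂ[X], p.natDegree ≤ n + 1 ∧
    p.coeff (n + 1) = MS yb' R ∧ p.coeff 0 = MS yb' (0 ::ₘ R) ∧ ∀ x, MS yb' (x ::ₘ R) = p.eval x := by
  obtain ⟨p, h1, h2, h3⟩ := MS_lead yb' (d := n + 1) R (by
    intro j hj
    rw [hR] at hj ⊢
    rw [yb'_natDegree]
    unfold ye'
    omega) (by
    rw [hR, yb'_natDegree]
    unfold ye'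
    omega)
  have hc : (yb' (Multiset.card R)).coeff (Multiset.card R + (n + 1)) = 1 := by
    rw [hR]
    have e : yb' (2 * n + 1) = X ^ (2 * n + 1 + (n + 1)) := by
      unfold yb' ye'
      congr 1
      omega
    rw [e, coeff_X_pow_self]
  rw [hc, one_mul] at h2
  exact ⟨p, h1, h2, by rw [coeff_zero_eq_eval_zero, ← h3], h3⟩

theorem XA_upd_zero (L : ℕ) (y : ℕ → ℂ) (t : ℂ) : XA (L + 1) (Function.update y 0 t) = PX.XX t ::ₘ XA L (CF.sh 1 y) := by
  have h : (List.range (L + 1)).map (fun i => PX.XX (Function.update y 0 t i)) =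
      PX.XX t :: (List.range L).map (fun i => PX.XX (CF.sh 1 y i)) := by
    rw [List.range_succ_eq_map, List.map_cons, List.map_map]
    congr 2
  exact congrArg (fun l : List ℂ => (l : Multiset ℂ)) h

theorem ZB_upd_zero (c n : ℕ) (y : ℕ → ℂ) (t : ℂ) : ZB (c + 1) n (Function.update y 0 t) = ZB c n (CF.sh 1 y) := by
  unfold ZB
  refine Multiset.map_congr rfl fun k _ => ?_
  rw [Function.update_of_ne (by omega)]
  rfl

theorem XA_upd_last (L : ℕ) (y : ℕ → ℂ) (t : ℂ) : XA (L + 1) (Function.update y L t) = PX.XX t ::ₘ XA L y := by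
  unfold XA
  rw [Multiset.range_succ, Multiset.map_cons, Function.update_self]
  congr 1
  refine Multiset.map_congr rfl fun k hk => ?_
  rw [Multiset.mem_range] at hk
  rw [Function.update_of_ne (by omega)]

theorem XA_upd (L i : ℕ) (h : L ≤ i) (y : ℕ → ℂ) (t : ℂ) : XA L (Function.update y i t) = XA L y := by
  unfold XA
  refine Multiset.map_congr rfl fun k hk => ?_
  rw [Multiset.mem_range] at hk
  rw [Function.update_of_ne (by omega)]

/-- the variables of the cylinder without the last one -/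
def ZB' (c n : ℕ) (y : ℕ → ℂ) : Multiset ℂ := (Multiset.range (2 * n + 1)).map (fun i => y (i + c))

theorem ZB_upd_last (c n : ℕ) (y : ℕ → ℂ) (t : ℂ) :
    ZB c (n + 1) (Function.update y (2 * n + 1 + c) t) = t ::ₘ ZB' c n y := by
  unfold ZB ZB'
  rw [show 2 * (n + 1) = 2 * n + 1 + 1 by ring, Multiset.range_succ, Multiset.map_cons, Function.update_self]
  congr 1
  refine Multiset.map_congr rfl fun k hk => ?_
  rw [Multiset.mem_range] at hk
  rw [Function.update_of_ne (by omega)]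

end CZ
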