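import Pool.Agent.Lib.MP_216314_pr.CZ.Fn

/-!
# The normalised symmetrised pairing satisfies the hypotheses of the induction
-/

set_option autoImplicit false

noncomputable section

namespace CZ

open Polynomial

theorem gen_aux {A B a b : ℂ} (hA : A ≠ 0) (hB : B ≠ 0) (h1 : A ≠ B) (h2 : A * B ≠ 1) (ha : a = A ∨ a = A⁻¹)
    (hb : b = B ∨ b = B⁻¹) : a ≠ b ∧ a * b ≠ 1 := by
  rcases ha with rfl | rfl
  · rcases hb with rfl | rfl
    · exact ⟨h1, h2⟩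
    · refine ⟨fun h => h2 ?_, fun h => h1 ?_⟩
      · rw [h, inv_mul_cancel₀ hB]
      · field_simp at h
        exact h
  · rcases hb with rfl | rfl
    · refine ⟨fun h => h2 ?_, fun h => h1 ?_⟩
      · rw [← h, mul_inv_cancel₀ hA]
      · field_simp at h
        exact h.symm
    · refine ⟨fun h => h1 (inv_injective h), fun h => h2 ?_⟩
      rw [← mul_inv, inv_eq_one] at h
      exact h

theorem gen_ibv {c L : ℕ} {y : ℕ → ℂ} (h : PX.Gen L y) : PX.Gen L (ibv c y) := by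
  have e1 : ∀ k : ℕ, ibv c y k = y k ∨ ibv c y k = (y k)⁻¹ := by
    intro k
    unfold ibv
    split_ifs
    · exact Or.inl rfl
    · exact Or.inr rfl
  have e3 : ∀ k : ℕ, ibv c y k ^ 3 = y k ^ 3 ∨ ibv c y k ^ 3 = (y k ^ 3)⁻¹ := by
    intro k
    rcases e1 k with h1 | h1
    · left
      rw [h1]
    · right
      rw [h1, inv_pow]
  refine ⟨ibv_nz h.1, fun k hk => ?_, fun i j hi hj hij => ?_⟩
  · rcases e1 k with h1 | h1
    · rw [h1]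
      exact h.2.1 k hk
    · rw [h1, inv_pow]
      intro h2
      exact h.2.1 k hk (inv_eq_one.mp h2)
  · obtain ⟨h1, h2⟩ := h.2.2 i j hi hj hij
    exact gen_aux (pow_ne_zero 3 (h.1 i hi)) (pow_ne_zero 3 (h.1 j hj)) h1 h2 (e3 i) (e3 j)

theorem gen_inj {L : ℕ} {y : ℕ → ℂ} (h : PX.Gen L y) {i j : ℕ} (hi : i < L) (hj : j < L) (hij : y i = y j) : i = j := by
  by_contra hne
  exact (h.2.2 i j hi hj hne).1 (by rw [hij])

theorem ZB_nodup {c n L : ℕ} {y : ℕ → ℂ} (h : PX.Gen L y) (hL : c + 2 * n ≤ L) : (ZB c n y).Nodup := by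
  unfold ZB
  rw [Multiset.nodup_map_iff_inj_on (Multiset.nodup_range _)]
  intro i hi j hj hij
  rw [Multiset.mem_range] at hi hj
  have := gen_inj h (by omega) (by omega) hij
  omega

theorem ZB_ne {c n L : ℕ} {y : ℕ → ℂ} (h : PX.NZ L y) (hL : c + 2 * n ≤ L) : ∀ b ∈ ZB c n y, b ≠ 0 := by
  intro b hb
  unfold ZB at hb
  rw [Multiset.mem_map] at hb
  obtain ⟨i, hi, rfl⟩ := hb
  rw [Multiset.mem_range] at hi
  exact h _ (by omega)

theorem ZB_card (c n : ℕ) (y : ℕ → ℂ) : Multiset.card (ZB c n y) = 2 * n := by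
  unfold ZB
  rw [Multiset.card_map, Multiset.card_range]

theorem XA_card (c : ℕ) (y : ℕ → ℂ) : Multiset.card (XA c y) = c := by
  unfold XA
  rw [Multiset.card_map, Multiset.card_range]

theorem ZB_ibv {c c' n : ℕ} (h : c' ≤ c) (y : ℕ → ℂ) : ZB c n (ibv c' y) = (ZB c n y).map (fun b => b⁻¹) := by
  unfold ZB ibv
  rw [Multiset.map_map]
  refine Multiset.map_congr rfl fun k _ => ?_
  rw [if_neg (by omega)]
  rfl

theorem map_inv_inv (M : Multiset ℂ) : (M.map (fun b => b⁻¹)).map (fun b => b⁻¹) = M := by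
  rw [Multiset.map_map]
  have e : ((fun b : ℂ => b⁻¹) ∘ (fun b : ℂ => b⁻¹)) = fun b => b := by
    funext b
    exact inv_inv b
  rw [e, Multiset.map_id']

theorem sh_ibv (c : ℕ) (y : ℕ → ℂ) : CF.sh 1 (ibv (c + 1) y) = ibv c (CF.sh 1 y) := by
  funext k
  show (if k + 1 < c + 1 then y (k + 1) else (y (k + 1))⁻¹) = (if k < c then y (k + 1) else (y (k + 1))⁻¹)
  by_cases h : k < c
  · rw [if_pos h, if_pos (by omega)]
  · rw [if_neg h, if_neg (by omega)]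

theorem Nv_polA {V : ℕ → ℕ → (ℕ → ℂ) → ℂ} (hV : VFacts V) (k n : ℕ) (y : ℕ → ℂ)
    (hy : PX.Gen (2 * k + 2 * n) (CF.sh 1 y)) : ∃ p : ℂ[X], p.natDegree ≤ 2 * (2 * k + n) ∧
      p.coeff (2 * (2 * k + n)) = SS (XA (2 * k) (CF.sh 1 y)) * SS (XA (2 * k + 2 * n) (CF.sh 1 y)) *
        MS yb' (ZB (2 * k) n (CF.sh 1 y)) ∧
      ∀ t : ℂ, t ≠ 0 → t ^ (2 * k + n) * Nv V (2 * k + 1) n (Function.update y 0 t) = p.eval t := by
  have hk := ka_ne (2 * k + 1) n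
  obtain ⟨p1, a1, b1, c1⟩ := hV.polA k n y hy
  obtain ⟨p2, a2, b2, c2⟩ := hV.polA k n (ibv (2 * k + 1) y) (by rw [sh_ibv]; exact gen_ibv hy)
  rw [sh_ibv, XA_ibv, XA_ibv, ZB_ibv le_rfl, map_inv_inv] at b2
  have t1 : IsT (2 * k + n) (2 * (2 * k + n)) (p1.coeff (2 * (2 * k + n))) (p1.coeff 0)
      (fun t => V (2 * k + 1) n (Function.update y 0 t)) := ⟨p1, a1, rfl, rfl, c1⟩
  have t2 : IsT (2 * k + n) (2 * (2 * k + n)) (p2.coeff (2 * (2 * k + n))) (p2.coeff 0)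
      (fun t => V (2 * k + 1) n (ibv (2 * k + 1) (Function.update y 0 t))) := by
    refine IsT.congr (f := fun t => V (2 * k + 1) n (Function.update (ibv (2 * k + 1) y) 0 t)) ⟨p2, a2, rfl, rfl, c2⟩ ?_
    intro t _
    rw [ibv_upd (by omega)]
  have s1 := (SS_lead (XA (2 * k + 2 * n) (CF.sh 1 y))).isT
  have s2 := (SS_lead (XA (2 * k) (CF.sh 1 y))).isT
  rw [XA_card] at s1 s2
  obtain ⟨S1, hS1⟩ : ∃ S1, S1 = SS (XA (2 * k + 2 * n) (CF.sh 1 y)) := ⟨_, rfl⟩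
  obtain ⟨S2, hS2⟩ : ∃ S2, S2 = SS (XA (2 * k) (CF.sh 1 y)) := ⟨_, rfl⟩
  obtain ⟨M, hM⟩ : ∃ M, M = MS yb' (ZB (2 * k) n (CF.sh 1 y)) := ⟨_, rfl⟩
  obtain ⟨M', hM'⟩ : ∃ M', M' = MS yb' ((ZB (2 * k) n (CF.sh 1 y)).map (fun b => b⁻¹)) := ⟨_, rfl⟩
  obtain ⟨P, hP⟩ : ∃ P, P = (ZB (2 * k) n (CF.sh 1 y)).prod := ⟨_, rfl⟩
  have hrev : M' * P ^ n = M := by
    rw [hM', hP, hM]
    exact MS_yb'_inv (ZB_card _ _ _) (ZB_ne hy.1 le_rfl) (ZB_nodup hy le_rfl)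
  have s3 := ((s1.mul s2).smul ((1 + PX.om) * M))
  have t3 := (((t1.smul (P ^ n)).add t2).smul (ka (2 * k + 1) n)⁻¹).add (((s3.cast (m' := 2 * k + n)
    (d' := 2 * (2 * k + n)) (by omega) (by omega) rfl rfl)).smul (-1))
  obtain ⟨q, q1, q2, q3, q4⟩ := t3.smul (1 - PX.om)⁻¹
  refine ⟨q, q1, ?_, fun t ht => ?_⟩
  · rw [q2, b1, b2, ← hS1, ← hS2, ← hM, ← hM']
    have h1 := one_sub_om
    have h2 : (ka (2 * k + 1) n)⁻¹ * ka (2 * k + 1) n = 1 := inv_mul_cancel₀ hk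
    have h3 : (1 - PX.om)⁻¹ * (1 - PX.om) = 1 := inv_mul_cancel₀ h1
    generalize (ka (2 * k + 1) n)⁻¹ = κ' at h2 ⊢
    generalize ka (2 * k + 1) n = κ at h2 ⊢
    generalize (1 - PX.om)⁻¹ = o at h3 ⊢
    linear_combination (o * κ' * κ * S2 * S1) * hrev + (o * (M + M) * S2 * S1) * h2 + (S2 * S1 * M) * h3
  · rw [← q4 t ht]
    congr 1
    unfold Nv
    have e1 : XA (2 * k + 1 + 2 * n) (Function.update y 0 t) = PX.XX t ::ₘ XA (2 * k + 2 * n) (CF.sh 1 y) := by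
      rw [show 2 * k + 1 + 2 * n = 2 * k + 2 * n + 1 by ring, XA_upd_zero]
    rw [Pb_eq, e1, XA_upd_zero, ZB_upd_zero, ← hP, ← hM, div_eq_mul_inv]
    ring

theorem ZB'_card (c n : ℕ) (y : ℕ → ℂ) : Multiset.card (ZB' c n y) = 2 * n + 1 := by
  unfold ZB'
  rw [Multiset.card_map, Multiset.card_range]

theorem ZB'_ne {c n L : ℕ} {y : ℕ → ℂ} (h : PX.NZ L y) (hL : c + 2 * n + 1 ≤ L) : ∀ b ∈ ZB' c n y, b ≠ 0 := by
  intro b hb
  unfold ZB' at hb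
  rw [Multiset.mem_map] at hb
  obtain ⟨i, hi, rfl⟩ := hb
  rw [Multiset.mem_range] at hi
  exact h _ (by omega)

theorem ZB'_nodup {c n L : ℕ} {y : ℕ → ℂ} (h : PX.Gen L y) (hL : c + 2 * n + 1 ≤ L) : (ZB' c n y).Nodup := by
  unfold ZB'
  rw [Multiset.nodup_map_iff_inj_on (Multiset.nodup_range _)]
  intro i hi j hj hij
  rw [Multiset.mem_range] at hi hj
  have := gen_inj h (by omega) (by omega) hij
  omega

theorem ZB'_inv (c n : ℕ) (y : ℕ → ℂ) :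
    (Multiset.range (2 * n + 1)).map (fun i => (y (i + c))⁻¹) = (ZB' c n y).map (fun b => b⁻¹) := by
  unfold ZB'
  rw [Multiset.map_map]
  rfl

theorem ZB'_ibv (c n : ℕ) (y : ℕ → ℂ) :
    (Multiset.range (2 * n + 1)).map (fun i => (ibv c y (i + c))⁻¹) = ZB' c n y := by
  unfold ZB' ibv
  refine Multiset.map_congr rfl fun k _ => ?_
  rw [if_neg (by omega), inv_inv]

theorem Nv_upd_last (V : ℕ → ℕ → (ℕ → ℂ) → ℂ) (k n : ℕ) (y : ℕ → ℂ) (t : ℂ) :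
    Nv V (2 * k + 1) (n + 1) (Function.update y (2 * k + 2 * n + 2) t) = (1 - PX.om)⁻¹ *
      ((ka (2 * k + 1) (n + 1))⁻¹ * ((ZB' (2 * k + 1) n y).prod ^ (n + 1) *
          (t ^ (n + 1) * V (2 * k + 1) (n + 1) (Function.update y (2 * k + 2 * n + 2) t)) +
          V (2 * k + 1) (n + 1) (Function.update (ibv (2 * k + 1) y) (2 * k + 2 * n + 2) t⁻¹)) +
        (-(1 + PX.om) * SS (XA (2 * k + 1) y)) * (SS (PX.XX t ::ₘ XA (2 * k + 2 * n + 2) y) *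
          MS yb' (t ::ₘ ZB' (2 * k + 1) n y))) := by
  unfold Nv
  have e1 : XA (2 * k + 1 + 2 * (n + 1)) (Function.update y (2 * k + 2 * n + 2) t) =
      PX.XX t ::ₘ XA (2 * k + 2 * n + 2) y := by
    rw [show 2 * k + 1 + 2 * (n + 1) = 2 * k + 2 * n + 2 + 1 by ring, XA_upd_last]
  have e2 : ZB (2 * k + 1) (n + 1) (Function.update y (2 * k + 2 * n + 2) t) = t ::ₘ ZB' (2 * k + 1) n y := by
    rw [show 2 * k + 2 * n + 2 = 2 * n + 1 + (2 * k + 1) by ring, ZB_upd_last]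
  rw [Pb_eq, e1, XA_upd _ _ (by omega), e2, Multiset.prod_cons, ibv_upd' (by omega), mul_pow, div_eq_mul_inv]
  ring

theorem Nv_polB {V : ℕ → ℕ → (ℕ → ℂ) → ℂ} (hV : VFacts V) (k n : ℕ) (y : ℕ → ℂ)
    (hy : PX.Gen (2 * k + 2 * n + 2) y) :
    IsB (k + n) (2 * k + 3 * n + 1) (fun t => Nv V (2 * k + 1) (n + 1) (Function.update y (2 * k + 2 * n + 2) t)) := by
  have hk := ka_ne (2 * k + 1) (n + 1)
  obtain ⟨p1, a1, b1, c1⟩ := hV.polB k n y hy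
  obtain ⟨p2, a2, b2, c2⟩ := hV.polB k n (ibv (2 * k + 1) y) (gen_ibv hy)
  rw [XA_ibv, XA_ibv, ZB'_ibv] at b2
  rw [ZB'_inv] at b1
  obtain ⟨R, hR⟩ : ∃ R, R = SS (XA (2 * k + 2 * n + 2) y) := ⟨_, rfl⟩
  obtain ⟨A, hA⟩ : ∃ A, A = SS (XA (2 * k + 1) y) := ⟨_, rfl⟩
  obtain ⟨M, hM⟩ : ∃ M, M = MS yb' (ZB' (2 * k + 1) n y) := ⟨_, rfl⟩
  obtain ⟨M0, hM0⟩ : ∃ M0, M0 = MS yb' (0 ::ₘ ZB' (2 * k + 1) n y) := ⟨_, rfl⟩
  obtain ⟨M1, hM1⟩ : ∃ M1, M1 = MS yb' (0 ::ₘ (ZB' (2 * k + 1) n y).map (fun b => b⁻¹)) := ⟨_, rfl⟩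
  obtain ⟨P, hP⟩ : ∃ P, P = (ZB' (2 * k + 1) n y).prod := ⟨_, rfl⟩
  have hrev : M1 * P ^ (n + 1) = M := by
    rw [hM1, hP, hM]
    exact MS_yb'_zero_inv (ZB'_card _ _ _) (ZB'_ne hy.1 (by omega)) (ZB'_nodup hy (by omega))
  rw [← hR, ← hA, ← hM1] at b1
  rw [← hR, ← hA, ← hM0] at b2
  -- the first term
  have t1 : IsT (k + n) (2 * k + 3 * n + 2) (p1.coeff (2 * k + 3 * n + 2)) (p1.coeff 0)
      (fun t => t ^ (n + 1) * V (2 * k + 1) (n + 1) (Function.update y (2 * k + 2 * n + 2) t)) := by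
    refine ⟨p1, a1, rfl, rfl, fun t ht => ?_⟩
    rw [← c1 t ht, ← mul_assoc, ← pow_add]
    congr 2
    ring
  have t1' := (t1.down).smul (P ^ (n + 1))
  -- the second term
  have t2 : IsT (k + 2 * n + 1) (2 * k + 3 * n + 2) (p2.coeff (2 * k + 3 * n + 2)) (p2.coeff 0)
      (fun t => V (2 * k + 1) (n + 1) (Function.update (ibv (2 * k + 1) y) (2 * k + 2 * n + 2) t)) :=
    ⟨p2, a2, rfl, rfl, c2⟩
  have t2' := (t2.refl (m' := k + n + 1) (by ring)).up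
  -- the third term
  have s1 := (SS_lead (XA (2 * k + 2 * n + 2) y)).isT
  rw [XA_card, ← hR] at s1
  obtain ⟨q, q1, q2, q3, q4⟩ := MS_yb'_lead (ZB'_card (2 * k + 1) n y)
  rw [← hM] at q2
  rw [← hM0] at q3
  have s2 : IsT 0 (n + 1) M M0 (fun t => MS yb' (t ::ₘ ZB' (2 * k + 1) n y)) := by
    refine (IsT.of_poly q1).cast rfl rfl q2.symm q3.symm |>.congr fun t _ => ?_
    exact q4 t
  have s3 := (s1.mul s2).smul (-(1 + PX.om) * A)
  have t12 := (t1'.add (t2'.cast (m' := k + n + 1) (d' := 2 * k + 3 * n + 2 + 1) rfl rfl rfl rfl)).smul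
    (ka (2 * k + 1) (n + 1))⁻¹
  have t123 := ((t12.add (s3.cast (m' := k + n + 1) (d' := 2 * k + 3 * n + 2 + 1) (by omega) (by omega) rfl rfl))).smul
    (1 - PX.om)⁻¹
  have h2 : (ka (2 * k + 1) (n + 1))⁻¹ * ka (2 * k + 1) (n + 1) = 1 := inv_mul_cancel₀ hk
  have hom : PX.om ^ 2 + PX.om + 1 = 0 := by linear_combination PX.om_eq
  have t4 := t123.cast (m' := k + n + 1) (d' := 2 * k + 3 * n + 1 + 2) (k := 0) (k0 := 0) rfl rfl (by
    rw [b1]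
    generalize (ka (2 * k + 1) (n + 1))⁻¹ = κ' at h2 ⊢
    generalize ka (2 * k + 1) (n + 1) = κ at h2 ⊢
    generalize (1 - PX.om)⁻¹ = o
    linear_combination (o * κ' * κ * PX.om ^ 2 * R * A) * hrev + (o * PX.om ^ 2 * R * A * M) * h2 + (o * A * R * M) * hom)
    (by
    rw [b2]
    generalize (ka (2 * k + 1) (n + 1))⁻¹ = κ' at h2 ⊢
    generalize ka (2 * k + 1) (n + 1) = κ at h2 ⊢
    generalize (1 - PX.om)⁻¹ = o
    linear_combination (o * PX.om ^ 2 * R * A * M0) * h2 + (o * A * R * M0) * hom)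
  refine (t4.cut).congr fun t _ => ?_
  rw [Nv_upd_last, ← hA, ← hP]

end CZ
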