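import Pool.Agent.Lib.MP_216314_pr.CZ.Fo

/-!
# THEOREM: the inhomogeneous formula for the strip with a strip and a cylinder, and its homogeneous value
-/

set_option autoImplicit false

noncomputable section

namespace CZ

open Polynomial Filter Topology

/-- Laurent polynomial -/
def IsBB (f : ℂ → ℂ) : Prop := ∃ m d : ℕ, IsB m d f

theorem IsBB.add {f g : ℂ → ℂ} (hf : IsBB f) (hg : IsBB g) : IsBB (fun t => f t + g t) := by
  obtain ⟨m, d, p, _, h2⟩ := hf
  obtain ⟨m', d', q, _, h4⟩ := hg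
  refine ⟨m + m', (X ^ m' * p + X ^ m * q).natDegree, X ^ m' * p + X ^ m * q, le_rfl, fun b hb => ?_⟩
  show b ^ (m + m') * (f b + g b) = _
  rw [eval_add, eval_mul, eval_mul, eval_pow, eval_pow, eval_X, ← h2 b hb, ← h4 b hb, pow_add]
  ring

theorem IsBB.mul {f g : ℂ → ℂ} (hf : IsBB f) (hg : IsBB g) : IsBB (fun t => f t * g t) := by
  obtain ⟨m, d, h⟩ := hf
  obtain ⟨m', d', h'⟩ := hg
  exact ⟨_, _, h.mul h'⟩

theorem IsBB.smul {f : ℂ → ℂ} (c : ℂ) (hf : IsBB f) : IsBB (fun t => c * f t) := by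
  obtain ⟨m, d, h⟩ := hf
  exact ⟨_, _, h.smul c⟩

theorem IsBB.congr {f g : ℂ → ℂ} (hf : IsBB f) (hfg : ∀ t, t ≠ 0 → g t = f t) : IsBB g := by
  obtain ⟨m, d, h⟩ := hf
  exact ⟨_, _, h.congr hfg⟩

theorem IsBB.refl {f : ℂ → ℂ} (hf : IsBB f) : IsBB (fun t => f t⁻¹) := by
  obtain ⟨m, d, p, h1, h2⟩ := hf
  have h : IsT m (d + m) (p.coeff (d + m)) (p.coeff 0) f := ⟨p, by omega, rfl, rfl, h2⟩
  exact ⟨d, d + m, (h.refl (m' := d) (by ring)).isB⟩

theorem Nv_lau {V : ℕ → ℕ → (ℕ → ℂ) → ℂ} (hV : VFacts V) (k n : ℕ) (y : ℕ → ℂ)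
    (hy : PX.NZ (2 * k + 2 * n + 2) y) :
    ∃ m d : ℕ, IsB m d (fun t => Nv V (2 * k + 1) (n + 1) (Function.update y (2 * k + 2 * n + 2) t)) := by
  have hnz : PX.NZ (2 * k + 1 + 2 * (n + 1)) (Function.update y (2 * k + 2 * n + 2) 1) := by
    intro i hi
    by_cases h : i = 2 * k + 2 * n + 2
    · rw [h, Function.update_self]
      exact one_ne_zero
    · rw [Function.update_of_ne h]
      exact hy i (by omega)
  have h1 : IsBB (fun t => V (2 * k + 1) (n + 1) (Function.update y (2 * k + 2 * n + 2) t)) := by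
    have h := Lau_IsB (hV.lau (2 * k + 1) (n + 1)) hnz (i := 2 * k + 2 * n + 2) (by omega)
    simp only [Function.update_idem] at h
    exact h
  have h2 : IsBB (fun t => V (2 * k + 1) (n + 1) (Function.update (ibv (2 * k + 1) y) (2 * k + 2 * n + 2) t)) := by
    have h := Lau_IsB (hV.lau (2 * k + 1) (n + 1)) (ibv_nz (c := 2 * k + 1) hnz) (i := 2 * k + 2 * n + 2) (by omega)
    rw [ibv_upd' (by omega)] at h
    simp only [Function.update_idem] at h
    exact h
  have h3 : IsBB (fun t => t ^ (n + 1)) := ⟨0, n + 1, X ^ (n + 1), natDegree_X_pow_le _, fun t _ => by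
    rw [eval_pow, eval_X, pow_zero, one_mul]⟩
  have h4 : IsBB (fun t => SS (PX.XX t ::ₘ XA (2 * k + 2 * n + 2) y)) :=
    ⟨_, _, (SS_lead (XA (2 * k + 2 * n + 2) y)).isT.isB⟩
  obtain ⟨q, q1, _, _, q4⟩ := MS_yb'_lead (ZB'_card (2 * k + 1) n y)
  have h5 : IsBB (fun t => MS yb' (t ::ₘ ZB' (2 * k + 1) n y)) :=
    ⟨0, n + 1, q, q1, fun t _ => by rw [pow_zero, one_mul]; exact q4 t⟩
  have h6 := ((((h3.mul h1).smul ((ZB' (2 * k + 1) n y).prod ^ (n + 1))).add h2.refl).smul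
    (ka (2 * k + 1) (n + 1))⁻¹).add ((h4.mul h5).smul (-(1 + PX.om) * SS (XA (2 * k + 1) y)))
  exact (h6.smul (1 - PX.om)⁻¹).congr fun t _ => Nv_upd_last V k n y t

/-- THEOREM: all hypotheses -/
theorem Nv_facts {V : ℕ → ℕ → (ℕ → ℂ) → ℂ} (hV : VFacts V) : NFacts (Nv V) where
  sy := fun _ n hc => Nv_sy hV hc n
  zero := fun y _ => Nv_zero hV y
  fusA := fun c n u w hc hu hw => Nv_fusA hV c n u w hc hu hw
  fusB := fun c n u w hc hu hw => Nv_fusB hV c n u w hc hu hw
  polA := fun k n y hy => Nv_polA hV k n y hy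
  polB := fun k n y hy => Nv_polB hV k n y hy
  lau := fun k n y hy => Nv_lau hV k n y hy

/-- THEOREM: the exact formula, arguments of the strip generic, arguments of the cylinder arbitrary -/
theorem V_formula {V : ℕ → ℕ → (ℕ → ℂ) → ℂ} (hV : VFacts V) {c n : ℕ} (hc : Odd c) {y : ℕ → ℂ}
    (hy : PX.NZ (c + 2 * n) y) (hG : Gen (XA c y)) :
    Pb c n y ^ n * V c n y + V c n (ibv c y) = ka c n * ((1 + PX.om) * (SS (XA (c + 2 * n) y) * SS (XA c y) *
      MS yb' (ZB c n y)) + (1 - PX.om) * FW (XA c y) (ZB c n y)) := by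
  obtain ⟨lA, hlA⟩ : ∃ lA : List ℂ, lA = (List.range c).map y := ⟨_, rfl⟩
  obtain ⟨lB, hlB⟩ : ∃ lB : List ℂ, lB = (List.range (2 * n)).map (fun i => y (i + c)) := ⟨_, rfl⟩
  have h3 : lA.length = c := by rw [hlA, List.length_map, List.length_range]
  have h4 : lB.length = 2 * n := by rw [hlB, List.length_map, List.length_range]
  have h1 : ∀ b ∈ lA, b ≠ 0 := by
    intro b hb
    rw [hlA, List.mem_map] at hb
    obtain ⟨i, hi, rfl⟩ := hb
    rw [List.mem_range] at hi
    exact hy i (by omega)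
  have h2 : ∀ b ∈ lB, b ≠ 0 := by
    intro b hb
    rw [hlB, List.mem_map] at hb
    obtain ⟨i, hi, rfl⟩ := hb
    rw [List.mem_range] at hi
    exact hy _ (by omega)
  have eA : XA c y = ((lA.map PX.XX : List ℂ) : Multiset ℂ) := by
    rw [hlA, List.map_map]
    rfl
  have eB : ZB c n y = ((lB : List ℂ) : Multiset ℂ) := by
    rw [hlB]
    rfl
  have hloc : ∀ i, i < c + 2 * n → y i = yl (lA ++ lB) i := by
    intro i hi
    by_cases h : i < c
    · rw [yl_left (by omega)]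
      unfold yl
      rw [List.getD_eq_getElem _ _ (by omega)]
      simp only [hlA, List.getElem_map, List.getElem_range]
    · rw [yl_right (by omega), h3]
      unfold yl
      rw [List.getD_eq_getElem _ _ (by omega)]
      simp only [hlB, List.getElem_map, List.getElem_range]
      congr 1
      omega
  have h := N_eq_FW (Nv_facts hV) hc h1 h2 h3 h4 (by rw [← eA]; exact hG)
  rw [← ((Nv_sy hV hc n).loc y (yl (lA ++ lB)) hloc), ← eA, ← eB] at h
  unfold Nv at h
  have ho := one_sub_om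
  have hk := ka_ne c n
  field_simp at h
  linear_combination h

end CZ
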