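import Pool.Agent.Lib.MP_216314_pr.CZ.Fq

/-!
# The boundary value: circumference 2 gives Cardy's sum
-/

set_option autoImplicit false

noncomputable section

namespace CZ

open Polynomial Filter Topology

theorem yp_two : yp (Multiset.replicate (2 * (0 + 1)) 1) =
    C (MS yb' (Multiset.replicate (2 * (0 + 1)) 1)) * (X + C 1) := by
  obtain ⟨h1, h2⟩ := yp_lead (B := Multiset.replicate (2 * (0 + 1)) 1) (n := 1) (by rw [Multiset.card_replicate])
  have h3 : (yp (Multiset.replicate (2 * (0 + 1)) 1)).eval (-1) = 0 := by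
    have ho : PX.om * PX.om ^ 2 = 1 := by linear_combination PX.om_cube
    have hs : PX.om + PX.om ^ 2 = -1 := by linear_combination PX.om_eq
    have h4 := yp_eval (Multiset.replicate (2 * (0 + 1)) 1) PX.om (PX.om ^ 2) ho
    rw [hs] at h4
    rw [← h4]
    have h5 : (Multiset.replicate (2 * (0 + 1)) (1 : ℂ)) = 1 ::ₘ 1 ::ₘ 0 := rfl
    have h6 : PX.om ::ₘ PX.om ^ 2 ::ₘ (1 : ℂ) ::ₘ 1 ::ₘ 0 = 1 ::ₘ PX.om ::ₘ PX.om ^ 2 ::ₘ (1 : ℂ) ::ₘ 0 := by
      rw [Multiset.cons_swap (PX.om ^ 2) 1, Multiset.cons_swap PX.om 1]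
    have h7 : Tr3 1 PX.om (PX.om ^ 2) := by
      have h := tr3 (u := 1) one_ne_zero
      rwa [mul_one, mul_one] at h
    rw [h5, h6, MS_yb_fus h7, Multiset.map_cons, Multiset.prod_cons, sub_self, zero_mul, zero_mul]
  obtain ⟨p, hp⟩ : ∃ p, p = yp (Multiset.replicate (2 * (0 + 1)) 1) := ⟨_, rfl⟩
  rw [← hp] at h1 h2 h3 ⊢
  have h4 : p = C (p.coeff 1) * X + C (p.coeff 0) := eq_X_add_C_of_natDegree_le_one h1
  rw [h4, eval_add, eval_mul, eval_C, eval_X, eval_C] at h3
  rw [h2] at h3 h4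
  have h5 : p.coeff 0 = MS yb' (Multiset.replicate (2 * (0 + 1)) 1) := by linear_combination h3
  rw [h5] at h4
  rw [h4, C_1]
  ring

/-- THEOREM: circumference 2 -/
theorem EE_zero {k : ℕ} (hk : Even k) : EE k 0 = (CDH.FF (k + 1) 1 : ℂ) := by
  obtain ⟨N, hN⟩ : ∃ N : Multiset (ℕ → ℂ), N = (Multiset.range (k + 1)).map
    (fun i : ℕ => fun m : ℕ => PX.XX (1 + ((i : ℂ) + 1) / ((m : ℂ) + 1))) := ⟨_, rfl⟩
  have hcard : Multiset.card N = k + 1 := by rw [hN, Multiset.card_map, Multiset.card_range]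
  have hlim : ∀ f ∈ N, Tendsto f atTop (𝓝 2) := by
    intro f hf
    rw [hN, Multiset.mem_map] at hf
    obtain ⟨i, hi, rfl⟩ := hf
    rw [Multiset.mem_range] at hi
    have h := XX_cont one_ne_zero (yq_tendsto (k + 1) i)
    rw [XX_one] at h
    refine h.congr fun m => ?_
    unfold yq
    rw [if_pos hi]
  have hG : ∀ᶠ m in atTop, Gen (N.map (fun f => f m)) := by
    refine Eventually.of_forall fun m => ?_
    have h := gen_path (k + 1) m
    rw [hN, Multiset.map_map]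
    exact h
  have h1 := FW_hom hk (n := 0) atTop N hcard hlim hG
  have h2 := VB_hom SS_char SS_L4 (k := k + 1) (m := 1) hk.add_one odd_one atTop N hcard hlim hG
  obtain ⟨M, hM⟩ : ∃ M, M = MS yb' (Multiset.replicate (2 * (0 + 1)) 1) := ⟨_, rfl⟩
  have h3 : ∀ m, M * VB SS (N.map (fun f => f m)) (Multiset.replicate 1 2) 2 (-1) =
      FW (N.map (fun f => f m)) (Multiset.replicate (2 * (0 + 1)) 1) := by
    intro m
    rw [FW_eq]
    unfold VB
    rw [← Multiset.sum_map_mul_left]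
    refine congrArg Multiset.sum (Multiset.map_congr rfl fun j hj => ?_)
    have e1 : (Multiset.replicate (2 * (0 + 1)) (1 : ℂ)).map PX.XX = 2 ::ₘ 2 ::ₘ 0 := by
      rw [Multiset.map_replicate, XX_one]
      rfl
    have e2 : (2 : ℂ) ::ₘ ((N.map (fun f => f m)).erase j + Multiset.replicate 1 2) =
        (N.map (fun f => f m)).erase j + (2 ::ₘ 2 ::ₘ 0) := by
      rw [Multiset.add_cons]
      rfl
    have e3 : SS (j ::ₘ Multiset.replicate 1 2) = 1 := SS_two j 2
    rw [e1, e2, e3, yp_two, ← hM]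
    simp only [eval_mul, eval_C, eval_add, eval_X]
    ring
  have h4 := (h2.const_mul M).congr h3
  have h5 := tendsto_nhds_unique h1 h4
  have e4 : SS (Multiset.replicate 1 2) = 1 := SS_one 2
  have e5 : k + 1 + 2 * (0 + 1) = k + 1 + 1 + 1 := by ring
  rw [e4, e5, ← hM] at h5
  have n1 := SS_ne (k + 1)
  have n2 := SS_ne (k + 1 + 1 + 1)
  have n3 : M ≠ 0 := by
    rw [hM]
    exact (MS_yb_ne (0 + 1)).2
  have h6 : (SS (Multiset.replicate (k + 1) 2) * SS (Multiset.replicate (k + 1 + 1 + 1) 2) * M) * EE k 0 =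
      (SS (Multiset.replicate (k + 1) 2) * SS (Multiset.replicate (k + 1 + 1 + 1) 2) * M) * (CDH.FF (k + 1) 1 : ℂ) := by
    linear_combination h5
  exact mul_left_cancel₀ (mul_ne_zero (mul_ne_zero n1 n2) n3) h6

end CZ
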