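import Pool.Agent.Lib.MP_216314_pr.CZ.Fr

/-!
# The boundary value: strip of width 1
-/

set_option autoImplicit false

noncomputable section

namespace CZ

open PowerSeries CDH

/-- order and leading coefficient -/
def Ld (m : ℕ) (b : ℂ) (F : PowerSeries ℂ) : Prop := (∀ i, i < m → coeff i F = 0) ∧ coeff m F = b

theorem Ld.mul {m n : ℕ} {b c : ℂ} {F G : PowerSeries ℂ} (hF : Ld m b F) (hG : Ld n c G) :
    Ld (m + n) (b * c) (F * G) := by
  obtain ⟨F', hF'⟩ := X_pow_dvd_iff.mpr hF.1
  obtain ⟨G', hG'⟩ := X_pow_dvd_iff.mpr hG.1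
  have h1 : coeff 0 F' = b := by
    rw [← hF.2, hF']
    have h := coeff_X_pow_mul F' m 0
    rw [zero_add] at h
    exact h.symm
  have h2 : coeff 0 G' = c := by
    rw [← hG.2, hG']
    have h := coeff_X_pow_mul G' n 0
    rw [zero_add] at h
    exact h.symm
  have e : F * G = X ^ (m + n) * (F' * G') := by
    rw [hF', hG', pow_add]
    ring
  refine ⟨fun i hi => ?_, ?_⟩
  · exact X_pow_dvd_iff.mp ⟨F' * G', e⟩ i hi
  · rw [e]
    have h := coeff_X_pow_mul (F' * G') (m + n) 0
    rw [zero_add] at h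
    rw [h, coeff_zero_eq_constantCoeff_apply, map_mul, ← coeff_zero_eq_constantCoeff_apply,
      ← coeff_zero_eq_constantCoeff_apply, h1, h2]

theorem Ld.of_const {b : ℂ} {F : PowerSeries ℂ} (h : constantCoeff F = b) : Ld 0 b F :=
  ⟨fun i hi => absurd hi (Nat.not_lt_zero i), by rw [coeff_zero_eq_constantCoeff_apply, h]⟩

theorem const_E (m : ℤ) : constantCoeff (E m) = 1 := by
  rw [← coeff_zero_eq_constantCoeff_apply, coeff_E, pow_zero, Nat.factorial_zero, Nat.cast_one, div_one]

theorem coeff_one_dl : coeff 1 dl = 3 := by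
  unfold dl
  rw [map_sub, coeff_E, coeff_E, pow_one, pow_one, Nat.factorial_one]
  push_cast
  norm_num

theorem const_dl : constantCoeff dl = 0 := by
  unfold dl
  rw [map_sub, const_E, const_E, sub_self]

theorem Ld_dl : Ld 1 3 dl := by
  refine ⟨fun i hi => ?_, coeff_one_dl⟩
  have : i = 0 := by omega
  rw [this, coeff_zero_eq_constantCoeff_apply, const_dl]

theorem const_di : constantCoeff di = 1 / 3 := by
  have h := congrArg (fun F => constantCoeff F) dl1_mul_di
  beta_reduce at h
  rw [map_mul, map_one] at h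
  have h1 : constantCoeff dl1 = 3 := by
    rw [← coeff_zero_eq_constantCoeff_apply]
    unfold dl1
    rw [coeff_mk, zero_add, coeff_one_dl]
  rw [h1] at h
  linear_combination (1 / 3 : ℂ) * h

theorem const_xi : constantCoeff xi = 1 := by
  have h := congrArg (fun F => constantCoeff F) t_mul_xi
  beta_reduce at h
  rw [map_mul, map_sub, map_one] at h
  have h1 : constantCoeff xh = 2 := by
    unfold xh
    rw [map_add, const_E, const_E]
    norm_num
  rw [h1] at h
  linear_combination h

theorem Ld_qh : Ld 1 1 qh := by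
  refine ⟨fun i hi => ?_, ?_⟩
  · have : i = 0 := by omega
    rw [this, coeff_zero_eq_constantCoeff_apply]
    unfold qh
    rw [map_sub, const_E, const_E, sub_self]
  · unfold qh
    rw [map_sub, coeff_E, coeff_E, pow_one, pow_one, Nat.factorial_one]
    push_cast
    norm_num

/-- the value of `U` at `0` -/
def um (m : ℕ) : ℂ := constantCoeff (U m)

theorem const_V (m : ℕ) : constantCoeff (V m) = -um m := by
  unfold um V U
  rw [map_neg, map_sum, map_sum]
  refine congrArg Neg.neg (Finset.sum_congr rfl fun p _ => ?_)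
  simp only [map_mul, const_E]

theorem const_W (c d : ℂ) (m : ℕ) : constantCoeff (W c d m) = (c - d) * um m := by
  unfold W
  rw [map_add, map_mul, map_mul, const_V, constantCoeff_C, constantCoeff_C]
  unfold um
  ring

theorem um_zero : um 0 = 1 := by
  unfold um U
  rw [Finset.Nat.antidiagonal_zero, Finset.sum_singleton, map_mul, const_E, constantCoeff_C]
  unfold al be
  rw [Finset.prod_range_zero, Finset.prod_range_zero]
  norm_num

theorem um_succ (n : ℕ) : ((n : ℂ) + 1) * (3 * n + 2) * (3 * n + 4) * um (n + 1) = 2 * (2 * (n : ℂ) + 1) * um n := by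
  have h := congrArg (fun F => constantCoeff F) (R_U n)
  beta_reduce at h
  have h1 : constantCoeff (D dl) = 6 := by
    rw [← coeff_zero_eq_constantCoeff_apply, coeff_D, zero_add, coeff_one_dl]
    push_cast
    norm_num
  have h2 : constantCoeff ((n : PowerSeries ℂ)) = (n : ℂ) := map_natCast _ n
  rw [map_sub, map_mul, const_dl, map_mul, map_mul, h1, map_mul, map_neg] at h
  simp only [map_mul, map_add, map_ofNat, map_one, h2] at h
  unfold um
  linear_combination (1 / 3 : ℂ) * h

theorem Ld_Bw (n : ℕ) : Ld (2 * n + 1) (1 / ((2 * n + 1).factorial : ℂ)) (Bw n) := by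
  induction n with
  | zero =>
    have e : Bw 0 = qh := by
      unfold Bw W U V qh
      rw [Finset.Nat.antidiagonal_zero, Finset.sum_singleton, Finset.sum_singleton]
      unfold al be
      rw [Finset.prod_range_zero, Finset.prod_range_zero, mul_one, map_one, one_mul, one_mul, one_mul, one_mul]
      simp
      ring
    rw [e, mul_zero, zero_add, Nat.factorial_one, Nat.cast_one, div_one]
    exact Ld_qh
  | succ n ih =>
    have h := D_W 1 1 n
    have h1 := Ld_dl.mul ih
    have h2 : 3 * ((n : PowerSeries ℂ) + 1) = PowerSeries.C (3 * ((n : ℂ) + 1)) := by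
      rw [map_mul, map_add, map_one, map_natCast, C3]
    have h3 : ∀ i : ℕ, 3 * ((n : ℂ) + 1) * (2 * ((i : ℂ) + 1) * coeff (i + 1) (Bw (n + 1))) = coeff i (dl * Bw n) := by
      intro i
      have h4 := congrArg (fun F => coeff i F) h
      beta_reduce at h4
      rw [h2, coeff_C_mul, coeff_D] at h4
      exact h4
    have hn : ((n : ℂ) + 1) ≠ 0 := by exact_mod_cast Nat.succ_ne_zero n
    refine ⟨fun i hi => ?_, ?_⟩
    · rcases i with _ | i
      · rw [coeff_zero_eq_constantCoeff_apply]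
        unfold Bw
        rw [const_W, sub_self, zero_mul]
      · have h5 := h3 i
        rw [h1.1 i (by omega)] at h5
        have hi' : ((i : ℂ) + 1) ≠ 0 := by exact_mod_cast Nat.succ_ne_zero i
        have h6 : 3 * ((n : ℂ) + 1) * (2 * ((i : ℂ) + 1)) ≠ 0 :=
          mul_ne_zero (mul_ne_zero (by norm_num) hn) (mul_ne_zero (by norm_num) hi')
        have h7 : 3 * ((n : ℂ) + 1) * (2 * ((i : ℂ) + 1)) * coeff (i + 1) (Bw (n + 1)) = 0 := by
          rw [← h5]
          ring
        exact (mul_eq_zero.mp h7).resolve_left h6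
    · have h5 := h3 (1 + (2 * n + 1))
      rw [h1.2] at h5
      have e : 2 * (n + 1) + 1 = 1 + (2 * n + 1) + 1 := by ring
      rw [e]
      have hf : ((1 + (2 * n + 1) + 1).factorial : ℂ) = (2 * (n : ℂ) + 3) * (2 * (n : ℂ) + 2) * ((2 * n + 1).factorial : ℂ) := by
        rw [show 1 + (2 * n + 1) + 1 = (2 * n + 1 + 1) + 1 by ring, Nat.factorial_succ, Nat.factorial_succ]
        push_cast
        ring
      have hne : ((2 * n + 1).factorial : ℂ) ≠ 0 := by exact_mod_cast Nat.factorial_ne_zero _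
      have h8 : (2 * (n : ℂ) + 3) ≠ 0 := by
        have : (2 * (n : ℂ) + 3) = ((2 * n + 3 : ℕ) : ℂ) := by push_cast; ring
        rw [this, Nat.cast_ne_zero]
        omega
      have h9 : (2 * (n : ℂ) + 2) ≠ 0 := by
        have : (2 * (n : ℂ) + 2) = ((2 * n + 2 : ℕ) : ℂ) := by push_cast; ring
        rw [this, Nat.cast_ne_zero]
        omega
      rw [hf]
      generalize coeff (1 + (2 * n + 1) + 1) (Bw (n + 1)) = K at h5 ⊢
      generalize ((2 * n + 1).factorial : ℂ) = f at h5 hne ⊢
      rw [eq_div_iff (mul_ne_zero (mul_ne_zero h8 h9) hne)]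
      push_cast at h5
      have h10 : f * (3 * (1 / f)) = 3 := by
        field_simp
      linear_combination (f / 3) * h5 + (1 / 3 : ℂ) * h10

/-- the exact value for the strip of width 1 -/
theorem EE_one (n : ℕ) : EE 0 n = 3 / 2 * (be 1 * be (2 * n + 3) * be (n + 1) * be n)⁻¹ * (um 1 * um (2 * n + 3)) *
    (1 / ((2 * n + 3).factorial : ℂ) * (1 / ((2 * n + 1).factorial : ℂ))) * (1 / 3) ^ (4 * n + 6) := by
  unfold EE RE rs
  have hA : Ld 0 ((th - th⁻¹) * um (0 + 1)) (Aw (0 + 1)) := Ld.of_const (const_W _ _ _)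
  have hC : Ld 0 ((th ^ 2 - (th ^ 2)⁻¹) * um (0 + 1 + 2 * (n + 1))) (Cw (0 + 1 + 2 * (n + 1))) :=
    Ld.of_const (const_W _ _ _)
  have hD : Ld 0 ((1 / 3) ^ (2 * (0 + 2 * (n + 1)) + 1 + 1)) (di ^ (2 * (0 + 2 * (n + 1)) + 1 + 1)) := by
    apply Ld.of_const
    rw [map_pow, const_di]
  have h := ((((hA.mul hC).mul (Ld_Bw (n + 1))).mul (Ld_Bw n)).mul (Ld_qh.mul (Ld.of_const const_xi))).mul hD
  have hN : 0 + 0 + (2 * (n + 1) + 1) + (2 * n + 1) + (1 + 0) + 0 = 2 * (0 + 2 * (n + 1)) + 1 := by ring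
  rw [hN] at h
  rw [h.2]
  have e1 : (th - th⁻¹) * (th ^ 2 - (th ^ 2)⁻¹) = -3 := by
    rw [th_sq_inv_om, th_sq_om, th_inv_om, th_om]
    linear_combination (PX.om - 2) * PX.om_cube + PX.om_eq
  have e2 : 0 + 1 + 2 * (n + 1) = 2 * n + 3 := by ring
  have e3 : 2 * (0 + 2 * (n + 1)) + 1 + 1 = 4 * n + 6 := by ring
  have e4 : 2 * (n + 1) + 1 = 2 * n + 3 := by ring
  have e5 : 0 + 1 = 1 := rfl
  rw [e2, e3, e4, e5]
  generalize (be 1 * be (2 * n + 3) * be (n + 1) * be n)⁻¹ = P
  generalize um 1 = u1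
  generalize um (2 * n + 3) = u2
  generalize (1 / ((2 * n + 3).factorial : ℂ)) = f1
  generalize (1 / ((2 * n + 1).factorial : ℂ)) = f2
  generalize ((1 : ℂ) / 3) ^ (4 * n + 6) = f3
  linear_combination (-1 / 2 * P * u1 * u2 * f1 * f2 * f3) * e1

end CZ
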