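import Pool.Agent.Lib.MP_216314_pr.CZ.Fs

/-!
# The boundary value: strip of width 1, the limit
-/

set_option autoImplicit false

noncomputable section

namespace CZ

open CDH Filter Topology

/-- the sequence of the exact values -/
def ee : ℕ → ℝ
  | 0 => 1 / 2
  | n + 1 => ee n * ((4 * n + 7) * (4 * n + 9) * (3 * n + 4) / (2 * (6 * n + 11) * (2 * n + 5) * (2 * n + 3)))

theorem lin_ne (a b n : ℕ) (hb : 0 < b) : ((a : ℂ) * (n : ℂ) + (b : ℂ)) ≠ 0 := by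
  have h : ((a : ℂ) * (n : ℂ) + (b : ℂ)) = ((a * n + b : ℕ) : ℂ) := by push_cast; ring
  rw [h, Nat.cast_ne_zero]
  omega

theorem ratio_aux (N : ℂ) (h1 : N + 1 ≠ 0) (h2 : N + 2 ≠ 0) (h4 : 2 * N + 3 ≠ 0) (h5 : 2 * N + 4 ≠ 0)
    (h6 : 2 * N + 5 ≠ 0) (h9 : 6 * N + 11 ≠ 0) (h10 : 6 * N + 13 ≠ 0) (h11 : 6 * N + 14 ≠ 0)
    (h12 : 6 * N + 16 ≠ 0) (h3 : 2 * N + 2 ≠ 0) :
    9 * ((2 * N + 4) * (6 * N + 13) * (2 * N + 5) * (6 * N + 16)) * (3 * ((N + 2) * (3 * N + 7))) *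
      (3 * ((N + 1) * (3 * N + 4))) * (4 * ((4 * N + 7) * (4 * N + 9))) /
      (((2 * N + 4) * (6 * N + 11) * (6 * N + 13) * ((2 * N + 5) * (6 * N + 14) * (6 * N + 16))) *
        (81 * ((2 * N + 5) * (2 * N + 4)) * ((2 * N + 3) * (2 * N + 2)))) =
    (4 * N + 7) * (4 * N + 9) * (3 * N + 4) / (2 * (6 * N + 11) * (2 * N + 5) * (2 * N + 3)) := by
  have e81 : (81 : ℂ) ≠ 0 := by norm_num
  have e2 : (2 : ℂ) ≠ 0 := by norm_num
  rw [div_eq_div_iff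
    (mul_ne_zero (mul_ne_zero (mul_ne_zero (mul_ne_zero h5 h9) h10) (mul_ne_zero (mul_ne_zero h6 h11) h12))
      (mul_ne_zero (mul_ne_zero e81 (mul_ne_zero h6 h5)) (mul_ne_zero h4 h3)))
    (mul_ne_zero (mul_ne_zero (mul_ne_zero e2 h9) h6) h4)]
  ring

theorem alg_aux (B1 B2 B3 U1 U3 f T K1 K3 K4 Kn Kd K6 K7 : ℂ) (n1 : B1 ≠ 0) (n2 : B2 ≠ 0) (n3 : B3 ≠ 0)
    (hf : f ≠ 0) (k1 : K1 ≠ 0) (k3 : K3 ≠ 0) (k4 : K4 ≠ 0) (kd : Kd ≠ 0) (k6 : K6 ≠ 0) (k7 : K7 ≠ 0) :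
    3 / 2 * (B1 * B2 * B3 * (K3 * B3))⁻¹ * (U1 * (Kn * U3 / Kd)) *
      (1 / (K6 * (K7 * f)) * (1 / (K7 * f))) * (T * (1 / 81)) =
    3 / 2 * (B1 * (K1 * B2) * (K3 * B3) * (K4 * (K3 * B3)))⁻¹ * (U1 * U3) *
      (1 / (K7 * f) * (1 / f)) * T * (K1 * K3 * K4 * Kn / (Kd * (81 * K6 * K7))) := by
  field_simp

theorem EE_one_succ (n : ℕ) : EE 0 (n + 1) = EE 0 n *
    ((4 * n + 7) * (4 * n + 9) * (3 * n + 4) / (2 * (6 * n + 11) * (2 * n + 5) * (2 * n + 3))) := by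
  rw [EE_one, EE_one]
  have u1 := um_succ (2 * n + 3)
  have u2 := um_succ (2 * n + 3 + 1)
  have b1 := be_succ (2 * n + 3)
  have b2 := be_succ (2 * n + 3 + 1)
  have b3 := be_succ (n + 1)
  have b4 := be_succ n
  have n1 := be_ne 1
  have n2 := be_ne (2 * n + 3 + 1 + 1)
  have n3 := be_ne (n + 1 + 1)
  have f1 : ((2 * n + 3 + 1 + 1).factorial : ℂ) = ((2 * n + 5) * (2 * n + 4)) * ((2 * n + 3).factorial : ℂ) := by
    rw [Nat.factorial_succ, Nat.factorial_succ]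
    push_cast
    ring
  have f2 : ((2 * n + 3).factorial : ℂ) = ((2 * n + 3) * (2 * n + 2)) * ((2 * n + 1).factorial : ℂ) := by
    rw [show 2 * n + 3 = 2 * n + 1 + 1 + 1 by ring, Nat.factorial_succ, Nat.factorial_succ]
    push_cast
    ring
  have hf : ((2 * n + 1).factorial : ℂ) ≠ 0 := by exact_mod_cast Nat.factorial_ne_zero _
  have e1 : 2 * (n + 1) + 3 = 2 * n + 3 + 1 + 1 := by ring
  have e2 : 2 * (n + 1) + 1 = 2 * n + 3 := by ring
  have e3 : 4 * (n + 1) + 6 = 4 * n + 6 + 4 := by ring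
  have e4 : ((1 : ℂ) / 3) ^ 4 = 1 / 81 := by norm_num
  push_cast at u1 u2 b1 b2 b3 b4
  have h1 := lin_ne 1 1 n (by norm_num)
  have h2 := lin_ne 1 2 n (by norm_num)
  have h3 := lin_ne 2 2 n (by norm_num)
  have h4 := lin_ne 2 3 n (by norm_num)
  have h5 := lin_ne 2 4 n (by norm_num)
  have h6 := lin_ne 2 5 n (by norm_num)
  have h7 := lin_ne 3 4 n (by norm_num)
  have h8 := lin_ne 3 7 n (by norm_num)
  have h9 := lin_ne 6 11 n (by norm_num)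
  have h10 := lin_ne 6 13 n (by norm_num)
  have h11 := lin_ne 6 14 n (by norm_num)
  have h12 := lin_ne 6 16 n (by norm_num)
  push_cast at h1 h2 h3 h4 h5 h6 h7 h8 h9 h10 h11 h12
  rw [one_mul] at h1 h2
  have w1 : um (2 * n + 3 + 1) = 2 * (4 * n + 7) * um (2 * n + 3) / ((2 * n + 4) * (6 * n + 11) * (6 * n + 13)) := by
    rw [eq_div_iff (mul_ne_zero (mul_ne_zero h5 h9) h10)]
    linear_combination u1
  have w2 : um (2 * n + 3 + 1 + 1) = 2 * (4 * n + 9) * um (2 * n + 3 + 1) /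
      ((2 * n + 5) * (6 * n + 14) * (6 * n + 16)) := by
    rw [eq_div_iff (mul_ne_zero (mul_ne_zero h6 h11) h12)]
    linear_combination u2
  have w3 : um (2 * n + 3 + 1 + 1) = (4 * ((4 * n + 7) * (4 * n + 9))) * um (2 * n + 3) /
      ((2 * n + 4) * (6 * n + 11) * (6 * n + 13) * ((2 * n + 5) * (6 * n + 14) * (6 * n + 16))) := by
    rw [w2, w1, eq_div_iff (mul_ne_zero (mul_ne_zero (mul_ne_zero h5 h9) h10)
      (mul_ne_zero (mul_ne_zero h6 h11) h12))]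
    generalize um (2 * n + 3) = U3
    have z1 : (2 * (n : ℂ) + 4) * (6 * n + 11) * (6 * n + 13) ≠ 0 := mul_ne_zero (mul_ne_zero h5 h9) h10
    have z2 : (2 * (n : ℂ) + 5) * (6 * n + 14) * (6 * n + 16) ≠ 0 := mul_ne_zero (mul_ne_zero h6 h11) h12
    generalize (2 * (n : ℂ) + 4) * (6 * n + 11) * (6 * n + 13) = Z1 at z1 ⊢
    generalize (2 * (n : ℂ) + 5) * (6 * n + 14) * (6 * n + 16) = Z2 at z2 ⊢
    field_simp
    ring
  have v1 : be (2 * n + 3) = (9 * ((2 * n + 4) * (6 * n + 13) * (2 * n + 5) * (6 * n + 16))) *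
      be (2 * n + 3 + 1 + 1) := by
    rw [← b1, ← b2]
    ring
  have v3 : be (n + 1) = (3 * ((n + 2) * (3 * n + 7))) * be (n + 1 + 1) := by
    rw [← b3]
    ring
  have v4 : be n = (3 * ((n + 1) * (3 * n + 4))) * ((3 * ((n + 2) * (3 * n + 7))) * be (n + 1 + 1)) := by
    rw [← v3, ← b4]
    ring
  rw [e1, e2, e3, f1, pow_add, e4, ← ratio_aux (n : ℂ) h1 h2 h4 h5 h6 h9 h10 h11 h12 h3, w3, v1, v4, v3, f2]
  have three : (3 : ℂ) ≠ 0 := by norm_num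
  have nine : (9 : ℂ) ≠ 0 := by norm_num
  exact alg_aux _ _ _ _ _ _ _ _ _ _ _ _ _ _ n1 n2 n3 hf
    (mul_ne_zero nine (mul_ne_zero (mul_ne_zero (mul_ne_zero h5 h10) h6) h12))
    (mul_ne_zero three (mul_ne_zero h2 h8))
    (mul_ne_zero three (mul_ne_zero h1 h7))
    (mul_ne_zero (mul_ne_zero (mul_ne_zero h5 h9) h10) (mul_ne_zero (mul_ne_zero h6 h11) h12))
    (mul_ne_zero h6 h5) (mul_ne_zero h4 h3)

theorem EE_one_zero : EE 0 0 = 1 / 2 := by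
  rw [EE_one]
  have u0 := um_succ 0
  have u1 := um_succ 1
  have u2 := um_succ 2
  have b0 := be_succ 0
  have b1 := be_succ 1
  have b2 := be_succ 2
  rw [um_zero] at u0
  have hb : be 0 = 1 := by
    unfold be
    rw [Finset.prod_range_zero]
  rw [hb] at b0
  push_cast at u0 u1 u2 b0 b1 b2
  norm_num at u0 u1 u2 b0 b1 b2
  have v1 : um 1 = 1 / 4 := by linear_combination (1 / 8 : ℂ) * u0
  rw [v1] at u1
  have v2 : um 2 = 3 / 140 := by linear_combination (1 / 70 : ℂ) * u1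
  rw [v2] at u2
  have v3 : um 3 = 1 / 1120 := by linear_combination (1 / 240 : ℂ) * u2
  have c1 : be 1 = 1 / 12 := by linear_combination (1 / 12 : ℂ) * b0
  rw [c1] at b1
  have c2 : be 2 = 1 / 504 := by linear_combination (1 / 42 : ℂ) * b1
  rw [c2] at b2
  have c3 : be 3 = 1 / 45360 := by linear_combination (1 / 90 : ℂ) * b2
  have e1 : 2 * 0 + 3 = 3 := rfl
  have e2 : 0 + 1 = 1 := rfl
  rw [e1, e2, v1, v3, c1, c3, hb]
  norm_num [Nat.factorial]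

theorem EE_one_real (n : ℕ) : EE 0 n = (ee n : ℂ) := by
  induction n with
  | zero =>
    rw [EE_one_zero]
    unfold ee
    push_cast
    rfl
  | succ n ih =>
    rw [EE_one_succ, ih]
    conv_rhs => unfold ee
    push_cast
    rfl

theorem ee_pos (n : ℕ) : 0 < ee n := by
  induction n with
  | zero =>
    unfold ee
    norm_num
  | succ n ih =>
    unfold ee
    positivity

theorem ee_bound (n : ℕ) : ee n ^ 2 * ((n : ℝ) + 2) ≤ 1 / 2 := by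
  induction n with
  | zero =>
    unfold ee
    norm_num
  | succ n ih =>
    have hn : (0 : ℝ) ≤ n := Nat.cast_nonneg n
    have h1 : ((4 * (n : ℝ) + 7) * (4 * n + 9) * (3 * n + 4) / (2 * (6 * n + 11) * (2 * n + 5) * (2 * n + 3))) ^ 2 *
        ((n : ℝ) + 3) ≤ (n : ℝ) + 2 := by
      rw [div_pow, div_mul_eq_mul_div, div_le_iff₀ (by positivity)]
      have h2 : 0 ≤ 1248 * (n : ℝ) ^ 5 + 11744 * n ^ 4 + 43879 * n ^ 3 + 81341 * n ^ 2 + 74796 * n + 27288 := by positivity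
      nlinarith [h2]
    have e : ee (n + 1) = ee n * ((4 * n + 7) * (4 * n + 9) * (3 * n + 4) /
        (2 * (6 * n + 11) * (2 * n + 5) * (2 * n + 3))) := rfl
    have h3 : 0 ≤ ee n ^ 2 := sq_nonneg _
    rw [e, mul_pow]
    push_cast
    calc ee n ^ 2 * ((4 * (n : ℝ) + 7) * (4 * n + 9) * (3 * n + 4) / (2 * (6 * n + 11) * (2 * n + 5) * (2 * n + 3))) ^ 2 *
          ((n : ℝ) + 1 + 2)
        = ee n ^ 2 * (((4 * (n : ℝ) + 7) * (4 * n + 9) * (3 * n + 4) /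
          (2 * (6 * n + 11) * (2 * n + 5) * (2 * n + 3))) ^ 2 * ((n : ℝ) + 3)) := by ring
      _ ≤ ee n ^ 2 * ((n : ℝ) + 2) := mul_le_mul_of_nonneg_left h1 h3
      _ ≤ 1 / 2 := ih

theorem ee_tendsto : Tendsto ee atTop (𝓝 0) := by
  have h1 : ∀ n : ℕ, ee n ^ 2 ≤ (1 / 2) * (1 / ((n : ℝ) + 1)) := by
    intro n
    have h := ee_bound n
    have hn : (0 : ℝ) < (n : ℝ) + 1 := by positivity
    rw [mul_one_div, le_div_iff₀ hn]
    nlinarith [sq_nonneg (ee n)]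
  have h2 : Tendsto (fun n : ℕ => (1 / 2 : ℝ) * (1 / ((n : ℝ) + 1))) atTop (𝓝 0) := by
    have h := (tendsto_one_div_add_atTop_nhds_zero_nat (𝕜 := ℝ)).const_mul (1 / 2 : ℝ)
    rwa [mul_zero] at h
  have h3 : Tendsto (fun n => ee n ^ 2) atTop (𝓝 0) :=
    squeeze_zero (fun n => sq_nonneg _) h1 h2
  have h4 := (Real.continuous_sqrt.tendsto 0).comp h3
  rw [Real.sqrt_zero] at h4
  refine h4.congr fun n => ?_
  rw [Function.comp_apply, Real.sqrt_sq (ee_pos n).le]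

/-- THEOREM: strip of width 1 -/
theorem EE_one_tendsto : Tendsto (fun n => EE 0 n) atTop (𝓝 0) := by
  have h := (Complex.continuous_ofReal.tendsto 0).comp ee_tendsto
  rw [Complex.ofReal_zero] at h
  refine h.congr fun n => ?_
  rw [Function.comp_apply, EE_one_real]

end CZ
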