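import Mathlib

/-!
# Polynomial functions of bounded degree
-/

set_option autoImplicit false

noncomputable section

namespace CZ

open Polynomial

/-- `f` is a polynomial function of degree at most `d` -/
def IsP (d : ℕ) (f : ℂ → ℂ) : Prop := ∃ p : ℂ[X], p.natDegree ≤ d ∧ ∀ x, f x = p.eval x

theorem IsP.mono {d e : ℕ} {f : ℂ → ℂ} (h : IsP d f) (hde : d ≤ e) : IsP e f := by
  obtain ⟨p, h1, h2⟩ := h
  exact ⟨p, h1.trans hde, h2⟩

theorem IsP.congr {d : ℕ} {f g : ℂ → ℂ} (h : IsP d f) (hfg : ∀ x, g x = f x) : IsP d g := by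
  obtain ⟨p, h1, h2⟩ := h
  exact ⟨p, h1, fun x => (hfg x).trans (h2 x)⟩

theorem IsP.const (d : ℕ) (c : ℂ) : IsP d (fun _ => c) :=
  ⟨C c, by simp, by simp⟩

theorem IsP.id : IsP 1 (fun x => x) :=
  ⟨X, by simp, by simp⟩

theorem IsP.add {d : ℕ} {f g : ℂ → ℂ} (hf : IsP d f) (hg : IsP d g) : IsP d (fun x => f x + g x) := by
  obtain ⟨p, h1, h2⟩ := hf
  obtain ⟨q, h3, h4⟩ := hg
  refine ⟨p + q, (natDegree_add_le p q).trans (max_le h1 h3), fun x => ?_⟩
  show f x + g x = _
  rw [eval_add, h2, h4]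

theorem IsP.mul {d e : ℕ} {f g : ℂ → ℂ} (hf : IsP d f) (hg : IsP e g) : IsP (d + e) (fun x => f x * g x) := by
  obtain ⟨p, h1, h2⟩ := hf
  obtain ⟨q, h3, h4⟩ := hg
  refine ⟨p * q, natDegree_mul_le.trans (add_le_add h1 h3), fun x => ?_⟩
  show f x * g x = _
  rw [eval_mul, h2, h4]

theorem IsP.smul {d : ℕ} {f : ℂ → ℂ} (c : ℂ) (hf : IsP d f) : IsP d (fun x => c * f x) := by
  have := (IsP.const 0 c).mul hf
  rwa [zero_add] at this

theorem IsP.neg {d : ℕ} {f : ℂ → ℂ} (hf : IsP d f) : IsP d (fun x => - f x) :=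
  (hf.smul (-1)).congr (fun x => by ring)

theorem IsP.sub {d : ℕ} {f g : ℂ → ℂ} (hf : IsP d f) (hg : IsP d g) : IsP d (fun x => f x - g x) :=
  (hf.add hg.neg).congr (fun x => by ring)

theorem IsP.subc (c : ℂ) : IsP 1 (fun x => x - c) := IsP.id.sub (IsP.const 1 c)

theorem IsP.msum {d : ℕ} {ι : Type} (s : Multiset ι) (f : ι → ℂ → ℂ) (h : ∀ j ∈ s, IsP d (f j)) :
    IsP d (fun x => (s.map (fun j => f j x)).sum) := by
  induction s using Multiset.induction_on with
  | empty => exact (IsP.const d 0).congr (fun x => by simp)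
  | cons a s ih =>
    have h1 := (h a (Multiset.mem_cons_self a s)).add (ih (fun j hj => h j (Multiset.mem_cons_of_mem hj)))
    exact h1.congr (fun x => by rw [Multiset.map_cons, Multiset.sum_cons])

theorem IsP.mprod {e : ℕ} {ι : Type} (s : Multiset ι) (f : ι → ℂ → ℂ) (h : ∀ j ∈ s, IsP e (f j)) :
    IsP (e * Multiset.card s) (fun x => (s.map (fun j => f j x)).prod) := by
  induction s using Multiset.induction_on with
  | empty => exact (IsP.const _ 1).congr (fun x => by simp)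
  | cons a s ih =>
    have h1 := (h a (Multiset.mem_cons_self a s)).mul (ih (fun j hj => h j (Multiset.mem_cons_of_mem hj)))
    have h2 := h1.congr (g := fun x => ((a ::ₘ s).map (fun j => f j x)).prod)
      (fun x => by rw [Multiset.map_cons, Multiset.prod_cons])
    refine h2.mono (le_of_eq ?_)
    rw [Multiset.card_cons]
    ring

theorem IsP.eq_zero {d : ℕ} {f : ℂ → ℂ} (hf : IsP d f) (Z : Finset ℂ) (hZ : d < Z.card)
    (h : ∀ z ∈ Z, f z = 0) (x : ℂ) : f x = 0 := by
  obtain ⟨p, h1, h2⟩ := hf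
  have hp : p = 0 := by
    by_contra hne
    have h3 : Z.val ≤ p.roots := by
      rw [Finset.val_le_iff_val_subset]
      intro z hz
      rw [Polynomial.mem_roots hne, Polynomial.IsRoot.def, ← h2]
      exact h z hz
    have h4 := Multiset.card_le_card h3
    have h5 := Polynomial.card_roots' p
    have h6 : Multiset.card Z.val = Z.card := rfl
    omega
  rw [h2, hp, eval_zero]

end CZ
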