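import Pool.Agent.Lib.MP_216314_pr.CZ.Rv
import Pool.Agent.Lib.MP_216314_pr_CDH.Beta

/-!
# The value of `V_B` at the homogeneous point
-/

set_option autoImplicit false

noncomputable section

namespace CZ

open PowerSeries CDH

/-- the statement (L4) of helper54 for `S` -/
def L4S (S : Multiset ℂ → ℂ) : Prop := ∀ (n : ℕ), Odd n → ∀ p : Polynomial ℂ,
  (∀ x : ℂ, S (x ::ₘ Multiset.replicate n 2) = p.eval x) → ∀ z : ℂ, z ^ 3 = 1 →
    (PowerSeries.C z * E 2 - PowerSeries.C (z ^ 2) * E (-2)) *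
      (PowerSeries.C z * E 2 + PowerSeries.C (z ^ 2) * E (-2) - 2) ^ n *
      Polynomial.aeval (PowerSeries.C z * E 2 + PowerSeries.C (z ^ 2) * E (-2)) p =
    PowerSeries.C (S (Multiset.replicate n 2) / be n) * W (z ^ 2) z n

theorem be_ne (n : ℕ) : be n ≠ 0 := by
  induction n with
  | zero =>
    unfold be
    rw [Finset.prod_range_zero]
    exact one_ne_zero
  | succ n ih =>
    intro h
    have h1 := be_succ n
    rw [h, mul_zero] at h1
    exact ih h1.symm

theorem th_re : th = ⟨1 / 2, Real.sqrt 3 / 2⟩ := by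
  unfold th
  rw [Complex.exp_eq_exp_re_mul_sin_add_cos]
  have h1 : ((Real.pi : ℂ) / 3 * Complex.I) = ((Real.pi / 3 : ℝ) : ℂ) * Complex.I := by push_cast; ring
  rw [h1]
  have h2 : (((Real.pi / 3 : ℝ) : ℂ) * Complex.I).re = 0 := by simp
  have h3 : (((Real.pi / 3 : ℝ) : ℂ) * Complex.I).im = Real.pi / 3 := by simp
  rw [h2, h3, ← Complex.ofReal_cos, ← Complex.ofReal_sin, Real.cos_pi_div_three, Real.sin_pi_div_three]
  apply Complex.ext <;> simp

theorem th_om : th = -PX.om ^ 2 := by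
  rw [PX.om_sq, th_re]
  unfold PX.om
  apply Complex.ext
  · simp
    norm_num
  · simp

theorem th_inv_om : th⁻¹ = -PX.om := by
  have h : th * (-PX.om) = 1 := by
    rw [th_om]
    linear_combination PX.om_cube
  exact inv_eq_of_mul_eq_one_right h

theorem th_sq_om : th ^ 2 = PX.om := by
  rw [th_om]
  linear_combination PX.om * PX.om_cube

theorem th_sq_inv_om : (th ^ 2)⁻¹ = PX.om ^ 2 := by
  rw [th_sq_om, PX.om_inv]

theorem W_neg (c d : ℂ) (n : ℕ) : W (-c) (-d) n = -W c d n := by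
  unfold W
  rw [map_neg, map_neg]
  ring

/-- the value of the residue -/
theorem rs_value {S : Multiset ℂ → ℂ} (h4 : L4S S) {k m : ℕ} (hk : Odd k) (hm : Odd m) {pk pB pL : Polynomial ℂ}
    (hpk : ∀ x, S (x ::ₘ Multiset.replicate k 2) = pk.eval x)
    (hpB : ∀ x, S (x ::ₘ Multiset.replicate m 2) = pB.eval x)
    (hpL : ∀ x, S (x ::ₘ Multiset.replicate (k + m + 1) 2) = pL.eval x) :
    1 / 2 * rs (2 * (k + m) + 1) (Ph PX.om k pk * Ph 1 m pB * Ph (PX.om ^ 2) (k + m + 1) pL) =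
      (FF k m : ℂ) * S (Multiset.replicate k 2) * S (Multiset.replicate m 2) * S (Multiset.replicate (k + m + 1) 2) := by
  have hL : Odd (k + m + 1) := by
    obtain ⟨a, rfl⟩ := hk
    obtain ⟨b, rfl⟩ := hm
    exact ⟨a + b + 1, by ring⟩
  have e1 : Ph PX.om k pk = -(PowerSeries.C (S (Multiset.replicate k 2) / be k) * Aw k) := by
    have h := h4 k hk pk hpk PX.om PX.om_cube
    unfold Ph sz wz
    rw [h]
    have h1 : W (PX.om ^ 2) PX.om k = -Aw k := by
      unfold Aw
      rw [th_inv_om, th_om, W_neg, neg_neg]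
    rw [h1]
    ring
  have e2 : Ph 1 m pB = PowerSeries.C (S (Multiset.replicate m 2) / be m) * Bw m := by
    have h := h4 m hm pB hpB 1 (by norm_num)
    unfold Ph sz wz
    rw [h]
    unfold Bw
    rw [one_pow]
  have e3 : Ph (PX.om ^ 2) (k + m + 1) pL =
      PowerSeries.C (S (Multiset.replicate (k + m + 1) 2) / be (k + m + 1)) * Cw (k + m + 1) := by
    have h := h4 (k + m + 1) hL pL hpL (PX.om ^ 2) (by linear_combination (PX.om ^ 3 + 1) * PX.om_cube)
    unfold Ph sz wz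
    rw [h]
    unfold Cw
    rw [th_sq_inv_om, th_sq_om, Ru_om4]
  have e4 : Ph PX.om k pk * Ph 1 m pB * Ph (PX.om ^ 2) (k + m + 1) pL =
      PowerSeries.C (-(S (Multiset.replicate k 2) / be k * (S (Multiset.replicate m 2) / be m) *
        (S (Multiset.replicate (k + m + 1) 2) / be (k + m + 1)))) * (Aw k * Bw m * Cw (k + m + 1)) := by
    rw [e1, e2, e3, map_neg, map_mul, map_mul]
    ring
  have e5 : rs (2 * (k + m) + 1) (Aw k * Bw m * Cw (k + m + 1)) = J k m := rfl
  rw [e4, rs_C, e5, J_val]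
  have b1 := be_ne k
  have b2 := be_ne m
  have b3 := be_ne (k + m + 1)
  field_simp

/-- THEOREM: the value of `V_B` at the homogeneous point, `B` homogeneous -/
theorem VB_hom {S : Multiset ℂ → ℂ} (hS : SChar S) (h4 : L4S S) {k m : ℕ} (hk : Odd k) (hm : Odd m)
    {ι : Type} (l : Filter ι) (M : Multiset (ι → ℂ)) (hM : Multiset.card M = k)
    (hlim : ∀ f ∈ M, Filter.Tendsto f l (nhds 2)) (hG : ∀ᶠ e in l, Gen (M.map (fun f => f e))) :
    Filter.Tendsto (fun e => VB S (M.map (fun f => f e)) (Multiset.replicate m 2) 2 (-1)) l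
      (nhds ((FF k m : ℂ) * S (Multiset.replicate k 2) * S (Multiset.replicate m 2) *
        S (Multiset.replicate (k + m + 1) 2))) := by
  obtain ⟨pk, _, hpk⟩ := hS.poly (Multiset.replicate k 2)
  obtain ⟨pB, _, hpB⟩ := hS.poly (Multiset.replicate m 2)
  obtain ⟨pL, _, hpL⟩ := hS.poly (Multiset.replicate (k + m + 1) 2)
  rw [← rs_value h4 hk hm hpk hpB hpL]
  exact VB_residue hS hk hm hpk hpB hpL l M hM hlim hG

end CZ
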