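import Pool.Agent.Lib.MP_216314_pr.CZ.SD
import Pool.Agent.Lib.MP_216314_pr.CZ.Rw

/-!
# (L4): the characters with one free variable are the Airy polynomials
-/

set_option autoImplicit false

noncomputable section

namespace CZ

open PowerSeries CDH

/-- expansion of `(x - 2)^n S(x, 2^n)` -/
theorem Lf_exp (n : ℕ) : ∃ c : ℕ → ℂ, c n = SS (Multiset.replicate n 2) ∧
    ∀ x : ℂ, (x - 2) ^ n * SS (x ::ₘ Multiset.replicate n 2) =
      ∑ j ∈ Finset.range (n + 1), c j * (bb j).eval x := by
  let D0 : Matrix (Fin (n + 1)) (Fin (n + 1)) ℂ := Matrix.of fun a j => Q4.DD (fun _ => 2) a (bb j)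
  refine ⟨fun j => if h : j < n + 1 then (-1) ^ (n + j) *
    (D0.submatrix (Fin.last n).succAbove (⟨j, h⟩ : Fin (n + 1)).succAbove).det else 0, ?_, fun x => ?_⟩
  · beta_reduce
    rw [dif_pos (Nat.lt_succ_self n), ← two_mul, pow_mul, neg_one_sq, one_pow, one_mul]
    have h1 : SS (Multiset.replicate n 2) = Q4.PhF n bb (fun _ => 2) := by
      rw [PhF_SS, Multiset.map_const', Multiset.card_range]
    rw [h1]
    unfold Q4.PhF
    congr 1
    ext a c
    have e : (⟨n, Nat.lt_succ_self n⟩ : Fin (n + 1)) = Fin.last n := rfl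
    rw [e]
    simp only [Matrix.submatrix_apply, Matrix.of_apply, Fin.succAbove_last, Fin.val_castSucc, D0]
  · let xs : ℕ → ℂ := Function.update (fun _ => 2) n x
    have hxs : xs n = x := Function.update_self _ _ _
    have hxs' : ∀ l, l ≠ n → xs l = 2 := fun l hl => Function.update_of_ne hl _ _
    have h1 : SS (x ::ₘ Multiset.replicate n 2) = Q4.PhF (n + 1) bb xs := by
      rw [PhF_SS, Multiset.range_succ, Multiset.map_cons, hxs]
      congr 2
      have e : (Multiset.range n).map xs = (Multiset.range n).map (fun _ => 2) := by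
        refine Multiset.map_congr rfl fun i hi => ?_
        rw [Multiset.mem_range] at hi
        exact hxs' i (by omega)
      rw [e, Multiset.map_const', Multiset.card_range]
    let D : Matrix (Fin (n + 1)) (Fin (n + 1)) ℂ := Matrix.of fun a j => Q4.DD xs a (bb j)
    have h2 : Q4.PhF (n + 1) bb xs = D.det := rfl
    have h3 := Matrix.det_updateRow_sum D (Fin.last n) (fun a => ∏ l ∈ Finset.range (a : ℕ), (x - xs l))
    have h4 : (∏ l ∈ Finset.range ((Fin.last n : Fin (n + 1)) : ℕ), (x - xs l)) = (x - 2) ^ n := by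
      rw [Fin.val_last, Finset.prod_congr rfl (g := fun _ => x - 2), Finset.prod_const, Finset.card_range]
      intro l hl
      rw [Finset.mem_range] at hl
      rw [hxs' l (by omega)]
    have h5 : (∑ k : Fin (n + 1), (∏ l ∈ Finset.range (k : ℕ), (x - xs l)) • D k) =
        fun j : Fin (n + 1) => (bb j).eval x := by
      funext j
      rw [Finset.sum_apply]
      have h6 := Nw_eval (n + 1) xs (Fin.last n) (bb j)
      rw [Fin.val_last, hxs] at h6
      rw [h6]
      rfl
    rw [h5] at h3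
    rw [h4, smul_eq_mul] at h3
    rw [h1, h2, ← h3, Matrix.det_succ_row _ (Fin.last n), Finset.sum_range]
    refine Finset.sum_congr rfl fun j _ => ?_
    have hj : (j : ℕ) < n + 1 := j.2
    beta_reduce
    rw [dif_pos hj, Matrix.updateRow_self, Fin.val_last]
    have hm : (D.updateRow (Fin.last n) fun j : Fin (n + 1) => (bb j).eval x).submatrix (Fin.last n).succAbove j.succAbove =
        D0.submatrix (Fin.last n).succAbove (⟨j, hj⟩ : Fin (n + 1)).succAbove := by
      ext a c
      rw [Matrix.submatrix_apply, Matrix.submatrix_apply, Matrix.updateRow_ne (Fin.succAbove_ne _ _)]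
      refine Q4.DD_congr ?_ _
      intro l hl
      rw [Fin.succAbove_last, Fin.val_castSucc] at hl
      exact hxs' l (by have := a.2; omega)
    rw [hm]
    ring

/-- Chebyshev polynomials in a ring -/
theorem USp_aeval {R : Type} [CommRing R] [Algebra ℂ R] {y y' : R} (h : y * y' = 1) : ∀ m : ℕ,
    (y - y') * Polynomial.aeval (y + y') (PX.USp m) = y ^ (m + 1) - y' ^ (m + 1)
  | 0 => by
    have e : Polynomial.aeval (y + y') (PX.USp 0) = (1 : R) := map_one _
    rw [e]
    ring
  | 1 => by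
    have e : Polynomial.aeval (y + y') (PX.USp 1) = y + y' := Polynomial.aeval_X _
    rw [e]
    ring
  | m + 2 => by
    have i0 := USp_aeval h m
    have i1 := USp_aeval h (m + 1)
    have e : Polynomial.aeval (y + y') (PX.USp (m + 2)) = (y + y') * Polynomial.aeval (y + y') (PX.USp (m + 1)) -
        Polynomial.aeval (y + y') (PX.USp m) := by
      show Polynomial.aeval (y + y') (Polynomial.X * PX.USp (m + 1) - PX.USp m) = _
      rw [map_sub, map_mul, Polynomial.aeval_X]
    rw [e]
    linear_combination (y + y') * i1 - i0 + (y ^ (m + 1) - y' ^ (m + 1)) * h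

/-- the basic alternants -/
def Yz (z : ℂ) (j : ℕ) : PowerSeries ℂ :=
  PowerSeries.C (z ^ PX.mm j) * E (2 * (PX.mm j : ℤ)) - PowerSeries.C (z ^ (2 * PX.mm j)) * E (-(2 * (PX.mm j : ℤ)))

theorem E2_pow' (m : ℕ) : E 2 ^ m = E (2 * (m : ℤ)) := by
  induction m with
  | zero => rw [pow_zero, Nat.cast_zero, mul_zero, E_zero]
  | succ m ih =>
    have e : 2 * (m : ℤ) + 2 = 2 * ((m + 1 : ℕ) : ℤ) := by
      push_cast
      ring
    rw [pow_succ, ih, E_mul, e]

theorem Em2_pow' (m : ℕ) : E (-2) ^ m = E (-(2 * (m : ℤ))) := by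
  induction m with
  | zero => rw [pow_zero, Nat.cast_zero, mul_zero, neg_zero, E_zero]
  | succ m ih =>
    have e : -(2 * (m : ℤ)) + -2 = -(2 * ((m + 1 : ℕ) : ℤ)) := by
      push_cast
      ring
    rw [pow_succ, ih, E_mul, e]

theorem sz_bb {z : ℂ} (hz : z ^ 3 = 1) (j : ℕ) : sz z * Polynomial.aeval (wz z) (bb j) = Yz z j := by
  have h : (PowerSeries.C z * E 2) * (PowerSeries.C (z ^ 2) * E (-2)) = 1 := by
    have h1 := E_two_neg
    have h2 : PowerSeries.C z * PowerSeries.C (z ^ 2) = (1 : PowerSeries ℂ) := by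
      have e : z * z ^ 2 = 1 := by linear_combination hz
      rw [← map_mul, e, map_one]
    linear_combination (PowerSeries.C z * PowerSeries.C (z ^ 2)) * h1 + h2
  have h1 := USp_aeval h (PX.mm j - 1)
  have h2 : PX.mm j - 1 + 1 = PX.mm j := by
    have := PX.mm_pos j
    omega
  rw [h2, mul_pow, mul_pow, ← map_pow, ← map_pow, E2_pow', Em2_pow', ← pow_mul] at h1
  exact h1

/-- expansion of `Phi_n` -/
theorem Ph_exp {n : ℕ} {p : Polynomial ℂ} (hp : ∀ x : ℂ, SS (x ::ₘ Multiset.replicate n 2) = p.eval x)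
    {c : ℕ → ℂ} (hc : ∀ x : ℂ, (x - 2) ^ n * SS (x ::ₘ Multiset.replicate n 2) =
      ∑ j ∈ Finset.range (n + 1), c j * (bb j).eval x) {z : ℂ} (hz : z ^ 3 = 1) :
    sz z * (wz z - 2) ^ n * Polynomial.aeval (wz z) p =
      ∑ j ∈ Finset.range (n + 1), PowerSeries.C (c j) * Yz z j := by
  have h1 : (Polynomial.X - Polynomial.C 2) ^ n * p = ∑ j ∈ Finset.range (n + 1), Polynomial.C (c j) * bb j := by
    apply Polynomial.funext
    intro x
    have h2 := hc x
    rw [hp x] at h2
    rw [Polynomial.eval_mul, Polynomial.eval_pow, Polynomial.eval_sub, Polynomial.eval_X, Polynomial.eval_C, h2,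
      Polynomial.eval_finsetSum]
    refine Finset.sum_congr rfl fun j _ => ?_
    rw [Polynomial.eval_mul, Polynomial.eval_C]
  have h2 := congrArg (Polynomial.aeval (wz z)) h1
  rw [map_mul, map_pow, map_sub, Polynomial.aeval_X, Polynomial.aeval_C, PowerSeries.algebraMap_apply,
    Algebra.algebraMap_self_apply, C2, map_sum] at h2
  rw [mul_assoc, h2, Finset.mul_sum]
  refine Finset.sum_congr rfl fun j _ => ?_
  rw [map_mul, Polynomial.aeval_C, PowerSeries.algebraMap_apply, Algebra.algebraMap_self_apply, ← sz_bb hz]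
  ring

/-- the terms of the Airy polynomial -/
theorem W_term {n : ℕ} (hn : Odd n) {a b : ℕ} (hab : a + b = n) {z : ℂ} (hz : z ^ 3 = 1) :
    PowerSeries.C (z ^ 2) * E (3 * ((b : ℤ) - a) + 1) - PowerSeries.C z * E (-(3 * ((b : ℤ) - a) + 1)) =
      PowerSeries.C (if a < b then 1 else -1) * Yz z (if a < b then b - a else a - b - 1) := by
  have hz3 : ∀ r : ℕ, z ^ (3 * r) = 1 := by
    intro r
    rw [pow_mul, hz, one_pow]
  obtain ⟨s, hs⟩ := hn
  unfold Yz
  by_cases h : a < b
  · rw [if_pos h, if_pos h, map_one, one_mul]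
    obtain ⟨r, hr⟩ : ∃ r, b - a = 2 * r + 1 := ⟨(b - a - 1) / 2, by omega⟩
    rw [hr]
    have hm : PX.mm (2 * r + 1) = 3 * r + 2 := by
      unfold PX.mm
      omega
    rw [hm]
    have e1 : z ^ (3 * r + 2) = z ^ 2 := by rw [pow_add, hz3, one_mul]
    have e2 : z ^ (2 * (3 * r + 2)) = z := by
      rw [show 2 * (3 * r + 2) = 3 * (2 * r + 1) + 1 by ring, pow_add, hz3, one_mul, pow_one]
    have e3 : (3 * ((b : ℤ) - a) + 1) = 2 * ((3 * r + 2 : ℕ) : ℤ) := by
      have : (b : ℤ) - a = 2 * r + 1 := by omega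
      rw [this]
      push_cast
      ring
    rw [e1, e2, e3]
  · rw [if_neg h, if_neg h, map_neg, map_one]
    obtain ⟨r, hr⟩ : ∃ r, a - b = 2 * r + 1 := ⟨(a - b - 1) / 2, by omega⟩
    rw [hr, Nat.add_sub_cancel]
    have hm : PX.mm (2 * r) = 3 * r + 1 := by
      unfold PX.mm
      omega
    rw [hm]
    have e1 : z ^ (3 * r + 1) = z := by rw [pow_add, hz3, one_mul, pow_one]
    have e2 : z ^ (2 * (3 * r + 1)) = z ^ 2 := by
      rw [show 2 * (3 * r + 1) = 3 * (2 * r) + 2 by ring, pow_add, hz3, one_mul]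
    have e3 : (3 * ((b : ℤ) - a) + 1) = -(2 * ((3 * r + 1 : ℕ) : ℤ)) := by
      have : (b : ℤ) - a = -(2 * r + 1) := by omega
      rw [this]
      push_cast
      ring
    rw [e1, e2, e3, neg_neg]
    ring

/-- the Airy polynomials in the basis of the alternants -/
theorem W_exp {n : ℕ} (hn : Odd n) : ∃ β : ℕ → ℂ, β n = be n ∧ ∀ z : ℂ, z ^ 3 = 1 →
    W (z ^ 2) z n = ∑ j ∈ Finset.range (n + 1), PowerSeries.C (β j) * Yz z j := by
  refine ⟨fun j => ∑ p ∈ Finset.HasAntidiagonal.antidiagonal n, if (if p.1 < p.2 then p.2 - p.1 else p.1 - p.2 - 1) = j then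
    (if p.1 < p.2 then 1 else -1) * (al p.1 * be p.2) else 0, ?_, fun z hz => ?_⟩
  · beta_reduce
    rw [Finset.sum_eq_single (0, n)]
    · have hpos : 0 < n := hn.pos
      rw [if_pos (by simp [hpos]), if_pos hpos]
      unfold al
      rw [Finset.prod_range_zero]
      ring
    · rintro ⟨a, b⟩ hp hne
      rw [Finset.HasAntidiagonal.mem_antidiagonal] at hp
      have hp' : a + b = n := hp
      rw [if_neg]
      intro h
      apply hne
      have h' : (if a < b then b - a else a - b - 1) = n := h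
      split_ifs at h' with h1
      · have h2 : a = 0 := by omega
        have h3 : b = n := by omega
        rw [h2, h3]
      · exfalso
        have hpos : 0 < n := hn.pos
        omega
    · intro h
      exfalso
      apply h
      rw [Finset.HasAntidiagonal.mem_antidiagonal]
      simp
  · have e1 : W (z ^ 2) z n = ∑ p ∈ Finset.HasAntidiagonal.antidiagonal n, PowerSeries.C (al p.1 * be p.2) *
        (PowerSeries.C (z ^ 2) * E (3 * ((p.2 : ℤ) - p.1) + 1) -
          PowerSeries.C z * E (-(3 * ((p.2 : ℤ) - p.1) + 1))) := by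
      unfold W U V
      rw [mul_neg, Finset.mul_sum, Finset.mul_sum, ← Finset.sum_neg_distrib, ← Finset.sum_add_distrib]
      refine Finset.sum_congr rfl fun p _ => ?_
      ring
    rw [e1]
    have e2 : ∀ p ∈ Finset.HasAntidiagonal.antidiagonal n, PowerSeries.C (al p.1 * be p.2) *
        (PowerSeries.C (z ^ 2) * E (3 * ((p.2 : ℤ) - p.1) + 1) -
          PowerSeries.C z * E (-(3 * ((p.2 : ℤ) - p.1) + 1))) =
        ∑ j ∈ Finset.range (n + 1), PowerSeries.C (if (if p.1 < p.2 then p.2 - p.1 else p.1 - p.2 - 1) = j then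
          (if p.1 < p.2 then 1 else -1) * (al p.1 * be p.2) else 0) * Yz z j := by
      intro p hp
      rw [Finset.HasAntidiagonal.mem_antidiagonal] at hp
      rw [W_term hn hp hz, Finset.sum_eq_single (if p.1 < p.2 then p.2 - p.1 else p.1 - p.2 - 1)]
      · rw [if_pos rfl]
        simp only [map_mul]
        ring
      · intro j _ hj
        rw [if_neg (Ne.symm hj), map_zero, zero_mul]
      · intro h
        exfalso
        apply h
        rw [Finset.mem_range]
        split_ifs <;> omega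
    rw [Finset.sum_congr rfl e2, Finset.sum_comm]
    refine Finset.sum_congr rfl fun j _ => ?_
    rw [map_sum, Finset.sum_mul]

/-- uniqueness -/
theorem Yz_unique {n : ℕ} {d : ℕ → ℂ}
    (h : X ^ (2 * n) ∣ ∑ j ∈ Finset.range n, PowerSeries.C (d j) * Yz 1 j) : ∀ j < n, d j = 0 := by
  have h1 : ∀ i : Fin n, ∑ j : Fin n, (d j * (PX.mm j : ℂ)) * (((PX.mm j : ℂ)) ^ 2) ^ (i : ℕ) = 0 := by
    intro i
    have h2 := (PowerSeries.X_pow_dvd_iff.1 h) (2 * (i : ℕ) + 1) (by have := i.2; omega)
    rw [map_sum, Finset.sum_range] at h2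
    have h3 : ∀ j : Fin n, coeff (2 * (i : ℕ) + 1) (PowerSeries.C (d j) * Yz 1 j) =
        (2 / ((2 * (i : ℕ) + 1).factorial : ℂ)) * ((d j * (PX.mm j : ℂ)) * (((PX.mm j : ℂ)) ^ 2) ^ (i : ℕ)) := by
      intro j
      rw [PowerSeries.coeff_C_mul]
      unfold Yz
      rw [one_pow, one_pow, map_one, one_mul, one_mul, map_sub, coeff_E, coeff_E]
      push_cast
      have e1 : (2 * (PX.mm j : ℂ) / 2) = (PX.mm j : ℂ) := by ring
      have e2 : (-(2 * (PX.mm j : ℂ)) / 2) = -(PX.mm j : ℂ) := by ring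
      have e3 : (-(PX.mm j : ℂ)) ^ (2 * (i : ℕ) + 1) = -((PX.mm j : ℂ) ^ (2 * (i : ℕ) + 1)) := by
        rw [pow_succ, pow_mul, neg_sq, ← pow_mul, pow_succ]
        ring
      rw [e1, e2, e3, pow_succ, pow_mul]
      ring
    rw [Finset.sum_congr rfl fun j _ => h3 j, ← Finset.mul_sum] at h2
    rcases mul_eq_zero.mp h2 with h4 | h4
    · exfalso
      rw [div_eq_zero_iff] at h4
      rcases h4 with h5 | h5
      · norm_num at h5
      · exact (Nat.cast_ne_zero.mpr (Nat.factorial_ne_zero _)) h5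
    · exact h4
  have hinj : Function.Injective (fun j : Fin n => ((PX.mm j : ℂ)) ^ 2) := by
    intro a b hab
    have h3 : ((PX.mm a : ℂ)) ^ 2 = ((PX.mm b : ℂ)) ^ 2 := hab
    have h4 : (PX.mm a) ^ 2 = (PX.mm b) ^ 2 := by exact_mod_cast h3
    have h5 : PX.mm a = PX.mm b := Nat.pow_left_injective (n := 2) (by norm_num) h4
    exact Fin.ext (PX.mm_strictMono.injective h5)
  have h2 := Matrix.eq_zero_of_forall_pow_sum_mul_pow_eq_zero hinj h1
  intro j hj
  have h3 := congrFun h2 ⟨j, hj⟩
  have h4 : d j * (PX.mm j : ℂ) = 0 := h3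
  rcases mul_eq_zero.mp h4 with h5 | h5
  · exact h5
  · exfalso
    have := PX.mm_pos j
    have h6 : PX.mm j = 0 := by exact_mod_cast h5
    omega

/-- (L4) -/
theorem SS_L4 : L4S SS := by
  intro n hn p hp z hz
  obtain ⟨c, hcn, hc⟩ := Lf_exp n
  obtain ⟨β, hβn, hβ⟩ := W_exp hn
  have hbe := be_ne n
  have h1 := Ph_exp hp hc (z := 1) (by norm_num)
  have h2 := hβ 1 (by norm_num)
  rw [one_pow] at h2
  -- divisibility
  have hd1 : X ^ (2 * n + 1) ∣ sz 1 * (wz 1 - 2) ^ n * Polynomial.aeval (wz 1) p := by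
    rw [wz_one, sz_one, xh_sub, ← X_mul_q1]
    have e1 : X ∣ sh := by
      rw [PowerSeries.X_dvd_iff, ← coeff_zero_eq_constantCoeff_apply]
      unfold sh
      rw [map_sub, coeff_E, coeff_E]
      simp
    have e2 : X ^ (2 * n) ∣ ((X * q1) ^ 2) ^ n := by
      rw [← pow_mul, mul_pow]
      exact dvd_mul_right _ _
    rw [pow_succ, mul_comm (X ^ (2 * n))]
    exact dvd_mul_of_dvd_left (mul_dvd_mul e1 e2) _
  have hd2 : X ^ (2 * n + 1) ∣ Bw n := X_dvd_B n
  have hB : Bw n = W 1 1 n := rfl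
  have hd3 : X ^ (2 * n + 1) ∣ ∑ j ∈ Finset.range (n + 1),
      PowerSeries.C (c j - SS (Multiset.replicate n 2) / be n * β j) * Yz 1 j := by
    have e : ∑ j ∈ Finset.range (n + 1), PowerSeries.C (c j - SS (Multiset.replicate n 2) / be n * β j) * Yz 1 j =
        sz 1 * (wz 1 - 2) ^ n * Polynomial.aeval (wz 1) p -
          PowerSeries.C (SS (Multiset.replicate n 2) / be n) * Bw n := by
      rw [h1, hB, h2, Finset.mul_sum, ← Finset.sum_sub_distrib]
      refine Finset.sum_congr rfl fun j _ => ?_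
      rw [map_sub, map_mul]
      ring
    rw [e]
    exact dvd_sub hd1 (dvd_mul_of_dvd_right hd2 _)
  have hn0 : c n - SS (Multiset.replicate n 2) / be n * β n = 0 := by
    rw [hcn, hβn, div_mul_cancel₀ _ hbe, sub_self]
  rw [Finset.sum_range_succ, hn0, map_zero, zero_mul, add_zero] at hd3
  have hz0 := Yz_unique (dvd_trans (pow_dvd_pow X (Nat.le_succ _)) hd3)
  have hall : ∀ j ∈ Finset.range (n + 1), c j = SS (Multiset.replicate n 2) / be n * β j := by
    intro j hj
    rw [Finset.mem_range] at hj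
    by_cases hjn : j = n
    · rw [hjn]
      linear_combination hn0
    · linear_combination hz0 j (by omega)
  have h3 := Ph_exp hp hc hz
  unfold sz wz at h3
  rw [h3, hβ z hz, Finset.mul_sum]
  refine Finset.sum_congr rfl fun j hj => ?_
  rw [hall j hj, map_mul]
  ring

end CZ
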