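import Pool.Agent.Lib.MP_216314_pr_CDH.Res

/-!
# The coefficient of an even function as a residue
-/

set_option autoImplicit false

noncomputable section

namespace CZ

open PowerSeries CDH

/-- `z^(1/2) - z^(-1/2)` -/
def qh : PowerSeries ℂ := E 1 - E (-1)

def q1 : PowerSeries ℂ := PowerSeries.mk fun n => coeff (n + 1) qh

def qi : PowerSeries ℂ := q1⁻¹

/-- `x = z + 1/z` -/
def xh : PowerSeries ℂ := E 2 + E (-2)

def ti : PowerSeries ℂ := (xh + 1)⁻¹

theorem X_mul_q1 : X * q1 = qh := by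
  ext n
  rcases n with _ | n
  · rw [coeff_zero_X_mul]
    unfold qh
    rw [map_sub, coeff_E, coeff_E]
    simp
  · rw [coeff_succ_X_mul]
    unfold q1
    rw [coeff_mk]

theorem const_q1 : constantCoeff q1 = 1 := by
  unfold q1
  rw [← coeff_zero_eq_constantCoeff_apply, coeff_mk]
  unfold qh
  rw [map_sub, coeff_E, coeff_E]
  push_cast
  norm_num

theorem q1_mul_qi : q1 * qi = 1 := by
  unfold qi
  apply PowerSeries.mul_inv_cancel
  rw [const_q1]
  norm_num

theorem const_xh : constantCoeff (xh + 1) = 3 := by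
  rw [map_add, map_one, ← coeff_zero_eq_constantCoeff_apply]
  unfold xh
  rw [map_add, coeff_E, coeff_E]
  norm_num

theorem t_mul_ti : (xh + 1) * ti = 1 := by
  unfold ti
  apply PowerSeries.mul_inv_cancel
  rw [const_xh]
  norm_num

theorem xh_sub : xh - 2 = qh ^ 2 := by
  unfold xh qh
  have h1 := E_mul 1 1
  have h2 := E_mul (-1) (-1)
  have h3 := E_mul 1 (-1)
  norm_num at h1 h2 h3
  rw [E_zero] at h3
  linear_combination -h1 - h2 + 2 * h3

theorem dl_eq : dl = qh * (xh + 1) := by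
  unfold dl qh xh
  have h1 := E_mul 1 2
  have h2 := E_mul 1 (-2)
  have h3 := E_mul (-1) 2
  have h4 := E_mul (-1) (-2)
  norm_num at h1 h2 h3 h4
  linear_combination -h1 - h2 + h3 + h4

theorem dl1_eq : dl1 = q1 * (xh + 1) := by
  have h : X * dl1 = X * (q1 * (xh + 1)) := by
    rw [X_mul_dl1, dl_eq, ← X_mul_q1]
    ring
  exact mul_left_cancel₀ X_ne_zero h

theorem di_eq : di = qi * ti := by
  have h1 := dl1_mul_di
  rw [dl1_eq] at h1
  linear_combination (qi * ti) * h1 - di * (xh + 1) * ti * q1_mul_qi - di * t_mul_ti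

/-- the derivative of `x` -/
def sh : PowerSeries ℂ := E 2 - E (-2)

theorem sh_eq : sh = derivative ℂ (X ^ 2 * q1 ^ 2) := by
  have h1 : X ^ 2 * q1 ^ 2 = E 2 + E (-2) - 2 := by
    rw [← mul_pow, X_mul_q1, ← xh_sub]
    rfl
  rw [h1]
  have h2 := D_E 2
  have h3 := D_E (-2)
  unfold D at h2 h3
  have h4 : derivative ℂ (2 : PowerSeries ℂ) = 0 := by
    rw [← C2]
    exact PowerSeries.derivative_C
  rw [map_sub, map_add, h4, sub_zero]
  unfold sh
  have hC : PowerSeries.C ((2 : ℤ) : ℂ) = 2 := by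
    rw [← C2]
    norm_num
  have hCm : PowerSeries.C (((-2 : ℤ)) : ℂ) = -2 := by
    rw [← C2, ← map_neg]
    norm_num
  rw [hC] at h2
  rw [hCm] at h3
  have h5 : (2 : PowerSeries ℂ) ≠ 0 := by
    rw [← C2]
    intro h
    have := congrArg (coeff 0) h
    simp at this
  have h6 : 2 * (E 2 - E (-2)) = 2 * (derivative ℂ (E 2) + derivative ℂ (E (-2))) := by
    rw [mul_add, h2, h3]
    ring
  exact mul_left_cancel₀ h5 h6

theorem d_qi (n : ℕ) : derivative ℂ (qi ^ (n + 1)) = -((n : PowerSeries ℂ) + 1) * qi ^ (n + 2) * derivative ℂ q1 := by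
  have h := congrArg (derivative ℂ) q1_mul_qi
  rw [Derivation.leibniz, smul_eq_mul, smul_eq_mul, PowerSeries.derivative_one] at h
  have h1 : derivative ℂ qi = -(qi ^ 2 * derivative ℂ q1) := by
    linear_combination qi * h - derivative ℂ qi * q1_mul_qi
  rw [Derivation.leibniz_pow, h1, Nat.add_sub_cancel, nsmul_eq_mul, smul_eq_mul]
  push_cast
  ring

/-- the basic residues -/
theorem res_pow (n : ℕ) : coeff (2 * n + 1) (sh * qi ^ (2 * n + 2)) = if n = 0 then 2 else 0 := by
  have h1 : sh = 2 * X * q1 ^ 2 + 2 * X ^ 2 * q1 * derivative ℂ q1 := by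
    rw [sh_eq, Derivation.leibniz, smul_eq_mul, smul_eq_mul, Derivation.leibniz_pow, Derivation.leibniz_pow,
      PowerSeries.derivative_X]
    simp only [nsmul_eq_mul, smul_eq_mul]
    push_cast
    ring
  by_cases hn : n = 0
  · subst hn
    rw [if_pos rfl]
    have e : sh * qi ^ (2 * 0 + 2) = X * (2 + X * (2 * derivative ℂ q1 * qi)) := by
      rw [h1]
      linear_combination (2 * X * (q1 * qi + 1) + 2 * X ^ 2 * derivative ℂ q1 * qi) * q1_mul_qi
    rw [e, coeff_succ_X_mul, mul_zero, map_add, coeff_zero_X_mul, add_zero, ← C2, coeff_zero_C]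
  · obtain ⟨n', rfl⟩ := Nat.exists_eq_succ_of_ne_zero hn
    rw [if_neg hn, Nat.succ_eq_add_one]
    have h2 := d_qi (2 * n' + 1)
    have hX : ((((2 * n' + 1 : ℕ)) : PowerSeries ℂ) + 1) = PowerSeries.C (2 * ((n' : ℂ) + 1)) := by
      rw [map_mul, map_add, map_natCast, map_one, C2]
      push_cast
      ring
    rw [hX] at h2
    have hC : PowerSeries.C (((n' : ℂ) + 1)) = (n' : PowerSeries ℂ) + 1 := by
      rw [map_add, map_natCast, map_one]
    have e : PowerSeries.C (((n' : ℂ) + 1)) * (sh * qi ^ (2 * (n' + 1) + 2)) =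
        X * (PowerSeries.C (2 * ((n' : ℂ) + 1)) * qi ^ (2 * n' + 1 + 1) -
          X * derivative ℂ (qi ^ (2 * n' + 1 + 1))) := by
      rw [h2, h1, map_mul, C2]
      generalize PowerSeries.C (((n' : ℂ) + 1)) = c
      linear_combination (c * (2 * X * qi ^ (2 * n' + 2)) * (q1 * qi + 1) +
        c * 2 * X ^ 2 * derivative ℂ q1 * qi ^ (2 * n' + 3)) * q1_mul_qi
    have h3 := congrArg (coeff (2 * (n' + 1) + 1)) e
    rw [PowerSeries.coeff_C_mul, coeff_succ_X_mul, map_sub, PowerSeries.coeff_C_mul,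
      show 2 * (n' + 1) = (2 * n' + 1) + 1 by ring, coeff_succ_X_mul, PowerSeries.coeff_derivative] at h3
    have h4 : ((n' : ℂ) + 1) ≠ 0 := by exact_mod_cast Nat.succ_ne_zero n'
    have h5 : ((n' : ℂ) + 1) * coeff (2 * n' + 1 + 1 + 1) (sh * qi ^ (2 * n' + 1 + 1 + 2)) = 0 := by
      rw [h3]
      push_cast
      ring
    rcases mul_eq_zero.mp h5 with h | h
    · exact absurd h h4
    · exact h

end CZ
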