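import Pool.Agent.Lib.MP_216314_pr.CZ.Rs

/-!
# The coefficient of an even function as a residue
-/

set_option autoImplicit false

noncomputable section

namespace CZ

open PowerSeries CDH

theorem comp_pow (k j : ℕ) : coeff (2 * k + 1) (qh ^ (2 * j) * sh * qi ^ (2 * k + 2)) = if j = k then 2 else 0 := by
  by_cases hj : j ≤ k
  · obtain ⟨n, rfl⟩ := Nat.exists_eq_add_of_le hj
    have e : qh ^ (2 * j) * sh * qi ^ (2 * (j + n) + 2) = X ^ (2 * j) * (sh * qi ^ (2 * n + 2)) := by
      have h1 : (q1 * qi) ^ (2 * j) = 1 := by rw [q1_mul_qi, one_pow]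
      rw [← X_mul_q1, mul_pow, show 2 * (j + n) + 2 = 2 * j + (2 * n + 2) by ring, pow_add qi]
      rw [mul_pow] at h1
      linear_combination (X ^ (2 * j) * sh * qi ^ (2 * n + 2)) * h1
    rw [e, show 2 * (j + n) + 1 = (2 * n + 1) + 2 * j by ring, coeff_X_pow_mul, res_pow]
    by_cases hn : n = 0
    · rw [if_pos hn, if_pos (by omega)]
    · rw [if_neg hn, if_neg (by omega)]
  · rw [if_neg (by omega)]
    have h1 : X ^ (2 * j) ∣ qh ^ (2 * j) * sh * qi ^ (2 * k + 2) := by
      rw [← X_mul_q1, mul_pow, mul_assoc, mul_assoc]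
      exact dvd_mul_right _ _
    exact (PowerSeries.X_pow_dvd_iff.1 h1) (2 * k + 1) (by omega)

theorem comp_poly (k : ℕ) (T : Polynomial ℂ) :
    coeff k (Polynomial.aeval (X : PowerSeries ℂ) T) =
      1 / 2 * coeff (2 * k + 1) (Polynomial.aeval (qh ^ 2) T * sh * qi ^ (2 * k + 2)) := by
  induction T using Polynomial.induction_on' with
  | add p q hp hq => rw [map_add, map_add, map_add, add_mul, add_mul, map_add, hp, hq]; ring
  | monomial j a =>
    have e : PowerSeries.C a * (qh ^ 2) ^ j * sh * qi ^ (2 * k + 2) =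
        PowerSeries.C a * (qh ^ (2 * j) * sh * qi ^ (2 * k + 2)) := by
      rw [← pow_mul]
      ring
    rw [Polynomial.aeval_monomial, Polynomial.aeval_monomial, PowerSeries.algebraMap_apply,
      Algebra.algebraMap_self_apply, PowerSeries.coeff_C_mul, e, PowerSeries.coeff_C_mul, comp_pow,
      PowerSeries.coeff_X_pow]
    by_cases h : j = k
    · rw [if_pos h, if_pos h.symm]; ring
    · rw [if_neg h, if_neg (Ne.symm h)]; ring

theorem aev_shift (y : PowerSeries ℂ) (T : Polynomial ℂ) :
    Polynomial.aeval y (T.comp (Polynomial.X + Polynomial.C 2)) = Polynomial.aeval (y + 2) T := by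
  rw [Polynomial.aeval_comp, map_add, Polynomial.aeval_X, Polynomial.aeval_C, PowerSeries.algebraMap_apply,
    Algebra.algebraMap_self_apply, C2]

/-- the coefficient of an even function -/
theorem comp_coeff (q : Polynomial ℂ) (N k : ℕ) {I : PowerSeries ℂ} (hI : (X + PowerSeries.C (2 - (-1))) * I = 1) :
    coeff k (Polynomial.aeval (X + PowerSeries.C 2 : PowerSeries ℂ) q * I ^ N) =
      1 / 2 * coeff (2 * k + 1) (Polynomial.aeval xh q * ti ^ N * sh * qi ^ (2 * k + 2)) := by
  have hcop : IsCoprime ((Polynomial.X + 1 : Polynomial ℂ) ^ N) ((Polynomial.X - Polynomial.C 2) ^ (k + 1)) := by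
    apply IsCoprime.pow
    refine ⟨Polynomial.C (1 / 3), -Polynomial.C (1 / 3), ?_⟩
    have e : (Polynomial.C (1 / 3 : ℂ)) * (Polynomial.X + 1) + -Polynomial.C (1 / 3) * (Polynomial.X - Polynomial.C 2) =
        Polynomial.C (1 / 3) * (1 + Polynomial.C 2) := by ring
    rw [e, ← Polynomial.C_1, ← Polynomial.C_add, ← Polynomial.C_mul]
    norm_num
  obtain ⟨a, b, hab⟩ := hcop
  have hq : q = q * a * (Polynomial.X + 1) ^ N + q * b * (Polynomial.X - Polynomial.C 2) ^ (k + 1) := by
    linear_combination (-q) * hab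
  have e1 : Polynomial.aeval (X + PowerSeries.C 2 : PowerSeries ℂ) q * I ^ N =
      Polynomial.aeval (X + PowerSeries.C 2 : PowerSeries ℂ) (q * a) +
        X ^ (k + 1) * (Polynomial.aeval (X + PowerSeries.C 2 : PowerSeries ℂ) (q * b) * I ^ N) := by
    conv_lhs => rw [hq]
    rw [map_add, map_mul, map_mul _ (q * b), map_pow, map_pow, map_add, map_sub, Polynomial.aeval_X, map_one,
      Polynomial.aeval_C, PowerSeries.algebraMap_apply, Algebra.algebraMap_self_apply]
    have h1 : (X + PowerSeries.C 2 + 1 : PowerSeries ℂ) ^ N * I ^ N = 1 := by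
      rw [← mul_pow]
      have h2 : (X + PowerSeries.C 2 + 1 : PowerSeries ℂ) = X + PowerSeries.C (2 - (-1)) := by
        rw [sub_neg_eq_add, map_add, map_one]
        ring
      rw [h2, hI, one_pow]
    rw [show (X + PowerSeries.C 2 - PowerSeries.C 2 : PowerSeries ℂ) = X by ring]
    linear_combination (Polynomial.aeval (X + PowerSeries.C 2 : PowerSeries ℂ) (q * a)) * h1
  have e2 : Polynomial.aeval xh q * ti ^ N * sh * qi ^ (2 * k + 2) =
      Polynomial.aeval xh (q * a) * sh * qi ^ (2 * k + 2) +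
        X ^ (2 * k + 2) * (Polynomial.aeval xh (q * b) * ti ^ N * sh * (q1 ^ (2 * k + 2) * qi ^ (2 * k + 2))) := by
    conv_lhs => rw [hq]
    rw [map_add, map_mul, map_mul _ (q * b), map_pow, map_pow, map_add, map_sub, Polynomial.aeval_X, map_one,
      Polynomial.aeval_C, PowerSeries.algebraMap_apply, Algebra.algebraMap_self_apply, C2, xh_sub]
    have h1 : (xh + 1 : PowerSeries ℂ) ^ N * ti ^ N = 1 := by
      rw [← mul_pow, t_mul_ti, one_pow]
    have h2 : (qh ^ 2) ^ (k + 1) = X ^ (2 * k + 2) * q1 ^ (2 * k + 2) := by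
      rw [← mul_pow, X_mul_q1, ← pow_mul]
      ring
    rw [h2]
    linear_combination (Polynomial.aeval xh (q * a) * sh * qi ^ (2 * k + 2)) * h1
  rw [e1, e2, map_add, map_add, PowerSeries.coeff_X_pow_mul' _ (k + 1), if_neg (by omega),
    PowerSeries.coeff_X_pow_mul' _ (2 * k + 2), if_neg (by omega), add_zero, add_zero]
  have h3 := comp_poly k ((q * a).comp (Polynomial.X + Polynomial.C 2))
  rw [aev_shift, aev_shift, ← xh_sub, sub_add_cancel] at h3
  rw [C2]
  exact h3

end CZ
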