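import Pool.Agent.Lib.MP_216314_pr.CZ.Zd
import Pool.Agent.Lib.MP_216314_pr.X.BD
import Pool.Agent.Lib.MP_216314_pr.Q4.PhA
import Pool.Agent.Lib.MP_216314_pr.Q4.PhB
import Pool.Agent.Lib.MP_216314_pr.Q4.PhC
import Pool.Agent.Lib.MP_216314_pr.Q4.PhE

/-!
# The symplectic characters as functions on multisets: `SChar SS`, `SS (XX y_i) = chr`
-/

set_option autoImplicit false

noncomputable section

namespace CZ

open Polynomial

/-- `U_(m_j - 1)` -/
def bb (j : ℕ) : ℂ[X] := PX.USp (PX.mm j - 1)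

theorem bb_natDegree (j : ℕ) : (bb j).natDegree = j + j / 2 := by
  unfold bb
  rw [PX.USp_natDegree]
  have := PX.mm_le j
  omega

theorem bb_monic (j : ℕ) : (bb j).Monic := PX.USp_monic _

theorem bb_zero : bb 0 = 1 := rfl

theorem bb_one : bb 1 = X := rfl

/-- the character of a list -/
def SL (l : List ℂ) : ℂ := Q4.PhF l.length bb (fun i => l.getD i 0)

theorem SL_perm {l l' : List ℂ} (h : l.Perm l') : SL l = SL l' := by
  unfold SL
  rw [Q4.PhF_list bb h rfl, h.length_eq]

/-- the character of a multiset -/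
def SS (M : Multiset ℂ) : ℂ := Quotient.liftOn M SL (fun _ _ h => SL_perm h)

theorem SS_coe (l : List ℂ) : SS (l : Multiset ℂ) = SL l := rfl

theorem SS_zero : SS 0 = 1 := by
  have h : SS ((([] : List ℂ)) : Multiset ℂ) = 1 := by
    rw [SS_coe]
    unfold SL Q4.PhF
    exact Matrix.det_fin_zero
  exact h

theorem DD_X_one (x : ℕ → ℂ) : Q4.DD x 1 X = 1 := by
  have h := Q4.DD_X_mul x 0 1
  rw [mul_one, Q4.DD_one, Q4.DD_one, if_pos rfl, if_neg (by omega), mul_zero, zero_add, zero_add] at h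
  exact h

theorem SS_two (a b : ℂ) : SS (a ::ₘ b ::ₘ 0) = 1 := by
  have h : SS (([a, b] : List ℂ) : Multiset ℂ) = 1 := by
    rw [SS_coe]
    unfold SL Q4.PhF
    show Matrix.det (Matrix.of fun i j : Fin 2 => Q4.DD (fun i => [a, b].getD i 0) i (bb j)) = 1
    rw [Matrix.det_fin_two]
    simp only [Matrix.of_apply, Fin.val_zero, Fin.val_one, bb_zero, bb_one, DD_X_one, Q4.DD_one]
    simp
  exact h

theorem SS_one (a : ℂ) : SS (a ::ₘ 0) = 1 := by
  have h : SS (([a] : List ℂ) : Multiset ℂ) = 1 := by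
    rw [SS_coe]
    unfold SL Q4.PhF
    show Matrix.det (Matrix.of fun i j : Fin 1 => Q4.DD (fun i => [a].getD i 0) i (bb j)) = 1
    rw [Matrix.det_fin_one]
    simp only [Matrix.of_apply, Fin.val_zero, bb_zero, Q4.DD_one]
    simp
  exact h

theorem bb_ueq (N : ℕ) (κ : ℂ) :
    Q4.UEq (N + 2) bb (Q4.pre 1 X (fun j => (X ^ 3 - 3 * X - C κ) * bb j)) := by
  refine ⟨PX.BC_T (N + 2) κ, PX.BC_Tdet _ _, fun j => ?_⟩
  apply Polynomial.funext
  intro x
  have h := PX.BC_mul (N + 2) κ x j
  have e1 : (∑ i : Fin (N + 2), C (PX.BC_T (N + 2) κ i j) * bb i).eval x =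
      ∑ a : Fin (N + 2), PX.US (PX.mm (a : ℕ) - 1) x * PX.BC_T (N + 2) κ a j := by
    rw [Polynomial.eval_finsetSum]
    refine Finset.sum_congr rfl fun a _ => ?_
    rw [eval_mul, eval_C, bb, PX.USp_eval]
    ring
  rw [e1, h]
  unfold Q4.pre
  by_cases h0 : (j : ℕ) = 0
  · rw [if_pos h0, if_pos h0, eval_one]
  · rw [if_neg h0, if_neg h0]
    by_cases h1 : (j : ℕ) = 1
    · rw [if_pos h1, if_pos h1, eval_X]
    · rw [if_neg h1, if_neg h1, eval_mul, bb, PX.USp_eval]
      simp

theorem SC_prod (l : List ℂ) (c : ℂ) :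
    ∏ i ∈ Finset.range l.length, (l.getD i 0 - c) = (l.map fun x => x - c).prod := by
  induction l with
  | nil => simp
  | cons a l ih =>
    rw [List.length_cons, Finset.prod_range_succ', List.map_cons, List.prod_cons, ← ih, mul_comm]
    rfl

theorem SS_fus (a b c : ℂ) (R : Multiset ℂ) (h : Tri a b c) :
    SS (a ::ₘ b ::ₘ R) = (R.map (fun r => r - c)).prod * SS R := by
  induction R using Quotient.inductionOn with
  | h l =>
    show SL (a :: b :: l) = (((l : Multiset ℂ)).map (fun r => r - c)).prod * SL l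
    rw [Multiset.map_coe, Multiset.prod_coe]
    unfold SL
    rw [List.length_cons, List.length_cons]
    have h1 : (X ^ 3 - 3 * X - C (CC a) : ℂ[X]) = (X - C ((fun i => (a :: b :: l).getD i 0) 0)) *
        (X - C ((fun i => (a :: b :: l).getD i 0) 1)) * (X - C c) := by
      apply Polynomial.funext
      intro x
      have h2 := h.CC_sub x
      simp only [eval_sub, eval_pow, eval_X, eval_mul, eval_C, eval_ofNat, List.getD_cons_zero, List.getD_cons_succ]
      unfold CC at h2 ⊢
      linear_combination -h2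
    have h3 := Q4.PhF_ueq (bb_ueq l.length (CC a)) (fun i => (a :: b :: l).getD i 0)
    rw [← h3, h1]
    have h4 := Q4.PhF_rec l.length 1 X bb (fun i => (a :: b :: l).getD i 0) c
    rw [h4, DD_X_one, Q4.DD_one, Q4.DD_one, if_pos rfl, if_neg (by omega), mul_zero, sub_zero, one_mul, one_mul,
      ← SC_prod]
    rfl

theorem SS_poly (R : Multiset ℂ) : IsP (Multiset.card R / 2) (fun x => SS (x ::ₘ R)) := by
  induction R using Quotient.inductionOn with
  | h l =>
    obtain ⟨p, hp, he⟩ := Q4.PhF_update l.length (l.length + l.length / 2) bb (fun j hj => by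
      rw [bb_natDegree]
      have : j / 2 ≤ l.length / 2 := Nat.div_le_div_right (by omega)
      omega) (fun i => l.getD i 0)
    refine ⟨p, ?_, fun x => ?_⟩
    · refine hp.trans ?_
      show _ ≤ Multiset.card (l : Multiset ℂ) / 2
      rw [Multiset.coe_card]
      omega
    · rw [← he x]
      have h1 : SS (x ::ₘ (l : Multiset ℂ)) = SL (l ++ [x]) := by
        show SL (x :: l) = SL (l ++ [x])
        exact SL_perm (List.perm_append_singleton x l).symm
      show SS (x ::ₘ (l : Multiset ℂ)) = _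
      rw [h1]
      unfold SL
      rw [List.length_append, List.length_singleton]
      refine Q4.PhF_congr (fun j _ => rfl) fun j hj => ?_
      by_cases h : j = l.length
      · rw [h, Function.update_self]
        simp
      · rw [Function.update_of_ne h]
        have h1 : j < l.length := by omega
        exact List.getD_append l [x] 0 j h1

theorem SS_char : SChar SS := ⟨SS_zero, SS_two, SS_fus, SS_poly⟩

/-! ### comparison with `chr` -/

def Nw (N : ℕ) (x : ℕ → ℂ) : Matrix (Fin N) (Fin N) ℂ :=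
  Matrix.of fun i a => ∏ l ∈ Finset.range a, (x i - x l)

theorem Nw_pow (N : ℕ) (x : ℕ → ℂ) (t : ℂ) (ht : ∏ l ∈ Finset.range N, (t - x l) = 0) (hN : 0 < N) (k : ℕ) :
    t ^ k = ∑ a ∈ Finset.range N, Q4.hh x k a * ∏ l ∈ Finset.range a, (t - x l) := by
  induction k with
  | zero =>
    rw [Finset.sum_eq_single 0]
    · simp [Q4.HhA_zero_zero]
    · intro b _ hb
      obtain ⟨b', rfl⟩ := Nat.exists_eq_succ_of_ne_zero hb
      rw [Nat.succ_eq_add_one, Q4.HhA_zero_succ, zero_mul]
    · intro h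
      exact absurd (Finset.mem_range.mpr hN) h
  | succ k ih =>
    obtain ⟨n, rfl⟩ := Nat.exists_eq_succ_of_ne_zero hN.ne'
    rw [Nat.succ_eq_add_one] at ht ih ⊢
    have e1 : ∑ a ∈ Finset.range (n + 1), Q4.hh x (k + 1) a * ∏ l ∈ Finset.range a, (t - x l) =
        ∑ a ∈ Finset.range (n + 1), x a * Q4.hh x k a * ∏ l ∈ Finset.range a, (t - x l) +
        ∑ a ∈ Finset.range n, Q4.hh x k a * ∏ l ∈ Finset.range (a + 1), (t - x l) := by
      rw [Finset.sum_range_succ', Finset.sum_range_succ' (fun a => x a * Q4.hh x k a * ∏ l ∈ Finset.range a, (t - x l)),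
        Q4.HhA_succ_zero]
      have e2 : ∀ a ∈ Finset.range n, Q4.hh x (k + 1) (a + 1) * ∏ l ∈ Finset.range (a + 1), (t - x l) =
          x (a + 1) * Q4.hh x k (a + 1) * (∏ l ∈ Finset.range (a + 1), (t - x l)) +
          Q4.hh x k a * ∏ l ∈ Finset.range (a + 1), (t - x l) := by
        intro a _
        rw [Q4.HhA_succ_succ]
        ring
      rw [Finset.sum_congr rfl e2, Finset.sum_add_distrib]
      ring
    have e3 : ∑ a ∈ Finset.range n, Q4.hh x k a * ∏ l ∈ Finset.range (a + 1), (t - x l) =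
        ∑ a ∈ Finset.range (n + 1), Q4.hh x k a * ∏ l ∈ Finset.range (a + 1), (t - x l) := by
      rw [Finset.sum_range_succ _ n, ht, mul_zero, add_zero]
    rw [e1, e3, ← Finset.sum_add_distrib, pow_succ, ih, Finset.sum_mul]
    refine Finset.sum_congr rfl fun a _ => ?_
    rw [Finset.prod_range_succ]
    ring

theorem Nw_eval (N : ℕ) (x : ℕ → ℂ) (i : Fin N) (f : ℂ[X]) :
    f.eval (x i) = ∑ a : Fin N, (∏ l ∈ Finset.range a, (x i - x l)) * Q4.DD x a f := by
  refine Q4.HhB_ext (A := fun f => f.eval (x i))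
    (B := fun f => ∑ a : Fin N, (∏ l ∈ Finset.range a, (x i - x l)) * Q4.DD x a f) ?_ ?_ ?_ ?_ ?_ f
  · intro f g
    exact eval_add
  · intro f g
    simp only [Q4.DD_add, mul_add, Finset.sum_add_distrib]
  · intro c f
    simp only [eval_mul, eval_C]
  · intro c f
    simp only [Q4.DD_C_mul]
    rw [Finset.mul_sum]
    refine Finset.sum_congr rfl fun a _ => ?_
    ring
  · intro n
    simp only [eval_pow, eval_X, Q4.DD_X_pow]
    rw [Nw_pow N x (x i) (Finset.prod_eq_zero (Finset.mem_range.mpr i.2) (sub_self _)) (by have := i.2; omega) n,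
      Finset.sum_range]
    refine Finset.sum_congr rfl fun a _ => ?_
    ring

theorem Nw_mul (N : ℕ) (x : ℕ → ℂ) (g : ℕ → ℂ[X]) :
    (Matrix.of fun i j : Fin N => (g j).eval (x i)).det = (Nw N x).det * Q4.PhF N g x := by
  unfold Q4.PhF
  rw [← Matrix.det_mul]
  congr 1
  ext i j
  rw [Matrix.mul_apply, Matrix.of_apply, Nw_eval N x i (g j)]
  rfl

theorem Vdm_eq_Nw (L : ℕ) (y : ℕ → ℂ) : PX.Vdm L y = (Nw L (fun i => PX.XX (y i))).det := by
  have h := Nw_mul L (fun i => PX.XX (y i)) (fun j => X ^ j)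
  have h1 : Q4.PhF L (fun j => X ^ j) (fun i => PX.XX (y i)) = 1 := by
    unfold Q4.PhF
    rw [Matrix.det_of_upperTriangular]
    · apply Finset.prod_eq_one
      intro i _
      rw [Matrix.of_apply, Q4.DD_X_pow, Q4.hh_self]
    · intro i j hij
      have hij' : (j : ℕ) < i := hij
      rw [Matrix.of_apply, Q4.DD_X_pow, Q4.hh_zero _ _ _ hij']
  rw [h1, mul_one] at h
  rw [← h]
  unfold PX.Vdm
  congr 1
  ext i j
  rw [Matrix.vandermonde_apply, Matrix.of_apply, eval_pow, eval_X]

theorem Del_eq (L : ℕ) (y : ℕ → ℂ) :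
    PX.Del L y = PX.Vdm L y * Q4.PhF L bb (fun i => PX.XX (y i)) := by
  rw [Vdm_eq_Nw, ← Nw_mul]
  unfold PX.Del
  congr 1
  ext i j
  rw [Matrix.of_apply, Matrix.of_apply, bb, PX.USp_eval]

theorem PhF_SS (L : ℕ) (x : ℕ → ℂ) : Q4.PhF L bb x = SS ((Multiset.range L).map x) := by
  show _ = SL ((List.range L).map x)
  unfold SL
  rw [List.length_map, List.length_range]
  refine Q4.PhF_congr (fun j _ => rfl) fun j hj => ?_
  rw [List.getD_eq_getElem _ _ (by rw [List.length_map, List.length_range]; exact hj), List.getElem_map,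
    List.getElem_range]

/-- no assumption -/
theorem Del_eq_SS (L : ℕ) (y : ℕ → ℂ) :
    PX.Del L y = PX.Vdm L y * SS ((Multiset.range L).map (fun i => PX.XX (y i))) := by
  rw [Del_eq, PhF_SS]

theorem chr_eq_SS {L : ℕ} {y : ℕ → ℂ} (h : PX.Dist L y) :
    PX.chr L y = SS ((Multiset.range L).map (fun i => PX.XX (y i))) := by
  have h1 := PX.Vdm_ne_zero h
  unfold PX.chr
  rw [Del_eq_SS, mul_div_cancel_left₀ _ h1]

end CZ
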