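import Pool.Agent.Lib.MP_216314_pr.CZ.Vc

/-!
# The limit of `V_B`
-/

set_option autoImplicit false

noncomputable section

namespace CZ

open Multiset Filter Topology

theorem rep_add (k m : ℕ) : (2 : ℂ) ::ₘ (Multiset.replicate m 2 + Multiset.replicate k 2) =
    Multiset.replicate (k + m + 1) 2 := by
  rw [← Multiset.replicate_add, ← Multiset.replicate_succ]
  congr 1
  ring

theorem VB_lim {S : Multiset ℂ → ℂ} (hS : SChar S) {k m : ℕ} (hk : Odd k) (hm : Odd m) {ι : Type} (l : Filter ι)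
    (M : Multiset (ι → ℂ)) (hM : card M = k) (hlim : ∀ f ∈ M, Tendsto f l (𝓝 2))
    (hG : ∀ᶠ e in l, Gen (M.map (fun f => f e))) {pB : Polynomial ℂ}
    (hpB : ∀ x, S (x ::ₘ Multiset.replicate m 2) = pB.eval x) {I : PowerSeries ℂ}
    (hI : (PowerSeries.X + PowerSeries.C (2 - (-1))) * I = 1) :
    Tendsto (fun e => VB S (M.map (fun f => f e)) (Multiset.replicate m 2) 2 (-1)) l
      (𝓝 (∑ i ∈ Finset.range (k / 2 + 1), ∑ i' ∈ Finset.range ((k + m + 1) / 2 + 1),
        S ((i : ℂ) ::ₘ Multiset.replicate k 2) * S ((i' : ℂ) ::ₘ Multiset.replicate (k + m + 1) 2) *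
          PowerSeries.coeff k (Polynomial.aeval (PowerSeries.X + PowerSeries.C 2 : PowerSeries ℂ) (qq pB k m i i') *
            I ^ (2 * m + 2)))) := by
  have e1 : ∀ᶠ e in l, ∑ i ∈ Finset.range (k / 2 + 1), ∑ i' ∈ Finset.range ((k + m + 1) / 2 + 1),
        S ((i : ℂ) ::ₘ M.map (fun f => f e)) *
          S ((i' : ℂ) ::ₘ 2 ::ₘ (M.map (fun f => f e) + Multiset.replicate m 2)) *
          DDm (2 ::ₘ M.map (fun f => f e)) (fun x => (qq pB k m i i').eval x / (x - (-1)) ^ (2 * m + 2)) =
      VB S (M.map (fun f => f e)) (Multiset.replicate m 2) 2 (-1) := by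
    filter_upwards [hG] with e he
    exact (VB_DD hS hk hm (by rw [Multiset.card_map, hM]) he hpB).symm
  refine Tendsto.congr' e1 ?_
  refine tendsto_finsetSum _ fun i _ => tendsto_finsetSum _ fun i' _ => ?_
  refine Tendsto.mul (Tendsto.mul ?_ ?_) ?_
  · have h := hS.tendsto' l M 2 hlim ((i : ℂ) ::ₘ 0)
    simp only [Multiset.cons_add, Multiset.zero_add, hM] at h
    exact h
  · have h := hS.tendsto' l M 2 hlim ((i' : ℂ) ::ₘ 2 ::ₘ Multiset.replicate m 2)
    simp only [Multiset.cons_add, hM, rep_add] at h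
    refine Tendsto.congr (fun e => ?_) h
    rw [add_comm (Multiset.replicate m 2)]
  · have h0 : HasDD (fun x => (qq pB k m i i').eval x * 1)
        (Polynomial.aeval (PowerSeries.X + PowerSeries.C 2 : PowerSeries ℂ) (qq pB k m i i') * 1) :=
      HasDD.one.poly _
    have h1 := (h0.congr (ψ' := fun x => (qq pB k m i i').eval x) (fun x => (mul_one _).symm)
      (F' := Polynomial.aeval (PowerSeries.X + PowerSeries.C 2 : PowerSeries ℂ) (qq pB k m i i'))
      (mul_one _).symm).divpow (c := -1) (by norm_num) I hI (2 * m + 2)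
    have h2 := h1 ι l M (fun _ => 2) tendsto_const_nhds hlim (by
      filter_upwards [hG] with e he
      rw [Multiset.nodup_cons]
      exact ⟨fun h => he.ne_two h rfl, he.nodup⟩)
    rw [hM] at h2
    exact h2

end CZ
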