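import Pool.Agent.Lib.MP_216314_pr.CZ.Rt
import Pool.Agent.Lib.MP_216314_pr.CZ.Vd
import Pool.Agent.Lib.MP_216314_pr.CZ.SC

/-!
# The limit of `V_B` as a residue
-/

set_option autoImplicit false

noncomputable section

namespace CZ

open PowerSeries CDH

/-- the rotated variable `ζ z + 1 / (ζ z)` -/
def wz (ζ : ℂ) : PowerSeries ℂ := PowerSeries.C ζ * E 2 + PowerSeries.C (ζ ^ 2) * E (-2)

/-- `ζ z - 1 / (ζ z)` -/
def sz (ζ : ℂ) : PowerSeries ℂ := PowerSeries.C ζ * E 2 - PowerSeries.C (ζ ^ 2) * E (-2)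

/-- `Phi_n(ζ z)` -/
def Ph (ζ : ℂ) (n : ℕ) (p : Polynomial ℂ) : PowerSeries ℂ := sz ζ * (wz ζ - 2) ^ n * Polynomial.aeval (wz ζ) p

theorem E_two_neg : E 2 * E (-2) = 1 := by
  rw [E_mul]
  norm_num
  exact E_zero

theorem wz_one : wz 1 = xh := by
  unfold wz xh
  rw [one_pow, map_one, one_mul, one_mul]

theorem sz_one : sz 1 = sh := by
  unfold sz sh
  rw [one_pow, map_one, one_mul, one_mul]

/-- the relations of `a = C om` -/
theorem Com_rel : PowerSeries.C PX.om ^ 2 + PowerSeries.C PX.om + 1 = (0 : PowerSeries ℂ) := by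
  rw [← map_pow, ← map_one (PowerSeries.C (R := ℂ)), ← map_add, ← map_add, PX.om_eq, map_zero]

theorem Ru_om4 : (PX.om ^ 2) ^ 2 = PX.om := by
  linear_combination PX.om * PX.om_cube

theorem wz_om : wz PX.om = PowerSeries.C PX.om * E 2 + PowerSeries.C PX.om ^ 2 * E (-2) := by
  unfold wz
  rw [map_pow]

theorem wz_om2 : wz (PX.om ^ 2) = PowerSeries.C PX.om ^ 2 * E 2 + PowerSeries.C PX.om * E (-2) := by
  unfold wz
  rw [Ru_om4, map_pow]

theorem sz_om : sz PX.om = PowerSeries.C PX.om * E 2 - PowerSeries.C PX.om ^ 2 * E (-2) := by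
  unfold sz
  rw [map_pow]

theorem sz_om2 : sz (PX.om ^ 2) = PowerSeries.C PX.om ^ 2 * E 2 - PowerSeries.C PX.om * E (-2) := by
  unfold sz
  rw [Ru_om4, map_pow]

theorem w_sum : xh + wz PX.om + wz (PX.om ^ 2) = 0 := by
  rw [wz_om, wz_om2]
  unfold xh
  linear_combination (E 2 + E (-2)) * Com_rel

theorem w_pair : xh * wz PX.om + xh * wz (PX.om ^ 2) + wz PX.om * wz (PX.om ^ 2) = -3 := by
  rw [wz_om, wz_om2]
  unfold xh
  have h := Com_rel
  have h2 := E_two_neg
  have h3 : PowerSeries.C PX.om ^ 3 = (1 : PowerSeries ℂ) := by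
    linear_combination (PowerSeries.C PX.om - 1) * h
  generalize (PowerSeries.C PX.om : PowerSeries ℂ) = a at h h3 ⊢
  generalize (E 2) = u at h2 ⊢
  generalize (E (-2)) = v at h2 ⊢
  linear_combination (u + v) ^ 2 * h + (u ^ 2 + v ^ 2 + a * u * v) * h3 + (u * v) * h - 3 * h2

theorem w_two : (wz PX.om - 2) * (wz (PX.om ^ 2) - 2) = (xh + 1) ^ 2 := by
  have h1 := w_sum
  have h2 := w_pair
  linear_combination h2 - (xh + 2) * h1

theorem s_prod : sz PX.om * sh * sz (PX.om ^ 2) = (xh - 1) * (xh + 1) * sh := by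
  rw [sz_om, sz_om2]
  unfold xh sh
  have h := Com_rel
  have h2 := E_two_neg
  have h3 : PowerSeries.C PX.om ^ 3 = (1 : PowerSeries ℂ) := by
    linear_combination (PowerSeries.C PX.om - 1) * h
  generalize (PowerSeries.C PX.om : PowerSeries ℂ) = a at h h3 ⊢
  generalize (E 2) = u at h2 ⊢
  generalize (E (-2)) = v at h2 ⊢
  linear_combination (u - v) * ((u ^ 2 + v ^ 2 - a * u * v) * h3 - u * v * h - h2)

/-! ### the symmetry `h -> -h` -/

def sg : PowerSeries ℂ →+* PowerSeries ℂ := rescale (-1 : ℂ)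

theorem sg_E (n : ℤ) : sg (E n) = E (-n) := by
  unfold sg E
  rw [PowerSeries.rescale_rescale]
  congr 2
  push_cast
  ring

theorem sg_C (c : ℂ) : sg (PowerSeries.C c) = PowerSeries.C c := by
  unfold sg
  ext n
  rw [PowerSeries.coeff_rescale, PowerSeries.coeff_C]
  by_cases h : n = 0
  · rw [if_pos h, h, pow_zero, one_mul]
  · rw [if_neg h, mul_zero]

theorem sg_xh : sg xh = xh := by
  unfold xh
  rw [map_add, sg_E, sg_E, neg_neg, add_comm]

theorem sg_sh : sg sh = -sh := by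
  unfold sh
  rw [map_sub, sg_E, sg_E, neg_neg, neg_sub]

theorem sg_w : sg (wz PX.om) = wz (PX.om ^ 2) := by
  rw [wz_om, wz_om2, map_add, map_mul, map_mul, map_pow, sg_C, sg_E, sg_E, neg_neg, add_comm]

theorem sg_w2 : sg (wz (PX.om ^ 2)) = wz PX.om := by
  rw [wz_om, wz_om2, map_add, map_mul, map_mul, map_pow, sg_C, sg_E, sg_E, neg_neg, add_comm]

theorem sg_ti : sg ti = ti := by
  have h1 := congrArg sg t_mul_ti
  rw [map_mul, map_add, map_one, sg_xh] at h1
  linear_combination ti * h1 - sg ti * t_mul_ti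

theorem sg_qi : sg qi = qi := by
  have h0 : sg qh = -qh := by
    unfold qh
    rw [map_sub, sg_E, sg_E, neg_neg, neg_sub]
  have h1 := congrArg sg X_mul_q1
  have hX : sg X = -X := by
    unfold sg
    rw [PowerSeries.rescale_X]
    simp
  rw [map_mul, h0, hX, ← X_mul_q1] at h1
  have h2 : sg q1 = q1 := by
    have h3 : X * sg q1 = X * q1 := by linear_combination -h1
    exact mul_left_cancel₀ X_ne_zero h3
  have h4 := congrArg sg q1_mul_qi
  rw [map_mul, h2, map_one] at h4
  linear_combination qi * h4 - sg qi * q1_mul_qi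

theorem sg_aeval (y : PowerSeries ℂ) (p : Polynomial ℂ) :
    sg (Polynomial.aeval y p) = Polynomial.aeval (sg y) p := by
  induction p using Polynomial.induction_on' with
  | add p q hp hq => rw [map_add, map_add, map_add, hp, hq]
  | monomial n a =>
    rw [Polynomial.aeval_monomial, Polynomial.aeval_monomial, map_mul, map_pow, PowerSeries.algebraMap_apply,
      Algebra.algebraMap_self_apply, sg_C]

theorem coeff_sg (k : ℕ) (F : PowerSeries ℂ) : coeff (2 * k + 1) (sg F) = -coeff (2 * k + 1) F := by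
  unfold sg
  rw [PowerSeries.coeff_rescale, pow_succ, pow_mul, neg_one_sq, one_pow]
  ring

end CZ
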