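import Pool.Agent.Lib.MP_216314_pr.CZ.Ru

/-!
# The limit of `V_B` as a residue
-/

set_option autoImplicit false

noncomputable section

namespace CZ

open PowerSeries CDH

/-- the two halves are equal -/
theorem half (k m : ℕ) (pk pB pL : Polynomial ℂ) :
    coeff (2 * k + 1) ((xh - 1) * (xh + 1) * sh * ti ^ (2 * m + 2) * qi ^ (2 * k + 2) * Polynomial.aeval xh pB *
      (Polynomial.aeval (wz (PX.om ^ 2)) pk * Polynomial.aeval (wz PX.om) pL)) =
    coeff (2 * k + 1) ((xh - 1) * (xh + 1) * sh * ti ^ (2 * m + 2) * qi ^ (2 * k + 2) * Polynomial.aeval xh pB *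
      (Polynomial.aeval (wz PX.om) pk * Polynomial.aeval (wz (PX.om ^ 2)) pL)) := by
  have h := coeff_sg k ((xh - 1) * (xh + 1) * sh * ti ^ (2 * m + 2) * qi ^ (2 * k + 2) * Polynomial.aeval xh pB *
      (Polynomial.aeval (wz PX.om) pk * Polynomial.aeval (wz (PX.om ^ 2)) pL))
  simp only [map_mul, map_sub, map_add, map_one, map_pow, sg_xh, sg_sh, sg_ti, sg_qi, sg_aeval, sg_w, sg_w2] at h
  have e : (xh - 1) * (xh + 1) * -sh * ti ^ (2 * m + 2) * qi ^ (2 * k + 2) * Polynomial.aeval xh pB *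
      (Polynomial.aeval (wz (PX.om ^ 2)) pk * Polynomial.aeval (wz PX.om) pL) =
      -((xh - 1) * (xh + 1) * sh * ti ^ (2 * m + 2) * qi ^ (2 * k + 2) * Polynomial.aeval xh pB *
      (Polynomial.aeval (wz (PX.om ^ 2)) pk * Polynomial.aeval (wz PX.om) pL)) := by ring
  rw [e, map_neg, neg_inj] at h
  exact h

/-- the residue in the form of helper54 -/
theorem to_rs {k m : ℕ} (hm : Odd m) (pk pB pL : Polynomial ℂ) :
    rs (2 * (k + m) + 1) (Ph PX.om k pk * Ph 1 m pB * Ph (PX.om ^ 2) (k + m + 1) pL) =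
    coeff (2 * k + 1) ((xh - 1) * (xh + 1) * sh * ti ^ (2 * m + 2) * qi ^ (2 * k + 2) * Polynomial.aeval xh pB *
      (Polynomial.aeval (wz PX.om) pk *
        Polynomial.aeval (wz (PX.om ^ 2)) (pL * (Polynomial.C 2 - Polynomial.X) ^ (m + 1)))) := by
  have hev : (2 - wz (PX.om ^ 2)) ^ (m + 1) = (wz (PX.om ^ 2) - 2) ^ (m + 1) := by
    have h1 : Even (m + 1) := hm.add_one
    rw [← neg_sub (wz (PX.om ^ 2)) 2, h1.neg_pow]
  have hL : Polynomial.aeval (wz (PX.om ^ 2)) (pL * (Polynomial.C 2 - Polynomial.X) ^ (m + 1)) =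
      Polynomial.aeval (wz (PX.om ^ 2)) pL * (wz (PX.om ^ 2) - 2) ^ (m + 1) := by
    rw [map_mul, map_pow, map_sub, Polynomial.aeval_C, Polynomial.aeval_X, PowerSeries.algebraMap_apply,
      Algebra.algebraMap_self_apply, C2, hev]
  rw [hL]
  unfold rs Ph
  rw [wz_one, sz_one, xh_sub, di_eq, ← X_mul_q1]
  have h1 : (q1 * qi) ^ (2 * m) = 1 := by rw [q1_mul_qi, one_pow]
  have h2 : ((xh + 1) * ti) ^ (2 * k) = 1 := by rw [t_mul_ti, one_pow]
  have h3 : ((wz PX.om - 2) * (wz (PX.om ^ 2) - 2)) ^ k = (xh + 1) ^ (2 * k) := by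
    rw [w_two, ← pow_mul]
  have h4 := s_prod
  have e : sz PX.om * (wz PX.om - 2) ^ k * Polynomial.aeval (wz PX.om) pk *
        (sh * ((X * q1) ^ 2) ^ m * Polynomial.aeval xh pB) *
        (sz (PX.om ^ 2) * (wz (PX.om ^ 2) - 2) ^ (k + m + 1) * Polynomial.aeval (wz (PX.om ^ 2)) pL) *
        (qi * ti) ^ (2 * (k + m) + 1 + 1) =
      X ^ (2 * m) * ((xh - 1) * (xh + 1) * sh * ti ^ (2 * m + 2) * qi ^ (2 * k + 2) * Polynomial.aeval xh pB *
      (Polynomial.aeval (wz PX.om) pk * (Polynomial.aeval (wz (PX.om ^ 2)) pL * (wz (PX.om ^ 2) - 2) ^ (m + 1)))) := by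
    generalize Polynomial.aeval (wz PX.om) pk = P1
    generalize Polynomial.aeval xh pB = P2
    generalize Polynomial.aeval (wz (PX.om ^ 2)) pL = P3
    have e1 : ((X * q1 : PowerSeries ℂ) ^ 2) ^ m = X ^ (2 * m) * q1 ^ (2 * m) := by
      rw [← pow_mul, mul_pow]
    have e2 : (qi * ti) ^ (2 * (k + m) + 1 + 1) = qi ^ (2 * m) * qi ^ (2 * k + 2) * (ti ^ (2 * k) * ti ^ (2 * m + 2)) := by
      rw [mul_pow, ← pow_add, ← pow_add]
      congr 2 <;> ring
    have e3 : (wz (PX.om ^ 2) - 2) ^ (k + m + 1) = (wz (PX.om ^ 2) - 2) ^ k * (wz (PX.om ^ 2) - 2) ^ (m + 1) := by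
      rw [← pow_add, add_assoc]
    have e4 : (wz PX.om - 2) ^ k * (wz (PX.om ^ 2) - 2) ^ k = (xh + 1) ^ (2 * k) := by
      rw [← mul_pow, h3]
    rw [e1, e2, e3]
    rw [mul_pow] at h1 h2
    generalize (wz PX.om - 2) ^ k = W1 at e4 ⊢
    generalize (wz (PX.om ^ 2) - 2) ^ k = W2 at e4 ⊢
    generalize (wz (PX.om ^ 2) - 2) ^ (m + 1) = W3
    generalize sz PX.om = s1 at h4 ⊢
    generalize sz (PX.om ^ 2) = s2 at h4 ⊢
    generalize (xh + 1) ^ (2 * k) = T1 at h2 e4 ⊢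
    generalize ti ^ (2 * k) = T2 at h2 ⊢
    generalize q1 ^ (2 * m) = Q1 at h1 ⊢
    generalize qi ^ (2 * m) = Q2 at h1 ⊢
    generalize ti ^ (2 * m + 2) = T3
    generalize qi ^ (2 * k + 2) = Q3
    generalize (X : PowerSeries ℂ) ^ (2 * m) = Y
    calc s1 * W1 * P1 * (sh * (Y * Q1) * P2) * (s2 * (W2 * W3) * P3) * (Q2 * Q3 * (T2 * T3))
        = (s1 * sh * s2) * (W1 * W2) * T2 * (Q1 * Q2) * (Y * T3 * Q3 * P2 * P1 * P3 * W3) := by ring
      _ = ((xh - 1) * (xh + 1) * sh) * (T1 * T2) * (Q1 * Q2) * (Y * T3 * Q3 * P2 * P1 * P3 * W3) := by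
          rw [h4, e4]
          ring
      _ = _ := by
          rw [h1, h2]
          ring
  rw [e, show 2 * (k + m) + 1 = (2 * k + 1) + 2 * m by ring, PowerSeries.coeff_X_pow_mul]

theorem interp_poly {S : Multiset ℂ → ℂ} (hS : SChar S) (R : Multiset ℂ) {p : Polynomial ℂ}
    (hp : ∀ x, S (x ::ₘ R) = p.eval x) :
    p = ∑ i ∈ Finset.range (Multiset.card R / 2 + 1), Polynomial.C (S ((i : ℂ) ::ₘ R)) * lb (Multiset.card R / 2) i := by
  apply Polynomial.funext
  intro x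
  rw [← hp, hS.interp, Polynomial.eval_finsetSum]
  refine Finset.sum_congr rfl fun i _ => ?_
  rw [Polynomial.eval_mul, Polynomial.eval_C]

/-- THEOREM: the limit of `V_B` -/
theorem lim_rs {S : Multiset ℂ → ℂ} (hS : SChar S) {k m : ℕ} (hm : Odd m) {pk pB pL : Polynomial ℂ}
    (hpk : ∀ x, S (x ::ₘ Multiset.replicate k 2) = pk.eval x)
    (hpL : ∀ x, S (x ::ₘ Multiset.replicate (k + m + 1) 2) = pL.eval x)
    {I : PowerSeries ℂ} (hI : (X + PowerSeries.C (2 - (-1))) * I = 1) :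
    ∑ i ∈ Finset.range (k / 2 + 1), ∑ i' ∈ Finset.range ((k + m + 1) / 2 + 1),
        S ((i : ℂ) ::ₘ Multiset.replicate k 2) * S ((i' : ℂ) ::ₘ Multiset.replicate (k + m + 1) 2) *
          PowerSeries.coeff k (Polynomial.aeval (PowerSeries.X + PowerSeries.C 2 : PowerSeries ℂ) (qq pB k m i i') *
            I ^ (2 * m + 2)) =
    1 / 2 * rs (2 * (k + m) + 1) (Ph PX.om k pk * Ph 1 m pB * Ph (PX.om ^ 2) (k + m + 1) pL) := by
  have hk1 := interp_poly hS _ hpk
  have hL1 := interp_poly hS _ hpL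
  rw [Multiset.card_replicate] at hk1 hL1
  have e1 : ∀ i i' : ℕ, S ((i : ℂ) ::ₘ Multiset.replicate k 2) * S ((i' : ℂ) ::ₘ Multiset.replicate (k + m + 1) 2) *
          PowerSeries.coeff k (Polynomial.aeval (PowerSeries.X + PowerSeries.C 2 : PowerSeries ℂ) (qq pB k m i i') *
            I ^ (2 * m + 2)) =
      1 / 4 * coeff (2 * k + 1) ((xh - 1) * (xh + 1) * sh * ti ^ (2 * m + 2) * qi ^ (2 * k + 2) * Polynomial.aeval xh pB *
        (PowerSeries.C (S ((i : ℂ) ::ₘ Multiset.replicate k 2)) *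
          PowerSeries.C (S ((i' : ℂ) ::ₘ Multiset.replicate (k + m + 1) 2)) * Polynomial.aeval xh (Nn k m i i'))) := by
    intro i i'
    rw [comp_coeff _ _ _ hI]
    have e : (xh - 1) * (xh + 1) * sh * ti ^ (2 * m + 2) * qi ^ (2 * k + 2) * Polynomial.aeval xh pB *
        (PowerSeries.C (S ((i : ℂ) ::ₘ Multiset.replicate k 2)) *
          PowerSeries.C (S ((i' : ℂ) ::ₘ Multiset.replicate (k + m + 1) 2)) * Polynomial.aeval xh (Nn k m i i')) =
        PowerSeries.C (2 * (S ((i : ℂ) ::ₘ Multiset.replicate k 2) *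
          S ((i' : ℂ) ::ₘ Multiset.replicate (k + m + 1) 2))) *
          (Polynomial.aeval xh (qq pB k m i i') * ti ^ (2 * m + 2) * sh * qi ^ (2 * k + 2)) := by
      unfold qq
      simp only [map_mul, map_sub, map_add, map_one, Polynomial.aeval_X, Polynomial.aeval_C,
        PowerSeries.algebraMap_apply, Algebra.algebraMap_self_apply]
      have h2 : PowerSeries.C (2 : ℂ) * PowerSeries.C (1 / 2) = 1 := by
        rw [← map_mul, ← map_one (PowerSeries.C (R := ℂ))]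
        norm_num
      generalize PowerSeries.C (S ((i : ℂ) ::ₘ Multiset.replicate k 2)) = c1
      generalize PowerSeries.C (S ((i' : ℂ) ::ₘ Multiset.replicate (k + m + 1) 2)) = c2
      linear_combination (-(c1 * c2 * (xh - 1) * (xh + 1) * Polynomial.aeval xh pB * Polynomial.aeval xh (Nn k m i i') *
        ti ^ (2 * m + 2) * sh * qi ^ (2 * k + 2))) * h2
    rw [e, PowerSeries.coeff_C_mul]
    ring
  rw [Finset.sum_congr rfl fun i _ => Finset.sum_congr rfl fun i' _ => e1 i i']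
  simp only [← Finset.mul_sum, ← map_sum]
  have e2 : ∑ i ∈ Finset.range (k / 2 + 1), ∑ i' ∈ Finset.range ((k + m + 1) / 2 + 1),
      (PowerSeries.C (S ((i : ℂ) ::ₘ Multiset.replicate k 2)) *
          PowerSeries.C (S ((i' : ℂ) ::ₘ Multiset.replicate (k + m + 1) 2)) * Polynomial.aeval xh (Nn k m i i')) =
      Polynomial.aeval (wz PX.om) pk *
        Polynomial.aeval (wz (PX.om ^ 2)) (pL * (Polynomial.C 2 - Polynomial.X) ^ (m + 1)) +
      Polynomial.aeval (wz (PX.om ^ 2)) pk *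
        Polynomial.aeval (wz PX.om) (pL * (Polynomial.C 2 - Polynomial.X) ^ (m + 1)) := by
    have e3 : ∀ w w' : PowerSeries ℂ, Polynomial.aeval w pk *
        Polynomial.aeval w' (pL * (Polynomial.C 2 - Polynomial.X) ^ (m + 1)) =
        ∑ i ∈ Finset.range (k / 2 + 1), ∑ i' ∈ Finset.range ((k + m + 1) / 2 + 1),
        (PowerSeries.C (S ((i : ℂ) ::ₘ Multiset.replicate k 2)) *
          PowerSeries.C (S ((i' : ℂ) ::ₘ Multiset.replicate (k + m + 1) 2)) * (Polynomial.aeval w (lb (k / 2) i) *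
      Polynomial.aeval w' (lb ((k + m + 1) / 2) i' * (Polynomial.C 2 - Polynomial.X) ^ (m + 1)))) := by
      intro w w'
      conv_lhs => rw [hk1, hL1]
      rw [map_sum, Finset.sum_mul]
      refine Finset.sum_congr rfl fun i _ => ?_
      rw [Finset.sum_mul, map_sum, Finset.mul_sum]
      refine Finset.sum_congr rfl fun i' _ => ?_
      simp only [map_mul, Polynomial.aeval_C, PowerSeries.algebraMap_apply, Algebra.algebraMap_self_apply]
      ring
    rw [e3, e3, ← Finset.sum_add_distrib]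
    refine Finset.sum_congr rfl fun i _ => ?_
    rw [← Finset.sum_add_distrib]
    refine Finset.sum_congr rfl fun i' _ => ?_
    rw [← Nn_spec k m i i' (PowerSeries ℂ) xh (wz PX.om) (wz (PX.om ^ 2)) w_sum w_pair]
    ring
  rw [e2, mul_add, map_add, half, to_rs hm]
  ring

/-- THEOREM: `V_B` at the homogeneous point as a residue -/
theorem VB_residue {S : Multiset ℂ → ℂ} (hS : SChar S) {k m : ℕ} (hk : Odd k) (hm : Odd m) {pk pB pL : Polynomial ℂ}
    (hpk : ∀ x, S (x ::ₘ Multiset.replicate k 2) = pk.eval x)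
    (hpB : ∀ x, S (x ::ₘ Multiset.replicate m 2) = pB.eval x)
    (hpL : ∀ x, S (x ::ₘ Multiset.replicate (k + m + 1) 2) = pL.eval x)
    {ι : Type} (l : Filter ι) (M : Multiset (ι → ℂ)) (hM : Multiset.card M = k)
    (hlim : ∀ f ∈ M, Filter.Tendsto f l (nhds 2)) (hG : ∀ᶠ e in l, Gen (M.map (fun f => f e))) :
    Filter.Tendsto (fun e => VB S (M.map (fun f => f e)) (Multiset.replicate m 2) 2 (-1)) l
      (nhds (1 / 2 * rs (2 * (k + m) + 1) (Ph PX.om k pk * Ph 1 m pB * Ph (PX.om ^ 2) (k + m + 1) pL))) := by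
  have hI : (X + PowerSeries.C (2 - (-1)) : PowerSeries ℂ) * (X + PowerSeries.C (2 - (-1)))⁻¹ = 1 := by
    apply PowerSeries.mul_inv_cancel
    rw [map_add, PowerSeries.constantCoeff_X, PowerSeries.constantCoeff_C]
    norm_num
  rw [← lim_rs hS hm hpk hpL hI]
  exact VB_lim hS hk hm l M hM hlim hG hpB hI

end CZ
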