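import Pool.Agent.Lib.MP_216314_pr.CZ.SC

/-!
# The leading coefficient of the characters
-/

set_option autoImplicit false

noncomputable section

namespace CZ

open Polynomial

theorem SD_hh (x : ℕ → ℂ) (i : ℕ) (k : ℕ) : ∃ p : ℂ[X], p.natDegree ≤ k - i ∧ (k < i → p = 0) ∧
    (i ≤ k → p.coeff (k - i) = 1) ∧ ∀ b : ℂ, Q4.hh (Function.update x i b) k i = p.eval b := by
  induction k with
  | zero =>
    by_cases h : i = 0
    · subst h
      refine ⟨1, by simp, by omega, fun _ => by simp, fun b => ?_⟩
      rw [Q4.HhA_zero_zero, eval_one]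
    · obtain ⟨i', rfl⟩ := Nat.exists_eq_succ_of_ne_zero h
      refine ⟨0, by simp, fun _ => rfl, by omega, fun b => ?_⟩
      rw [Nat.succ_eq_add_one, Q4.HhA_zero_succ, eval_zero]
  | succ k ih =>
    obtain ⟨p, h1, h2, h3, h4⟩ := ih
    rcases i with _ | i
    · refine ⟨X * p, ?_, by omega, fun _ => ?_, fun b => ?_⟩
      · refine natDegree_mul_le.trans ?_
        rw [natDegree_X]
        omega
      · rw [Nat.sub_zero, coeff_X_mul]
        exact h3 (Nat.zero_le _)
      · rw [Q4.HhA_succ_zero, Function.update_self, h4, eval_mul, eval_X]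
    · refine ⟨X * p + C (Q4.hh x k i), ?_, fun hk => ?_, fun hk => ?_, fun b => ?_⟩
      · by_cases hk : k < i + 1
        · rw [h2 hk, mul_zero, zero_add, natDegree_C]
          exact Nat.zero_le _
        · refine (natDegree_add_le _ _).trans ?_
          rw [natDegree_C]
          refine max_le (natDegree_mul_le.trans ?_) (Nat.zero_le _)
          rw [natDegree_X]
          omega
      · rw [h2 (by omega), mul_zero, zero_add, Q4.hh_zero x k i (by omega), C_0]
      · by_cases hk' : k < i + 1
        · have hki : k = i := by omega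
          rw [h2 hk', mul_zero, zero_add, hki, Q4.hh_self, Nat.sub_self, coeff_C_zero]
        · have e : k + 1 - (i + 1) = (k - (i + 1)) + 1 := by omega
          rw [e, coeff_add, coeff_X_mul, coeff_C_succ, add_zero]
          exact h3 (by omega)
      · rw [Q4.HhA_succ_succ, Function.update_self, h4, eval_add, eval_mul, eval_X, eval_C]
        congr 1
        refine Q4.hh_congr ?_ k
        intro l hl
        exact Function.update_of_ne (by omega) _ _

theorem SD_DD (x : ℕ → ℂ) (i : ℕ) (f : ℂ[X]) {D : ℕ} (hD : f.natDegree ≤ D) (hi : i ≤ D) :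
    ∃ p : ℂ[X], p.natDegree ≤ D - i ∧ p.coeff (D - i) = f.coeff D ∧
      ∀ b : ℂ, Q4.DD (Function.update x i b) i f = p.eval b := by
  choose p h1 h2 h3 h4 using SD_hh x i
  refine ⟨∑ k ∈ Finset.range (D + 1), C (f.coeff k) * p k, ?_, ?_, fun b => ?_⟩
  · refine natDegree_sum_le_of_forall_le _ _ fun k hk => ?_
    refine (natDegree_C_mul_le _ _).trans ((h1 k).trans ?_)
    have := Finset.mem_range.1 hk
    omega
  · rw [finsetSum_coeff, Finset.sum_eq_single D]
    · rw [coeff_C_mul, h3 D hi, mul_one]
    · intro k hk hkD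
      have hk' : k < D := by
        have := Finset.mem_range.1 hk
        omega
      rw [coeff_C_mul]
      by_cases hki : k < i
      · rw [h2 k hki, coeff_zero, mul_zero]
      · rw [coeff_eq_zero_of_natDegree_lt (lt_of_le_of_lt (h1 k) (by omega)), mul_zero]
    · intro h
      exact absurd (Finset.self_mem_range_succ D) h
  · rw [eval_finsetSum]
    have e : f = ∑ k ∈ Finset.range (D + 1), C (f.coeff k) * X ^ k :=
      as_sum_range_C_mul_X_pow' f (Nat.lt_succ_of_le hD)
    conv_lhs => rw [e]
    rw [Q4.DD_sum]
    refine Finset.sum_congr rfl fun k _ => ?_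
    rw [Q4.DD_C_mul, Q4.DD_X_pow, h4, eval_mul, eval_C]

theorem SD_PhF (N : ℕ) (x : ℕ → ℂ) :
    ∃ p : ℂ[X], p.natDegree ≤ N / 2 ∧ p.coeff (N / 2) = Q4.PhF N bb x ∧
      ∀ b : ℂ, Q4.PhF (N + 1) bb (Function.update x N b) = p.eval b := by
  have hdeg : ∀ j : Fin (N + 1), (bb j).natDegree ≤ N + N / 2 := by
    intro j
    rw [bb_natDegree]
    have h1 : (j : ℕ) / 2 ≤ N / 2 := Nat.div_le_div_right (by omega)
    omega
  have h1 := fun j : Fin (N + 1) => SD_DD x N (bb j) (hdeg j) (Nat.le_add_right N _)
  choose P hP1 hP2 hP3 using h1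
  refine ⟨∑ j : Fin (N + 1), C ((-1) ^ (N + (j : ℕ)) *
    Matrix.det ((Matrix.of fun i j : Fin (N + 1) => Q4.DD x i (bb j)).submatrix (Fin.last N).succAbove j.succAbove)) * P j,
    ?_, ?_, ?_⟩
  · refine Polynomial.natDegree_sum_le_of_forall_le _ _ ?_
    intro j _
    refine (Polynomial.natDegree_C_mul_le _ _).trans ((hP1 j).trans ?_)
    omega
  · rw [finsetSum_coeff, Finset.sum_eq_single (Fin.last N)]
    · have e : N / 2 = N + N / 2 - N := by omega
      rw [coeff_C_mul, e, hP2, Fin.val_last]
      have e1 : (bb N).coeff (N + N / 2) = 1 := by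
        have h := bb_monic N
        rw [Monic, leadingCoeff, bb_natDegree] at h
        exact h
      rw [e1, mul_one, ← two_mul, pow_mul, neg_one_sq, one_pow, one_mul]
      unfold Q4.PhF
      congr 1
      ext a c
      simp only [Matrix.submatrix_apply, Matrix.of_apply, Fin.succAbove_last, Fin.val_castSucc]
    · intro j _ hj
      have e : N / 2 = N + N / 2 - N := by omega
      have hj' : (j : ℕ) < N := by
        have h2 := j.2
        have h3 : (j : ℕ) ≠ N := fun h => hj (Fin.ext (by rw [h, Fin.val_last]))
        omega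
      have e2 : (bb j).coeff (N + N / 2) = 0 := by
        apply coeff_eq_zero_of_natDegree_lt
        rw [bb_natDegree]
        have h1 : (j : ℕ) / 2 ≤ N / 2 := Nat.div_le_div_right (by omega)
        omega
      rw [coeff_C_mul, e, hP2, e2, mul_zero]
    · intro h
      exact absurd (Finset.mem_univ _) h
  · intro b
    unfold Q4.PhF
    rw [Matrix.det_succ_row _ (Fin.last N), Polynomial.eval_finsetSum]
    refine Finset.sum_congr rfl ?_
    intro j _
    have hm : (Matrix.of fun i j : Fin (N + 1) => Q4.DD (Function.update x N b) i (bb j)).submatrix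
        (Fin.last N).succAbove j.succAbove =
        (Matrix.of fun i j : Fin (N + 1) => Q4.DD x i (bb j)).submatrix (Fin.last N).succAbove j.succAbove := by
      ext a c
      simp only [Matrix.submatrix_apply, Matrix.of_apply]
      refine Q4.DD_congr ?_ _
      intro l hl
      rw [Fin.succAbove_last] at hl
      have ha : ((Fin.castSucc a : Fin (N + 1)) : ℕ) < N := a.2
      refine Function.update_of_ne ?_ _ _
      omega
    rw [hm, Polynomial.eval_mul, Polynomial.eval_C]
    have hl : (Matrix.of fun i j : Fin (N + 1) => Q4.DD (Function.update x N b) i (bb j)) (Fin.last N) j =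
        (P j).eval b := by
      simp only [Matrix.of_apply, Fin.val_last]
      exact hP3 j b
    rw [hl, Fin.val_last]
    ring

/-- degree and leading coefficient -/
theorem SS_pol (R : Multiset ℂ) : ∃ p : ℂ[X], p.natDegree ≤ Multiset.card R / 2 ∧
    p.coeff (Multiset.card R / 2) = SS R ∧ ∀ x, SS (x ::ₘ R) = p.eval x := by
  induction R using Quotient.inductionOn with
  | h l =>
    obtain ⟨p, hp, hc, he⟩ := SD_PhF l.length (fun i => l.getD i 0)
    refine ⟨p, ?_, ?_, fun x => ?_⟩
    · show _ ≤ Multiset.card (l : Multiset ℂ) / 2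
      rw [Multiset.coe_card]
      exact hp
    · show p.coeff (Multiset.card (l : Multiset ℂ) / 2) = SL l
      rw [Multiset.coe_card]
      exact hc
    · rw [← he x]
      show SL (x :: l) = _
      rw [SL_perm (List.perm_append_singleton x l).symm]
      unfold SL
      rw [List.length_append, List.length_singleton]
      refine Q4.PhF_congr (fun j _ => rfl) fun j hj => ?_
      by_cases h : j = l.length
      · rw [h, Function.update_self]
        simp
      · rw [Function.update_of_ne h]
        have h1 : j < l.length := by omega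
        exact List.getD_append l [x] 0 j h1

end CZ
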