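import Pool.Agent.Lib.MP_216314_pr.CZ.Vd

/-!
# Strip = strip + cylinder: the right hand side of the exact formula as a divided difference
-/

set_option autoImplicit false

noncomputable section

namespace CZ

open Multiset Filter Topology

/-- the sum over the left group -/
def WB (S : Multiset ℂ → ℂ) (f : ℂ → ℂ) (A B : Multiset ℂ) : ℂ :=
  (A.map (fun j => ((A.erase j).map (fun i => TT j i / (j - i))).prod * S (A.erase j) * S (A.erase j + B) * f j)).sum

/-- the bracket -/
def bs (S : Multiset ℂ → ℂ) (A : Multiset ℂ) (b : ℕ) (w w' : ℂ) : ℂ :=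
  S (w ::ₘ A) * (S (w' ::ₘ (A + Multiset.replicate b 2)) * (2 - w') ^ b)

theorem bs_mem {S : Multiset ℂ → ℂ} (hS : SChar S) {A : Multiset ℂ} {b : ℕ} {j w w' : ℂ} (hj : j ∈ A) (h : Tri j w w') :
    bs S A b w w' = ((A.erase j).map (fun r => TT j r)).prod * S (A.erase j) *
      S (A.erase j + Multiset.replicate b 2) * (j + 1) ^ (2 * b) := by
  have e0 : w ::ₘ A = w ::ₘ j ::ₘ A.erase j := by rw [Multiset.cons_erase hj]
  have e1 : w' ::ₘ (A + Multiset.replicate b 2) =
      w' ::ₘ j ::ₘ (A.erase j + Multiset.replicate b 2) := by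
    rw [← Multiset.cons_add j, Multiset.cons_erase hj]
  have hw : Tri w j w' := h.sw
  have hw' : Tri w' j w := h.rot.rot
  have e2 : ((A.erase j).map (fun r => TT j r)).prod =
      ((A.erase j).map (fun r => r - w)).prod * ((A.erase j).map (fun r => r - w')).prod := by
    rw [← Multiset.prod_map_mul]
    exact congrArg Multiset.prod (Multiset.map_congr rfl (fun r _ => h.TT_eq r))
  have e3 : (2 - w) * (2 - w') = (j + 1) ^ 2 := by
    rw [← h.TT_eq 2]
    unfold TT
    ring
  have e4 : (j + 1) ^ (2 * b) = (2 - w) ^ b * (2 - w') ^ b := by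
    rw [← mul_pow, e3, ← pow_mul]
  unfold bs
  rw [e0, e1, hS.fus w j w' _ hw, hS.fus w' j w _ hw', Multiset.map_add,
    Multiset.prod_add, rep_prod, e2, e4]
  ring

/-- the polynomials of the expansion -/
def Ns (c b i i' : ℕ) : Polynomial ℂ :=
  Classical.choose (symR (lb (c / 2) i) (lb ((c + b) / 2) i' * (Polynomial.C 2 - Polynomial.X) ^ b))

theorem Ns_spec (c b i i' : ℕ) (R : Type) [CommRing R] [Algebra ℂ R] (x w w' : R)
    (h1 : x + w + w' = 0) (h2 : x * w + x * w' + w * w' = -3) :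
    Polynomial.aeval w (lb (c / 2) i) *
      Polynomial.aeval w' (lb ((c + b) / 2) i' * (Polynomial.C 2 - Polynomial.X) ^ b) +
    Polynomial.aeval w' (lb (c / 2) i) *
      Polynomial.aeval w (lb ((c + b) / 2) i' * (Polynomial.C 2 - Polynomial.X) ^ b) =
    Polynomial.aeval x (Ns c b i i') :=
  Classical.choose_spec (symR (lb (c / 2) i) (lb ((c + b) / 2) i' * (Polynomial.C 2 - Polynomial.X) ^ b))
    R x w w' h1 h2

theorem bs_sum {S : Multiset ℂ → ℂ} (hS : SChar S) {A : Multiset ℂ} {c b : ℕ} (hA : card A = c) (w w' : ℂ) :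
    bs S A b w w' = ∑ i ∈ Finset.range (c / 2 + 1), ∑ i' ∈ Finset.range ((c + b) / 2 + 1),
      S ((i : ℂ) ::ₘ A) * S ((i' : ℂ) ::ₘ (A + Multiset.replicate b 2)) *
        ((lb (c / 2) i).eval w * ((lb ((c + b) / 2) i').eval w' * (2 - w') ^ b)) := by
  unfold bs
  rw [hS.interp A w, hS.interp (A + Multiset.replicate b 2) w', Multiset.card_add,
    Multiset.card_replicate, hA, Finset.sum_mul, Finset.sum_mul]
  simp only [Finset.mul_sum]
  refine Finset.sum_congr rfl fun i _ => Finset.sum_congr rfl fun i' _ => ?_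
  ring

theorem bs_symm {S : Multiset ℂ → ℂ} (hS : SChar S) {A : Multiset ℂ} {c b : ℕ} (hA : card A = c) {x w w' : ℂ}
    (h : Tri x w w') :
    bs S A b w w' + bs S A b w' w = ∑ i ∈ Finset.range (c / 2 + 1), ∑ i' ∈ Finset.range ((c + b) / 2 + 1),
      S ((i : ℂ) ::ₘ A) * S ((i' : ℂ) ::ₘ (A + Multiset.replicate b 2)) * (Ns c b i i').eval x := by
  rw [bs_sum hS hA, bs_sum hS hA, ← Finset.sum_add_distrib]
  refine Finset.sum_congr rfl fun i _ => ?_
  rw [← Finset.sum_add_distrib]
  refine Finset.sum_congr rfl fun i' _ => ?_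
  have h1 := Ns_spec c b i i' ℂ x w w' h.1 h.2
  simp only [Polynomial.coe_aeval_eq_eval, Polynomial.eval_mul, Polynomial.eval_pow, Polynomial.eval_sub,
    Polynomial.eval_C, Polynomial.eval_X] at h1
  rw [← h1]
  ring

/-- the numerators -/
def qs (pf : Polynomial ℂ) (c b i i' : ℕ) : Polynomial ℂ :=
  Polynomial.C (1 / 2) * pf * Ns c b i i'

/-- the sum as a divided difference -/
theorem WB_DD {S : Multiset ℂ → ℂ} (hS : SChar S) {A : Multiset ℂ} {c b : ℕ}
    (hA : card A = c) (hG : Gen A) (pf : Polynomial ℂ) :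
    WB S (fun x => pf.eval x) A (Multiset.replicate b 2) =
      ∑ i ∈ Finset.range (c / 2 + 1), ∑ i' ∈ Finset.range ((c + b) / 2 + 1),
        S ((i : ℂ) ::ₘ A) * S ((i' : ℂ) ::ₘ (A + Multiset.replicate b 2)) *
          DDm A (fun x => (qs pf c b i i').eval x / (x - (-1)) ^ (2 * b)) := by
  have key : ∀ x : ℂ, ∀ w w' : ℂ, Tri x w w' →
      pf.eval x / (2 * (x - (-1)) ^ (2 * b)) *
        (bs S A b w w' + bs S A b w' w) =
      ∑ i ∈ Finset.range (c / 2 + 1), ∑ i' ∈ Finset.range ((c + b) / 2 + 1),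
        S ((i : ℂ) ::ₘ A) * S ((i' : ℂ) ::ₘ (A + Multiset.replicate b 2)) *
          ((qs pf c b i i').eval x / (x - (-1)) ^ (2 * b)) := by
    intro x w w' h
    rw [bs_symm hS hA h, Finset.mul_sum]
    refine Finset.sum_congr rfl fun i _ => ?_
    rw [Finset.mul_sum]
    refine Finset.sum_congr rfl fun i' _ => ?_
    unfold qs
    simp only [Polynomial.eval_mul, Polynomial.eval_C]
    generalize (x - (-1)) ^ (2 * b) = P
    rw [mul_comm 2 P, ← div_div]
    ring
  have hswap : ∑ i ∈ Finset.range (c / 2 + 1), ∑ i' ∈ Finset.range ((c + b) / 2 + 1),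
        S ((i : ℂ) ::ₘ A) * S ((i' : ℂ) ::ₘ (A + Multiset.replicate b 2)) *
          DDm A (fun x => (qs pf c b i i').eval x / (x - (-1)) ^ (2 * b)) =
      DDm A (fun x => ∑ i ∈ Finset.range (c / 2 + 1), ∑ i' ∈ Finset.range ((c + b) / 2 + 1),
        S ((i : ℂ) ::ₘ A) * S ((i' : ℂ) ::ₘ (A + Multiset.replicate b 2)) *
          ((qs pf c b i i').eval x / (x - (-1)) ^ (2 * b))) := by
    rw [DDm_sum]
    refine Finset.sum_congr rfl fun i _ => ?_
    rw [DDm_sum]
    refine Finset.sum_congr rfl fun i' _ => ?_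
    rw [DDm_smul]
  rw [hswap]
  unfold DDm WB
  refine congrArg Multiset.sum (Multiset.map_congr rfl (fun j hj => ?_))
  obtain ⟨w, w', hw⟩ := exists_Tri j
  have hw' : Tri j w' w := ⟨by linear_combination hw.1, by linear_combination hw.2⟩
  beta_reduce
  rw [← key j w w' hw, bs_mem hS hj hw, bs_mem hS hj hw']
  have h1 : j + 1 ≠ 0 := by
    intro h
    exact hG.ne_negone hj (by linear_combination h)
  have hD : ((A.erase j).map (fun i => j - i)).prod ≠ 0 := by
    apply Multiset.prod_ne_zero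
    intro h0
    rw [Multiset.mem_map] at h0
    obtain ⟨i, hi, h3⟩ := h0
    have h4 : i = j := by linear_combination -h3
    rw [h4] at hi
    exact (Multiset.Nodup.notMem_erase hG.nodup) hi
  rw [Multiset.prod_map_div]
  generalize ((A.erase j).map (fun i => j - i)).prod = P1 at hD ⊢
  generalize ((A.erase j).map (fun r => TT j r)).prod = P2
  generalize S (A.erase j) = P3
  generalize S (A.erase j + Multiset.replicate b 2) = P4
  generalize pf.eval j = P5
  have e : j - (-1) = j + 1 := by ring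
  rw [e]
  have h6 : (j + 1) ^ (2 * b) ≠ 0 := pow_ne_zero _ h1
  generalize (j + 1) ^ (2 * b) = P6 at h6 ⊢
  field_simp
  ring

theorem rep_add' (k b : ℕ) : (Multiset.replicate b (2 : ℂ) + Multiset.replicate (k + 1) 2) =
    Multiset.replicate (k + 1 + b) 2 := by
  rw [← Multiset.replicate_add, add_comm]

theorem WB_lim {S : Multiset ℂ → ℂ} (hS : SChar S) {k b : ℕ} {ι : Type} (l : Filter ι)
    (M : Multiset (ι → ℂ)) (hM : card M = k + 1) (hlim : ∀ f ∈ M, Tendsto f l (𝓝 2))
    (hG : ∀ᶠ e in l, Gen (M.map (fun f => f e))) (pf : Polynomial ℂ) {I : PowerSeries ℂ}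
    (hI : (PowerSeries.X + PowerSeries.C (2 - (-1))) * I = 1) :
    Tendsto (fun e => WB S (fun x => pf.eval x) (M.map (fun f => f e)) (Multiset.replicate b 2)) l
      (𝓝 (∑ i ∈ Finset.range ((k + 1) / 2 + 1), ∑ i' ∈ Finset.range ((k + 1 + b) / 2 + 1),
        S ((i : ℂ) ::ₘ Multiset.replicate (k + 1) 2) * S ((i' : ℂ) ::ₘ Multiset.replicate (k + 1 + b) 2) *
          PowerSeries.coeff k (Polynomial.aeval (PowerSeries.X + PowerSeries.C 2 : PowerSeries ℂ) (qs pf (k + 1) b i i') *
            I ^ (2 * b)))) := by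
  have e1 : ∀ᶠ e in l, ∑ i ∈ Finset.range ((k + 1) / 2 + 1), ∑ i' ∈ Finset.range ((k + 1 + b) / 2 + 1),
        S ((i : ℂ) ::ₘ M.map (fun f => f e)) *
          S ((i' : ℂ) ::ₘ (M.map (fun f => f e) + Multiset.replicate b 2)) *
          DDm (M.map (fun f => f e)) (fun x => (qs pf (k + 1) b i i').eval x / (x - (-1)) ^ (2 * b)) =
      WB S (fun x => pf.eval x) (M.map (fun f => f e)) (Multiset.replicate b 2) := by
    filter_upwards [hG] with e he
    exact (WB_DD hS (by rw [Multiset.card_map, hM]) he pf).symm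
  refine Tendsto.congr' e1 ?_
  refine tendsto_finsetSum _ fun i _ => tendsto_finsetSum _ fun i' _ => ?_
  refine Tendsto.mul (Tendsto.mul ?_ ?_) ?_
  · have h := hS.tendsto' l M 2 hlim ((i : ℂ) ::ₘ 0)
    simp only [Multiset.cons_add, Multiset.zero_add, hM] at h
    exact h
  · have h := hS.tendsto' l M 2 hlim ((i' : ℂ) ::ₘ Multiset.replicate b 2)
    simp only [Multiset.cons_add, hM, rep_add'] at h
    refine Tendsto.congr (fun e => ?_) h
    rw [add_comm (Multiset.replicate b 2)]
  · have h0 : HasDD (fun x => (qs pf (k + 1) b i i').eval x * 1)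
        (Polynomial.aeval (PowerSeries.X + PowerSeries.C 2 : PowerSeries ℂ) (qs pf (k + 1) b i i') * 1) :=
      HasDD.one.poly _
    have h1 := (h0.congr (ψ' := fun x => (qs pf (k + 1) b i i').eval x) (fun x => (mul_one _).symm)
      (F' := Polynomial.aeval (PowerSeries.X + PowerSeries.C 2 : PowerSeries ℂ) (qs pf (k + 1) b i i'))
      (mul_one _).symm).divpow (c := -1) (by norm_num) I hI (2 * b)
    obtain ⟨g, hg⟩ := Multiset.card_pos_iff_exists_mem.mp (show 0 < card M by omega)
    obtain ⟨M', rfl⟩ := Multiset.exists_cons_of_mem hg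
    rw [Multiset.card_cons] at hM
    have hM' : card M' = k := by omega
    have h2 := h1 ι l M' g (hlim g hg) (fun f hf => hlim f (Multiset.mem_cons_of_mem hf)) (by
      filter_upwards [hG] with e he
      have h3 := he.nodup
      rw [Multiset.map_cons] at h3
      exact h3)
    rw [hM'] at h2
    simp only [Multiset.map_cons]
    exact h2

end CZ
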