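import Pool.Agent.Lib.MP_216314_pr.CZ.Sa
import Pool.Agent.Lib.MP_216314_pr.CZ.Rw

/-!
# Strip = strip + cylinder: the limit as a residue
-/

set_option autoImplicit false

noncomputable section

namespace CZ

open PowerSeries CDH

/-- `1 / (x - 1)` -/
def xi : PowerSeries ℂ := (xh - 1)⁻¹

theorem t_mul_xi : (xh - 1) * xi = 1 := by
  unfold xi
  apply PowerSeries.mul_inv_cancel
  have h := const_xh
  rw [map_add, map_one] at h
  rw [map_sub, map_one]
  have h2 : constantCoeff xh = 2 := by linear_combination h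
  rw [h2]
  norm_num

/-- `f(x) (x - 2)^b (z - 1/z) / (x^2 - 1)` -/
def Gs (b : ℕ) (pf : Polynomial ℂ) : PowerSeries ℂ := Polynomial.aeval xh pf * (xh - 2) ^ b * sh * xi * ti

/-- the two halves are equal -/
theorem halfS (k b : ℕ) (pk pf pL : Polynomial ℂ) :
    coeff (2 * k + 1) (sh * ti ^ (2 * b) * qi ^ (2 * k + 2) * Polynomial.aeval xh pf *
      (Polynomial.aeval (wz (PX.om ^ 2)) pk * Polynomial.aeval (wz PX.om) pL)) =
    coeff (2 * k + 1) (sh * ti ^ (2 * b) * qi ^ (2 * k + 2) * Polynomial.aeval xh pf *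
      (Polynomial.aeval (wz PX.om) pk * Polynomial.aeval (wz (PX.om ^ 2)) pL)) := by
  have h := coeff_sg k (sh * ti ^ (2 * b) * qi ^ (2 * k + 2) * Polynomial.aeval xh pf *
      (Polynomial.aeval (wz PX.om) pk * Polynomial.aeval (wz (PX.om ^ 2)) pL))
  simp only [map_mul, map_pow, sg_xh, sg_sh, sg_ti, sg_qi, sg_aeval, sg_w, sg_w2] at h
  have e : -sh * ti ^ (2 * b) * qi ^ (2 * k + 2) * Polynomial.aeval xh pf *
      (Polynomial.aeval (wz (PX.om ^ 2)) pk * Polynomial.aeval (wz PX.om) pL) =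
      -(sh * ti ^ (2 * b) * qi ^ (2 * k + 2) * Polynomial.aeval xh pf *
      (Polynomial.aeval (wz (PX.om ^ 2)) pk * Polynomial.aeval (wz PX.om) pL)) := by ring
  rw [e, map_neg, neg_inj] at h
  exact h

/-- the residue in the form of helper54 -/
theorem to_rsS {k b : ℕ} (hb : Even b) (pk pf pL : Polynomial ℂ) :
    rs (2 * (k + b) + 1) (Ph PX.om (k + 1) pk * Ph (PX.om ^ 2) (k + 1 + b) pL * Gs b pf) =
    coeff (2 * k + 1) (sh * ti ^ (2 * b) * qi ^ (2 * k + 2) * Polynomial.aeval xh pf *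
      (Polynomial.aeval (wz PX.om) pk *
        Polynomial.aeval (wz (PX.om ^ 2)) (pL * (Polynomial.C 2 - Polynomial.X) ^ b))) := by
  have hev : (2 - wz (PX.om ^ 2)) ^ b = (wz (PX.om ^ 2) - 2) ^ b := by
    rw [← neg_sub (wz (PX.om ^ 2)) 2, hb.neg_pow]
  have hL : Polynomial.aeval (wz (PX.om ^ 2)) (pL * (Polynomial.C 2 - Polynomial.X) ^ b) =
      Polynomial.aeval (wz (PX.om ^ 2)) pL * (wz (PX.om ^ 2) - 2) ^ b := by
    rw [map_mul, map_pow, map_sub, Polynomial.aeval_C, Polynomial.aeval_X, PowerSeries.algebraMap_apply,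
      Algebra.algebraMap_self_apply, C2, hev]
  rw [hL]
  unfold rs Ph Gs
  rw [xh_sub, di_eq, ← X_mul_q1]
  have h1 : (q1 * qi) ^ (2 * b) = 1 := by rw [q1_mul_qi, one_pow]
  have h2 : ((xh + 1) * ti) ^ (2 * (k + 1)) = 1 := by rw [t_mul_ti, one_pow]
  have h3 : ((wz PX.om - 2) * (wz (PX.om ^ 2) - 2)) ^ (k + 1) = (xh + 1) ^ (2 * (k + 1)) := by
    rw [w_two, ← pow_mul]
  have h4 := s_prod
  have h5 := t_mul_ti
  have h6 := t_mul_xi
  have e : sz PX.om * (wz PX.om - 2) ^ (k + 1) * Polynomial.aeval (wz PX.om) pk *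
        (sz (PX.om ^ 2) * (wz (PX.om ^ 2) - 2) ^ (k + 1 + b) * Polynomial.aeval (wz (PX.om ^ 2)) pL) *
        (Polynomial.aeval xh pf * ((X * q1) ^ 2) ^ b * sh * xi * ti) *
        (qi * ti) ^ (2 * (k + b) + 1 + 1) =
      X ^ (2 * b) * (sh * ti ^ (2 * b) * qi ^ (2 * k + 2) * Polynomial.aeval xh pf *
      (Polynomial.aeval (wz PX.om) pk * (Polynomial.aeval (wz (PX.om ^ 2)) pL * (wz (PX.om ^ 2) - 2) ^ b))) := by
    generalize Polynomial.aeval (wz PX.om) pk = P1
    generalize Polynomial.aeval xh pf = P2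
    generalize Polynomial.aeval (wz (PX.om ^ 2)) pL = P3
    have e1 : ((X * q1 : PowerSeries ℂ) ^ 2) ^ b = X ^ (2 * b) * q1 ^ (2 * b) := by
      rw [← pow_mul, mul_pow]
    have e2 : (qi * ti) ^ (2 * (k + b) + 1 + 1) =
        qi ^ (2 * b) * qi ^ (2 * k + 2) * (ti ^ (2 * (k + 1)) * ti ^ (2 * b)) := by
      rw [mul_pow, ← pow_add, ← pow_add]
      have e21 : 2 * (k + b) + 1 + 1 = 2 * b + (2 * k + 2) := by ring
      have e22 : 2 * (k + b) + 1 + 1 = 2 * (k + 1) + 2 * b := by ring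
      rw [← e21, ← e22]
    have e3 : (wz (PX.om ^ 2) - 2) ^ (k + 1 + b) = (wz (PX.om ^ 2) - 2) ^ (k + 1) * (wz (PX.om ^ 2) - 2) ^ b :=
      pow_add _ _ _
    have e4 : (wz PX.om - 2) ^ (k + 1) * (wz (PX.om ^ 2) - 2) ^ (k + 1) = (xh + 1) ^ (2 * (k + 1)) := by
      rw [← mul_pow, h3]
    rw [e1, e2, e3]
    rw [mul_pow] at h1 h2
    generalize (wz PX.om - 2) ^ (k + 1) = W1 at e4 ⊢
    generalize (wz (PX.om ^ 2) - 2) ^ (k + 1) = W2 at e4 ⊢
    generalize (wz (PX.om ^ 2) - 2) ^ b = W3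
    generalize sz PX.om = s1 at h4 ⊢
    generalize sz (PX.om ^ 2) = s2 at h4 ⊢
    generalize (xh + 1) ^ (2 * (k + 1)) = T1 at h2 e4 ⊢
    generalize ti ^ (2 * (k + 1)) = T2 at h2 ⊢
    generalize q1 ^ (2 * b) = Q1 at h1 ⊢
    generalize qi ^ (2 * b) = Q2 at h1 ⊢
    generalize ti ^ (2 * b) = T3
    generalize qi ^ (2 * k + 2) = Q3
    generalize (X : PowerSeries ℂ) ^ (2 * b) = Y
    calc s1 * W1 * P1 * (s2 * (W2 * W3) * P3) * (P2 * (Y * Q1) * sh * xi * ti) * (Q2 * Q3 * (T2 * T3))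
        = (s1 * sh * s2) * (W1 * W2) * T2 * (Q1 * Q2) * (Y * T3 * Q3 * P2 * P1 * P3 * W3) * (xi * ti) := by ring
      _ = sh * ((xh - 1) * xi) * ((xh + 1) * ti) * (T1 * T2) * (Q1 * Q2) * (Y * T3 * Q3 * P2 * P1 * P3 * W3) := by
          rw [h4, e4]
          ring
      _ = _ := by
          rw [h1, h2, h5, h6]
          ring
  rw [e, show 2 * (k + b) + 1 = (2 * k + 1) + 2 * b by ring, PowerSeries.coeff_X_pow_mul]

/-- THEOREM: the limit of the sum -/
theorem lim_rsS {S : Multiset ℂ → ℂ} (hS : SChar S) {k b : ℕ} (hb : Even b) {pk pL : Polynomial ℂ}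
    (pf : Polynomial ℂ)
    (hpk : ∀ x, S (x ::ₘ Multiset.replicate (k + 1) 2) = pk.eval x)
    (hpL : ∀ x, S (x ::ₘ Multiset.replicate (k + 1 + b) 2) = pL.eval x)
    {I : PowerSeries ℂ} (hI : (X + PowerSeries.C (2 - (-1))) * I = 1) :
    ∑ i ∈ Finset.range ((k + 1) / 2 + 1), ∑ i' ∈ Finset.range ((k + 1 + b) / 2 + 1),
        S ((i : ℂ) ::ₘ Multiset.replicate (k + 1) 2) * S ((i' : ℂ) ::ₘ Multiset.replicate (k + 1 + b) 2) *
          PowerSeries.coeff k (Polynomial.aeval (PowerSeries.X + PowerSeries.C 2 : PowerSeries ℂ) (qs pf (k + 1) b i i') *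
            I ^ (2 * b)) =
    1 / 2 * rs (2 * (k + b) + 1) (Ph PX.om (k + 1) pk * Ph (PX.om ^ 2) (k + 1 + b) pL * Gs b pf) := by
  have hk1 := interp_poly hS _ hpk
  have hL1 := interp_poly hS _ hpL
  rw [Multiset.card_replicate] at hk1 hL1
  have e1 : ∀ i i' : ℕ, S ((i : ℂ) ::ₘ Multiset.replicate (k + 1) 2) *
        S ((i' : ℂ) ::ₘ Multiset.replicate (k + 1 + b) 2) *
          PowerSeries.coeff k (Polynomial.aeval (PowerSeries.X + PowerSeries.C 2 : PowerSeries ℂ) (qs pf (k + 1) b i i') *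
            I ^ (2 * b)) =
      1 / 4 * coeff (2 * k + 1) (sh * ti ^ (2 * b) * qi ^ (2 * k + 2) * Polynomial.aeval xh pf *
        (PowerSeries.C (S ((i : ℂ) ::ₘ Multiset.replicate (k + 1) 2)) *
          PowerSeries.C (S ((i' : ℂ) ::ₘ Multiset.replicate (k + 1 + b) 2)) *
            Polynomial.aeval xh (Ns (k + 1) b i i'))) := by
    intro i i'
    rw [comp_coeff _ _ _ hI]
    have e : sh * ti ^ (2 * b) * qi ^ (2 * k + 2) * Polynomial.aeval xh pf *
        (PowerSeries.C (S ((i : ℂ) ::ₘ Multiset.replicate (k + 1) 2)) *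
          PowerSeries.C (S ((i' : ℂ) ::ₘ Multiset.replicate (k + 1 + b) 2)) *
            Polynomial.aeval xh (Ns (k + 1) b i i')) =
        PowerSeries.C (2 * (S ((i : ℂ) ::ₘ Multiset.replicate (k + 1) 2) *
          S ((i' : ℂ) ::ₘ Multiset.replicate (k + 1 + b) 2))) *
          (Polynomial.aeval xh (qs pf (k + 1) b i i') * ti ^ (2 * b) * sh * qi ^ (2 * k + 2)) := by
      unfold qs
      simp only [map_mul, Polynomial.aeval_C,
        PowerSeries.algebraMap_apply, Algebra.algebraMap_self_apply]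
      have h2 : PowerSeries.C (2 : ℂ) * PowerSeries.C (1 / 2) = 1 := by
        rw [← map_mul, ← map_one (PowerSeries.C (R := ℂ))]
        norm_num
      generalize PowerSeries.C (S ((i : ℂ) ::ₘ Multiset.replicate (k + 1) 2)) = c1
      generalize PowerSeries.C (S ((i' : ℂ) ::ₘ Multiset.replicate (k + 1 + b) 2)) = c2
      linear_combination (-(c1 * c2 * Polynomial.aeval xh pf * Polynomial.aeval xh (Ns (k + 1) b i i') *
        ti ^ (2 * b) * sh * qi ^ (2 * k + 2))) * h2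
    rw [e, PowerSeries.coeff_C_mul]
    ring
  rw [Finset.sum_congr rfl fun i _ => Finset.sum_congr rfl fun i' _ => e1 i i']
  simp only [← Finset.mul_sum, ← map_sum]
  have e2 : ∑ i ∈ Finset.range ((k + 1) / 2 + 1), ∑ i' ∈ Finset.range ((k + 1 + b) / 2 + 1),
      (PowerSeries.C (S ((i : ℂ) ::ₘ Multiset.replicate (k + 1) 2)) *
          PowerSeries.C (S ((i' : ℂ) ::ₘ Multiset.replicate (k + 1 + b) 2)) *
            Polynomial.aeval xh (Ns (k + 1) b i i')) =
      Polynomial.aeval (wz PX.om) pk *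
        Polynomial.aeval (wz (PX.om ^ 2)) (pL * (Polynomial.C 2 - Polynomial.X) ^ b) +
      Polynomial.aeval (wz (PX.om ^ 2)) pk *
        Polynomial.aeval (wz PX.om) (pL * (Polynomial.C 2 - Polynomial.X) ^ b) := by
    have e3 : ∀ w w' : PowerSeries ℂ, Polynomial.aeval w pk *
        Polynomial.aeval w' (pL * (Polynomial.C 2 - Polynomial.X) ^ b) =
        ∑ i ∈ Finset.range ((k + 1) / 2 + 1), ∑ i' ∈ Finset.range ((k + 1 + b) / 2 + 1),
        (PowerSeries.C (S ((i : ℂ) ::ₘ Multiset.replicate (k + 1) 2)) *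
          PowerSeries.C (S ((i' : ℂ) ::ₘ Multiset.replicate (k + 1 + b) 2)) *
            (Polynomial.aeval w (lb ((k + 1) / 2) i) *
      Polynomial.aeval w' (lb ((k + 1 + b) / 2) i' * (Polynomial.C 2 - Polynomial.X) ^ b))) := by
      intro w w'
      conv_lhs => rw [hk1, hL1]
      rw [map_sum, Finset.sum_mul]
      refine Finset.sum_congr rfl fun i _ => ?_
      rw [Finset.sum_mul, map_sum, Finset.mul_sum]
      refine Finset.sum_congr rfl fun i' _ => ?_
      simp only [map_mul, Polynomial.aeval_C, PowerSeries.algebraMap_apply, Algebra.algebraMap_self_apply]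
      ring
    rw [e3, e3, ← Finset.sum_add_distrib]
    refine Finset.sum_congr rfl fun i _ => ?_
    rw [← Finset.sum_add_distrib]
    refine Finset.sum_congr rfl fun i' _ => ?_
    rw [← Ns_spec (k + 1) b i i' (PowerSeries ℂ) xh (wz PX.om) (wz (PX.om ^ 2)) w_sum w_pair]
    ring
  rw [e2, mul_add, map_add, halfS, to_rsS hb]
  ring

/-- THEOREM: the sum at the homogeneous point as a residue -/
theorem WB_residue {S : Multiset ℂ → ℂ} (hS : SChar S) {k b : ℕ} (hb : Even b) {pk pL : Polynomial ℂ}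
    (pf : Polynomial ℂ)
    (hpk : ∀ x, S (x ::ₘ Multiset.replicate (k + 1) 2) = pk.eval x)
    (hpL : ∀ x, S (x ::ₘ Multiset.replicate (k + 1 + b) 2) = pL.eval x)
    {ι : Type} (l : Filter ι) (M : Multiset (ι → ℂ)) (hM : Multiset.card M = k + 1)
    (hlim : ∀ f ∈ M, Filter.Tendsto f l (nhds 2)) (hG : ∀ᶠ e in l, Gen (M.map (fun f => f e))) :
    Filter.Tendsto (fun e => WB S (fun x => pf.eval x) (M.map (fun f => f e)) (Multiset.replicate b 2)) l
      (nhds (1 / 2 * rs (2 * (k + b) + 1) (Ph PX.om (k + 1) pk * Ph (PX.om ^ 2) (k + 1 + b) pL * Gs b pf))) := by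
  have hI : (X + PowerSeries.C (2 - (-1)) : PowerSeries ℂ) * (X + PowerSeries.C (2 - (-1)))⁻¹ = 1 := by
    apply PowerSeries.mul_inv_cancel
    rw [map_add, PowerSeries.constantCoeff_X, PowerSeries.constantCoeff_C]
    norm_num
  rw [← lim_rsS hS hb pf hpk hpL hI]
  exact WB_lim hS l M hM hlim hG pf hI

/-- with (L4) -/
theorem WB_residue_W {S : Multiset ℂ → ℂ} (hS : SChar S) (h4 : L4S S) {k b : ℕ} (hk : Even k) (hb : Even b)
    (pf : Polynomial ℂ) {ι : Type} (l : Filter ι) (M : Multiset (ι → ℂ)) (hM : Multiset.card M = k + 1)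
    (hlim : ∀ f ∈ M, Filter.Tendsto f l (nhds 2)) (hG : ∀ᶠ e in l, Gen (M.map (fun f => f e))) :
    Filter.Tendsto (fun e => WB S (fun x => pf.eval x) (M.map (fun f => f e)) (Multiset.replicate b 2)) l
      (nhds (-1 / 2 * (S (Multiset.replicate (k + 1) 2) / be (k + 1) * (S (Multiset.replicate (k + 1 + b) 2) /
        be (k + 1 + b))) * rs (2 * (k + b) + 1) (Aw (k + 1) * Cw (k + 1 + b) * Gs b pf))) := by
  obtain ⟨pk, _, hpk⟩ := hS.poly (Multiset.replicate (k + 1) 2)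
  obtain ⟨pL, _, hpL⟩ := hS.poly (Multiset.replicate (k + 1 + b) 2)
  have h := WB_residue hS hb pf hpk hpL l M hM hlim hG
  have e1 : Ph PX.om (k + 1) pk = -(PowerSeries.C (S (Multiset.replicate (k + 1) 2) / be (k + 1)) * Aw (k + 1)) := by
    have h := h4 (k + 1) hk.add_one pk hpk PX.om PX.om_cube
    unfold Ph sz wz
    rw [h]
    have h1 : W (PX.om ^ 2) PX.om (k + 1) = -Aw (k + 1) := by
      unfold Aw
      rw [th_inv_om, th_om, W_neg, neg_neg]
    rw [h1]
    ring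
  have e3 : Ph (PX.om ^ 2) (k + 1 + b) pL =
      PowerSeries.C (S (Multiset.replicate (k + 1 + b) 2) / be (k + 1 + b)) * Cw (k + 1 + b) := by
    have h := h4 (k + 1 + b) (hk.add_one.add_even hb) pL hpL (PX.om ^ 2)
      (by linear_combination (PX.om ^ 3 + 1) * PX.om_cube)
    unfold Ph sz wz
    rw [h]
    unfold Cw
    rw [th_sq_inv_om, th_sq_om, Ru_om4]
  have e4 : Ph PX.om (k + 1) pk * Ph (PX.om ^ 2) (k + 1 + b) pL * Gs b pf =
      PowerSeries.C (-(S (Multiset.replicate (k + 1) 2) / be (k + 1) *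
        (S (Multiset.replicate (k + 1 + b) 2) / be (k + 1 + b)))) * (Aw (k + 1) * Cw (k + 1 + b) * Gs b pf) := by
    rw [e1, e3, map_neg, map_mul]
    ring
  rw [e4, rs_C] at h
  have e5 : -1 / 2 * (S (Multiset.replicate (k + 1) 2) / be (k + 1) * (S (Multiset.replicate (k + 1 + b) 2) /
        be (k + 1 + b))) * rs (2 * (k + b) + 1) (Aw (k + 1) * Cw (k + 1 + b) * Gs b pf) =
      1 / 2 * (-(S (Multiset.replicate (k + 1) 2) / be (k + 1) *
        (S (Multiset.replicate (k + 1 + b) 2) / be (k + 1 + b))) *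
        rs (2 * (k + b) + 1) (Aw (k + 1) * Cw (k + 1 + b) * Gs b pf)) := by ring
  rw [e5]
  exact h

end CZ
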