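import Pool.Agent.Lib.MP_216314_pr.CZ.Zg
import Pool.Agent.Lib.MP_216314_pr.CZ.Dd
import Pool.Agent.Lib.MP_216314_pr.CZ.Ct

/-!
# `V_B` as a divided difference
-/

set_option autoImplicit false

noncomputable section

namespace CZ

open Multiset Filter Topology

/-- `w ^ n + w' ^ n` as a polynomial in `x`, if `w + w' = - x`, `w w' = x ^ 2 - 3` -/
def Tn : ℕ → Polynomial ℂ
  | 0 => 2
  | 1 => -Polynomial.X
  | n + 2 => -Polynomial.X * Tn (n + 1) - (Polynomial.X ^ 2 - 3) * Tn n

theorem Tn_eval {R : Type} [CommRing R] [Algebra ℂ R] {x w w' : R} (h1 : x + w + w' = 0)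
    (h2 : x * w + x * w' + w * w' = -3) : ∀ n : ℕ, w ^ n + w' ^ n = Polynomial.aeval x (Tn n)
  | 0 => by
    have e : Polynomial.aeval x (Tn 0) = (2 : R) := map_ofNat _ 2
    rw [e, pow_zero, pow_zero]
    norm_num
  | 1 => by
    have e : Polynomial.aeval x (Tn 1) = -x := by
      show Polynomial.aeval x (-Polynomial.X) = -x
      rw [map_neg, Polynomial.aeval_X]
    rw [e]
    linear_combination h1
  | n + 2 => by
    have i0 := Tn_eval h1 h2 n
    have i1 := Tn_eval h1 h2 (n + 1)
    have e : Polynomial.aeval x (Tn (n + 2)) = -x * Polynomial.aeval x (Tn (n + 1)) -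
        (x ^ 2 - 3) * Polynomial.aeval x (Tn n) := by
      show Polynomial.aeval x (-Polynomial.X * Tn (n + 1) - (Polynomial.X ^ 2 - 3) * Tn n) = _
      rw [map_sub, map_mul, map_mul, map_neg, map_sub, map_pow, Polynomial.aeval_X, map_ofNat]
    rw [e, ← i0, ← i1]
    have hx : x = -w - w' := by linear_combination h1
    have hw : w * w' = x ^ 2 - 3 := by
      linear_combination h2 - x * h1
    have e1 : (x ^ 2 - 3) * (w ^ n + w' ^ n) = w * w' * (w ^ n + w' ^ n) := by rw [hw]
    rw [e1, hx]
    ring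

/-- symmetric functions of the two other roots -/
theorem symR (P Q : Polynomial ℂ) : ∃ N : Polynomial ℂ, ∀ (R : Type) [CommRing R] [Algebra ℂ R] (x w w' : R),
    x + w + w' = 0 → x * w + x * w' + w * w' = -3 →
    Polynomial.aeval w P * Polynomial.aeval w' Q + Polynomial.aeval w' P * Polynomial.aeval w Q =
      Polynomial.aeval x N := by
  induction P using Polynomial.induction_on' with
  | add P P' h h' =>
    obtain ⟨N, hN⟩ := h
    obtain ⟨N', hN'⟩ := h'
    refine ⟨N + N', ?_⟩
    intro R _ _ x w w' h1 h2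
    rw [_root_.map_add, _root_.map_add, _root_.map_add, ← hN R x w w' h1 h2, ← hN' R x w w' h1 h2]
    ring
  | monomial a c =>
    induction Q using Polynomial.induction_on' with
    | add P P' h h' =>
      obtain ⟨N, hN⟩ := h
      obtain ⟨N', hN'⟩ := h'
      refine ⟨N + N', ?_⟩
      intro R _ _ x w w' h1 h2
      rw [_root_.map_add, _root_.map_add, _root_.map_add, ← hN R x w w' h1 h2, ← hN' R x w w' h1 h2]
      ring
    | monomial b d =>
      refine ⟨Polynomial.C (c * d) * ((Polynomial.X ^ 2 - 3) ^ (min a b) * Tn (max a b - min a b)), ?_⟩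
      intro R _ _ x w w' h1 h2
      have hw : w * w' = x ^ 2 - 3 := by
        linear_combination h2 - x * h1
      simp only [Polynomial.aeval_monomial, map_mul, map_pow, map_sub, Polynomial.aeval_X, map_ofNat,
        Polynomial.aeval_C]
      rw [← Tn_eval h1 h2, ← hw]
      rcases le_total a b with hab | hab
      · rw [min_eq_left hab, max_eq_right hab]
        obtain ⟨n, rfl⟩ := Nat.exists_eq_add_of_le hab
        rw [Nat.add_sub_cancel_left, pow_add, pow_add, mul_pow]
        ring
      · rw [min_eq_right hab, max_eq_left hab]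
        obtain ⟨n, rfl⟩ := Nat.exists_eq_add_of_le hab
        rw [Nat.add_sub_cancel_left, pow_add, pow_add, mul_pow]
        ring

def VB (S : Multiset ℂ → ℂ) (A B : Multiset ℂ) (τ Y : ℂ) : ℂ :=
  (A.map (fun j => (j - Y) * ((A.erase j).map (fun i => TT j i / (j - i))).prod *
    S (τ ::ₘ (A.erase j + B)) * S (j ::ₘ B) * S (A.erase j))).sum

/-- the consequence of `Z = 0` -/
theorem VB_eq {S : Multiset ℂ → ℂ} {A B : Multiset ℂ} {τ Y : ℂ} (hZ : ZZ S A B τ Y = 0) (hA : ∀ j ∈ A, j ≠ τ) (c : ℂ) :
    VB S A B τ Y = (A.map (fun j => (j - c) * Gj S A B τ Y j)).sum + (τ - c) * Gt S A B τ Y := by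
  have e1 : VB S A B τ Y = (A.map (fun j => (j - c) * Gj S A B τ Y j + (c - τ) * Gj S A B τ Y j)).sum := by
    unfold VB
    refine congrArg Multiset.sum (Multiset.map_congr rfl (fun j hj => ?_))
    have h : j - τ ≠ 0 := sub_ne_zero.mpr (hA j hj)
    unfold Gj
    generalize ((A.erase j).map (fun i => TT j i / (j - i))).prod = P1
    generalize S (τ ::ₘ (A.erase j + B)) = P2
    generalize S (j ::ₘ B) = P3
    generalize S (A.erase j) = P4
    field_simp
    ring
  rw [e1, Multiset.sum_map_add, Multiset.sum_map_mul_left]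
  unfold ZZ at hZ
  linear_combination (c - τ) * hZ

end CZ
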