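import Pool.Agent.Lib.MP_216314_pr.CZ.Vb

/-!
# `V_B` as a divided difference, and its limit
-/

set_option autoImplicit false

noncomputable section

namespace CZ

open Multiset Filter Topology

theorem tri_two {w w' : ℂ} (h : Tri 2 w w') : w = -1 ∧ w' = -1 := by
  have h1 : w' = -2 - w := by linear_combination h.1
  have h2 : (w + 1) ^ 2 = 0 := by
    have := h.2
    rw [h1] at this
    linear_combination -this
  have h3 : w + 1 = 0 := by
    rcases pow_eq_zero_iff (n := 2) (by norm_num) |>.mp h2 with h4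
    exact h4
  have h4 : w = -1 := by linear_combination h3
  refine ⟨h4, ?_⟩
  rw [h1, h4]
  norm_num

theorem tri_two_neg : Tri 2 (-1) (-1) := ⟨by norm_num, by norm_num⟩

theorem CC_two : CC 2 = 2 := by unfold CC; norm_num

theorem CC_negone : CC (-1) = 2 := by unfold CC; norm_num

theorem Gen.ne_negone {A : Multiset ℂ} (h : Gen A) {j : ℂ} (hj : j ∈ A) : j ≠ -1 := by
  intro h1
  exact (h.2 j hj).1 (by rw [h1, CC_negone])

theorem Gen.ne_two {A : Multiset ℂ} (h : Gen A) {j : ℂ} (hj : j ∈ A) : j ≠ 2 := by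
  intro h1
  exact (h.2 j hj).1 (by rw [h1, CC_two])

theorem rep_prod (m : ℕ) (c : ℂ) (f : ℂ → ℂ) : ((Multiset.replicate m c).map f).prod = f c ^ m := by
  rw [Multiset.map_replicate, Multiset.prod_replicate]

/-- the bracket -/
def br (S : Multiset ℂ → ℂ) (A : Multiset ℂ) (m : ℕ) (w w' : ℂ) : ℂ :=
  S (w ::ₘ A) * (S (w' ::ₘ 2 ::ₘ (A + Multiset.replicate m 2)) * (2 - w') ^ (m + 1))

theorem br_mem {S : Multiset ℂ → ℂ} (hS : SChar S) {A : Multiset ℂ} {m : ℕ} {j w w' : ℂ} (hj : j ∈ A) (h : Tri j w w') :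
    br S A m w w' = ((A.erase j).map (fun r => TT j r)).prod * S (A.erase j) *
      S (2 ::ₘ (A.erase j + Multiset.replicate m 2)) * (j + 1) ^ (2 * m + 2) := by
  have e0 : w ::ₘ A = w ::ₘ j ::ₘ A.erase j := by rw [Multiset.cons_erase hj]
  have e1 : w' ::ₘ 2 ::ₘ (A + Multiset.replicate m 2) =
      w' ::ₘ j ::ₘ (2 ::ₘ (A.erase j + Multiset.replicate m 2)) := by
    rw [← Multiset.cons_erase hj, Multiset.cons_add, Multiset.cons_swap 2 j, Multiset.cons_erase hj]
  have hw : Tri w j w' := h.sw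
  have hw' : Tri w' j w := h.rot.rot
  have e2 : ((A.erase j).map (fun r => TT j r)).prod =
      ((A.erase j).map (fun r => r - w)).prod * ((A.erase j).map (fun r => r - w')).prod := by
    rw [← Multiset.prod_map_mul]
    exact congrArg Multiset.prod (Multiset.map_congr rfl (fun r _ => h.TT_eq r))
  have e3 : (2 - w) * (2 - w') = (j + 1) ^ 2 := by
    rw [← h.TT_eq 2]
    unfold TT
    ring
  have e4 : (j + 1) ^ (2 * m + 2) = (2 - w) ^ (m + 1) * (2 - w') ^ (m + 1) := by
    rw [← mul_pow, e3, ← pow_mul]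
    ring
  unfold br
  rw [e0, e1, hS.fus w j w' _ hw, hS.fus w' j w _ hw', Multiset.map_cons, Multiset.prod_cons, Multiset.map_add,
    Multiset.prod_add, rep_prod, e2, e4, pow_succ (2 - w)]
  ring

theorem br_two {S : Multiset ℂ → ℂ} (hS : SChar S) (A : Multiset ℂ) (m : ℕ) :
    br S A m (-1) (-1) = S ((-1) ::ₘ A) * (A.map (fun r => r - (-1))).prod * S (A + Multiset.replicate m 2) *
      3 ^ (2 * m + 1) := by
  have hw : Tri (-1) 2 (-1) := tri_two_neg.sw
  unfold br
  rw [hS.fus (-1) 2 (-1) _ hw, Multiset.map_add, Multiset.prod_add, rep_prod]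
  have e : (2 : ℂ) - (-1) = 3 := by norm_num
  rw [e]
  ring

/-- the polynomials of the expansion -/
def Nn (k m i i' : ℕ) : Polynomial ℂ :=
  Classical.choose (symR (lb (k / 2) i) (lb ((k + m + 1) / 2) i' * (Polynomial.C 2 - Polynomial.X) ^ (m + 1)))

theorem Nn_spec (k m i i' : ℕ) (R : Type) [CommRing R] [Algebra ℂ R] (x w w' : R)
    (h1 : x + w + w' = 0) (h2 : x * w + x * w' + w * w' = -3) :
    Polynomial.aeval w (lb (k / 2) i) *
      Polynomial.aeval w' (lb ((k + m + 1) / 2) i' * (Polynomial.C 2 - Polynomial.X) ^ (m + 1)) +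
    Polynomial.aeval w' (lb (k / 2) i) *
      Polynomial.aeval w (lb ((k + m + 1) / 2) i' * (Polynomial.C 2 - Polynomial.X) ^ (m + 1)) =
    Polynomial.aeval x (Nn k m i i') :=
  Classical.choose_spec (symR (lb (k / 2) i) (lb ((k + m + 1) / 2) i' * (Polynomial.C 2 - Polynomial.X) ^ (m + 1)))
    R x w w' h1 h2

theorem br_sum {S : Multiset ℂ → ℂ} (hS : SChar S) {A : Multiset ℂ} {k m : ℕ} (hA : card A = k) (w w' : ℂ) :
    br S A m w w' = ∑ i ∈ Finset.range (k / 2 + 1), ∑ i' ∈ Finset.range ((k + m + 1) / 2 + 1),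
      S ((i : ℂ) ::ₘ A) * S ((i' : ℂ) ::ₘ 2 ::ₘ (A + Multiset.replicate m 2)) *
        ((lb (k / 2) i).eval w * ((lb ((k + m + 1) / 2) i').eval w' * (2 - w') ^ (m + 1))) := by
  unfold br
  rw [hS.interp A w, hS.interp (2 ::ₘ (A + Multiset.replicate m 2)) w', Multiset.card_cons, Multiset.card_add,
    Multiset.card_replicate, hA, Finset.sum_mul, Finset.sum_mul]
  simp only [Finset.mul_sum]
  refine Finset.sum_congr rfl fun i _ => Finset.sum_congr rfl fun i' _ => ?_
  ring

theorem br_symm {S : Multiset ℂ → ℂ} (hS : SChar S) {A : Multiset ℂ} {k m : ℕ} (hA : card A = k) {x w w' : ℂ}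
    (h : Tri x w w') :
    br S A m w w' + br S A m w' w = ∑ i ∈ Finset.range (k / 2 + 1), ∑ i' ∈ Finset.range ((k + m + 1) / 2 + 1),
      S ((i : ℂ) ::ₘ A) * S ((i' : ℂ) ::ₘ 2 ::ₘ (A + Multiset.replicate m 2)) * (Nn k m i i').eval x := by
  rw [br_sum hS hA, br_sum hS hA, ← Finset.sum_add_distrib]
  refine Finset.sum_congr rfl fun i _ => ?_
  rw [← Finset.sum_add_distrib]
  refine Finset.sum_congr rfl fun i' _ => ?_
  have h1 := Nn_spec k m i i' ℂ x w w' h.1 h.2
  simp only [Polynomial.coe_aeval_eq_eval, Polynomial.eval_mul, Polynomial.eval_pow, Polynomial.eval_sub,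
    Polynomial.eval_C, Polynomial.eval_X] at h1
  rw [← h1]
  ring

/-- the numerators -/
def qq (pB : Polynomial ℂ) (k m i i' : ℕ) : Polynomial ℂ :=
  Polynomial.C (1 / 2) * (Polynomial.X - 1) * (Polynomial.X + 1) * pB * Nn k m i i'

/-- `V_B` as a divided difference -/
theorem VB_DD {S : Multiset ℂ → ℂ} (hS : SChar S) {A : Multiset ℂ} {k m : ℕ} (hk : Odd k) (hm : Odd m)
    (hA : card A = k) (hG : Gen A) {pB : Polynomial ℂ} (hpB : ∀ x, S (x ::ₘ Multiset.replicate m 2) = pB.eval x) :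
    VB S A (Multiset.replicate m 2) 2 (-1) =
      ∑ i ∈ Finset.range (k / 2 + 1), ∑ i' ∈ Finset.range ((k + m + 1) / 2 + 1),
        S ((i : ℂ) ::ₘ A) * S ((i' : ℂ) ::ₘ 2 ::ₘ (A + Multiset.replicate m 2)) *
          DDm (2 ::ₘ A) (fun x => (qq pB k m i i').eval x / (x - (-1)) ^ (2 * m + 2)) := by
  have hZ : ZZ S A (Multiset.replicate m 2) 2 (-1) = 0 := by
    refine Z_zero hS tri_two_neg (by rw [hA]; exact hk) (by rw [Multiset.card_replicate]; exact hm) hG ?_
    intro i hi h
    rw [CC_two] at h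
    exact (hG.2 i hi).1 h.symm
  have hA2 : ∀ j ∈ A, j ≠ 2 := fun j hj => hG.ne_two hj
  rw [VB_eq hZ hA2 1]
  have key : ∀ x : ℂ, ∀ w w' : ℂ, Tri x w w' →
      (x - 1) * (x + 1) * S (x ::ₘ Multiset.replicate m 2) / (2 * (x - (-1)) ^ (2 * m + 2)) *
        (br S A m w w' + br S A m w' w) =
      ∑ i ∈ Finset.range (k / 2 + 1), ∑ i' ∈ Finset.range ((k + m + 1) / 2 + 1),
        S ((i : ℂ) ::ₘ A) * S ((i' : ℂ) ::ₘ 2 ::ₘ (A + Multiset.replicate m 2)) *
          ((qq pB k m i i').eval x / (x - (-1)) ^ (2 * m + 2)) := by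
    intro x w w' h
    rw [br_symm hS hA h, Finset.mul_sum]
    refine Finset.sum_congr rfl fun i _ => ?_
    rw [Finset.mul_sum]
    refine Finset.sum_congr rfl fun i' _ => ?_
    unfold qq
    simp only [Polynomial.eval_mul, Polynomial.eval_sub, Polynomial.eval_add, Polynomial.eval_X, Polynomial.eval_one,
      Polynomial.eval_C]
    rw [hpB x]
    generalize (x - (-1)) ^ (2 * m + 2) = P
    rw [mul_comm 2 P, ← div_div]
    ring
  have hswap : ∑ i ∈ Finset.range (k / 2 + 1), ∑ i' ∈ Finset.range ((k + m + 1) / 2 + 1),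
        S ((i : ℂ) ::ₘ A) * S ((i' : ℂ) ::ₘ 2 ::ₘ (A + Multiset.replicate m 2)) *
          DDm (2 ::ₘ A) (fun x => (qq pB k m i i').eval x / (x - (-1)) ^ (2 * m + 2)) =
      DDm (2 ::ₘ A) (fun x => ∑ i ∈ Finset.range (k / 2 + 1), ∑ i' ∈ Finset.range ((k + m + 1) / 2 + 1),
        S ((i : ℂ) ::ₘ A) * S ((i' : ℂ) ::ₘ 2 ::ₘ (A + Multiset.replicate m 2)) *
          ((qq pB k m i i').eval x / (x - (-1)) ^ (2 * m + 2))) := by
    rw [DDm_sum]
    refine Finset.sum_congr rfl fun i _ => ?_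
    rw [DDm_sum]
    refine Finset.sum_congr rfl fun i' _ => ?_
    rw [DDm_smul]
  rw [hswap]
  unfold DDm
  rw [Multiset.map_cons, Multiset.sum_cons, add_comm]
  congr 1
  · -- the node 2
    beta_reduce
    rw [← key 2 (-1) (-1) tri_two_neg, br_two hS, Multiset.erase_cons_head]
    unfold Gt
    have hD : (A.map (fun i => 2 - i)).prod ≠ 0 := by
      apply Multiset.prod_ne_zero
      intro h0
      rw [Multiset.mem_map] at h0
      obtain ⟨j, hj, h2⟩ := h0
      exact hA2 j hj (by linear_combination -h2)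
    rw [Multiset.prod_map_div]
    generalize (A.map (fun i => 2 - i)).prod = P1 at hD ⊢
    generalize (A.map (fun i => i - (-1))).prod = P2
    generalize S ((-1) ::ₘ A) = P3
    generalize S (A + Multiset.replicate m 2) = P4
    generalize S (2 ::ₘ Multiset.replicate m 2) = P5
    have e : (2 : ℂ) - (-1) = 3 := by norm_num
    have h3 : (3 : ℂ) ^ (2 * m + 1) ≠ 0 := pow_ne_zero _ (by norm_num)
    rw [e, pow_succ (3 : ℂ) (2 * m + 1)]
    generalize (3 : ℂ) ^ (2 * m + 1) = P6 at h3 ⊢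
    field_simp
    ring
  · refine congrArg Multiset.sum (Multiset.map_congr rfl (fun j hj => ?_))
    obtain ⟨w, w', hw⟩ := exists_Tri j
    have hw' : Tri j w' w := ⟨by linear_combination hw.1, by linear_combination hw.2⟩
    beta_reduce
    rw [← key j w w' hw, br_mem hS hj hw, br_mem hS hj hw', erase_cons' hj, Multiset.map_cons, Multiset.prod_cons]
    have h2 : j - 2 ≠ 0 := sub_ne_zero.mpr (hA2 j hj)
    have h1 : j + 1 ≠ 0 := by
      intro h
      exact hG.ne_negone hj (by linear_combination h)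
    have hD : ((A.erase j).map (fun i => j - i)).prod ≠ 0 := by
      apply Multiset.prod_ne_zero
      intro h0
      rw [Multiset.mem_map] at h0
      obtain ⟨i, hi, h3⟩ := h0
      have h4 : i = j := by linear_combination -h3
      rw [h4] at hi
      exact (Multiset.Nodup.notMem_erase hG.nodup) hi
    unfold Gj
    rw [Multiset.prod_map_div]
    generalize ((A.erase j).map (fun i => j - i)).prod = P1 at hD ⊢
    generalize ((A.erase j).map (fun r => TT j r)).prod = P2
    generalize S (A.erase j) = P3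
    generalize S (2 ::ₘ (A.erase j + Multiset.replicate m 2)) = P4
    generalize S (j ::ₘ Multiset.replicate m 2) = P5
    have e : j - (-1) = j + 1 := by ring
    rw [e]
    have h6 : (j + 1) ^ (2 * m + 2) ≠ 0 := pow_ne_zero _ h1
    generalize (j + 1) ^ (2 * m + 2) = P6 at h6 ⊢
    field_simp
    ring

end CZ
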