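import Pool.Agent.Lib.MP_216314_pr.CZ.SD
import Pool.Agent.Lib.MP_216314_pr.CZ.Ct

/-!
# Determinants of divided differences as functions of multisets
-/

set_option autoImplicit false

noncomputable section

namespace CZ

open Polynomial

/-- the determinant of a list -/
def ML (g : ℕ → ℂ[X]) (l : List ℂ) : ℂ := Q4.PhF l.length g (fun i => l.getD i 0)

theorem ML_perm (g : ℕ → ℂ[X]) {l l' : List ℂ} (h : l.Perm l') : ML g l = ML g l' := by
  unfold ML
  rw [Q4.PhF_list g h rfl, h.length_eq]

/-- the determinant of a multiset -/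
def MS (g : ℕ → ℂ[X]) (M : Multiset ℂ) : ℂ := Quotient.liftOn M (ML g) (fun _ _ h => ML_perm g h)

theorem MS_coe (g : ℕ → ℂ[X]) (l : List ℂ) : MS g (l : Multiset ℂ) = ML g l := rfl

theorem MS_bb : MS bb = SS := rfl

theorem MS_zero (g : ℕ → ℂ[X]) : MS g 0 = 1 := by
  have h : MS g ((([] : List ℂ)) : Multiset ℂ) = 1 := by
    rw [MS_coe]
    unfold ML Q4.PhF
    exact Matrix.det_fin_zero
  exact h

theorem MS_one (g : ℕ → ℂ[X]) (a : ℂ) : MS g (a ::ₘ 0) = (g 0).eval a := by
  have h : MS g (([a] : List ℂ) : Multiset ℂ) = (g 0).eval a := by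
    rw [MS_coe]
    unfold ML Q4.PhF
    show Matrix.det (Matrix.of fun i j : Fin 1 => Q4.DD (fun i => [a].getD i 0) i (g j)) = _
    rw [Matrix.det_fin_one, Matrix.of_apply]
    have h := Nw_eval 1 (fun i => [a].getD i 0) 0 (g 0)
    rw [Fin.sum_univ_one] at h
    simp only [Fin.val_zero, Finset.range_zero, Finset.prod_empty, one_mul] at h
    exact h.symm
  exact h

theorem MS_two (g : ℕ → ℂ[X]) (a b : ℂ) : (b - a) * MS g (a ::ₘ b ::ₘ 0) =
    (g 0).eval a * (g 1).eval b - (g 1).eval a * (g 0).eval b := by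
  have h : (b - a) * MS g (([a, b] : List ℂ) : Multiset ℂ) =
      (g 0).eval a * (g 1).eval b - (g 1).eval a * (g 0).eval b := by
    rw [MS_coe]
    unfold ML Q4.PhF
    show (b - a) * Matrix.det (Matrix.of fun i j : Fin 2 => Q4.DD (fun i => [a, b].getD i 0) i (g j)) = _
    rw [Matrix.det_fin_two]
    have h0 : ∀ f : ℂ[X], f.eval a = Q4.DD (fun i => [a, b].getD i 0) 0 f := by
      intro f
      have h := Nw_eval 2 (fun i => [a, b].getD i 0) 0 f
      rw [Fin.sum_univ_two] at h
      simp only [Fin.val_zero, Fin.val_one, Finset.range_zero, Finset.prod_empty, one_mul, Finset.range_one,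
        Finset.prod_singleton, List.getD_cons_zero, sub_self, zero_mul, add_zero] at h
      exact h
    have h1 : ∀ f : ℂ[X], f.eval b = Q4.DD (fun i => [a, b].getD i 0) 0 f +
        (b - a) * Q4.DD (fun i => [a, b].getD i 0) 1 f := by
      intro f
      have h := Nw_eval 2 (fun i => [a, b].getD i 0) 1 f
      rw [Fin.sum_univ_two] at h
      simp only [Fin.val_zero, Fin.val_one, Finset.range_zero, Finset.prod_empty, one_mul, Finset.range_one,
        Finset.prod_singleton, List.getD_cons_zero, List.getD_cons_succ] at h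
      exact h
    simp only [Matrix.of_apply, Fin.val_zero, Fin.val_one]
    rw [h0, h0, h1, h1]
    ring
  exact h

theorem PhF_MS (L : ℕ) (g : ℕ → ℂ[X]) (x : ℕ → ℂ) : Q4.PhF L g x = MS g ((Multiset.range L).map x) := by
  show _ = ML g ((List.range L).map x)
  unfold ML
  rw [List.length_map, List.length_range]
  refine Q4.PhF_congr (fun j _ => rfl) fun j hj => ?_
  rw [List.getD_eq_getElem _ _ (by rw [List.length_map, List.length_range]; exact hj), List.getElem_map,
    List.getElem_range]

/-- recursion -/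
theorem MS_rec {g h : ℕ → ℂ[X]} {u v : ℂ[X]} {a b c : ℂ} {R : Multiset ℂ}
    (hu : Q4.UEq (Multiset.card R + 2) g (Q4.pre u v (fun j => (X - C a) * (X - C b) * (X - C c) * h j))) :
    (b - a) * MS g (a ::ₘ b ::ₘ R) = (u.eval a * v.eval b - v.eval a * u.eval b) *
      (R.map (fun r => r - c)).prod * MS h R := by
  induction R using Quotient.inductionOn with
  | h l =>
    show (b - a) * ML g (a :: b :: l) = _ * (((l : Multiset ℂ)).map (fun r => r - c)).prod * ML h l
    rw [Multiset.map_coe, Multiset.prod_coe]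
    unfold ML
    rw [List.length_cons, List.length_cons]
    have hu' : Q4.UEq (l.length + 2) g (Q4.pre u v (fun j => (X - C a) * (X - C b) * (X - C c) * h j)) := hu
    have h3 := Q4.PhF_ueq hu' (fun i => (a :: b :: l).getD i 0)
    have h4 := Q4.PhF_rec l.length u v h (fun i => (a :: b :: l).getD i 0) c
    have h5 : Q4.PhF (l.length + 1 + 1) g (fun i => (a :: b :: l).getD i 0) =
        Q4.PhF (l.length + 2) (Q4.pre u v fun j => (X - C ((a :: b :: l).getD 0 0)) * (X - C ((a :: b :: l).getD 1 0)) *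
          (X - C c) * h j) (fun i => (a :: b :: l).getD i 0) := h3.symm
    rw [h5, h4]
    have h0 : ∀ f : ℂ[X], f.eval a = Q4.DD (fun i => (a :: b :: l).getD i 0) 0 f := by
      intro f
      have h := Nw_eval 2 (fun i => (a :: b :: l).getD i 0) 0 f
      rw [Fin.sum_univ_two] at h
      simp only [Fin.val_zero, Fin.val_one, Finset.range_zero, Finset.prod_empty, one_mul, Finset.range_one,
        Finset.prod_singleton, List.getD_cons_zero, sub_self, zero_mul, add_zero] at h
      exact h
    have h1 : ∀ f : ℂ[X], f.eval b = Q4.DD (fun i => (a :: b :: l).getD i 0) 0 f +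
        (b - a) * Q4.DD (fun i => (a :: b :: l).getD i 0) 1 f := by
      intro f
      have h := Nw_eval 2 (fun i => (a :: b :: l).getD i 0) 1 f
      rw [Fin.sum_univ_two] at h
      simp only [Fin.val_zero, Fin.val_one, Finset.range_zero, Finset.prod_empty, one_mul, Finset.range_one,
        Finset.prod_singleton, List.getD_cons_zero, List.getD_cons_succ] at h
      exact h
    have h6 : (l.map fun r => r - c).prod = ∏ i ∈ Finset.range l.length, ((a :: b :: l).getD (i + 2) 0 - c) := by
      rw [← SC_prod]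
      rfl
    have h7 : Q4.PhF l.length h (fun i => (a :: b :: l).getD (i + 2) 0) = Q4.PhF l.length h (fun i => l.getD i 0) := rfl
    rw [h0, h0, h1, h1, h6, h7]
    ring

/-- polynomial in each variable -/
theorem MS_poly (g : ℕ → ℂ[X]) {d : ℕ} (R : Multiset ℂ)
    (hg : ∀ j, j < Multiset.card R + 1 → (g j).natDegree ≤ Multiset.card R + d) : IsP d (fun x => MS g (x ::ₘ R)) := by
  induction R using Quotient.inductionOn with
  | h l =>
    obtain ⟨p, hp, he⟩ := Q4.PhF_update l.length (l.length + d) g hg (fun i => l.getD i 0)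
    refine ⟨p, ?_, fun x => ?_⟩
    · refine hp.trans ?_
      omega
    · rw [← he x]
      have h1 : MS g (x ::ₘ (l : Multiset ℂ)) = ML g (l ++ [x]) := by
        show ML g (x :: l) = ML g (l ++ [x])
        exact ML_perm g (List.perm_append_singleton x l).symm
      show MS g (x ::ₘ (l : Multiset ℂ)) = _
      rw [h1]
      unfold ML
      rw [List.length_append, List.length_singleton]
      refine Q4.PhF_congr (fun j _ => rfl) fun j hj => ?_
      by_cases h : j = l.length
      · rw [h, Function.update_self]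
        simp
      · rw [Function.update_of_ne h]
        have h1 : j < l.length := by omega
        exact List.getD_append l [x] 0 j h1

/-- `u ^ n + v ^ n` as a polynomial in `u + v`, if `u v = 1` -/
def Un : ℕ → Polynomial ℂ
  | 0 => 2
  | 1 => X
  | n + 2 => X * Un (n + 1) - Un n

theorem Un_eval {u v : ℂ} (h : u * v = 1) : ∀ n : ℕ, u ^ n + v ^ n = (Un n).eval (u + v)
  | 0 => by
    have e : (Un 0).eval (u + v) = 2 := by
      show (2 : ℂ[X]).eval (u + v) = 2
      simp
    rw [e, pow_zero, pow_zero]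
    norm_num
  | 1 => by
    have e : (Un 1).eval (u + v) = u + v := eval_X
    rw [e]
    ring
  | n + 2 => by
    have i0 := Un_eval h n
    have i1 := Un_eval h (n + 1)
    have e : (Un (n + 2)).eval (u + v) = (u + v) * (Un (n + 1)).eval (u + v) - (Un n).eval (u + v) := by
      show (X * Un (n + 1) - Un n).eval (u + v) = _
      rw [eval_sub, eval_mul, eval_X]
    rw [e, ← i0, ← i1]
    linear_combination (-(u ^ n + v ^ n)) * h

theorem Un_natDegree : ∀ n : ℕ, (Un n).natDegree ≤ n
  | 0 => by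
    show (2 : ℂ[X]).natDegree ≤ 0
    simp
  | 1 => by
    show (X : ℂ[X]).natDegree ≤ 1
    exact natDegree_X_le
  | n + 2 => by
    show (X * Un (n + 1) - Un n).natDegree ≤ n + 2
    refine (natDegree_sub_le _ _).trans (max_le ?_ ?_)
    · refine natDegree_mul_le.trans ?_
      have h1 := Un_natDegree (n + 1)
      have h2 := natDegree_X_le (R := ℂ)
      omega
    · have h1 := Un_natDegree n
      omega

/-- symmetric functions of `u`, `v`, `u v = 1` -/
theorem symU {n : ℕ} {P Q : ℂ[X]} (hP : P.natDegree ≤ n) (hQ : Q.natDegree ≤ n) :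
    ∃ N : ℂ[X], N.natDegree ≤ n ∧ ∀ u v : ℂ, u * v = 1 →
      P.eval u * Q.eval v + P.eval v * Q.eval u = N.eval (u + v) := by
  refine ⟨∑ a ∈ Finset.range (n + 1), ∑ b ∈ Finset.range (n + 1),
    C (P.coeff a * Q.coeff b) * Un (max a b - min a b), ?_, fun u v h => ?_⟩
  · refine natDegree_sum_le_of_forall_le _ _ fun a ha => ?_
    refine natDegree_sum_le_of_forall_le _ _ fun b hb => ?_
    rw [Finset.mem_range] at ha hb
    refine (natDegree_C_mul_le _ _).trans ((Un_natDegree _).trans ?_)
    have h1 : max a b ≤ n := max_le (by omega) (by omega)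
    omega
  · have eP : ∀ t : ℂ, P.eval t = ∑ a ∈ Finset.range (n + 1), P.coeff a * t ^ a :=
      fun t => eval_eq_sum_range' (by omega) t
    have eQ : ∀ t : ℂ, Q.eval t = ∑ a ∈ Finset.range (n + 1), Q.coeff a * t ^ a :=
      fun t => eval_eq_sum_range' (by omega) t
    rw [eP, eP, eQ, eQ, Finset.sum_mul_sum, Finset.sum_mul_sum, ← Finset.sum_add_distrib, eval_finsetSum]
    refine Finset.sum_congr rfl fun a _ => ?_
    rw [← Finset.sum_add_distrib, eval_finsetSum]
    refine Finset.sum_congr rfl fun b _ => ?_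
    rw [eval_mul, eval_C, ← Un_eval h]
    rcases le_total a b with hab | hab
    · rw [min_eq_left hab, max_eq_right hab]
      obtain ⟨m, rfl⟩ := Nat.exists_eq_add_of_le hab
      have h1 : u ^ a * v ^ a = 1 := by rw [← mul_pow, h, one_pow]
      rw [Nat.add_sub_cancel_left, pow_add, pow_add]
      linear_combination (P.coeff a * Q.coeff (a + m) * (u ^ m + v ^ m)) * h1
    · rw [min_eq_right hab, max_eq_left hab]
      obtain ⟨m, rfl⟩ := Nat.exists_eq_add_of_le hab
      have h1 : u ^ b * v ^ b = 1 := by rw [← mul_pow, h, one_pow]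
      rw [Nat.add_sub_cancel_left, pow_add, pow_add]
      linear_combination (P.coeff (b + m) * Q.coeff b * (u ^ m + v ^ m)) * h1

theorem lb_natDegree (d i : ℕ) (hi : i ≤ d) : (lb d i).natDegree ≤ d := by
  unfold lb
  have hinj : Set.InjOn (fun i : ℕ => (i : ℂ)) (Finset.range (d + 1)) := by
    intro a _ b _ h
    exact Nat.cast_injective h
  rw [Lagrange.natDegree_basis hinj (Finset.mem_range.mpr (by omega)), Finset.card_range]
  omega

/-- a pair `u, 1/u`: polynomial in `u + 1/u` -/
theorem MS_pair (g : ℕ → ℂ[X]) {d : ℕ} (R : Multiset ℂ)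
    (hg : ∀ j, j < Multiset.card R + 2 → (g j).natDegree ≤ Multiset.card R + 1 + d) :
    ∃ p : ℂ[X], p.natDegree ≤ d ∧ ∀ u v : ℂ, u * v = 1 → MS g (u ::ₘ v ::ₘ R) = p.eval (u + v) := by
  have h1 : ∀ v : ℂ, IsP d (fun u => MS g (u ::ₘ v ::ₘ R)) := by
    intro v
    apply MS_poly
    rw [Multiset.card_cons]
    exact hg
  have h2 : ∀ u v : ℂ, MS g (u ::ₘ v ::ₘ R) = ∑ i ∈ Finset.range (d + 1), ∑ i' ∈ Finset.range (d + 1),
      MS g ((i : ℂ) ::ₘ (i' : ℂ) ::ₘ R) * ((lb d i).eval u * (lb d i').eval v) := by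
    intro u v
    rw [(h1 v).interp u]
    refine Finset.sum_congr rfl fun i _ => ?_
    have h3 : MS g ((i : ℂ) ::ₘ v ::ₘ R) = ∑ i' ∈ Finset.range (d + 1),
        MS g ((i : ℂ) ::ₘ (i' : ℂ) ::ₘ R) * (lb d i').eval v := by
      rw [Multiset.cons_swap, (h1 (i : ℂ)).interp v]
      refine Finset.sum_congr rfl fun i' _ => ?_
      rw [Multiset.cons_swap]
    rw [h3, Finset.sum_mul]
    refine Finset.sum_congr rfl fun i' _ => ?_
    ring
  have h4 : ∀ i i' : ℕ, ∃ N : ℂ[X], i < d + 1 → i' < d + 1 → N.natDegree ≤ d ∧ ∀ u v : ℂ, u * v = 1 →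
      (lb d i).eval u * (lb d i').eval v + (lb d i).eval v * (lb d i').eval u = N.eval (u + v) := by
    intro i i'
    by_cases hi : i < d + 1 ∧ i' < d + 1
    · obtain ⟨N, hN1, hN2⟩ := symU (lb_natDegree d i (by omega)) (lb_natDegree d i' (by omega))
      exact ⟨N, fun _ _ => ⟨hN1, hN2⟩⟩
    · exact ⟨0, fun h h' => absurd ⟨h, h'⟩ hi⟩
  choose N hN using h4
  refine ⟨∑ i ∈ Finset.range (d + 1), ∑ i' ∈ Finset.range (d + 1),
    C (1 / 2 * MS g ((i : ℂ) ::ₘ (i' : ℂ) ::ₘ R)) * N i i', ?_, fun u v huv => ?_⟩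
  · refine natDegree_sum_le_of_forall_le _ _ fun i hi => ?_
    refine natDegree_sum_le_of_forall_le _ _ fun i' hi' => ?_
    rw [Finset.mem_range] at hi hi'
    exact (natDegree_C_mul_le _ _).trans (hN i i' hi hi').1
  · have h5 : MS g (u ::ₘ v ::ₘ R) = 1 / 2 * (MS g (u ::ₘ v ::ₘ R) + MS g (v ::ₘ u ::ₘ R)) := by
      rw [Multiset.cons_swap v u]
      ring
    rw [h5, h2 u v, h2 v u, ← Finset.sum_add_distrib, Finset.mul_sum, eval_finsetSum]
    refine Finset.sum_congr rfl fun i hi => ?_
    rw [← Finset.sum_add_distrib, Finset.mul_sum, eval_finsetSum]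
    refine Finset.sum_congr rfl fun i' hi' => ?_
    rw [Finset.mem_range] at hi hi'
    rw [eval_mul, eval_C, ← (hN i i' hi hi').2 u v huv]
    ring

end CZ
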