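import Pool.Agent.Lib.MP_216314_pr.CZ.Ya
import Pool.Agent.Lib.MP_216314_pr_CDH.Bd2

/-!
# The Schur functions at `1^(2n), u, v` and the Airy polynomials
-/

set_option autoImplicit false

noncomputable section

namespace CZ

open Polynomial

/-- exponents `0, 1, 3, 4, 6, 7, ...` -/
def ye (j : ℕ) : ℕ := j + j / 2

def yb (j : ℕ) : ℂ[X] := X ^ ye j

theorem DD_van {i : ℕ} : ∀ {N : ℕ} {x : ℕ → ℂ} (f : ℂ[X]), i < N → (∀ l, l ≤ i → x l = 1) →
    Q4.DD x i ((X - C 1) ^ N * f) = 0 := by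
  induction i with
  | zero =>
    intro N x f hN hx
    obtain ⟨N', rfl⟩ : ∃ N', N = N' + 1 := ⟨N - 1, by omega⟩
    have h := Q4.DD_root_zero x ((X - C 1) ^ N' * f)
    rw [hx 0 le_rfl] at h
    rw [pow_succ', mul_assoc]
    exact h
  | succ i ih =>
    intro N x f hN hx
    obtain ⟨N', rfl⟩ : ∃ N', N = N' + 1 := ⟨N - 1, by omega⟩
    have h := Q4.DD_root x i ((X - C 1) ^ N' * f)
    rw [hx 0 (by omega)] at h
    rw [pow_succ', mul_assoc, h]
    exact ih f (by omega) (fun l hl => hx (l + 1) (by omega))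

theorem DD_sh {N : ℕ} : ∀ {r : ℕ} {x : ℕ → ℂ} (f : ℂ[X]), (∀ l, l < N → x l = 1) →
    Q4.DD x (r + N) ((X - C 1) ^ N * f) = Q4.DD (fun l => x (l + N)) r f := by
  induction N with
  | zero =>
    intro r x f _
    rw [pow_zero, one_mul]
    rfl
  | succ N ih =>
    intro r x f hx
    have h := Q4.DD_root x (r + N) ((X - C 1) ^ N * f)
    rw [hx 0 (by omega)] at h
    rw [pow_succ', mul_assoc]
    have e : r + (N + 1) = r + N + 1 := rfl
    rw [e, h, ih f (fun l hl => hx (l + 1) (by omega))]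
    refine Q4.DD_congr (fun l _ => ?_) f
    show x (l + N + 1) = x (l + (N + 1))
    rfl

/-- the family with the last two members replaced -/
def rp (N : ℕ) (g : ℕ → ℂ[X]) (u v : ℂ[X]) : ℕ → ℂ[X] := fun j => if j < N then g j else if j = N then u else v

theorem PhF_block (N : ℕ) (g : ℕ → ℂ[X]) (U V : ℂ[X]) {x : ℕ → ℂ} (hx : ∀ l, l < N → x l = 1) :
    Q4.PhF (N + 2) (rp N g ((X - C 1) ^ N * U) ((X - C 1) ^ N * V)) x = Q4.PhF N g (fun _ => 1) *
      (Q4.DD (fun l => x (l + N)) 0 U * Q4.DD (fun l => x (l + N)) 1 V -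
        Q4.DD (fun l => x (l + N)) 0 V * Q4.DD (fun l => x (l + N)) 1 U) := by
  let e : Fin N ⊕ Fin 2 ≃ Fin (N + 2) := finSumFinEquiv
  have el : ∀ a : Fin N, ((e (Sum.inl a) : Fin (N + 2)) : ℕ) = a := fun a => rfl
  have er : ∀ a : Fin 2, ((e (Sum.inr a) : Fin (N + 2)) : ℕ) = N + a := fun a => rfl
  have gl : ∀ a : Fin N, rp N g ((X - C 1) ^ N * U) ((X - C 1) ^ N * V) a = g a := by
    intro a
    unfold rp
    rw [if_pos a.2]
  have g0 : rp N g ((X - C 1) ^ N * U) ((X - C 1) ^ N * V) (N + (0 : Fin 2)) = (X - C 1) ^ N * U := by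
    unfold rp
    rw [if_neg (by simp), if_pos (by simp)]
  have g1 : rp N g ((X - C 1) ^ N * U) ((X - C 1) ^ N * V) (N + (1 : Fin 2)) = (X - C 1) ^ N * V := by
    unfold rp
    rw [if_neg (by simp), if_neg (by simp)]
  let A : Matrix (Fin N) (Fin N) ℂ := Matrix.of fun i j => Q4.DD (fun _ => 1) i (g j)
  let Cc : Matrix (Fin 2) (Fin N) ℂ := Matrix.of fun i j => Q4.DD x (N + i) (g j)
  let B : Matrix (Fin 2) (Fin 2) ℂ :=
    Matrix.of fun i j : Fin 2 => Q4.DD (fun l => x (l + N)) i (if j = 0 then U else V)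
  have hM : (Matrix.of fun i j : Fin (N + 2) => Q4.DD x i
      (rp N g ((X - C 1) ^ N * U) ((X - C 1) ^ N * V) j)).submatrix e e = Matrix.fromBlocks A 0 Cc B := by
    ext i j
    rcases i with a | a <;> rcases j with b | b
    · show Q4.DD x (e (Sum.inl a) : Fin (N + 2)) (rp N g _ _ (e (Sum.inl b) : Fin (N + 2))) = Q4.DD (fun _ => 1) a (g b)
      rw [el, el, gl]
      exact Q4.DD_congr (fun l hl => hx l (by omega)) _
    · show Q4.DD x (e (Sum.inl a) : Fin (N + 2)) (rp N g _ _ (e (Sum.inr b) : Fin (N + 2))) = 0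
      rw [el, er]
      fin_cases b
      · show Q4.DD x (a : ℕ) (rp N g _ _ (N + (0 : Fin 2))) = 0
        rw [g0]
        exact DD_van U a.2 (fun l hl => hx l (by omega))
      · show Q4.DD x (a : ℕ) (rp N g _ _ (N + (1 : Fin 2))) = 0
        rw [g1]
        exact DD_van V a.2 (fun l hl => hx l (by omega))
    · show Q4.DD x (e (Sum.inr a) : Fin (N + 2)) (rp N g _ _ (e (Sum.inl b) : Fin (N + 2))) = Q4.DD x (N + a) (g b)
      rw [el, er, gl]
    · show Q4.DD x (e (Sum.inr a) : Fin (N + 2)) (rp N g _ _ (e (Sum.inr b) : Fin (N + 2))) =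
        Q4.DD (fun l => x (l + N)) a (if b = 0 then U else V)
      rw [er, er, Nat.add_comm N (a : ℕ)]
      fin_cases b
      · show Q4.DD x ((a : ℕ) + N) (rp N g _ _ (N + (0 : Fin 2))) = Q4.DD (fun l => x (l + N)) a (if (0 : Fin 2) = 0 then U else V)
        rw [g0, if_pos rfl]
        exact DD_sh U hx
      · show Q4.DD x ((a : ℕ) + N) (rp N g _ _ (N + (1 : Fin 2))) = Q4.DD (fun l => x (l + N)) a (if (1 : Fin 2) = 0 then U else V)
        rw [g1, if_neg (by decide)]
        exact DD_sh V hx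
  have h1 : Q4.PhF (N + 2) (rp N g ((X - C 1) ^ N * U) ((X - C 1) ^ N * V)) x = A.det * B.det := by
    unfold Q4.PhF
    rw [← Matrix.det_submatrix_equiv_self e, hM, Matrix.det_fromBlocks_zero₁₂]
  have h2 : B.det = Q4.DD (fun l => x (l + N)) 0 U * Q4.DD (fun l => x (l + N)) 1 V -
        Q4.DD (fun l => x (l + N)) 0 V * Q4.DD (fun l => x (l + N)) 1 U := by
    rw [Matrix.det_fin_two]
    rfl
  rw [h1, h2]
  rfl

theorem DD_pair (y : ℕ → ℂ) (U V : ℂ[X]) :
    (y 1 - y 0) * (Q4.DD y 0 U * Q4.DD y 1 V - Q4.DD y 0 V * Q4.DD y 1 U) =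
      U.eval (y 0) * V.eval (y 1) - V.eval (y 0) * U.eval (y 1) := by
  have h0 : ∀ f : ℂ[X], f.eval (y 0) = Q4.DD y 0 f := by
    intro f
    have h := Nw_eval 2 y 0 f
    rw [Fin.sum_univ_two] at h
    simp only [Fin.val_zero, Fin.val_one, Finset.range_zero, Finset.prod_empty, one_mul, Finset.range_one,
      Finset.prod_singleton, sub_self, zero_mul, add_zero] at h
    exact h
  have h1 : ∀ f : ℂ[X], f.eval (y 1) = Q4.DD y 0 f + (y 1 - y 0) * Q4.DD y 1 f := by
    intro f
    have h := Nw_eval 2 y 1 f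
    rw [Fin.sum_univ_two] at h
    simp only [Fin.val_zero, Fin.val_one, Finset.range_zero, Finset.prod_empty, one_mul, Finset.range_one,
      Finset.prod_singleton] at h
    exact h
  rw [h0, h0, h1, h1]
  ring

/-- column operations -/
theorem PhF_cols (N : ℕ) (g : ℕ → ℂ[X]) (p q : ℕ → ℂ) (hp : p (N + 1) = 0) (x : ℕ → ℂ) :
    Q4.PhF (N + 2) (rp N g (∑ i ∈ Finset.range (N + 2), C (p i) * g i) (∑ i ∈ Finset.range (N + 2), C (q i) * g i)) x =
      p N * q (N + 1) * Q4.PhF (N + 2) g x := by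
  let T : Matrix (Fin (N + 2)) (Fin (N + 2)) ℂ :=
    Matrix.of fun i j => if (j : ℕ) < N then (if i = j then 1 else 0) else if (j : ℕ) = N then p i else q i
  have hT : T.det = p N * q (N + 1) := by
    rw [Matrix.det_of_isUpperTriangular]
    · rw [Fin.prod_univ_castSucc, Fin.prod_univ_castSucc]
      have e1 : ∏ i : Fin N, T (Fin.castSucc (Fin.castSucc i)) (Fin.castSucc (Fin.castSucc i)) = 1 := by
        refine Finset.prod_eq_one fun i _ => ?_
        show (if ((Fin.castSucc (Fin.castSucc i) : Fin (N + 2)) : ℕ) < N then _ else _) = _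
        rw [if_pos (by exact i.2), if_pos rfl]
      have e2 : T (Fin.castSucc (Fin.last N)) (Fin.castSucc (Fin.last N)) = p N := by
        show (if ((Fin.castSucc (Fin.last N) : Fin (N + 2)) : ℕ) < N then _ else
          if ((Fin.castSucc (Fin.last N) : Fin (N + 2)) : ℕ) = N then _ else _) = _
        have e : ((Fin.castSucc (Fin.last N) : Fin (N + 2)) : ℕ) = N := rfl
        rw [e, if_neg (by omega), if_pos rfl]
      have e3 : T (Fin.last (N + 1)) (Fin.last (N + 1)) = q (N + 1) := by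
        show (if ((Fin.last (N + 1) : Fin (N + 2)) : ℕ) < N then _ else
          if ((Fin.last (N + 1) : Fin (N + 2)) : ℕ) = N then _ else _) = _
        have e : ((Fin.last (N + 1) : Fin (N + 2)) : ℕ) = N + 1 := rfl
        rw [e, if_neg (by omega), if_neg (by omega)]
      rw [e1, e2, e3, one_mul]
    · intro i j hij
      have h1 : (j : ℕ) < i := hij
      show (if (j : ℕ) < N then (if i = j then (1 : ℂ) else 0) else if (j : ℕ) = N then p i else q i) = 0
      by_cases hj : (j : ℕ) < N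
      · rw [if_pos hj, if_neg (by intro h; rw [h] at h1; omega)]
      · have hi : (i : ℕ) = N + 1 := by have := i.2; omega
        have hj' : (j : ℕ) = N := by omega
        rw [if_neg hj, if_pos hj', hi, hp]
  have hM : (Matrix.of fun i j : Fin (N + 2) => Q4.DD x i
      (rp N g (∑ i ∈ Finset.range (N + 2), C (p i) * g i) (∑ i ∈ Finset.range (N + 2), C (q i) * g i) j)) =
      (Matrix.of fun i j : Fin (N + 2) => Q4.DD x i (g j)) * T := by
    ext i j
    rw [Matrix.mul_apply, Matrix.of_apply]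
    have e : ∀ k : Fin (N + 2), (Matrix.of fun i j : Fin (N + 2) => Q4.DD x i (g j)) i k * T k j =
        Q4.DD x i (g k) * (if (j : ℕ) < N then (if k = j then 1 else 0) else if (j : ℕ) = N then p k else q k) :=
      fun k => rfl
    rw [Finset.sum_congr rfl fun k _ => e k]
    unfold rp
    by_cases hj : (j : ℕ) < N
    · rw [if_pos hj, Finset.sum_eq_single j]
      · rw [if_pos hj, if_pos rfl, mul_one]
      · intro k _ hk
        rw [if_pos hj, if_neg hk, mul_zero]
      · intro h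
        exact absurd (Finset.mem_univ j) h
    · by_cases hj' : (j : ℕ) = N
      · rw [if_neg hj, if_pos hj', Q4.DD_sum, Finset.sum_range]
        refine Finset.sum_congr rfl fun k _ => ?_
        rw [if_neg hj, if_pos hj', Q4.DD_C_mul, mul_comm]
      · rw [if_neg hj, if_neg hj', Q4.DD_sum, Finset.sum_range]
        refine Finset.sum_congr rfl fun k _ => ?_
        rw [if_neg hj, if_neg hj', Q4.DD_C_mul, mul_comm]
  unfold Q4.PhF
  rw [hM, Matrix.det_mul, hT]
  ring

/-! ### the expansion of `bp n` -/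

theorem sum_two (f : ℕ → ℂ[X]) (m : ℕ) :
    ∑ k ∈ Finset.range (2 * m), f k = ∑ i ∈ Finset.range m, (f (2 * i) + f (2 * i + 1)) := by
  induction m with
  | zero => rfl
  | succ m ih =>
    have e : 2 * (m + 1) = 2 * m + 1 + 1 := by ring
    rw [e, Finset.sum_range_succ, Finset.sum_range_succ, ih, Finset.sum_range_succ]
    ring

/-- the coefficients of `bp n` -/
def pp (n k : ℕ) : ℂ := if k % 2 = 0 then -(CDH.al (k / 2) * CDH.be (n - k / 2)) else CDH.al (n - k / 2) * CDH.be (k / 2)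

theorem bp_eq (n : ℕ) : CDH.bp n = ∑ k ∈ Finset.range (2 * n + 2), C (pp n k) * yb k := by
  have e0 : 2 * n + 2 = 2 * (n + 1) := by ring
  rw [e0, sum_two]
  have e1 : ∀ i ∈ Finset.range (n + 1), C (pp n (2 * i)) * yb (2 * i) + C (pp n (2 * i + 1)) * yb (2 * i + 1) =
      C (CDH.al (n - i) * CDH.be i) * X ^ (3 * i + 1) - C (CDH.al i * CDH.be (n - i)) * X ^ (3 * i) := by
    intro i _
    have h1 : pp n (2 * i) = -(CDH.al i * CDH.be (n - i)) := by
      unfold pp
      rw [if_pos (by omega)]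
      have : 2 * i / 2 = i := by omega
      rw [this]
    have h2 : pp n (2 * i + 1) = CDH.al (n - i) * CDH.be i := by
      unfold pp
      rw [if_neg (by omega)]
      have : (2 * i + 1) / 2 = i := by omega
      rw [this]
    have h3 : yb (2 * i) = X ^ (3 * i) := by
      unfold yb ye
      congr 1
      omega
    have h4 : yb (2 * i + 1) = X ^ (3 * i + 1) := by
      unfold yb ye
      congr 1
      omega
    rw [h1, h2, h3, h4, map_neg]
    ring
  rw [Finset.sum_congr rfl e1, Finset.sum_sub_distrib]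
  unfold CDH.bp
  have e2 : ∀ p ∈ Finset.HasAntidiagonal.antidiagonal n, C (CDH.al p.1 * CDH.be p.2) * ((X : ℂ[X]) ^ (3 * p.2 + 1) - X ^ (3 * p.1)) =
      C (CDH.al p.1 * CDH.be p.2) * X ^ (3 * p.2 + 1) - C (CDH.al p.1 * CDH.be p.2) * X ^ (3 * p.1) := by
    intro p _
    ring
  rw [Finset.sum_congr rfl e2, Finset.sum_sub_distrib]
  congr 1
  · rw [← Finset.Nat.sum_antidiagonal_swap,
      Finset.Nat.sum_antidiagonal_eq_sum_range_succ_mk]
    rfl
  · rw [Finset.Nat.sum_antidiagonal_eq_sum_range_succ_mk]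

/-- Euler derivative of a sum of monomials -/
theorem euler_sum (n : ℕ) (a : ℂ) : X * derivative (CDH.bp n) - C a * CDH.bp n =
    ∑ k ∈ Finset.range (2 * n + 2), C (((ye k : ℂ) - a) * pp n k) * yb k := by
  rw [bp_eq, derivative_sum, Finset.mul_sum, Finset.mul_sum, ← Finset.sum_sub_distrib]
  refine Finset.sum_congr rfl fun k _ => ?_
  unfold yb
  rw [derivative_C_mul, derivative_X_pow]
  have e : (X : ℂ[X]) * (C (pp n k) * (C (ye k : ℂ) * X ^ (ye k - 1))) = C ((ye k : ℂ) * pp n k) * X ^ ye k := by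
    rw [C_mul]
    rcases Nat.eq_zero_or_pos (ye k) with h | h
    · rw [h]
      simp
    · have h1 : (X : ℂ[X]) ^ ye k = X * X ^ (ye k - 1) := by
        rw [← pow_succ']
        congr 1
        omega
      rw [h1]
      ring
  rw [e, ← mul_assoc, ← C_mul, ← sub_mul, ← C_sub]
  congr 2
  ring

/-- THEOREM: the Schur function at `1^(2n), u, v` -/
theorem star (n : ℕ) {x : ℕ → ℂ} (hx : ∀ l, l < 2 * n → x l = 1) :
    CDH.al n * CDH.be n * ((x (2 * n) - 1) ^ (2 * n) * (x (2 * n + 1) - 1) ^ (2 * n) * (x (2 * n) - x (2 * n + 1)) *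
      Q4.PhF (2 * n + 2) yb x) =
    Q4.PhF (2 * n) yb (fun _ => 1) *
      ((CDH.bp n).eval (x (2 * n)) * (x (2 * n + 1) * (derivative (CDH.bp n)).eval (x (2 * n + 1))) -
        (x (2 * n) * (derivative (CDH.bp n)).eval (x (2 * n))) * (CDH.bp n).eval (x (2 * n + 1))) := by
  obtain ⟨Q, hQ, _, _, _⟩ := CDH.exists_Q n
  have hd : derivative (CDH.bp n) = (X - C 1) ^ (2 * n) * (C (2 * (n : ℂ) + 1) * Q + (X - C 1) * derivative Q) := by
    rw [hQ, derivative_mul, derivative_X_sub_C_pow]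
    rw [Nat.add_sub_cancel, pow_succ]
    push_cast
    simp only [map_add, map_mul, map_natCast, map_one, map_ofNat]
    ring
  have hb : CDH.bp n = (X - C 1) ^ (2 * n) * ((X - C 1) * Q) := by
    rw [hQ, pow_succ]
    ring
  -- the two members of the kernel
  have hP : -(X * derivative (CDH.bp n) - C (3 * (n : ℂ) + 1) * CDH.bp n) =
      ∑ k ∈ Finset.range (2 * n + 2), C (-(((ye k : ℂ) - (3 * (n : ℂ) + 1)) * pp n k)) * yb k := by
    rw [euler_sum, ← Finset.sum_neg_distrib]
    refine Finset.sum_congr rfl fun k _ => ?_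
    rw [C_neg]
    ring
  have hV := euler_sum n (3 * (n : ℂ))
  have h1 := PhF_cols (2 * n) yb (fun k => -(((ye k : ℂ) - (3 * (n : ℂ) + 1)) * pp n k))
    (fun k => ((ye k : ℂ) - 3 * (n : ℂ)) * pp n k) (by
      have e : ye (2 * n + 1) = 3 * n + 1 := by unfold ye; omega
      rw [e]
      push_cast
      ring) x
  rw [← hP, ← hV] at h1
  have hUe : -(X * derivative (CDH.bp n) - C (3 * (n : ℂ) + 1) * CDH.bp n) = (X - C 1) ^ (2 * n) *
      (C (3 * (n : ℂ) + 1) * ((X - C 1) * Q) - X * (C (2 * (n : ℂ) + 1) * Q + (X - C 1) * derivative Q)) := by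
    linear_combination C (3 * (n : ℂ) + 1) * hb - X * hd
  have hVe : X * derivative (CDH.bp n) - C (3 * (n : ℂ)) * CDH.bp n = (X - C 1) ^ (2 * n) *
      (X * (C (2 * (n : ℂ) + 1) * Q + (X - C 1) * derivative Q) - C (3 * (n : ℂ)) * ((X - C 1) * Q)) := by
    linear_combination X * hd - C (3 * (n : ℂ)) * hb
  have hUev := fun t : ℂ => congrArg (Polynomial.eval t) hUe
  have hVev := fun t : ℂ => congrArg (Polynomial.eval t) hVe
  rw [hUe, hVe, PhF_block (2 * n) yb _ _ hx] at h1
  have h2 := DD_pair (fun l => x (l + 2 * n))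
    (C (3 * (n : ℂ) + 1) * ((X - C 1) * Q) - X * (C (2 * (n : ℂ) + 1) * Q + (X - C 1) * derivative Q))
    (X * (C (2 * (n : ℂ) + 1) * Q + (X - C 1) * derivative Q) - C (3 * (n : ℂ)) * ((X - C 1) * Q))
  have e3 : (fun k => -(((ye k : ℂ) - (3 * (n : ℂ) + 1)) * pp n k)) (2 * n) *
      (fun k => ((ye k : ℂ) - 3 * (n : ℂ)) * pp n k) (2 * n + 1) = -(CDH.al n * CDH.be n) := by
    have e1 : ye (2 * n) = 3 * n := by unfold ye; omega
    have e2 : ye (2 * n + 1) = 3 * n + 1 := by unfold ye; omega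
    have e4 : pp n (2 * n) = -CDH.al n := by
      unfold pp
      have : 2 * n / 2 = n := by omega
      rw [if_pos (by omega), this, Nat.sub_self, CDH.be_zero, mul_one]
    have e5 : pp n (2 * n + 1) = CDH.be n := by
      unfold pp
      have : (2 * n + 1) / 2 = n := by omega
      rw [if_neg (by omega), this, Nat.sub_self, CDH.al_zero, one_mul]
    beta_reduce
    rw [e1, e2, e4, e5]
    push_cast
    ring
  rw [e3] at h1
  have hu := hUev (x (2 * n))
  have hu' := hUev (x (2 * n + 1))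
  have hv := hVev (x (2 * n))
  have hv' := hVev (x (2 * n + 1))
  have z0 : (0 : ℕ) + 2 * n = 2 * n := by ring
  have z1 : 1 + 2 * n = 2 * n + 1 := by ring
  rw [z0, z1] at h2
  generalize (C (3 * (n : ℂ) + 1) * ((X - C 1) * Q) - X * (C (2 * (n : ℂ) + 1) * Q + (X - C 1) * derivative Q)) = U at *
  generalize (X * (C (2 * (n : ℂ) + 1) * Q + (X - C 1) * derivative Q) - C (3 * (n : ℂ)) * ((X - C 1) * Q)) = V at *
  simp only [eval_neg, eval_sub, eval_mul, eval_X, eval_C, eval_pow] at hu hu' hv hv'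
  generalize (CDH.bp n).eval (x (2 * n)) = p0 at *
  generalize (CDH.bp n).eval (x (2 * n + 1)) = p1 at *
  generalize (derivative (CDH.bp n)).eval (x (2 * n)) = d0 at *
  generalize (derivative (CDH.bp n)).eval (x (2 * n + 1)) = d1 at *
  generalize (x (2 * n) - 1) ^ (2 * n) = A0 at *
  generalize (x (2 * n + 1) - 1) ^ (2 * n) = A1 at *
  generalize Q4.PhF (2 * n + 2) yb x = F at *
  generalize Q4.PhF (2 * n) yb (fun _ => 1) = G at *
  generalize (Q4.DD (fun l => x (l + 2 * n)) 0 U * Q4.DD (fun l => x (l + 2 * n)) 1 V -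
        Q4.DD (fun l => x (l + 2 * n)) 0 V * Q4.DD (fun l => x (l + 2 * n)) 1 U) = K at *
  generalize U.eval (x (2 * n)) = u0 at *
  generalize U.eval (x (2 * n + 1)) = u1 at *
  generalize V.eval (x (2 * n)) = v0 at *
  generalize V.eval (x (2 * n + 1)) = v1 at *
  have h3 : A0 * u0 * (A1 * v1) - A0 * v0 * (A1 * u1) = p0 * (x (2 * n + 1) * d1) - x (2 * n) * d0 * p1 := by
    rw [← hu, ← hu', ← hv, ← hv']
    ring
  linear_combination (A0 * A1 * (x (2 * n + 1) - x (2 * n))) * (-h1) + A0 * A1 * G * h2 + G * h3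

end CZ
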