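import Pool.Agent.Lib.MP_216314_pr.CZ.Yb

/-!
# Leading coefficients, a zero entry, and the value of the second Schur function at 1
-/

set_option autoImplicit false

noncomputable section

namespace CZ

open Polynomial

theorem PhF_lead (N d : ℕ) (g : ℕ → ℂ[X]) (hg : ∀ j, j < N → (g j).natDegree < N + d) (hN : (g N).natDegree ≤ N + d)
    (x : ℕ → ℂ) : ∃ p : ℂ[X], p.natDegree ≤ d ∧ p.coeff d = (g N).coeff (N + d) * Q4.PhF N g x ∧
      ∀ b : ℂ, Q4.PhF (N + 1) g (Function.update x N b) = p.eval b := by
  have hdeg : ∀ j : Fin (N + 1), (g j).natDegree ≤ N + d := by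
    intro j
    by_cases h : (j : ℕ) = N
    · rw [h]
      exact hN
    · exact (hg j (by have := j.2; omega)).le
  have h1 := fun j : Fin (N + 1) => SD_DD x N (g j) (hdeg j) (Nat.le_add_right N d)
  choose P hP1 hP2 hP3 using h1
  rw [Nat.add_sub_cancel_left] at hP1 hP2
  refine ⟨∑ j : Fin (N + 1), C ((-1) ^ (N + (j : ℕ)) *
    Matrix.det ((Matrix.of fun i j : Fin (N + 1) => Q4.DD x i (g j)).submatrix (Fin.last N).succAbove j.succAbove)) * P j,
    ?_, ?_, ?_⟩
  · refine Polynomial.natDegree_sum_le_of_forall_le _ _ ?_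
    intro j _
    exact (Polynomial.natDegree_C_mul_le _ _).trans (hP1 j)
  · rw [finsetSum_coeff, Finset.sum_eq_single (Fin.last N)]
    · rw [coeff_C_mul, hP2, Fin.val_last, ← two_mul, pow_mul, neg_one_sq, one_pow, one_mul, mul_comm]
      congr 1
      unfold Q4.PhF
      congr 1
      ext a c
      simp only [Matrix.submatrix_apply, Matrix.of_apply, Fin.succAbove_last, Fin.val_castSucc]
    · intro j _ hj
      have hj' : (j : ℕ) < N := by
        have h2 := j.2
        have h3 : (j : ℕ) ≠ N := fun h => hj (Fin.ext (by rw [h, Fin.val_last]))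
        omega
      rw [coeff_C_mul, hP2, coeff_eq_zero_of_natDegree_lt (hg j hj'), mul_zero]
    · intro h
      exact absurd (Finset.mem_univ _) h
  · intro b
    unfold Q4.PhF
    rw [Matrix.det_succ_row _ (Fin.last N), Polynomial.eval_finsetSum]
    refine Finset.sum_congr rfl ?_
    intro j _
    have hm : (Matrix.of fun i j : Fin (N + 1) => Q4.DD (Function.update x N b) i (g j)).submatrix
        (Fin.last N).succAbove j.succAbove =
        (Matrix.of fun i j : Fin (N + 1) => Q4.DD x i (g j)).submatrix (Fin.last N).succAbove j.succAbove := by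
      ext a c
      simp only [Matrix.submatrix_apply, Matrix.of_apply]
      refine Q4.DD_congr ?_ _
      intro l hl
      rw [Fin.succAbove_last] at hl
      have ha : ((Fin.castSucc a : Fin (N + 1)) : ℕ) < N := a.2
      refine Function.update_of_ne ?_ _ _
      omega
    rw [hm, Polynomial.eval_mul, Polynomial.eval_C]
    have hl : (Matrix.of fun i j : Fin (N + 1) => Q4.DD (Function.update x N b) i (g j)) (Fin.last N) j =
        (P j).eval b := by
      simp only [Matrix.of_apply, Fin.val_last]
      exact hP3 j b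
    rw [hl, Fin.val_last]
    ring

/-- degree and leading coefficient -/
theorem MS_lead (g : ℕ → ℂ[X]) {d : ℕ} (R : Multiset ℂ)
    (hg : ∀ j, j < Multiset.card R → (g j).natDegree < Multiset.card R + d)
    (hN : (g (Multiset.card R)).natDegree ≤ Multiset.card R + d) : ∃ p : ℂ[X], p.natDegree ≤ d ∧
    p.coeff d = (g (Multiset.card R)).coeff (Multiset.card R + d) * MS g R ∧ ∀ x, MS g (x ::ₘ R) = p.eval x := by
  induction R using Quotient.inductionOn with
  | h l =>
    obtain ⟨p, hp, hc, he⟩ := PhF_lead l.length d g hg hN (fun i => l.getD i 0)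
    refine ⟨p, hp, hc, fun x => ?_⟩
    rw [← he x]
    show ML g (x :: l) = _
    rw [ML_perm g (List.perm_append_singleton x l).symm]
    unfold ML
    rw [List.length_append, List.length_singleton]
    refine Q4.PhF_congr (fun j _ => rfl) fun j hj => ?_
    by_cases h : j = l.length
    · rw [h, Function.update_self]
      simp
    · rw [Function.update_of_ne h]
      have h1 : j < l.length := by omega
      exact List.getD_append l [x] 0 j h1

theorem PhF_zero_cons (N : ℕ) (g h : ℕ → ℂ[X]) (h0 : g 0 = 1) (h1 : ∀ j, g (j + 1) = X * h j) (x : ℕ → ℂ)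
    (hx : x 0 = 0) : Q4.PhF (N + 1) g x = Q4.PhF N h (fun l => x (l + 1)) := by
  unfold Q4.PhF
  rw [Matrix.det_succ_row_zero, Fin.sum_univ_succ]
  have e1 : ∑ i : Fin N, (-1) ^ ((i.succ : Fin (N + 1)) : ℕ) *
      (Matrix.of fun i j : Fin (N + 1) => Q4.DD x i (g j)) 0 i.succ *
      ((Matrix.of fun i j : Fin (N + 1) => Q4.DD x i (g j)).submatrix Fin.succ i.succ.succAbove).det = 0 := by
    refine Finset.sum_eq_zero fun i _ => ?_
    have e : (Matrix.of fun i j : Fin (N + 1) => Q4.DD x i (g j)) 0 i.succ = 0 := by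
      show Q4.DD x 0 (g (i + 1)) = 0
      rw [h1, Q4.DD_X_mul_zero, hx, zero_mul]
    rw [e, mul_zero, zero_mul]
  rw [e1, add_zero]
  have e2 : (Matrix.of fun i j : Fin (N + 1) => Q4.DD x i (g j)) 0 0 = 1 := by
    show Q4.DD x 0 (g 0) = 1
    rw [h0, Q4.DD_one, if_pos rfl]
  rw [e2, Fin.val_zero, pow_zero, one_mul, one_mul]
  congr 1
  ext i j
  rw [Matrix.submatrix_apply, Fin.succAbove_zero]
  show Q4.DD x (i + 1) (g (j + 1)) = Q4.DD (fun l => x (l + 1)) i (h j)
  have e3 := Q4.DD_root x i (h j)
  rw [hx, C_0, sub_zero] at e3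
  rw [h1, e3]

theorem MS_zero_cons (g h : ℕ → ℂ[X]) (h0 : g 0 = 1) (h1 : ∀ j, g (j + 1) = X * h j) (R : Multiset ℂ) :
    MS g (0 ::ₘ R) = MS h R := by
  induction R using Quotient.inductionOn with
  | h l =>
    show ML g (0 :: l) = ML h l
    unfold ML
    rw [List.length_cons]
    exact PhF_zero_cons l.length g h h0 h1 _ rfl

/-- exponents `0, 2, 3, 5, 6, 8, ...` -/
def ye' (j : ℕ) : ℕ := j + (j + 1) / 2

def yb' (j : ℕ) : ℂ[X] := X ^ ye' j

theorem yb_natDegree (j : ℕ) : (yb j).natDegree = ye j := natDegree_X_pow _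

theorem yb'_natDegree (j : ℕ) : (yb' j).natDegree = ye' j := natDegree_X_pow _

theorem yb_zero : yb 0 = 1 := by
  unfold yb ye
  rw [Nat.zero_div, Nat.add_zero, pow_zero]

theorem yb'_zero : yb' 0 = 1 := by
  unfold yb' ye'
  norm_num

theorem yb_succ (j : ℕ) : yb (j + 1) = X * yb' j := by
  unfold yb yb' ye ye'
  rw [← pow_succ']
  congr 1
  omega

/-- the value of `s_{Y'}` at `1` -/
theorem MS_yb' (n : ℕ) : CDH.al n * MS yb' (Multiset.replicate (2 * n) 1) =
    (3 * (n : ℂ) + 1) * CDH.be n * MS yb (Multiset.replicate (2 * n) 1) := by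
  obtain ⟨p, hp1, hp2, hp3⟩ := MS_lead yb' (d := n) (Multiset.replicate (2 * n) 1) (by
    intro j hj
    rw [Multiset.card_replicate] at hj ⊢
    rw [yb'_natDegree]
    unfold ye'
    omega) (by
    rw [Multiset.card_replicate, yb'_natDegree]
    unfold ye'
    omega)
  have hc : (yb' (Multiset.card (Multiset.replicate (2 * n) (1 : ℂ)))).coeff
      (Multiset.card (Multiset.replicate (2 * n) (1 : ℂ)) + n) = 1 := by
    rw [Multiset.card_replicate]
    have e : yb' (2 * n) = X ^ (2 * n + n) := by
      unfold yb' ye'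
      congr 1
      omega
    rw [e, coeff_X_pow_self]
  rw [hc, one_mul] at hp2
  -- the polynomial identity
  have key : C (CDH.al n) * ((X - C 1) ^ (2 * n) * (X * p)) = C (MS yb (Multiset.replicate (2 * n) 1)) *
      (X * derivative (CDH.bp n)) := by
    have hbe : CDH.be n ≠ 0 := by
      induction n with
      | zero => rw [CDH.be_zero]; exact one_ne_zero
      | succ n _ =>
        unfold CDH.be
        rw [Finset.prod_ne_zero_iff]
        intro j _
        apply one_div_ne_zero
        have h1 : ((j : ℂ) + 1) ≠ 0 := by exact_mod_cast Nat.succ_ne_zero j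
        have h2 : (3 * ((j : ℂ) + 1) + 1) ≠ 0 := by
          have : (3 * ((j : ℂ) + 1) + 1) = ((3 * j + 4 : ℕ) : ℂ) := by push_cast; ring
          rw [this, Nat.cast_ne_zero]
          omega
        exact mul_ne_zero (mul_ne_zero (by norm_num) h1) h2
    apply Polynomial.funext
    intro z
    let x : ℕ → ℂ := fun i => if i < 2 * n then 1 else if i = 2 * n then z else 0
    have x0 : x (2 * n) = z := by
      show (if 2 * n < 2 * n then (1 : ℂ) else if 2 * n = 2 * n then z else 0) = z
      rw [if_neg (by omega), if_pos rfl]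
    have x1 : x (2 * n + 1) = 0 := by
      show (if 2 * n + 1 < 2 * n then (1 : ℂ) else if 2 * n + 1 = 2 * n then z else 0) = 0
      rw [if_neg (by omega), if_neg (by omega)]
    have xl : ∀ l, l < 2 * n → x l = 1 := by
      intro l hl
      show (if l < 2 * n then (1 : ℂ) else if l = 2 * n then z else 0) = 1
      rw [if_pos hl]
    have h := star n xl
    have hM : (Multiset.range (2 * n)).map x = Multiset.replicate (2 * n) 1 := by
      have e : (Multiset.range (2 * n)).map x = (Multiset.range (2 * n)).map (fun _ => 1) := by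
        refine Multiset.map_congr rfl fun i hi => ?_
        rw [Multiset.mem_range] at hi
        exact xl i hi
      rw [e, Multiset.map_const', Multiset.card_range]
    have hF : Q4.PhF (2 * n + 2) yb x = MS yb (0 ::ₘ z ::ₘ Multiset.replicate (2 * n) 1) := by
      rw [PhF_MS, Multiset.range_succ, Multiset.range_succ, Multiset.map_cons, Multiset.map_cons, x0, x1, hM]
    have hG : Q4.PhF (2 * n) yb (fun _ => 1) = MS yb (Multiset.replicate (2 * n) 1) := by
      rw [PhF_MS, Multiset.map_const', Multiset.card_range]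
    have hP0 : (CDH.bp n).eval 0 = -CDH.be n := by
      rw [← coeff_zero_eq_eval_zero, CDH.bp_coeff_zero]
    rw [hF, hG, x0, x1, MS_zero_cons yb yb' yb_zero yb_succ, hp3, hP0] at h
    rw [eval_mul, eval_C, eval_mul, eval_pow, eval_sub, eval_X, eval_C, eval_mul, eval_X, eval_mul, eval_C, eval_mul,
      eval_X]
    have h2 : ((0 : ℂ) - 1) ^ (2 * n) = 1 := by
      rw [zero_sub, pow_mul, neg_one_sq, one_pow]
    rw [h2] at h
    apply mul_left_cancel₀ hbe
    linear_combination h
  have hm : ((X - C (1 : ℂ)) ^ (2 * n)).Monic := (monic_X_sub_C 1).pow _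
  have hdeg : ((X - C (1 : ℂ)) ^ (2 * n)).natDegree = 2 * n := by
    rw [natDegree_pow, natDegree_X_sub_C, mul_one]
  have h2 : ((X - C (1 : ℂ)) ^ (2 * n)).coeff (2 * n) = 1 := by
    have := hm.coeff_natDegree
    rwa [hdeg] at this
  have hXp : (X * p).natDegree ≤ n + 1 := by
    refine natDegree_mul_le.trans ?_
    have := natDegree_X_le (R := ℂ)
    omega
  have h3 := congrArg (fun q => q.coeff (2 * n + (n + 1))) key
  beta_reduce at h3
  rw [coeff_C_mul, coeff_C_mul, coeff_mul_add_eq_of_natDegree_le hdeg.le hXp, h2, one_mul, coeff_X_mul, hp2,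
    show 2 * n + (n + 1) = (3 * n) + 1 by ring, coeff_X_mul, coeff_derivative, CDH.bp_coeff_top] at h3
  rw [h3]
  push_cast
  ring

end CZ
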