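import Pool.Agent.Lib.MP_216314_pr.CZ.Yc
import Pool.Agent.Lib.MP_216314_pr.CZ.Sb

/-!
# Airy polynomials: the power series version, and the value of the sum at the homogeneous point
-/

set_option autoImplicit false

noncomputable section

namespace CZ

open PowerSeries CDH

/-- `z^N T(z + 1/z)` as a polynomial -/
def hat (N : ℕ) (T : Polynomial ℂ) : Polynomial ℂ :=
  ∑ k ∈ Finset.range (N + 1), Polynomial.C (T.coeff k) * ((Polynomial.X ^ 2 + 1) ^ k * Polynomial.X ^ (N - k))

theorem hat_eval {N : ℕ} {T : Polynomial ℂ} (hT : T.natDegree ≤ N) {z : ℂ} (hz : z ≠ 0) :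
    (hat N T).eval z = z ^ N * T.eval (z + z⁻¹) := by
  unfold hat
  rw [Polynomial.eval_finsetSum, Polynomial.eval_eq_sum_range' (Nat.lt_succ_of_le hT), Finset.mul_sum]
  refine Finset.sum_congr rfl fun k hk => ?_
  rw [Finset.mem_range] at hk
  simp only [Polynomial.eval_mul, Polynomial.eval_C, Polynomial.eval_pow, Polynomial.eval_add, Polynomial.eval_X,
    Polynomial.eval_one]
  have h1 : z ^ 2 + 1 = z * (z + z⁻¹) := by
    field_simp
  have h2 : z ^ N = z ^ k * z ^ (N - k) := by
    rw [← pow_add]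
    congr 1
    omega
  rw [h1, mul_pow, h2]
  ring

theorem hat_ev (N : ℕ) (T : Polynomial ℂ) (hT : T.natDegree ≤ N) :
    ev (hat N T) = E (2 * (N : ℤ)) * Polynomial.aeval xh T := by
  unfold hat
  rw [Polynomial.aeval_eq_sum_range' (Nat.lt_succ_of_le hT), map_sum, Finset.mul_sum]
  refine Finset.sum_congr rfl fun k hk => ?_
  rw [Finset.mem_range] at hk
  rw [map_mul, map_mul, ev_C, ev_X_pow, map_pow, map_add, ev_X_pow, map_one, PowerSeries.smul_eq_C_mul]
  have h1 : E (2 * ((2 : ℕ) : ℤ)) + 1 = E 2 * xh := by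
    unfold xh
    rw [mul_add, E_mul, E_mul]
    norm_num
    rw [E_zero]
  have h2 : E (2 * (N : ℤ)) = E 2 ^ k * E (2 * ((N - k : ℕ) : ℤ)) := by
    rw [E2_pow, E_mul]
    congr 1
    push_cast [Nat.cast_sub (show k ≤ N by omega)]
    ring
  rw [h1, mul_pow, h2]
  ring

theorem bp_recip (n : ℕ) {z : ℂ} (hz : z ≠ 0) : z ^ (3 * n + 1) * (bp n).eval z⁻¹ = -(bp n).eval z := by
  unfold bp
  rw [Polynomial.eval_finsetSum, Polynomial.eval_finsetSum, Finset.mul_sum, ← Finset.sum_neg_distrib]
  have e : ∀ p ∈ Finset.HasAntidiagonal.antidiagonal n,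
      z ^ (3 * n + 1) * (Polynomial.C (al p.1 * be p.2) * (Polynomial.X ^ (3 * p.2 + 1) - Polynomial.X ^ (3 * p.1))).eval z⁻¹ =
      -(Polynomial.C (al p.1 * be p.2) * (Polynomial.X ^ (3 * p.2 + 1) - Polynomial.X ^ (3 * p.1))).eval z := by
    intro p hp
    rw [Finset.HasAntidiagonal.mem_antidiagonal] at hp
    simp only [Polynomial.eval_mul, Polynomial.eval_C, Polynomial.eval_sub, Polynomial.eval_pow, Polynomial.eval_X]
    have h1 : z ^ (3 * n + 1) * z⁻¹ ^ (3 * p.2 + 1) = z ^ (3 * p.1) := by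
      have : 3 * n + 1 = 3 * p.1 + (3 * p.2 + 1) := by omega
      rw [this, pow_add, mul_assoc, ← mul_pow, mul_inv_cancel₀ hz, one_pow, mul_one]
    have h2 : z ^ (3 * n + 1) * z⁻¹ ^ (3 * p.1) = z ^ (3 * p.2 + 1) := by
      have : 3 * n + 1 = (3 * p.2 + 1) + 3 * p.1 := by omega
      rw [this, pow_add, mul_assoc, ← mul_pow, mul_inv_cancel₀ hz, one_pow, mul_one]
    linear_combination (al p.1 * be p.2) * h1 - (al p.1 * be p.2) * h2
  exact Finset.sum_congr rfl e

/-- the reciprocal relation for the derivative -/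
theorem bp_recip' (n : ℕ) {z : ℂ} (hz : z ≠ 0) :
    z ^ (3 * n + 1) * (z⁻¹ * (Polynomial.derivative (bp n)).eval z⁻¹) =
      z * (Polynomial.derivative (bp n)).eval z - (3 * (n : ℂ) + 1) * (bp n).eval z := by
  have hder : ∀ t : ℂ, t * (Polynomial.derivative (bp n)).eval t = ∑ p ∈ Finset.HasAntidiagonal.antidiagonal n,
      (al p.1 * be p.2) * ((3 * (p.2 : ℂ) + 1) * t ^ (3 * p.2 + 1) - 3 * (p.1 : ℂ) * t ^ (3 * p.1)) := by
    intro t
    unfold bp
    rw [Polynomial.derivative_sum, Polynomial.eval_finsetSum, Finset.mul_sum]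
    refine Finset.sum_congr rfl fun p _ => ?_
    rw [Polynomial.derivative_C_mul, Polynomial.derivative_sub, Polynomial.derivative_X_pow, Polynomial.derivative_X_pow]
    simp only [Polynomial.eval_mul, Polynomial.eval_C, Polynomial.eval_sub, Polynomial.eval_pow, Polynomial.eval_X]
    have h1 : t * ((3 * p.2 + 1 : ℕ) * t ^ (3 * p.2 + 1 - 1)) = (3 * (p.2 : ℂ) + 1) * t ^ (3 * p.2 + 1) := by
      rw [Nat.add_sub_cancel, pow_succ]
      push_cast
      ring
    have h2 : t * ((3 * p.1 : ℕ) * t ^ (3 * p.1 - 1)) = 3 * (p.1 : ℂ) * t ^ (3 * p.1) := by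
      rcases Nat.eq_zero_or_pos p.1 with h | h
      · rw [h]
        simp
      · have : t ^ (3 * p.1) = t * t ^ (3 * p.1 - 1) := by
          rw [← pow_succ']
          congr 1
          omega
        rw [this]
        push_cast
        ring
    linear_combination (al p.1 * be p.2) * h1 - (al p.1 * be p.2) * h2
  rw [hder, hder]
  unfold bp
  rw [Polynomial.eval_finsetSum, Finset.mul_sum, Finset.mul_sum, ← Finset.sum_sub_distrib]
  refine Finset.sum_congr rfl fun p hp => ?_
  rw [Finset.HasAntidiagonal.mem_antidiagonal] at hp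
  simp only [Polynomial.eval_mul, Polynomial.eval_C, Polynomial.eval_sub, Polynomial.eval_pow, Polynomial.eval_X]
  have h1 : z ^ (3 * n + 1) * z⁻¹ ^ (3 * p.2 + 1) = z ^ (3 * p.1) := by
    have : 3 * n + 1 = 3 * p.1 + (3 * p.2 + 1) := by omega
    rw [this, pow_add, mul_assoc, ← mul_pow, mul_inv_cancel₀ hz, one_pow, mul_one]
  have h2 : z ^ (3 * n + 1) * z⁻¹ ^ (3 * p.1) = z ^ (3 * p.2 + 1) := by
    have : 3 * n + 1 = (3 * p.2 + 1) + 3 * p.1 := by omega
    rw [this, pow_add, mul_assoc, ← mul_pow, mul_inv_cancel₀ hz, one_pow, mul_one]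
  have hn : (n : ℂ) = (p.1 : ℂ) + p.2 := by exact_mod_cast hp.symm
  rw [hn]
  linear_combination (al p.1 * be p.2 * (3 * (p.2 : ℂ) + 1)) * h1 - (al p.1 * be p.2 * (3 * (p.1 : ℂ))) * h2

/-- chain rule -/
theorem D_ev (p : Polynomial ℂ) : D (ev p) = 2 * E 2 * ev (Polynomial.derivative p) := by
  induction p using Polynomial.induction_on' with
  | add p q hp hq =>
    rw [map_add, D_add, hp, hq, Polynomial.derivative_add, map_add]
    ring
  | monomial k a =>
    rw [← Polynomial.C_mul_X_pow_eq_monomial, map_mul, ev_C, ev_X_pow, D_C_mul, D_E, Polynomial.derivative_C_mul,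
      Polynomial.derivative_X_pow, map_mul, map_mul, ev_C, ev_C, ev_X_pow]
    rcases Nat.eq_zero_or_pos k with h | h
    · rw [h]
      simp
    · have h1 : E (2 * (k : ℤ)) = E 2 * E (2 * ((k - 1 : ℕ) : ℤ)) := by
        rw [E_mul]
        congr 1
        push_cast [Nat.cast_sub (show 1 ≤ k by omega)]
        ring
      rw [h1]
      push_cast
      rw [map_mul, C2]
      ring

theorem ev_bp (n : ℕ) : ev (bp n) = E (3 * (n : ℤ) + 1) * Bw n := by
  have h := ev_rot n 1 1 1 (by norm_num) (by norm_num)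
  rw [map_one, map_one, one_mul, one_mul, Polynomial.comp_X] at h
  exact h.symm

/-- the Wronskian form -/
theorem wr_bp (n : ℕ) : 2 * E 2 * ev (Polynomial.derivative (bp n)) * ev (bp n) -
    PowerSeries.C (3 * (n : ℂ) + 1) * ev (bp n) ^ 2 = E (6 * (n : ℤ) + 2) * (Bw n * D (Bw n)) := by
  rw [← D_ev, ev_bp, D_mul, D_E]
  have h1 : E (6 * (n : ℤ) + 2) = E (3 * (n : ℤ) + 1) * E (3 * (n : ℤ) + 1) := by
    rw [E_mul]
    congr 1
    ring
  rw [h1]
  push_cast
  ring

/-- THEOREM (Airy Euler relation) -/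
theorem airy {n : ℕ} {pf : Polynomial ℂ} (hd : pf.natDegree ≤ n)
    (hf : ∀ u v : ℂ, u * v = 1 → MS yb (u ::ₘ v ::ₘ Multiset.replicate (2 * n) 1) = pf.eval (u + v)) :
    PowerSeries.C (al n * be n) * (sh * (Polynomial.aeval xh pf * (xh - 2) ^ (2 * n))) =
      PowerSeries.C (MS yb (Multiset.replicate (2 * n) 1)) * (Bw n * D (Bw n)) := by
  have hTd : (pf * (Polynomial.X - Polynomial.C 2) ^ (2 * n)).natDegree ≤ 3 * n := by
    refine Polynomial.natDegree_mul_le.trans ?_
    rw [Polynomial.natDegree_pow, Polynomial.natDegree_X_sub_C]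
    omega
  -- the polynomial identity
  have key : Polynomial.C (al n * be n) * (hat (3 * n) (pf * (Polynomial.X - Polynomial.C 2) ^ (2 * n)) *
      (Polynomial.X ^ 2 - 1)) = Polynomial.C (MS yb (Multiset.replicate (2 * n) 1)) *
      (2 * Polynomial.X * Polynomial.derivative (bp n) * bp n - Polynomial.C (3 * (n : ℂ) + 1) * bp n ^ 2) := by
    have hX : Polynomial.X * (Polynomial.C (al n * be n) * (hat (3 * n) (pf * (Polynomial.X - Polynomial.C 2) ^ (2 * n)) *
      (Polynomial.X ^ 2 - 1))) = Polynomial.X * (Polynomial.C (MS yb (Multiset.replicate (2 * n) 1)) *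
      (2 * Polynomial.X * Polynomial.derivative (bp n) * bp n - Polynomial.C (3 * (n : ℂ) + 1) * bp n ^ 2)) := by
      apply Polynomial.funext
      intro z
      by_cases hz : z = 0
      · rw [hz]
        simp
      let x : ℕ → ℂ := fun i => if i < 2 * n then 1 else if i = 2 * n then z else z⁻¹
      have x0 : x (2 * n) = z := by
        show (if 2 * n < 2 * n then (1 : ℂ) else if 2 * n = 2 * n then z else z⁻¹) = z
        rw [if_neg (by omega), if_pos rfl]
      have x1 : x (2 * n + 1) = z⁻¹ := by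
        show (if 2 * n + 1 < 2 * n then (1 : ℂ) else if 2 * n + 1 = 2 * n then z else z⁻¹) = z⁻¹
        rw [if_neg (by omega), if_neg (by omega)]
      have xl : ∀ l, l < 2 * n → x l = 1 := by
        intro l hl
        show (if l < 2 * n then (1 : ℂ) else if l = 2 * n then z else z⁻¹) = 1
        rw [if_pos hl]
      have h := star n xl
      have hM : (Multiset.range (2 * n)).map x = Multiset.replicate (2 * n) 1 := by
        have e : (Multiset.range (2 * n)).map x = (Multiset.range (2 * n)).map (fun _ => 1) := by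
          refine Multiset.map_congr rfl fun i hi => ?_
          rw [Multiset.mem_range] at hi
          exact xl i hi
        rw [e, Multiset.map_const', Multiset.card_range]
      have hF : Q4.PhF (2 * n + 2) yb x = MS yb (z⁻¹ ::ₘ z ::ₘ Multiset.replicate (2 * n) 1) := by
        rw [PhF_MS, Multiset.range_succ, Multiset.range_succ, Multiset.map_cons, Multiset.map_cons, x0, x1, hM]
      have hG : Q4.PhF (2 * n) yb (fun _ => 1) = MS yb (Multiset.replicate (2 * n) 1) := by
        rw [PhF_MS, Multiset.map_const', Multiset.card_range]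
      rw [hF, hG, x0, x1, hf _ _ (inv_mul_cancel₀ hz)] at h
      have r1 := bp_recip n hz
      have r2 := bp_recip' n hz
      simp only [Polynomial.eval_mul, Polynomial.eval_C, Polynomial.eval_sub, Polynomial.eval_pow, Polynomial.eval_X,
        Polynomial.eval_one, Polynomial.eval_ofNat]
      rw [hat_eval hTd hz]
      simp only [Polynomial.eval_mul, Polynomial.eval_C, Polynomial.eval_sub, Polynomial.eval_pow, Polynomial.eval_X]
      have hp : (z + z⁻¹ - 2) ^ (2 * n) = (z - 1) ^ (2 * n) * (z⁻¹ - 1) ^ (2 * n) := by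
        rw [← mul_pow]
        have : (z - 1) * (z⁻¹ - 1) = -(z + z⁻¹ - 2) := by
          have := mul_inv_cancel₀ hz
          linear_combination this
        rw [this, Even.neg_pow ⟨n, by ring⟩]
      have hz2 : z * (z ^ 2 - 1) = z ^ 2 * (z - z⁻¹) := by
        have := mul_inv_cancel₀ hz
        linear_combination z * this
      rw [hp]
      have hz1 : z⁻¹ + z = z + z⁻¹ := add_comm _ _
      rw [hz1] at h
      generalize (Polynomial.eval (z + z⁻¹) pf) = F at *
      generalize (Polynomial.eval z (bp n)) = P at *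
      generalize (Polynomial.eval z⁻¹ (bp n)) = P' at *
      generalize (Polynomial.eval z (Polynomial.derivative (bp n))) = d at *
      generalize (Polynomial.eval z⁻¹ (Polynomial.derivative (bp n))) = d' at *
      generalize MS yb (Multiset.replicate (2 * n) 1) = G at *
      generalize (z - 1) ^ (2 * n) = A0 at *
      generalize (z⁻¹ - 1) ^ (2 * n) = A1 at *
      have hpow : z ^ (3 * n + 1) = z ^ (3 * n) * z := pow_succ _ _
      have e1 : z * (al n * be n * (z ^ (3 * n) * (F * (A0 * A1)) * (z ^ 2 - 1))) =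
          z ^ (3 * n + 1) * z * (al n * be n * (A0 * A1 * (z - z⁻¹) * F)) := by
        rw [hpow]
        linear_combination (al n * be n * z ^ (3 * n) * F * A0 * A1) * hz2
      rw [e1, h]
      linear_combination (z * G * P) * r2 - (z * G * z * d) * r1
    exact mul_left_cancel₀ Polynomial.X_ne_zero hX
  have h2 := congrArg ev key
  rw [map_mul ev, map_mul ev, ev_C, hat_ev _ _ hTd, map_sub ev, ev_X_pow, map_one ev, map_mul ev, ev_C, map_sub ev,
    map_mul ev, map_mul ev, map_mul ev, map_mul ev, ev_C, map_pow ev] at h2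
  have hX2 : ev (2 : Polynomial ℂ) = 2 := map_ofNat ev 2
  have hXX : ev Polynomial.X = E 2 := by
    unfold ev
    rw [Polynomial.aeval_X]
  have hs : Polynomial.aeval xh (pf * (Polynomial.X - Polynomial.C 2) ^ (2 * n)) =
      Polynomial.aeval xh pf * (xh - 2) ^ (2 * n) := by
    rw [map_mul, map_pow, map_sub, Polynomial.aeval_X, Polynomial.aeval_C, PowerSeries.algebraMap_apply,
      Algebra.algebraMap_self_apply, C2]
  rw [hX2, hXX, wr_bp, hs] at h2
  have h4 : E (2 * ((2 : ℕ) : ℤ)) - 1 = E 2 * sh := by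
    unfold sh
    rw [mul_sub, E_mul, E_mul]
    norm_num
    rw [E_zero]
  rw [h4] at h2
  have h5 : E (6 * (n : ℤ) + 2) = E (2 * ((3 * n : ℕ) : ℤ)) * E 2 := by
    rw [E_mul]
    congr 1
    push_cast
    ring
  rw [h5] at h2
  have h6 : E (2 * ((3 * n : ℕ) : ℤ)) * E 2 * (E (-(2 * ((3 * n : ℕ) : ℤ))) * E (-2)) = 1 := by
    have a1 := E_ne (2 * ((3 * n : ℕ) : ℤ))
    have a2 := E_two_neg
    linear_combination (E 2 * E (-2)) * a1 + a2
  generalize E (2 * ((3 * n : ℕ) : ℤ)) = e1 at *
  generalize E (-(2 * ((3 * n : ℕ) : ℤ))) = e2 at *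
  linear_combination (e2 * E (-2)) * h2 - (PowerSeries.C (al n * be n) * (sh * (Polynomial.aeval xh pf * (xh - 2) ^ (2 * n))) -
      PowerSeries.C (MS yb (Multiset.replicate (2 * n) 1)) * (Bw n * D (Bw n))) * h6

/-- the function of the residue -/
theorem Gs_airy {n : ℕ} {pf : Polynomial ℂ} (hd : pf.natDegree ≤ n + 1)
    (hf : ∀ u v : ℂ, u * v = 1 → MS yb (u ::ₘ v ::ₘ Multiset.replicate (2 * (n + 1)) 1) = pf.eval (u + v)) :
    PowerSeries.C (be (n + 1) * be n) * Gs (2 * (n + 1)) pf =
      PowerSeries.C (MS yb' (Multiset.replicate (2 * (n + 1)) 1)) * (Bw (n + 1) * Bw n * (qh * xi)) := by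
  have h1 := airy hd hf
  have h2 := D_W 1 1 n
  have h2' : PowerSeries.C (3 * ((n : ℂ) + 1)) * D (Bw (n + 1)) = dl * Bw n := by
    have e : PowerSeries.C (3 * ((n : ℂ) + 1)) = 3 * ((n : PowerSeries ℂ) + 1) := by
      rw [map_mul, map_add, map_natCast, map_one, C3]
    rw [e]
    exact h2
  have h3 := dl_eq
  have h4 := t_mul_ti
  have h5 := MS_yb' (n + 1)
  -- scalars
  have hb := be_succ n
  have ha : al (n + 1) ≠ 0 := by
    unfold al
    rw [Finset.prod_ne_zero_iff]
    intro j _
    apply one_div_ne_zero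
    have h1 : ((j : ℂ) + 1) ≠ 0 := by exact_mod_cast Nat.succ_ne_zero j
    have h2 : (3 * ((j : ℂ) + 1) - 1) ≠ 0 := by
      have : (3 * ((j : ℂ) + 1) - 1) = ((3 * j + 2 : ℕ) : ℂ) := by push_cast; ring
      rw [this, Nat.cast_ne_zero]
      omega
    exact mul_ne_zero (mul_ne_zero (by norm_num) h1) h2
  have h6 : PowerSeries.C (al (n + 1) * be n) * (PowerSeries.C (be (n + 1)) *
      (sh * (Polynomial.aeval xh pf * (xh - 2) ^ (2 * (n + 1))))) =
      PowerSeries.C (al (n + 1) * MS yb' (Multiset.replicate (2 * (n + 1)) 1)) * (Bw (n + 1) * (dl * Bw n)) := by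
    rw [h5, ← h2']
    have e1 : PowerSeries.C (al (n + 1) * be n) * PowerSeries.C (be (n + 1)) =
        PowerSeries.C (be n) * PowerSeries.C (al (n + 1) * be (n + 1)) := by
      rw [← map_mul, ← map_mul]
      congr 1
      ring
    have e2 : PowerSeries.C ((3 * ((n + 1 : ℕ) : ℂ) + 1) * be (n + 1) * MS yb (Multiset.replicate (2 * (n + 1)) 1)) *
        PowerSeries.C (3 * ((n : ℂ) + 1)) =
        PowerSeries.C (be n) * PowerSeries.C (MS yb (Multiset.replicate (2 * (n + 1)) 1)) := by
      rw [← map_mul, ← map_mul, ← hb]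
      congr 1
      push_cast
      ring
    linear_combination (PowerSeries.C (be n)) * h1 +
      (sh * (Polynomial.aeval xh pf * (xh - 2) ^ (2 * (n + 1)))) * e1 - (Bw (n + 1) * D (Bw (n + 1))) * e2
  have h7 : PowerSeries.C (al (n + 1)) * (PowerSeries.C (be (n + 1) * be n) * Gs (2 * (n + 1)) pf) =
      PowerSeries.C (al (n + 1)) * (PowerSeries.C (MS yb' (Multiset.replicate (2 * (n + 1)) 1)) *
        (Bw (n + 1) * Bw n * (qh * xi))) := by
    unfold Gs
    rw [h3] at h6
    rw [map_mul, map_mul] at h6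
    rw [map_mul]
    linear_combination (xi * ti) * h6 + (PowerSeries.C (al (n + 1)) *
      PowerSeries.C (MS yb' (Multiset.replicate (2 * (n + 1)) 1)) * Bw (n + 1) * Bw n * qh * xi) * h4
  have hC : PowerSeries.C (al (n + 1)) ≠ (0 : PowerSeries ℂ) := by
    intro h
    apply ha
    have := congrArg (coeff 0) h
    rwa [coeff_zero_C, map_zero] at this
  exact mul_left_cancel₀ hC h7

end CZ
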