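import Pool.Agent.Lib.MP_216314_pr.CZ.Ye
import Pool.Agent.Lib.MP_216314_pr.CZ.Fin

/-!
# Strip = strip + cylinder: the right hand side at the homogeneous point
-/

set_option autoImplicit false

noncomputable section

namespace CZ

open Filter Topology CDH

theorem yb_deg (N : ℕ) : ∀ j, j < N + 2 → (yb j).natDegree ≤ N + 1 + (N + 1) / 2 := by
  intro j hj
  rw [yb_natDegree]
  unfold ye
  have h1 : j / 2 ≤ (N + 1) / 2 := Nat.div_le_div_right (by omega)
  omega

/-- the polynomial `x ↦ s_Y(B, z, 1/z)`, `x = z + 1/z` -/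
def yp (B : Multiset ℂ) : Polynomial ℂ := Classical.choose (MS_pair yb (d := (Multiset.card B + 1) / 2) B (yb_deg _))

theorem yp_natDegree (B : Multiset ℂ) : (yp B).natDegree ≤ (Multiset.card B + 1) / 2 :=
  (Classical.choose_spec (MS_pair yb (d := (Multiset.card B + 1) / 2) B (yb_deg _))).1

theorem yp_eval (B : Multiset ℂ) : ∀ u v : ℂ, u * v = 1 → MS yb (u ::ₘ v ::ₘ B) = (yp B).eval (u + v) :=
  (Classical.choose_spec (MS_pair yb (d := (Multiset.card B + 1) / 2) B (yb_deg _))).2

/-- the right hand side of the exact formula: `A` the `x`-variables of the strip, `B` the `z`-variables of the cylinder -/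
def FW (A B : Multiset ℂ) : ℂ := WB SS (fun x => (yp B).eval x) A (B.map PX.XX)

theorem FW_eq (A B : Multiset ℂ) : FW A B =
    (A.map (fun j => ((A.erase j).map (fun i => TT j i / (j - i))).prod * SS (A.erase j) *
      SS (A.erase j + B.map PX.XX) * (yp B).eval j)).sum := rfl

/-- the residue of the exact formula, `c = k + 1`, circumference `2 (n + 1)`, `L = k + 1 + 2 (n + 1)` -/
def RE (k n : ℕ) : ℂ := rs (2 * (k + 2 * (n + 1)) + 1)
  (Aw (k + 1) * Cw (k + 1 + 2 * (n + 1)) * Bw (n + 1) * Bw n * (qh * xi))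

/-- the value of `E(c, n)`, `c = k + 1` odd, circumference `2 (n + 1)` -/
def EE (k n : ℕ) : ℂ := -1 / 2 * (be (k + 1) * be (k + 1 + 2 * (n + 1)) * be (n + 1) * be n)⁻¹ * RE k n

/-- THEOREM: the right hand side at the homogeneous point -/
theorem FW_hom {k n : ℕ} (hk : Even k) {ι : Type} (l : Filter ι) (M : Multiset (ι → ℂ)) (hM : Multiset.card M = k + 1)
    (hlim : ∀ f ∈ M, Tendsto f l (𝓝 2)) (hG : ∀ᶠ e in l, Gen (M.map (fun f => f e))) :
    Tendsto (fun e => FW (M.map (fun f => f e)) (Multiset.replicate (2 * (n + 1)) 1)) l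
      (𝓝 (EE k n * SS (Multiset.replicate (k + 1) 2) * SS (Multiset.replicate (k + 1 + 2 * (n + 1)) 2) *
        MS yb' (Multiset.replicate (2 * (n + 1)) 1))) := by
  have hX : (Multiset.replicate (2 * (n + 1)) (1 : ℂ)).map PX.XX = Multiset.replicate (2 * (n + 1)) 2 := by
    rw [Multiset.map_replicate, XX_one]
  have h := WB_residue_W SS_char SS_L4 hk (b := 2 * (n + 1)) ⟨n + 1, by ring⟩
    (yp (Multiset.replicate (2 * (n + 1)) 1)) l M hM hlim hG
  have hd : (yp (Multiset.replicate (2 * (n + 1)) 1)).natDegree ≤ n + 1 := by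
    refine (yp_natDegree _).trans ?_
    rw [Multiset.card_replicate]
    omega
  have h1 := Gs_airy hd (yp_eval (Multiset.replicate (2 * (n + 1)) 1))
  have b1 := be_ne (k + 1)
  have b2 := be_ne (k + 1 + 2 * (n + 1))
  have b3 := be_ne (n + 1)
  have b4 := be_ne n
  have h2 : rs (2 * (k + 2 * (n + 1)) + 1) (Aw (k + 1) * Cw (k + 1 + 2 * (n + 1)) *
      Gs (2 * (n + 1)) (yp (Multiset.replicate (2 * (n + 1)) 1))) =
      (be (n + 1) * be n)⁻¹ * MS yb' (Multiset.replicate (2 * (n + 1)) 1) * RE k n := by
    have h3 : (be (n + 1) * be n) * rs (2 * (k + 2 * (n + 1)) + 1) (Aw (k + 1) * Cw (k + 1 + 2 * (n + 1)) *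
        Gs (2 * (n + 1)) (yp (Multiset.replicate (2 * (n + 1)) 1))) =
        MS yb' (Multiset.replicate (2 * (n + 1)) 1) * RE k n := by
      unfold RE
      rw [← rs_C, ← rs_C]
      congr 1
      linear_combination (Aw (k + 1) * Cw (k + 1 + 2 * (n + 1))) * h1
    rw [mul_assoc (be (n + 1) * be n)⁻¹, ← h3, inv_mul_cancel_left₀ (mul_ne_zero b3 b4)]
  rw [h2] at h
  unfold FW
  rw [hX]
  have e : EE k n * SS (Multiset.replicate (k + 1) 2) * SS (Multiset.replicate (k + 1 + 2 * (n + 1)) 2) *
      MS yb' (Multiset.replicate (2 * (n + 1)) 1) =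
      -1 / 2 * (SS (Multiset.replicate (k + 1) 2) / be (k + 1) * (SS (Multiset.replicate (k + 1 + 2 * (n + 1)) 2) /
        be (k + 1 + 2 * (n + 1)))) * ((be (n + 1) * be n)⁻¹ * MS yb' (Multiset.replicate (2 * (n + 1)) 1) * RE k n) := by
    unfold EE
    field_simp
  rw [e]
  exact h

/-- the normalisation does not vanish -/
theorem MS_yb_ne (n : ℕ) : MS yb (Multiset.replicate (2 * n) 1) ≠ 0 ∧ MS yb' (Multiset.replicate (2 * n) 1) ≠ 0 := by
  have hal : ∀ n : ℕ, al n ≠ 0 := by
    intro n
    unfold al
    rw [Finset.prod_ne_zero_iff]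
    intro j _
    apply one_div_ne_zero
    have h1 : ((j : ℂ) + 1) ≠ 0 := by exact_mod_cast Nat.succ_ne_zero j
    have h2 : (3 * ((j : ℂ) + 1) - 1) ≠ 0 := by
      have : (3 * ((j : ℂ) + 1) - 1) = ((3 * j + 2 : ℕ) : ℂ) := by push_cast; ring
      rw [this, Nat.cast_ne_zero]
      omega
    exact mul_ne_zero (mul_ne_zero (by norm_num) h1) h2
  have h3 : ∀ n : ℕ, (3 * (n : ℂ) + 1) ≠ 0 := by
    intro n
    have : (3 * (n : ℂ) + 1) = ((3 * n + 1 : ℕ) : ℂ) := by push_cast; ring
    rw [this, Nat.cast_ne_zero]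
    omega
  have key : MS yb (Multiset.replicate (2 * n) 1) ≠ 0 := by
    have hdet : MS yb (Multiset.replicate (2 * n) 1) =
        Matrix.det (Matrix.of fun i j : Fin (2 * n) => ((ye j).choose i : ℂ)) := by
      have hG : Q4.PhF (2 * n) yb (fun _ => 1) = MS yb (Multiset.replicate (2 * n) 1) := by
        rw [PhF_MS, Multiset.map_const', Multiset.card_range]
      rw [← hG]
      unfold Q4.PhF
      congr 1
      ext i j
      rw [Matrix.of_apply, Matrix.of_apply, yb, Q4.DD_X_pow, Q4.hh_one]
    intro h0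
    rw [hdet] at h0
    -- a nonzero vector in the kernel of the transpose gives a polynomial with too many roots
    obtain ⟨v, hv0, hv⟩ := Matrix.exists_vecMul_eq_zero_iff.mpr h0
    apply hv0
    -- the polynomial sum v_i choose(X, i) of degree < 2n vanishes at the 2n points ye j
    let P : Polynomial ℂ := ∑ i : Fin (2 * n), Polynomial.C (v i / ((i : ℕ).factorial : ℂ)) * (descPochhammer ℂ (i : ℕ))
    have hPe : ∀ m : ℕ, P.eval (m : ℂ) = ∑ i : Fin (2 * n), v i * ((m.choose i : ℕ) : ℂ) := by
      intro m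
      show (∑ i : Fin (2 * n), Polynomial.C (v i / ((i : ℕ).factorial : ℂ)) * (descPochhammer ℂ (i : ℕ))).eval (m : ℂ) = _
      rw [Polynomial.eval_finsetSum]
      refine Finset.sum_congr rfl fun i _ => ?_
      have hf : (((i : ℕ).factorial : ℕ) : ℂ) ≠ 0 := by exact_mod_cast Nat.factorial_ne_zero _
      rw [Polynomial.eval_mul, Polynomial.eval_C, descPochhammer_eval_eq_descFactorial,
        Nat.descFactorial_eq_factorial_mul_choose]
      push_cast
      field_simp
    have hroot : ∀ j : Fin (2 * n), P.eval ((ye j : ℕ) : ℂ) = 0 := by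
      intro j
      rw [hPe]
      have h1 := congrFun hv j
      rw [Matrix.vecMul, dotProduct] at h1
      simp only [Matrix.of_apply, Pi.zero_apply] at h1
      exact h1
    have hPdeg : P.natDegree ≤ 2 * n - 1 := by
      refine Polynomial.natDegree_sum_le_of_forall_le _ _ fun i _ => ?_
      refine (Polynomial.natDegree_C_mul_le _ _).trans ?_
      rw [descPochhammer_natDegree]
      have := i.2
      omega
    have hP0 : P = 0 := by
      by_contra hP
      have hcard := Polynomial.card_roots' P
      have hsub : (Finset.univ.image (fun j : Fin (2 * n) => ((ye j : ℕ) : ℂ))).val ≤ P.roots := by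
        rw [Finset.val_le_iff_val_subset]
        intro z hz
        rw [Finset.mem_val, Finset.mem_image] at hz
        obtain ⟨j, _, rfl⟩ := hz
        rw [Polynomial.mem_roots hP]
        exact hroot j
      have h4 := Multiset.card_le_card hsub
      have h5 : Multiset.card (Finset.univ.image (fun j : Fin (2 * n) => ((ye j : ℕ) : ℂ))).val = 2 * n := by
        rw [Finset.card_val, Finset.card_image_of_injective, Finset.card_univ, Fintype.card_fin]
        intro a b hab
        have hab'' : ((ye a : ℕ) : ℂ) = ((ye b : ℕ) : ℂ) := hab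
        have hab' : ye a = ye b := by exact_mod_cast hab''
        apply Fin.ext
        unfold ye at hab'
        omega
      have h6 : 0 < 2 * n := by
        by_contra hn
        have hn0 : 2 * n = 0 := by omega
        apply hP
        show ∑ i : Fin (2 * n), Polynomial.C (v i / ((i : ℕ).factorial : ℂ)) * (descPochhammer ℂ (i : ℕ)) = 0
        apply Finset.sum_eq_zero
        intro i _
        have := i.2
        omega
      omega
    -- hence v = 0
    funext i
    have hv' : ∀ m : ℕ, ∀ hm : m < 2 * n, v ⟨m, hm⟩ = 0 := by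
      intro m
      induction m using Nat.strong_induction_on with
      | _ m ih =>
        intro hm
        have h1 := hPe m
        rw [hP0, Polynomial.eval_zero, Finset.sum_eq_single (⟨m, hm⟩ : Fin (2 * n))] at h1
        · simp at h1
          exact h1.symm
        · intro b _ hb
          rcases lt_trichotomy (b : ℕ) m with h | h | h
          · rw [ih b h b.2, zero_mul]
          · exact absurd (Fin.ext h) hb
          · rw [Nat.choose_eq_zero_of_lt h, Nat.cast_zero, mul_zero]
        · intro h
          exact absurd (Finset.mem_univ _) h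
    exact hv' i i.2
  refine ⟨key, fun h => ?_⟩
  have h1 := MS_yb' n
  rw [h, mul_zero] at h1
  exact mul_ne_zero (mul_ne_zero (h3 n) (be_ne n)) key h1.symm

end CZ
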