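import Pool.Agent.Lib.MP_216314_pr.CZ.IsP

/-!
# The second identity `Z = 0` (helper54, section 1): definitions and the values at the nodes
-/

set_option autoImplicit false

noncomputable section

namespace CZ

open Polynomial Multiset

/-- `a, b, c` are the three roots of `X³ - 3X - C` for some `C` -/
def Tri (a b c : ℂ) : Prop := a + b + c = 0 ∧ a * b + a * c + b * c = -3

def TT (x y : ℂ) : ℂ := x ^ 2 + x * y + y ^ 2 - 3

def CC (x : ℂ) : ℂ := x ^ 3 - 3 * x

/-- the symplectic characters as functions of the multiset of the `x = z + 1/z` -/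
structure SChar (S : Multiset ℂ → ℂ) : Prop where
  zero : S 0 = 1
  two : ∀ a b, S (a ::ₘ b ::ₘ 0) = 1
  fus : ∀ a b c R, Tri a b c → S (a ::ₘ b ::ₘ R) = (R.map (fun r => r - c)).prod * S R
  poly : ∀ R : Multiset ℂ, IsP (card R / 2) (fun x => S (x ::ₘ R))

theorem Tri.sw {a b c : ℂ} (h : Tri a b c) : Tri b a c := ⟨by linear_combination h.1, by linear_combination h.2⟩

theorem Tri.rot {a b c : ℂ} (h : Tri a b c) : Tri b c a := ⟨by linear_combination h.1, by linear_combination h.2⟩

theorem Tri.TT_eq {a b c : ℂ} (h : Tri a b c) (x : ℂ) : TT a x = (x - b) * (x - c) := by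
  unfold TT
  have ha : a = -b - c := by linear_combination h.1
  have h2 : a * b + a * c + b * c = -3 := h.2
  rw [ha] at h2 ⊢
  linear_combination (-1 : ℂ) * h2

theorem Tri.TT_zero {a b c : ℂ} (h : Tri a b c) : TT a b = 0 := by
  rw [h.TT_eq]; ring

theorem TT_comm (x y : ℂ) : TT x y = TT y x := by unfold TT; ring

theorem TT_mul (x y : ℂ) : (y - x) * TT x y = CC y - CC x := by unfold TT CC; ring

theorem Tri.CC_eq {a b c : ℂ} (h : Tri a b c) : CC a = CC b := by
  have h1 := TT_mul a b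
  rw [h.TT_zero, mul_zero] at h1
  linear_combination h1

/-- `(v - a)(v - b)(v - c) = C(v) - C(a)` -/
theorem Tri.CC_sub {a b c : ℂ} (h : Tri a b c) (v : ℂ) : (v - a) * ((v - b) * (v - c)) = CC v - CC a := by
  rw [← h.TT_eq, TT_mul]

theorem exists_Tri (a : ℂ) : ∃ b c : ℂ, Tri a b c := by
  obtain ⟨s, hs⟩ := IsAlgClosed.exists_pow_nat_eq (12 - 3 * a ^ 2) (n := 2) (by norm_num)
  refine ⟨(-a + s) / 2, (-a - s) / 2, by ring, ?_⟩
  linear_combination (-1 / 4 : ℂ) * hs

theorem Tri.ne_of_CC {a b c : ℂ} (h : Tri a b c) (h2 : CC a ≠ 2) (h3 : CC a ≠ -2) : a ≠ b ∧ a ≠ c ∧ b ≠ c := by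
  have key : ∀ u v : ℂ, Tri u u v → CC u = 2 ∨ CC u = -2 := by
    intro u v huv
    have hv : v = -2 * u := by linear_combination huv.1
    have h4 : u ^ 2 = 1 := by
      have := huv.2
      rw [hv] at this
      linear_combination (-1 / 3 : ℂ) * this
    have h5 : (u - 1) * (u + 1) = 0 := by linear_combination h4
    rcases mul_eq_zero.mp h5 with h6 | h6
    · right
      have : u = 1 := by linear_combination h6
      rw [this]; unfold CC; norm_num
    · left
      have : u = -1 := by linear_combination h6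
      rw [this]; unfold CC; norm_num
  refine ⟨fun hab => ?_, fun hac => ?_, fun hbc => ?_⟩
  · subst hab
    rcases key a c h with h4 | h4
    · exact h2 h4
    · exact h3 h4
  · subst hac
    have h' : Tri a a b := ⟨by linear_combination h.1, by linear_combination h.2⟩
    rcases key a b h' with h4 | h4
    · exact h2 h4
    · exact h3 h4
  · subst hbc
    have h' : Tri b b a := ⟨by linear_combination h.1, by linear_combination h.2⟩
    have h'' := h'.rot.rot.CC_eq
    rcases key b a h' with h4 | h4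
    · exact h2 (h''.trans h4)
    · exact h3 (h''.trans h4)

/-- generic multisets -/
def Gen (M : Multiset ℂ) : Prop := (M.map CC).Nodup ∧ ∀ x ∈ M, CC x ≠ 2 ∧ CC x ≠ -2

theorem Gen.mono {M N : Multiset ℂ} (h : Gen M) (hN : N ≤ M) : Gen N :=
  ⟨Multiset.nodup_of_le (Multiset.map_le_map hN) h.1, fun x hx => h.2 x (Multiset.mem_of_le hN hx)⟩

theorem Gen.ne_cons {a : ℂ} {M : Multiset ℂ} (h : Gen (a ::ₘ M)) : ∀ x ∈ M, CC a ≠ CC x := by
  intro x hx hax
  have h1 := h.1
  rw [Multiset.map_cons, Multiset.nodup_cons] at h1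
  exact h1.1 (hax ▸ Multiset.mem_map_of_mem CC hx)

theorem erase_cons' {a j : ℂ} {A : Multiset ℂ} (hj : j ∈ A) : (a ::ₘ A).erase j = a ::ₘ A.erase j := by
  by_cases h : a = j
  · subst h
    rw [Multiset.erase_cons_head, Multiset.cons_erase hj]
  · exact Multiset.erase_cons_tail A (by simpa using h)

variable (S : Multiset ℂ → ℂ) (A B : Multiset ℂ) (τ Y : ℂ)

def Gj (j : ℂ) : ℂ := (j - Y) / (j - τ) * ((A.erase j).map (fun i => TT j i / (j - i))).prod *
  S (A.erase j) * S (τ ::ₘ (A.erase j + B)) * S (j ::ₘ B)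

def Gt : ℂ := (A.map (fun i => (i - Y) / (τ - i))).prod * S (Y ::ₘ A) * S (A + B) * S (τ ::ₘ B)

def ZZ : ℂ := (A.map (Gj S A B τ Y)).sum + Gt S A B τ Y

end CZ
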