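import Pool.Agent.Lib.MP_216314_pr.CZ.Zd

/-!
# `Z = 0`: base case, fusion in `A`, fusion in `B`
-/

set_option autoImplicit false

noncomputable section

namespace CZ

open Polynomial Multiset

theorem ZZ_single {S : Multiset ℂ → ℂ} (hS : SChar S) (a : ℂ) (B : Multiset ℂ) (τ Y : ℂ) (h : a ≠ τ) :
    ZZ S {a} B τ Y = 0 := by
  have h1 : a - τ ≠ 0 := sub_ne_zero.mpr h
  have h2 : τ - a ≠ 0 := sub_ne_zero.mpr (Ne.symm h)
  unfold ZZ Gj Gt
  rw [Multiset.map_singleton, Multiset.sum_singleton, Multiset.erase_singleton, Multiset.map_zero, Multiset.prod_zero,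
    Multiset.map_singleton, Multiset.prod_singleton, hS.zero, zero_add]
  have e1 : S (Y ::ₘ {a}) = 1 := hS.two Y a
  have e2 : ({a} : Multiset ℂ) + B = a ::ₘ B := Multiset.singleton_add a B
  rw [e1, e2]
  field_simp
  ring

theorem Ze_mem {j : ℂ} {M : Multiset ℂ} (hj : j ∈ M) (f : ℂ → ℂ) :
    (M.map f).prod = f j * ((M.erase j).map f).prod := by
  conv_lhs => rw [← Multiset.cons_erase hj]
  rw [Multiset.map_cons, Multiset.prod_cons]

theorem ZZ_fuseA {S : Multiset ℂ → ℂ} (hS : SChar S) {w i y τ Y : ℂ} (A B : Multiset ℂ)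
    (h : Tri w i y) (hY : CC Y = CC τ) (hA : ∀ j ∈ A, j ≠ w ∧ j ≠ i) (h1 : τ ≠ w) (h2 : τ ≠ i) :
    ZZ S (w ::ₘ i ::ₘ A) B τ Y = ((A.map (fun r => r - y)).prod * ((τ ::ₘ (A + B)).map (fun r => r - y)).prod) *
      ZZ S A B τ Y := by
  have e1 : Gj S (w ::ₘ i ::ₘ A) B τ Y w = 0 := by
    unfold Gj
    rw [Multiset.erase_cons_head, Multiset.map_cons, Multiset.prod_cons, h.TT_zero]
    ring
  have e2 : Gj S (w ::ₘ i ::ₘ A) B τ Y i = 0 := by
    unfold Gj
    rw [erase_cons' (Multiset.mem_cons_self i A), Multiset.erase_cons_head, Multiset.map_cons, Multiset.prod_cons,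
      h.sw.TT_zero]
    ring
  have e3 : ∀ j ∈ A, Gj S (w ::ₘ i ::ₘ A) B τ Y j =
      ((A.map (fun r => r - y)).prod * ((τ ::ₘ (A + B)).map (fun r => r - y)).prod) * Gj S A B τ Y j := by
    intro j hj
    obtain ⟨hjw, hji⟩ := hA j hj
    have hw : j - w ≠ 0 := sub_ne_zero.mpr hjw
    have hi : j - i ≠ 0 := sub_ne_zero.mpr hji
    unfold Gj
    rw [erase_cons' (Multiset.mem_cons_of_mem hj), erase_cons' hj, Multiset.map_cons, Multiset.prod_cons,
      Multiset.map_cons, Multiset.prod_cons, hS.fus w i y _ h]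
    have e4 : τ ::ₘ (w ::ₘ i ::ₘ A.erase j + B) = w ::ₘ i ::ₘ (τ ::ₘ (A.erase j + B)) := by
      rw [Multiset.cons_add, Multiset.cons_add, Multiset.cons_swap τ w, Multiset.cons_swap τ i]
    rw [e4, hS.fus w i y _ h, Multiset.map_cons, Multiset.prod_cons, Multiset.map_add, Multiset.prod_add,
      Multiset.map_cons, Multiset.prod_cons, Multiset.map_add, Multiset.prod_add, Ze_mem hj (fun r => r - y),
      TT_comm j w, TT_comm j i, h.TT_eq j, h.sw.TT_eq j]
    have k : (j - i) * (j - y) / (j - w) * ((j - w) * (j - y) / (j - i)) = (j - y) * (j - y) := by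
      field_simp
    generalize ((A.erase j).map (fun i => TT j i / (j - i))).prod = P1
    generalize ((A.erase j).map (fun r => r - y)).prod = P2
    generalize (B.map (fun r => r - y)).prod = P3
    generalize S (A.erase j) = P4
    generalize S (τ ::ₘ (A.erase j + B)) = P5
    generalize S (j ::ₘ B) = P6
    generalize (j - Y) / (j - τ) = P7
    linear_combination (P7 * P1 * P2 * P4 * (τ - y) * P2 * P3 * P5 * P6) * k
  have e5 : Gt S (w ::ₘ i ::ₘ A) B τ Y =
      ((A.map (fun r => r - y)).prod * ((τ ::ₘ (A + B)).map (fun r => r - y)).prod) * Gt S A B τ Y := by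
    have hw : τ - w ≠ 0 := sub_ne_zero.mpr h1
    have hi : τ - i ≠ 0 := sub_ne_zero.mpr h2
    have k1 := h.CC_sub Y
    have k2 := h.CC_sub τ
    have k3 : (w - Y) / (τ - w) * ((i - Y) / (τ - i)) * (Y - y) = τ - y := by
      field_simp
      linear_combination k1 - k2 + hY
    unfold Gt
    have e6 : Y ::ₘ w ::ₘ i ::ₘ A = w ::ₘ i ::ₘ (Y ::ₘ A) := by
      rw [Multiset.cons_swap Y w, Multiset.cons_swap Y i]
    rw [e6, hS.fus w i y _ h, Multiset.cons_add, Multiset.cons_add, hS.fus w i y _ h, Multiset.map_cons,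
      Multiset.prod_cons, Multiset.map_cons, Multiset.prod_cons, Multiset.map_cons, Multiset.prod_cons,
      Multiset.map_add, Multiset.prod_add, Multiset.map_cons, Multiset.prod_cons, Multiset.map_add, Multiset.prod_add,
      ← k3]
    ring
  have e7 : (A.map (Gj S (w ::ₘ i ::ₘ A) B τ Y)).sum =
      ((A.map (fun r => r - y)).prod * ((τ ::ₘ (A + B)).map (fun r => r - y)).prod) *
        (A.map (Gj S A B τ Y)).sum := by
    rw [← Multiset.sum_map_mul_left]
    exact congrArg Multiset.sum (Multiset.map_congr rfl e3)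
  unfold ZZ
  rw [Multiset.map_cons, Multiset.sum_cons, Multiset.map_cons, Multiset.sum_cons, e1, e2, e5, e7]
  ring

theorem ZZ_fuseB {S : Multiset ℂ → ℂ} (hS : SChar S) {b b' y τ Y : ℂ} (A B : Multiset ℂ)
    (h : Tri b b' y) :
    ZZ S A (b ::ₘ b' ::ₘ B) τ Y = (((τ ::ₘ A).map (fun r => r - y)).prod * ((B.map (fun r => r - y)).prod) ^ 2) *
      ZZ S A B τ Y := by
  have e3 : ∀ j ∈ A, Gj S A (b ::ₘ b' ::ₘ B) τ Y j =
      (((τ ::ₘ A).map (fun r => r - y)).prod * ((B.map (fun r => r - y)).prod) ^ 2) * Gj S A B τ Y j := by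
    intro j hj
    unfold Gj
    have e4 : τ ::ₘ (A.erase j + b ::ₘ b' ::ₘ B) = b ::ₘ b' ::ₘ (τ ::ₘ (A.erase j + B)) := by
      rw [Multiset.add_cons, Multiset.add_cons, Multiset.cons_swap τ b, Multiset.cons_swap τ b']
    have e6 : j ::ₘ b ::ₘ b' ::ₘ B = b ::ₘ b' ::ₘ (j ::ₘ B) := by
      rw [Multiset.cons_swap j b, Multiset.cons_swap j b']
    rw [e4, hS.fus b b' y _ h, e6, hS.fus b b' y _ h, Multiset.map_cons, Multiset.prod_cons, Multiset.map_add,
      Multiset.prod_add, Multiset.map_cons, Multiset.prod_cons, Multiset.map_cons, Multiset.prod_cons,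
      Ze_mem hj (fun r => r - y)]
    ring
  have e5 : Gt S A (b ::ₘ b' ::ₘ B) τ Y =
      (((τ ::ₘ A).map (fun r => r - y)).prod * ((B.map (fun r => r - y)).prod) ^ 2) * Gt S A B τ Y := by
    unfold Gt
    have e4 : A + b ::ₘ b' ::ₘ B = b ::ₘ b' ::ₘ (A + B) := by
      rw [Multiset.add_cons, Multiset.add_cons]
    have e6 : τ ::ₘ b ::ₘ b' ::ₘ B = b ::ₘ b' ::ₘ (τ ::ₘ B) := by
      rw [Multiset.cons_swap τ b, Multiset.cons_swap τ b']
    rw [e4, hS.fus b b' y _ h, e6, hS.fus b b' y _ h, Multiset.map_cons, Multiset.prod_cons, Multiset.map_add,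
      Multiset.prod_add, Multiset.map_cons, Multiset.prod_cons]
    ring
  have e7 : (A.map (Gj S A (b ::ₘ b' ::ₘ B) τ Y)).sum =
      (((τ ::ₘ A).map (fun r => r - y)).prod * ((B.map (fun r => r - y)).prod) ^ 2) *
        (A.map (Gj S A B τ Y)).sum := by
    rw [← Multiset.sum_map_mul_left]
    exact congrArg Multiset.sum (Multiset.map_congr rfl e3)
  unfold ZZ
  rw [e5, e7]
  ring

end CZ
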