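import Pool.Agent.Lib.MP_216314_pr.CZ.Ze

/-!
# `Z = 0`: the numerator as a polynomial in one variable of `A`, and in one variable of `B`
-/

set_option autoImplicit false

noncomputable section

namespace CZ

open Polynomial Multiset

variable (S : Multiset ℂ → ℂ) (A B : Multiset ℂ) (τ Y : ℂ)

/-- the coefficient of the term of `j` -/
def cj (j : ℂ) : ℂ := (j - Y) / (j - τ) * ((A.erase j).map (fun i => TT j i / (j - i))).prod * S (j ::ₘ B)

def NA (a : ℂ) : ℂ :=
  (a - Y) * (A.map (fun i => TT a i)).prod * (S A * S (τ ::ₘ (A + B))) * S (a ::ₘ B) +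
  (A.map (fun j => -(cj S A B τ Y j) * (TT j a * (a - τ) * ((A.erase j).map (fun i => a - i)).prod *
    S (a ::ₘ A.erase j) * S (a ::ₘ τ ::ₘ (A.erase j + B))))).sum -
  (a - Y) * (A.map (fun i => a - i)).prod * ((A.map (fun i => (i - Y) / (τ - i))).prod * S (τ ::ₘ B)) *
    (S (a ::ₘ Y ::ₘ A) * S (a ::ₘ (A + B)))

theorem NA_eq {a : ℂ} (ha : ∀ i ∈ A, a ≠ i) (h : a ≠ τ) :
    NA S A B τ Y a = ((a - τ) * (A.map (fun i => a - i)).prod) * ZZ S (a ::ₘ A) B τ Y := by
  have h1 : a - τ ≠ 0 := sub_ne_zero.mpr h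
  have h1' : τ - a ≠ 0 := sub_ne_zero.mpr (Ne.symm h)
  have hD : (A.map (fun i => a - i)).prod ≠ 0 := by
    apply Multiset.prod_ne_zero
    intro h0
    rw [Multiset.mem_map] at h0
    obtain ⟨i, hi, h2⟩ := h0
    exact ha i hi (by linear_combination h2)
  have e1 : ((a - τ) * (A.map (fun i => a - i)).prod) * Gj S (a ::ₘ A) B τ Y a =
      (a - Y) * (A.map (fun i => TT a i)).prod * (S A * S (τ ::ₘ (A + B))) * S (a ::ₘ B) := by
    unfold Gj
    rw [Multiset.erase_cons_head, Multiset.prod_map_div]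
    generalize (A.map (fun i => TT a i)).prod = P1
    generalize S A = P2
    generalize S (τ ::ₘ (A + B)) = P3
    generalize S (a ::ₘ B) = P4
    generalize (A.map (fun i => a - i)).prod = P5 at hD ⊢
    field_simp
  have e2 : ∀ j ∈ A, ((a - τ) * (A.map (fun i => a - i)).prod) * Gj S (a ::ₘ A) B τ Y j =
      -(cj S A B τ Y j) * (TT j a * (a - τ) * ((A.erase j).map (fun i => a - i)).prod *
    S (a ::ₘ A.erase j) * S (a ::ₘ τ ::ₘ (A.erase j + B))) := by
    intro j hj
    have hja : j - a ≠ 0 := sub_ne_zero.mpr (Ne.symm (ha j hj))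
    unfold Gj cj
    rw [erase_cons' hj, Multiset.map_cons, Multiset.prod_cons, Ze_mem hj (fun i => a - i), Multiset.cons_add,
      Multiset.cons_swap τ a]
    have k : (a - j) * (TT j a / (j - a)) = - TT j a := by
      field_simp
      ring
    generalize ((A.erase j).map (fun i => a - i)).prod = P1
    generalize ((A.erase j).map (fun i => TT j i / (j - i))).prod = P2
    generalize S (a ::ₘ A.erase j) = P3
    generalize S (a ::ₘ τ ::ₘ (A.erase j + B)) = P4
    generalize S (j ::ₘ B) = P5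
    generalize (j - Y) / (j - τ) = P6
    linear_combination ((a - τ) * P1 * P6 * P2 * P3 * P4 * P5) * k
  have e3 : ((a - τ) * (A.map (fun i => a - i)).prod) * Gt S (a ::ₘ A) B τ Y =
      -((a - Y) * (A.map (fun i => a - i)).prod * ((A.map (fun i => (i - Y) / (τ - i))).prod * S (τ ::ₘ B)) *
    (S (a ::ₘ Y ::ₘ A) * S (a ::ₘ (A + B)))) := by
    unfold Gt
    rw [Multiset.map_cons, Multiset.prod_cons, Multiset.cons_add, Multiset.cons_swap Y a]
    have k : (a - τ) * ((a - Y) / (τ - a)) = - (a - Y) := by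
      field_simp
      ring
    generalize (A.map (fun i => a - i)).prod = P1
    generalize (A.map (fun i => (i - Y) / (τ - i))).prod = P2
    generalize S (a ::ₘ Y ::ₘ A) = P3
    generalize S (a ::ₘ (A + B)) = P4
    generalize S (τ ::ₘ B) = P5
    linear_combination (P1 * P2 * P3 * P4 * P5) * k
  have e4 : ((a - τ) * (A.map (fun i => a - i)).prod) * (A.map (Gj S (a ::ₘ A) B τ Y)).sum =
      (A.map (fun j => -(cj S A B τ Y j) * (TT j a * (a - τ) * ((A.erase j).map (fun i => a - i)).prod *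
    S (a ::ₘ A.erase j) * S (a ::ₘ τ ::ₘ (A.erase j + B))))).sum := by
    rw [← Multiset.sum_map_mul_left]
    exact congrArg Multiset.sum (Multiset.map_congr rfl e2)
  unfold ZZ NA
  rw [Multiset.map_cons, Multiset.sum_cons, mul_add, mul_add, e1, e3, e4]
  ring

theorem NA_mem {S : Multiset ℂ → ℂ} {i : ℂ} (hi : i ∈ A) (hd : A.Nodup) (h : ∀ j ∈ A, j ≠ τ) :
    NA S A B τ Y i = 0 := by
  obtain ⟨A', rfl⟩ := Multiset.exists_cons_of_mem hi
  rw [Multiset.nodup_cons] at hd
  have hiτ : i - τ ≠ 0 := sub_ne_zero.mpr (h i (Multiset.mem_cons_self i A'))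
  have hD : (A'.map (fun j => i - j)).prod ≠ 0 := by
    apply Multiset.prod_ne_zero
    intro h0
    rw [Multiset.mem_map] at h0
    obtain ⟨j, hj, h2⟩ := h0
    exact hd.1 (by rwa [show i = j by linear_combination h2])
  unfold NA
  have e3 : ((i ::ₘ A').map (fun j => i - j)).prod = 0 := by
    rw [Multiset.map_cons, Multiset.prod_cons, sub_self, zero_mul]
  have e2 : (A'.map (fun j => -(cj S (i ::ₘ A') B τ Y j) * (TT j i * (i - τ) *
      (((i ::ₘ A').erase j).map (fun l => i - l)).prod *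
      S (i ::ₘ (i ::ₘ A').erase j) * S (i ::ₘ τ ::ₘ ((i ::ₘ A').erase j + B))))).sum = 0 := by
    apply Multiset.sum_eq_zero
    intro x hx
    rw [Multiset.mem_map] at hx
    obtain ⟨j, hj, rfl⟩ := hx
    rw [erase_cons' hj, Multiset.map_cons, Multiset.prod_cons, sub_self]
    ring
  rw [e3, Multiset.map_cons, Multiset.prod_cons, Multiset.map_cons, Multiset.sum_cons, e2]
  unfold cj
  rw [Multiset.erase_cons_head, Multiset.map_cons, Multiset.prod_cons, Multiset.prod_map_div,
    Multiset.cons_swap i τ, Multiset.cons_add i A' B]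
  generalize (A'.map (fun l => TT i l)).prod = P1
  generalize S (i ::ₘ A') = P2
  generalize S (τ ::ₘ i ::ₘ (A' + B)) = P3
  generalize S (i ::ₘ B) = P4
  generalize (A'.map (fun l => i - l)).prod = P5 at hD ⊢
  field_simp
  ring

theorem NA_tau {S : Multiset ℂ → ℂ} (hS : SChar S) {Y' : ℂ} (hT : Tri τ Y Y') (h : ∀ j ∈ A, j ≠ τ) :
    NA S A B τ Y τ = 0 := by
  have e2 : (A.map (fun j => -(cj S A B τ Y j) * (TT j τ * (τ - τ) *
      ((A.erase j).map (fun l => τ - l)).prod *
      S (τ ::ₘ A.erase j) * S (τ ::ₘ τ ::ₘ (A.erase j + B))))).sum = 0 := by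
    apply Multiset.sum_eq_zero
    intro x hx
    rw [Multiset.mem_map] at hx
    obtain ⟨j, hj, rfl⟩ := hx
    rw [sub_self]
    ring
  have e4 : (A.map (fun i => TT τ i)).prod = (A.map (fun i => i - Y)).prod * (A.map (fun i => i - Y')).prod := by
    rw [← Multiset.prod_map_mul]
    exact congrArg Multiset.prod (Multiset.map_congr rfl (fun i _ => hT.TT_eq i))
  have hD : (A.map (fun j => τ - j)).prod ≠ 0 := by
    apply Multiset.prod_ne_zero
    intro h0
    rw [Multiset.mem_map] at h0
    obtain ⟨j, hj, h2⟩ := h0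
    exact h j hj (by linear_combination -h2)
  unfold NA
  rw [e2, e4, hS.fus τ Y Y' A hT, Multiset.prod_map_div]
  generalize (A.map (fun i => τ - i)).prod = P1 at hD ⊢
  generalize (A.map (fun i => i - Y)).prod = P2
  generalize (A.map (fun i => i - Y')).prod = P3
  generalize S (τ ::ₘ (A + B)) = P4
  generalize S (τ ::ₘ B) = P5
  generalize S A = P6
  field_simp
  ring

theorem TT_IsP (x : ℂ) : IsP 2 (fun a => TT a x) := by
  have h1 := (IsP.id.mul IsP.id).add ((IsP.id.mul (IsP.const 0 x)).mono (show 1 + 0 ≤ 1 + 1 by norm_num))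
  exact (h1.add (IsP.const (1 + 1) (x ^ 2 - 3))).congr (fun a => by unfold TT; ring)

theorem NA_IsP {S : Multiset ℂ → ℂ} (hS : SChar S) {k m : ℕ} (hA : card A = 2 * k) (hB : card B = 2 * m + 1) :
    IsP (4 * k + m + 1) (fun a => NA S A B τ Y a) := by
  unfold NA
  refine IsP.sub (IsP.add ?_ ?_) ?_
  · have h1 := ((((IsP.subc Y).mul (IsP.mprod A (fun i a => TT a i) (fun i _ => TT_IsP i))).mul
      (IsP.const 0 (S A * S (τ ::ₘ (A + B))))).mul (hS.poly B))
    refine h1.mono ?_
    rw [hA, hB]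
    omega
  · apply IsP.msum A (fun j a => -(cj S A B τ Y j) * (TT j a * (a - τ) * ((A.erase j).map (fun i => a - i)).prod *
      S (a ::ₘ A.erase j) * S (a ::ₘ τ ::ₘ (A.erase j + B))))
    intro j hj
    have hc : card (A.erase j) = 2 * k - 1 := by
      rw [Multiset.card_erase_of_mem hj, hA]
      rfl
    have hpos : 0 < card A := Multiset.card_pos_iff_exists_mem.mpr ⟨j, hj⟩
    have h2 : IsP 2 (fun a => TT j a) := (TT_IsP j).congr (fun a => TT_comm j a)
    have h1 := ((((h2.mul (IsP.subc τ)).mul (IsP.mprod (A.erase j) (fun i a => a - i)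
      (fun i _ => IsP.subc i))).mul (hS.poly (A.erase j))).mul (hS.poly (τ ::ₘ (A.erase j + B)))).smul
        (-(cj S A B τ Y j))
    refine h1.mono ?_
    rw [Multiset.card_cons, Multiset.card_add, hc, hB]
    omega
  · have h1 := ((((IsP.subc Y).mul (IsP.mprod A (fun i a => a - i) (fun i _ => IsP.subc i))).mul
      (IsP.const 0 ((A.map (fun i => (i - Y) / (τ - i))).prod * S (τ ::ₘ B)))).mul
      ((hS.poly (Y ::ₘ A)).mul (hS.poly (A + B))))
    refine h1.mono ?_
    rw [Multiset.card_cons, Multiset.card_add, hA, hB]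
    omega

/-- `Z` as a function of one variable of `B` -/
theorem ZB_IsP {S : Multiset ℂ → ℂ} (hS : SChar S) {k m : ℕ} (hA : card A = 2 * k + 1) (hB : card B = 2 * m) :
    IsP (k + m + m) (fun b => ZZ S A (b ::ₘ B) τ Y) := by
  unfold ZZ
  refine IsP.add ?_ ?_
  · apply IsP.msum A (fun j b => Gj S A (b ::ₘ B) τ Y j)
    intro j hj
    have hc : card (A.erase j) = 2 * k := by
      rw [Multiset.card_erase_of_mem hj, hA]
      rfl
    have h1 := ((hS.poly (τ ::ₘ (A.erase j + B))).mul (hS.poly (j ::ₘ B))).smul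
      ((j - Y) / (j - τ) * ((A.erase j).map (fun i => TT j i / (j - i))).prod * S (A.erase j))
    refine (h1.mono ?_).congr ?_
    · rw [Multiset.card_cons, Multiset.card_add, hc, Multiset.card_cons, hB]
      omega
    · intro b
      unfold Gj
      rw [Multiset.add_cons, Multiset.cons_swap τ b, Multiset.cons_swap j b]
      ring
  · have h1 := ((hS.poly (A + B)).mul (hS.poly (τ ::ₘ B))).smul
      ((A.map (fun i => (i - Y) / (τ - i))).prod * S (Y ::ₘ A))
    refine (h1.mono ?_).congr ?_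
    · rw [Multiset.card_add, Multiset.card_cons, hA, hB]
      omega
    · intro b
      unfold Gt
      rw [Multiset.add_cons, Multiset.cons_swap τ b]
      ring

end CZ
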